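import Mathlib

set_option autoImplicit false

namespace Pool.Agent.H280R2.RP

open Finset

/-- twice the signed area of the triangle `a b c` -/
def cr (a b c : ℂ) : ℝ := (b.re - a.re) * (c.im - a.im) - (b.im - a.im) * (c.re - a.re)

/-- product of the pairwise distances -/
noncomputable def Vd {n : ℕ} (z : Fin n → ℂ) : ℝ := ∏ i : Fin n, ∏ j ∈ Finset.Ioi i, ‖z i - z j‖

/-- `Z` is the periodic sequence of vertices of a strictly convex polygon with `n` vertices,
in counterclockwise order -/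
def Conv (n : ℕ) (Z : ℕ → ℂ) : Prop :=
  3 ≤ n ∧ (∀ j, Z (j + n) = Z j) ∧ ∀ i j k : ℕ, i < j → j < k → k < i + n → 0 < cr (Z i) (Z j) (Z k)

/-- vertices of the regular polygon with `n` vertices and diameter 2 (`n` odd) -/
noncomputable def reg (n : ℕ) (i : Fin n) : ℂ :=
  ((1 / Real.cos (Real.pi / (2 * (n : ℝ))) : ℝ) : ℂ) *
    Complex.exp (2 * (Real.pi : ℂ) * Complex.I * (i.val : ℂ) / (n : ℂ))

end Pool.Agent.H280R2.RP
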