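import Pool.Agent.H280R2.RP.Defs

set_option autoImplicit false

namespace Pool.Agent.H280R2.RP

/-- side of the regular 11-gon of diameter 2 -/
noncomputable def h11 : ℝ := 4 * Real.sin (Real.pi / 22)
noncomputable def c11 : ℝ := Real.cos (Real.pi / 11)
/-- second chord -/
noncomputable def e2 : ℝ := 2 * h11 * c11
/-- square of the third chord -/
noncomputable def T3 : ℝ := e2 ^ 2 + 2 * h11
/-- square of the fourth chord -/
noncomputable def T4 : ℝ := e2 ^ 2 + 2 * e2
noncomputable def al11 : ℝ := (1 / T3 + 1 / T4) / 2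
noncomputable def be11 : ℝ := 1 / T4
noncomputable def p11 : ℝ := 4 * al11 * h11 ^ 2
noncomputable def l11 : ℝ := 2 * be11 * h11
noncomputable def B11 : ℝ := Real.tan (Real.pi / 11) / 2 + p11 * Real.sin (Real.pi / 11) * c11 +
  l11 / 2 * Real.sin (Real.pi / 11)
noncomputable def A11 : ℝ := 2 / h11 + 8 * al11 * h11 * c11 ^ 2 + 2 * be11 * c11 + 1 / T3
/-- denominator in the elimination of `r` -/
noncomputable def DD (q : ℝ) : ℝ := if q ≤ c11 then 4 * (1 - p11 * q ^ 2) else 0.8

end Pool.Agent.H280R2.RP
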