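import Pool.Agent.H280R2.RP.Defs

set_option autoImplicit false

namespace Pool.Agent.H280R2.RP

/-- side of the regular 9-gon of diameter 2 -/
noncomputable def h9 : ℝ := 4 * Real.sin (Real.pi / 18)
/-- `cos 20°` -/
noncomputable def c9 : ℝ := Real.cos (Real.pi / 9)
/-- square of the third chord of the regular 9-gon of diameter 2 -/
noncomputable def S9 : ℝ := h9 ^ 2 + 4 * h9 * c9
noncomputable def l9 : ℝ := 2 / (h9 + 4 * c9)
noncomputable def k9 : ℝ := h9 / (2 * (h9 + 4 * c9))
noncomputable def B9 : ℝ := Real.tan (Real.pi / 9) / 2 + l9 / 2 * Real.sin (Real.pi / 9)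
noncomputable def A9 : ℝ := 2 / h9 + h9 / S9 + 2 * c9 / S9

end Pool.Agent.H280R2.RP
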