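import Pool.Agent.H280R2.RP.Defs

set_option autoImplicit false

namespace Pool.Agent.H280R2.RP

open Finset

/-- primitive `n`-th root of unity `exp (2 π i / n)` -/
noncomputable def om (n : ℕ) : ℂ := Complex.exp (2 * Real.pi * Complex.I / n)

/-- divided difference of `η` over the roots of unity -/
noncomputable def XX (n : ℕ) (η : ℕ → ℂ) (j k : ℕ) : ℂ :=
  (η (j + k) - η j) / (om n ^ (j + k) - om n ^ j)

/-- `η` is periodic and orthogonal to the constants and to `ω^j` -/
def Adm (n : ℕ) (η : ℕ → ℂ) : Prop :=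
  (∀ j, η (j + n) = η j) ∧ ∑ j ∈ range n, η j = 0 ∧
    ∑ j ∈ range n, η j * om n ^ ((n - 1) * j) = 0

end Pool.Agent.H280R2.RP
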