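import Pool.Agent.H280R2.RP.Defs

/-! Task M1 (helper724): existence of a maximal configuration. -/

set_option autoImplicit false

namespace Pool.Agent.H280R2.RP

open Finset

namespace M1x

theorem continuous_Vd (n : ℕ) : Continuous (fun z : Fin n → ℂ => Vd z) := by
  unfold Vd
  refine continuous_finsetProd _ fun i _ => continuous_finsetProd _ fun j _ => ?_
  exact ((continuous_apply i).sub (continuous_apply j)).norm

theorem Vd_sub (n : ℕ) (z : Fin n → ℂ) (c : ℂ) : Vd (fun i => z i - c) = Vd z := by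
  unfold Vd
  simp

end M1x

theorem exists_max (n : ℕ) (hn : 2 ≤ n) :
    ∃ z : Fin n → ℂ, (∀ i j, ‖z i - z j‖ ≤ 2) ∧ 0 < Vd z ∧
      ∀ w : Fin n → ℂ, (∀ i j, ‖w i - w j‖ ≤ 2) → Vd w ≤ Vd z := by
  obtain ⟨i0, -⟩ : ∃ i0 : Fin n, True := ⟨⟨0, by omega⟩, trivial⟩
  let K : Set (Fin n → ℂ) := {z | z i0 = 0} ∩ {z | ∀ i j, ‖z i - z j‖ ≤ 2}
  have hKc : IsCompact K := by
    apply Metric.isCompact_of_isClosed_isBounded
    · have h1 : IsClosed {z : Fin n → ℂ | z i0 = 0} :=
        isClosed_eq (continuous_apply i0) continuous_const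
      have h2 : IsClosed {z : Fin n → ℂ | ∀ i j, ‖z i - z j‖ ≤ 2} := by
        simp only [Set.ofPred_forall]
        exact isClosed_iInter fun i => isClosed_iInter fun j =>
          isClosed_le ((continuous_apply i).sub (continuous_apply j)).norm continuous_const
      exact h1.inter h2
    · refine (Metric.isBounded_closedBall (x := (0 : Fin n → ℂ)) (r := 2)).subset ?_
      intro z hz
      rw [mem_closedBall_zero_iff, pi_norm_le_iff_of_nonneg (by norm_num)]
      intro i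
      have h := hz.2 i i0
      rwa [show z i0 = 0 from hz.1, sub_zero] at h
  have hKn : K.Nonempty := ⟨0, rfl, fun i j => by simp⟩
  obtain ⟨z, hzK, hmax⟩ := hKc.exists_isMaxOn hKn (M1x.continuous_Vd n).continuousOn
  have hmax' : ∀ w : Fin n → ℂ, (∀ i j, ‖w i - w j‖ ≤ 2) → Vd w ≤ Vd z := by
    intro w hw
    have h1 : (fun i => w i - w i0) ∈ K := ⟨sub_self _, fun i j => by simpa using hw i j⟩
    have h2 : Vd (fun i => w i - w i0) ≤ Vd z := hmax h1
    rwa [M1x.Vd_sub] at h2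
  refine ⟨z, hzK.2, ?_, hmax'⟩
  have hn0 : (0 : ℝ) < n := by
    have : 0 < n := by omega
    exact_mod_cast this
  have h3 : 0 < Vd (fun i : Fin n => ((((i : ℕ) : ℝ) / n : ℝ) : ℂ)) := by
    unfold Vd
    refine prod_pos fun i _ => prod_pos fun j hj => ?_
    rw [norm_pos_iff, sub_ne_zero]
    intro h
    have h4 : ((i : ℕ) : ℝ) / n = ((j : ℕ) : ℝ) / n := Complex.ofReal_injective h
    have h5 : ((i : ℕ) : ℝ) = ((j : ℕ) : ℝ) := by
      field_simp at h4
      exact h4
    have h6 : (i : ℕ) = (j : ℕ) := by exact_mod_cast h5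
    have h7 : i < j := Finset.mem_Ioi.1 hj
    exact h7.ne (Fin.ext h6)
  refine h3.trans_le (hmax' _ ?_)
  intro i j
  rw [← Complex.ofReal_sub, Complex.norm_real, Real.norm_eq_abs, ← sub_div, abs_div,
    abs_of_pos hn0, div_le_iff₀ hn0]
  have hi : ((i : ℕ) : ℝ) ≤ n := by exact_mod_cast i.2.le
  have hj : ((j : ℕ) : ℝ) ≤ n := by exact_mod_cast j.2.le
  have hi0 : (0 : ℝ) ≤ ((i : ℕ) : ℝ) := Nat.cast_nonneg _
  have hj0 : (0 : ℝ) ≤ ((j : ℕ) : ℝ) := Nat.cast_nonneg _
  rw [abs_le]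
  constructor <;> linarith

end Pool.Agent.H280R2.RP
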