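import Pool.Agent.H280R2.RP.Defs

set_option autoImplicit false

namespace Pool.Agent.H280R2.RP

open Finset

namespace M7x

theorem ident (A B E D c : ℂ) :
    cr B E D * (c * A).re + cr A B D * (c * E).re =
      cr A E D * (c * B).re + cr A B E * (c * D).re := by
  simp only [cr, Complex.mul_re]
  ring

theorem ident0 (A B E D : ℂ) : cr B E D + cr A B D = cr A E D + cr A B E := by
  simp only [cr]
  ring

theorem four (w1 w2 w3 w4 a b e d : ℝ) (h1 : 0 < w1) (h2 : 0 < w2) (h3 : 0 < w3) (h4 : 0 < w4)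
    (hs : w1 + w2 = w3 + w4) (hp : w1 * a + w2 * e = w3 * b + w4 * d)
    (k1 : b < a) (k2 : b < e) (k3 : d < a) (k4 : d < e) : False := by
  rcases le_total b d with h | h
  · have e1 : 0 < w1 * (a - d) := mul_pos h1 (by linarith)
    have e2 : 0 < w2 * (e - d) := mul_pos h2 (by linarith)
    have e3 : 0 ≤ w3 * (d - b) := mul_nonneg h3.le (by linarith)
    have e4 : (w1 + w2) * d = (w3 + w4) * d := by rw [hs]
    nlinarith
  · have e1 : 0 < w1 * (a - b) := mul_pos h1 (by linarith)
    have e2 : 0 < w2 * (e - b) := mul_pos h2 (by linarith)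
    have e3 : 0 ≤ w4 * (b - d) := mul_nonneg h4.le (by linarith)
    have e4 : (w1 + w2) * b = (w3 + w4) * b := by rw [hs]
    nlinarith

theorem fourA (n : ℕ) (Z : ℕ → ℂ) (hC : Conv n Z) (c : ℂ) (a b e d : ℕ) (hab : a < b)
    (hbe : b < e) (hed : e < d) (hda : d < a + n)
    (k1 : (c * Z b).re < (c * Z a).re) (k2 : (c * Z b).re < (c * Z e).re)
    (k3 : (c * Z d).re < (c * Z a).re) (k4 : (c * Z d).re < (c * Z e).re) : False := by
  obtain ⟨_, _, h⟩ := hC
  exact four _ _ _ _ _ _ _ _ (h b e d hbe hed (by omega)) (h a b d hab (by omega) hda)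
    (h a e d (by omega) hed hda) (h a b e hab hbe (by omega)) (ident0 _ _ _ _)
    (ident _ _ _ _ c) k1 k2 k3 k4

theorem fourB (n : ℕ) (Z : ℕ → ℂ) (hC : Conv n Z) (c : ℂ) (a b e d : ℕ) (hab : a < b)
    (hbe : b < e) (hed : e < d) (hda : d < a + n)
    (k1 : (c * Z a).re < (c * Z b).re) (k2 : (c * Z a).re < (c * Z d).re)
    (k3 : (c * Z e).re < (c * Z b).re) (k4 : (c * Z e).re < (c * Z d).re) : False := by
  obtain ⟨_, _, h⟩ := hC
  exact four _ _ _ _ _ _ _ _ (h a e d (by omega) hed hda) (h a b e hab hbe (by omega))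
    (h b e d hbe hed (by omega)) (h a b d hab (by omega) hda) (ident0 _ _ _ _).symm
    (ident _ _ _ _ c).symm k1 k2 k3 k4

theorem sum_shift (n : ℕ) (g : ℕ → ℝ) (hg : ∀ j, g (j + n) = g j) (a : ℕ) :
    ∑ j ∈ range n, g (a + j) = ∑ j ∈ range n, g j := by
  induction a with
  | zero => simp
  | succ a ih =>
    rw [← ih]
    have h1 := Finset.sum_range_succ (fun j => g (a + j)) n
    have h2 := Finset.sum_range_succ' (fun j => g (a + j)) n
    rw [h1] at h2
    have h3 : g (a + n) = g (a + 0) := by rw [hg, add_zero]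
    have h4 : ∑ j ∈ range n, g (a + 1 + j) = ∑ j ∈ range n, g (a + (j + 1)) :=
      Finset.sum_congr rfl fun j _ => by rw [show a + 1 + j = a + (j + 1) by ring]
    rw [h4]
    simp only [h3] at h2
    linarith

end M7x

theorem proj_bound (n : ℕ) (Z : ℕ → ℂ) (hC : Conv n Z) (c : ℂ) (D : ℝ)
    (hD : ∀ i j, |(c * (Z i - Z j)).re| ≤ D) :
    ∑ j ∈ range n, |(c * (Z (j + 1) - Z j)).re| ≤ 2 * D := by
  have hn : 3 ≤ n := hC.1
  set p : ℕ → ℝ := fun j => (c * Z j).re with hp
  have hper : ∀ j, p (j + n) = p j := fun j => by simp only [hp]; rw [hC.2.1 j]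
  have hmod : ∀ j, p j = p (j % n) := by
    intro j
    have h : ∀ q r, p (r + n * q) = p r := by
      intro q r
      induction q with
      | zero => simp
      | succ q ih => rw [Nat.mul_succ, ← add_assoc, hper, ih]
    conv_lhs => rw [← Nat.mod_add_div j n]
    exact h _ _
  have hdiff : ∀ i j, (c * (Z i - Z j)).re = p i - p j := by
    intro i j
    simp only [hp]
    rw [mul_sub, Complex.sub_re]
  simp only [hdiff] at hD ⊢
  have hne : (range n).Nonempty := ⟨0, by simp; omega⟩
  obtain ⟨a, ha, hamin⟩ := Finset.exists_min_image (range n) p hne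
  obtain ⟨m0, hm0, hmmax⟩ := Finset.exists_max_image (range n) p hne
  rw [mem_range] at ha hm0
  have hmin : ∀ j, p a ≤ p j := by
    intro j
    rw [hmod j]
    exact hamin _ (mem_range.2 (Nat.mod_lt _ (by omega)))
  have hmax0 : ∀ j, p j ≤ p m0 := by
    intro j
    rw [hmod j]
    exact hmmax _ (mem_range.2 (Nat.mod_lt _ (by omega)))
  obtain ⟨m, hm1, hm2, hm3⟩ : ∃ m, a ≤ m ∧ m < a + n ∧ p m = p m0 := by
    by_cases h : a ≤ m0
    · exact ⟨m0, h, by omega, rfl⟩
    · exact ⟨m0 + n, by omega, by omega, hper _⟩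
  have hmax : ∀ j, p j ≤ p m := fun j => by rw [hm3]; exact hmax0 j
  have hup : ∀ i j, a ≤ i → i < j → j ≤ m → p i ≤ p j := by
    intro i j h1 h2 h3
    by_contra hcon
    rw [not_le] at hcon
    have hi : i ≠ a := by
      rintro rfl
      exact absurd (hmin j) (not_le.2 hcon)
    have hj : j ≠ m := by
      rintro rfl
      exact absurd (hmax i) (not_le.2 hcon)
    exact M7x.fourB n Z hC c a i j m (by omega) h2 (by omega) hm2
      (lt_of_le_of_lt (hmin j) hcon) (lt_of_lt_of_le (lt_of_le_of_lt (hmin j) hcon) (hmax i))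
      hcon (lt_of_lt_of_le hcon (hmax i))
  have hdown : ∀ i j, m ≤ i → i < j → j ≤ a + n → p j ≤ p i := by
    intro i j h1 h2 h3
    by_contra hcon
    rw [not_le] at hcon
    have hi : i ≠ m := by
      rintro rfl
      exact absurd (hmax j) (not_le.2 hcon)
    have hj : j ≠ a + n := by
      rintro rfl
      rw [hper] at hcon
      exact absurd (hmin i) (not_le.2 hcon)
    have hma : a < m := by
      rcases lt_or_eq_of_le hm1 with h | h
      · exact h
      · exfalso
        rw [← h] at hmax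
        have := hmax j
        have := hmin i
        linarith
    have hpa : (c * Z (a + n)).re = p a := hper a
    refine M7x.fourA n Z hC c m i j (a + n) (by omega) h2 (by omega) (by omega)
      (lt_of_lt_of_le hcon (hmax j)) hcon ?_ ?_
    · rw [hpa]
      exact lt_of_lt_of_le (lt_of_le_of_lt (hmin i) hcon) (hmax j)
    · rw [hpa]
      exact lt_of_le_of_lt (hmin i) hcon
  have hg : ∀ j, |p (j + n + 1) - p (j + n)| = |p (j + 1) - p j| := by
    intro j
    rw [show j + n + 1 = j + 1 + n by ring, hper, hper]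
  rw [← M7x.sum_shift n (fun j => |p (j + 1) - p j|) hg a]
  obtain ⟨k, hk⟩ : ∃ k, m = a + k := ⟨m - a, by omega⟩
  obtain ⟨l, hl⟩ : ∃ l, n = k + l := ⟨n - k, by omega⟩
  rw [hl, Finset.sum_range_add]
  have e1 : ∑ x ∈ range k, |p (a + x + 1) - p (a + x)| = p m - p a := by
    have : ∀ x ∈ range k, |p (a + x + 1) - p (a + x)| = p (a + (x + 1)) - p (a + x) := by
      intro x hx
      rw [mem_range] at hx
      rw [abs_of_nonneg, add_assoc]
      have := hup (a + x) (a + x + 1) (by omega) (by omega) (by omega)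
      linarith
    rw [Finset.sum_congr rfl this, Finset.sum_range_sub (fun x => p (a + x)), hk, add_zero]
  have e2 : ∑ x ∈ range l, |p (a + (k + x) + 1) - p (a + (k + x))| = p m - p a := by
    have : ∀ x ∈ range l, |p (a + (k + x) + 1) - p (a + (k + x))| =
        -(p (a + (k + (x + 1))) - p (a + (k + x))) := by
      intro x hx
      rw [mem_range] at hx
      rw [abs_of_nonpos, show a + (k + x) + 1 = a + (k + (x + 1)) by ring]
      have := hdown (a + (k + x)) (a + (k + x) + 1) (by omega) (by omega) (by omega)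
      linarith
    rw [Finset.sum_congr rfl this, Finset.sum_neg_distrib,
      Finset.sum_range_sub (fun x => p (a + (k + x)))]
    have h1 : p (a + (k + l)) = p a := by rw [← hl, hper]
    rw [h1, add_zero, hk]
    ring
  rw [e1, e2]
  have := hD m a
  have := le_abs_self (p m - p a)
  linarith

end Pool.Agent.H280R2.RP
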