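import Pool.Agent.H280R2.RP.Defs

set_option autoImplicit false

namespace Pool.Agent.H280R2.RP

open Finset

namespace M8x

theorem mono {n : ℕ} {α : ℕ → ℝ} (hmono : ∀ i, i < n → α i ≤ α (i + 1)) :
    ∀ i j, i ≤ j → j ≤ n → α i ≤ α j := by
  intro i j hij
  induction j, hij using Nat.le_induction with
  | base => intro _; exact le_rfl
  | succ j hj ih =>
    intro hn
    exact (ih (by omega)).trans (hmono j (by omega))

/-- the identity for one line -/
theorem tele {n : ℕ} {α : ℕ → ℝ} (hmono : ∀ i, i < n → α i ≤ α (i + 1))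
    (hend : α n = α 0 + Real.pi) (j : ℕ) (hj : j < n) :
    ∑ i ∈ range n, 2 * Real.sin ((α (i + 1) - α i) / 2) *
      |Real.sin (α j - (α i + α (i + 1)) / 2)| = 2 := by
  have hm := mono hmono
  have h0 : ∀ i, i ≤ n → α 0 ≤ α i := fun i hi => hm 0 i (Nat.zero_le _) hi
  have h1 : ∀ i, i ≤ n → α i ≤ α 0 + Real.pi := fun i hi => by
    rw [← hend]; exact hm i n hi le_rfl
  have key : ∀ i ∈ range n, 2 * Real.sin ((α (i + 1) - α i) / 2) *
      |Real.sin (α j - (α i + α (i + 1)) / 2)| =
      (fun i => if i ≤ j then Real.cos (α j - α i) else 2 - Real.cos (α i - α j)) (i + 1) -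
      (fun i => if i ≤ j then Real.cos (α j - α i) else 2 - Real.cos (α i - α j)) i := by
    intro i hi
    rw [mem_range] at hi
    have g1 := hmono i hi
    have g2 := h0 i hi.le
    have g3 := h1 (i + 1) hi
    have g4 := h0 j hj.le
    have g5 := h1 j hj.le
    by_cases hij : i < j
    · have g6 := hm (i + 1) j hij hj.le
      have e1 : 0 ≤ Real.sin (α j - (α i + α (i + 1)) / 2) :=
        Real.sin_nonneg_of_nonneg_of_le_pi (by linarith) (by linarith)
      simp only [if_pos hij.le, if_pos (show i + 1 ≤ j from hij)]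
      rw [abs_of_nonneg e1]
      have e2 : α j - α (i + 1) = (α j - (α i + α (i + 1)) / 2) - (α (i + 1) - α i) / 2 := by ring
      have e3 : α j - α i = (α j - (α i + α (i + 1)) / 2) + (α (i + 1) - α i) / 2 := by ring
      rw [e2, e3, Real.cos_sub, Real.cos_add]
      ring_nf
    · have hji : j ≤ i := not_lt.1 hij
      have g6 := hm j i hji hi.le
      have e1 : Real.sin (α j - (α i + α (i + 1)) / 2) ≤ 0 :=
        Real.sin_nonpos_of_nonpos_of_neg_pi_le (by linarith) (by linarith)
      have e4 : ¬ (i + 1 ≤ j) := by omega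
      have e5 : (if i ≤ j then Real.cos (α j - α i) else 2 - Real.cos (α i - α j)) =
          2 - Real.cos (α i - α j) := by
        by_cases h : i ≤ j
        · have : i = j := le_antisymm h hji
          subst this
          rw [if_pos le_rfl, sub_self, Real.cos_zero]
          norm_num
        · rw [if_neg h]
      simp only [if_neg e4]
      rw [e5, abs_of_nonpos e1]
      have e2 : α i - α j = -(α j - (α i + α (i + 1)) / 2) - (α (i + 1) - α i) / 2 := by ring
      have e3 : α (i + 1) - α j = -(α j - (α i + α (i + 1)) / 2) + (α (i + 1) - α i) / 2 := by ring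
      rw [e2, e3, Real.cos_sub, Real.cos_add, Real.sin_neg, Real.cos_neg]
      ring_nf
  rw [sum_congr rfl key]
  refine (sum_range_sub (fun i : ℕ => if i ≤ j then Real.cos (α j - α i)
    else 2 - Real.cos (α i - α j)) n).trans ?_
  simp only [if_pos (Nat.zero_le j), if_neg (not_le.2 hj)]
  have e6 : Real.cos (α n - α j) = - Real.cos (α j - α 0) := by
    rw [hend, show α 0 + Real.pi - α j = Real.pi - (α j - α 0) by ring, Real.cos_pi_sub]
  rw [e6]
  ring

theorem jensen {n : ℕ} (hn : 1 ≤ n) {α : ℕ → ℝ} (hmono : ∀ i, i < n → α i ≤ α (i + 1))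
    (hend : α n = α 0 + Real.pi) :
    ∑ i ∈ range n, Real.sin ((α (i + 1) - α i) / 2) ≤ n * Real.sin (Real.pi / (2 * n)) := by
  have hm := mono hmono
  have hn0 : (0 : ℝ) < n := by exact_mod_cast hn
  have hπ := Real.pi_pos
  have h := strictConcaveOn_sin_Icc.concaveOn.le_map_sum (t := range n) (w := fun _ => (1 / n : ℝ))
    (p := fun i => (α (i + 1) - α i) / 2) (fun i _ => by positivity) (by
      rw [sum_const, card_range, nsmul_eq_mul]
      field_simp) (fun i hi => by
      rw [mem_range] at hi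
      have g1 := hmono i hi
      have g2 := hm 0 i (Nat.zero_le _) hi.le
      have g3 := hm (i + 1) n hi le_rfl
      rw [hend] at g3
      exact ⟨by linarith, by linarith⟩)
  simp only [smul_eq_mul] at h
  rw [← mul_sum, ← mul_sum, ← sum_div, sum_range_sub, hend] at h
  have e : 1 / (n : ℝ) * ((α 0 + Real.pi - α 0) / 2) = Real.pi / (2 * n) := by
    field_simp
    ring
  rw [e] at h
  have h2 := mul_le_mul_of_nonneg_left h hn0.le
  rwa [← mul_assoc, mul_one_div_cancel hn0.ne', one_mul] at h2

end M8x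

open M8x in
/-- M8 -/
theorem reinhardt_sorted (n : ℕ) (hn : 1 ≤ n) (α h : ℕ → ℝ)
    (hmono : ∀ i, i < n → α i ≤ α (i + 1)) (hend : α n = α 0 + Real.pi)
    (hh : ∀ j, 0 ≤ h j) (D : ℝ)
    (hD : ∀ φ : ℝ, ∑ j ∈ range n, h j * |Real.cos (α j - φ)| ≤ D) :
    ∑ j ∈ range n, h j ≤ D * n * Real.sin (Real.pi / (2 * n)) := by
  have hm := mono hmono
  have hD0 : 0 ≤ D := le_trans (sum_nonneg fun j _ => mul_nonneg (hh j) (abs_nonneg _)) (hD 0)
  have hs : ∀ i ∈ range n, 0 ≤ Real.sin ((α (i + 1) - α i) / 2) := by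
    intro i hi
    rw [mem_range] at hi
    have g1 := hmono i hi
    have g2 := hm 0 i (Nat.zero_le _) hi.le
    have g3 := hm (i + 1) n hi le_rfl
    rw [hend] at g3
    have hπ := Real.pi_pos
    exact Real.sin_nonneg_of_nonneg_of_le_pi (by linarith) (by linarith)
  have h1 : 2 * ∑ j ∈ range n, h j = ∑ i ∈ range n, 2 * Real.sin ((α (i + 1) - α i) / 2) *
      ∑ j ∈ range n, h j * |Real.cos (α j - ((α i + α (i + 1)) / 2 + Real.pi / 2))| := by
    have e1 : ∀ i ∈ range n, 2 * Real.sin ((α (i + 1) - α i) / 2) *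
        ∑ j ∈ range n, h j * |Real.cos (α j - ((α i + α (i + 1)) / 2 + Real.pi / 2))| =
        ∑ j ∈ range n, h j * (2 * Real.sin ((α (i + 1) - α i) / 2) *
          |Real.sin (α j - (α i + α (i + 1)) / 2)|) := by
      intro i _
      rw [mul_sum]
      refine sum_congr rfl fun j _ => ?_
      rw [← sub_sub, Real.cos_sub_pi_div_two]
      ring
    rw [sum_congr rfl e1, sum_comm, mul_sum]
    refine sum_congr rfl fun j hj => ?_
    rw [← mul_sum, tele hmono hend j (mem_range.1 hj)]
    ring
  have h2 : 2 * ∑ j ∈ range n, h j ≤ 2 * D * ∑ i ∈ range n, Real.sin ((α (i + 1) - α i) / 2) := by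
    rw [h1, mul_sum]
    refine sum_le_sum fun i hi => ?_
    have g1 := hD ((α i + α (i + 1)) / 2 + Real.pi / 2)
    have g2 := hs i hi
    calc _ ≤ 2 * Real.sin ((α (i + 1) - α i) / 2) * D :=
          mul_le_mul_of_nonneg_left g1 (by positivity)
      _ = _ := by ring
  have h3 := jensen hn hmono hend
  have h4 := mul_le_mul_of_nonneg_left h3 hD0
  linarith

end Pool.Agent.H280R2.RP
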