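import Pool.Agent.H280R2.RP.Defs
import Pool.Agent.H280R2.RP.M8
set_option autoImplicit false

namespace Pool.Agent.H280R2.RP

open Finset

namespace M9x

theorem polar (z : ℂ) : ∃ β : ℝ, 0 ≤ β ∧ β < Real.pi ∧ ∃ s : ℝ, |s| = 1 ∧
    z = (s : ℂ) * ((‖z‖ : ℝ) : ℂ) * Complex.exp ((β : ℂ) * Complex.I) := by
  have h1 := Complex.norm_mul_exp_arg_mul_I z
  have h2 := Complex.neg_pi_lt_arg z
  have h3 := Complex.arg_le_pi z
  have hp := Real.pi_pos
  rcases lt_or_ge (Complex.arg z) 0 with h4 | h4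
  · refine ⟨Complex.arg z + Real.pi, by linarith, by linarith, -1, by norm_num, ?_⟩
    push_cast
    rw [add_mul, Complex.exp_add, Complex.exp_pi_mul_I]
    linear_combination -h1
  · rcases h3.lt_or_eq with h5 | h5
    · refine ⟨Complex.arg z, h4, h5, 1, by norm_num, ?_⟩
      push_cast
      linear_combination -h1
    · refine ⟨0, le_rfl, hp, -1, by norm_num, ?_⟩
      rw [h5, Complex.exp_pi_mul_I] at h1
      push_cast
      rw [zero_mul, Complex.exp_zero]
      linear_combination -h1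

end M9x

open M9x in
/-- M9 -/
theorem reinhardt_lines (n : ℕ) (hn : 1 ≤ n) (e : ℕ → ℂ) (D : ℝ)
    (hD : ∀ c : ℂ, ‖c‖ = 1 → ∑ j ∈ range n, |(c * e j).re| ≤ D) :
    ∑ j ∈ range n, ‖e j‖ ≤ D * n * Real.sin (Real.pi / (2 * n)) := by
  choose β hβ0 hβ1 s hs he using fun j => polar (e j)
  have hre : ∀ (φ : ℝ) (j : ℕ), |(Complex.exp (((-φ : ℝ) : ℂ) * Complex.I) * e j).re| =
      ‖e j‖ * |Real.cos (β j - φ)| := by
    intro φ j
    have h1 : Complex.exp (((-φ : ℝ) : ℂ) * Complex.I) * e j =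
        ((s j * ‖e j‖ : ℝ) : ℂ) * Complex.exp (((β j - φ : ℝ) : ℂ) * Complex.I) := by
      conv_lhs => rw [he j]
      have h2 : ((β j - φ : ℝ) : ℂ) * Complex.I =
          ((-φ : ℝ) : ℂ) * Complex.I + (β j : ℂ) * Complex.I := by
        push_cast; ring
      rw [h2, Complex.exp_add]
      push_cast
      ring
    rw [h1, Complex.re_ofReal_mul, Complex.exp_ofReal_mul_I_re, abs_mul, abs_mul, hs, one_mul,
      abs_norm]
  have hD' : ∀ φ : ℝ, ∑ j ∈ range n, ‖e j‖ * |Real.cos (β j - φ)| ≤ D := by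
    intro φ
    have h1 := hD (Complex.exp (((-φ : ℝ) : ℂ) * Complex.I)) (Complex.norm_exp_ofReal_mul_I _)
    refine le_trans (le_of_eq ?_) h1
    exact sum_congr rfl fun j _ => (hre φ j).symm
  set σ : Equiv.Perm (Fin n) := Tuple.sort (fun i : Fin n => β i) with hσ
  have hmonoσ : Monotone fun i : Fin n => β (σ i) := Tuple.monotone_sort (fun i : Fin n => β i)
  set α : ℕ → ℝ := fun i => if h : i < n then β (σ ⟨i, h⟩) else β (σ ⟨0, hn⟩) + Real.pi with hα
  set k : ℕ → ℝ := fun i => if h : i < n then ‖e (σ ⟨i, h⟩)‖ else 0 with hk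
  have hαlt : ∀ i : Fin n, α i = β (σ i) := by
    intro i
    simp only [hα, i.2, dif_pos]
  have hklt : ∀ i : Fin n, k i = ‖e (σ i)‖ := by
    intro i
    simp only [hk, i.2, dif_pos]
  have key := reinhardt_sorted n hn α k
    (by
      intro i hi
      by_cases h1 : i + 1 < n
      · have h2 := hmonoσ (a := ⟨i, hi⟩) (b := ⟨i + 1, h1⟩) (by
          rw [Fin.mk_le_mk]; omega)
        simp only [hα, hi, h1, dif_pos]
        exact h2
      · simp only [hα, hi, h1, dif_pos, dif_neg, not_false_eq_true]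
        have h2 := hβ1 (σ ⟨i, hi⟩)
        have h3 := hβ0 (σ ⟨0, hn⟩)
        linarith)
    (by
      have h0 : 0 < n := hn
      simp only [hα, lt_irrefl, h0, dif_pos, dif_neg, not_false_eq_true])
    (by
      intro j
      simp only [hk]
      split_ifs
      · exact norm_nonneg _
      · exact le_rfl) D
    (by
      intro φ
      refine le_trans (le_of_eq ?_) (hD' φ)
      rw [sum_range, sum_range, ← Equiv.sum_comp σ (fun i : Fin n => ‖e i‖ * |Real.cos (β i - φ)|)]
      refine sum_congr rfl fun i _ => ?_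
      rw [hαlt, hklt])
  refine le_trans (le_of_eq ?_) key
  rw [sum_range, sum_range, ← Equiv.sum_comp σ (fun i : Fin n => ‖e i‖)]
  exact sum_congr rfl fun i _ => (hklt i).symm

end Pool.Agent.H280R2.RP
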