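import Pool.Agent.H280R2.RP.Defs
import Pool.Agent.H280R2.RP.M7
import Pool.Agent.H280R2.RP.M9
set_option autoImplicit false

namespace Pool.Agent.H280R2.RP

open Finset

/-- M10 -/
theorem perimeter (n : ℕ) (Z : ℕ → ℂ) (hC : Conv n Z) (hZ : ∀ i j, ‖Z i - Z j‖ ≤ 2) :
    ∑ j ∈ range n, ‖Z (j + 1) - Z j‖ ≤ n * (4 * Real.sin (Real.pi / (2 * n))) := by
  have hn : 1 ≤ n := le_trans (by norm_num) hC.1
  have h := reinhardt_lines n hn (fun j => Z (j + 1) - Z j) 4 (by
    intro c hc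
    have h1 := proj_bound n Z hC c 2 (by
      intro i j
      refine (Complex.abs_re_le_norm _).trans ?_
      rw [norm_mul, hc, one_mul]
      exact hZ i j)
    refine h1.trans (le_of_eq (by norm_num)))
  refine h.trans (le_of_eq (by ring))

/-- M10 -/
theorem prod_le_pow (n : ℕ) (a : ℕ → ℝ) (M : ℝ) (ha : ∀ j, 0 ≤ a j)
    (hs : ∑ j ∈ range n, a j ≤ n * M) : ∏ j ∈ range n, a j ≤ M ^ n := by
  rcases Nat.eq_zero_or_pos n with hn | hn
  · subst hn
    simp
  have hnR : (0 : ℝ) < n := by exact_mod_cast hn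
  have h1 := Real.geom_mean_le_arith_mean_weighted (range n) (fun _ => 1 / (n : ℝ)) a
    (fun i _ => by positivity) (by rw [Finset.sum_const, Finset.card_range, nsmul_eq_mul]; field_simp)
    (fun i _ => ha i)
  have h2 : ∑ i ∈ range n, 1 / (n : ℝ) * a i ≤ M := by
    rw [← Finset.mul_sum, one_div, inv_mul_le_iff₀ hnR]
    exact hs
  have h3 := pow_le_pow_left₀ (Finset.prod_nonneg fun i _ => Real.rpow_nonneg (ha i) _)
    (h1.trans h2) n
  rw [← Finset.prod_pow] at h3
  refine le_trans (le_of_eq ?_) h3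
  refine Finset.prod_congr rfl fun i _ => ?_
  rw [← Real.rpow_natCast, ← Real.rpow_mul (ha i), one_div, inv_mul_cancel₀ hnR.ne', Real.rpow_one]

end Pool.Agent.H280R2.RP
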