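import Pool.Agent.H280R2.RP.Defs

set_option autoImplicit false

/-! # M11: the distances in the regular pentagon and heptagon -/

namespace Pool.Agent.H280R2.RP

open Finset

namespace M11x

theorem norm_exp_sub (a b : ℝ) : ‖Complex.exp (Complex.I * a) - Complex.exp (Complex.I * b)‖
    = |2 * Real.sin ((a - b) / 2)| := by
  have h : Complex.exp (Complex.I * a) - Complex.exp (Complex.I * b)
      = Complex.exp (Complex.I * b) * (Complex.exp (Complex.I * ((a - b : ℝ) : ℂ)) - 1) := by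
    rw [mul_sub, ← Complex.exp_add, mul_one]
    congr 2
    push_cast
    ring
  rw [h, norm_mul, Complex.norm_exp_I_mul_ofReal_sub_one, mul_comm Complex.I (b : ℂ),
    Complex.norm_exp_ofReal_mul_I, one_mul, Real.norm_eq_abs]

theorem dist_eq (n : ℕ) (hn : 2 ≤ n) (i j : Fin n) : ‖reg n i - reg n j‖
    = 1 / Real.cos (Real.pi / (2 * (n : ℝ)))
      * |2 * Real.sin (Real.pi * ((j.val : ℝ) - i.val) / n)| := by
  have hn0 : (n : ℝ) ≠ 0 := by
    have : n ≠ 0 := by omega
    exact_mod_cast this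
  have hn0' : (n : ℂ) ≠ 0 := by exact_mod_cast hn0
  have hn2 : (2 : ℝ) ≤ n := by exact_mod_cast hn
  have hcos : 0 < Real.cos (Real.pi / (2 * (n : ℝ))) := by
    apply Real.cos_pos_of_mem_Ioo
    constructor
    · have : 0 < Real.pi / (2 * (n : ℝ)) := by
        have := Real.pi_pos
        positivity
      linarith [Real.pi_pos]
    · have h1 : Real.pi / (2 * (n : ℝ)) < Real.pi / 2 := by
        apply div_lt_div_of_pos_left Real.pi_pos (by norm_num)
        linarith
      exact h1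
  have e : ∀ k : Fin n, reg n k = ((1 / Real.cos (Real.pi / (2 * (n : ℝ))) : ℝ) : ℂ) *
      Complex.exp (Complex.I * ((2 * Real.pi * k.val / n : ℝ) : ℂ)) := by
    intro k
    unfold reg
    congr 2
    push_cast
    ring
  rw [e i, e j, ← mul_sub, norm_mul, norm_exp_sub, Complex.norm_real, Real.norm_eq_abs,
    abs_of_pos (by positivity)]
  congr 1
  have e2 : (2 * Real.pi * i.val / n - 2 * Real.pi * j.val / n) / 2
      = -(Real.pi * ((j.val : ℝ) - i.val) / n) := by
    field_simp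
    ring
  rw [e2, Real.sin_neg, mul_neg, abs_neg]

/-- the distance of two vertices, as a function of the difference of the indices -/
noncomputable def g (n : ℕ) (k : ℕ) : ℝ := 1 / Real.cos (Real.pi / (2 * (n : ℝ)))
      * |2 * Real.sin (Real.pi * (k : ℝ) / n)|

theorem dist_g (n : ℕ) (hn : 2 ≤ n) (i j : Fin n) (k : ℕ) (hk : i.val + k = j.val) :
    ‖reg n i - reg n j‖ = g n k := by
  rw [dist_eq n hn]
  unfold g
  have : (j.val : ℝ) - i.val = k := by
    rw [← hk]
    push_cast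
    ring
  rw [this]

theorem g_symm (n : ℕ) (hn : n ≠ 0) (k : ℕ) (hk : k ≤ n) : g n (n - k) = g n k := by
  unfold g
  have hn0 : (n : ℝ) ≠ 0 := by exact_mod_cast hn
  have e : Real.pi * ((n - k : ℕ) : ℝ) / n = Real.pi - Real.pi * (k : ℝ) / n := by
    rw [Nat.cast_sub hk]
    field_simp
  rw [e, Real.sin_pi_sub]

theorem sin_nonneg' (n k : ℕ) (hn : 0 < n) (hk : k ≤ n) : 0 ≤ Real.sin (Real.pi * (k : ℝ) / n) := by
  have hn' : (0 : ℝ) < n := by exact_mod_cast hn
  have hk' : (k : ℝ) ≤ n := by exact_mod_cast hk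
  apply Real.sin_nonneg_of_nonneg_of_le_pi
  · have := Real.pi_pos
    positivity
  · rw [div_le_iff₀ hn']
    exact mul_le_mul_of_nonneg_left hk' Real.pi_pos.le

theorem g51 : g 5 1 = 4 * Real.sin (Real.pi / 10) := by
  unfold g
  rw [abs_of_nonneg (mul_nonneg (by norm_num) (sin_nonneg' 5 1 (by norm_num) (by norm_num)))]
  have hc : Real.cos (Real.pi / 10) ≠ 0 := (Real.cos_pos_of_mem_Ioo
    ⟨by linarith [Real.pi_pos], by linarith [Real.pi_pos]⟩).ne'
  have e1 : Real.pi * ((1 : ℕ) : ℝ) / ((5 : ℕ) : ℝ) = 2 * (Real.pi / 10) := by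
    push_cast
    ring
  have e2 : Real.pi / (2 * ((5 : ℕ) : ℝ)) = Real.pi / 10 := by
    push_cast
    ring
  rw [e1, e2, Real.sin_two_mul]
  field_simp
  ring

theorem g52 : g 5 2 = 2 := by
  unfold g
  rw [abs_of_nonneg (mul_nonneg (by norm_num) (sin_nonneg' 5 2 (by norm_num) (by norm_num)))]
  have hc : Real.cos (Real.pi / 10) ≠ 0 := (Real.cos_pos_of_mem_Ioo
    ⟨by linarith [Real.pi_pos], by linarith [Real.pi_pos]⟩).ne'
  have e1 : Real.pi * ((2 : ℕ) : ℝ) / ((5 : ℕ) : ℝ) = Real.pi / 2 - Real.pi / 10 := by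
    push_cast
    ring
  have e2 : Real.pi / (2 * ((5 : ℕ) : ℝ)) = Real.pi / 10 := by
    push_cast
    ring
  rw [e1, e2, Real.sin_pi_div_two_sub]
  field_simp

theorem g71 : g 7 1 = 4 * Real.sin (Real.pi / 14) := by
  unfold g
  rw [abs_of_nonneg (mul_nonneg (by norm_num) (sin_nonneg' 7 1 (by norm_num) (by norm_num)))]
  have hc : Real.cos (Real.pi / 14) ≠ 0 := (Real.cos_pos_of_mem_Ioo
    ⟨by linarith [Real.pi_pos], by linarith [Real.pi_pos]⟩).ne'
  have e1 : Real.pi * ((1 : ℕ) : ℝ) / ((7 : ℕ) : ℝ) = 2 * (Real.pi / 14) := by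
    push_cast
    ring
  have e2 : Real.pi / (2 * ((7 : ℕ) : ℝ)) = Real.pi / 14 := by
    push_cast
    ring
  rw [e1, e2, Real.sin_two_mul]
  field_simp
  ring

theorem g72 : g 7 2 = 8 * Real.sin (Real.pi / 14) * Real.cos (Real.pi / 7) := by
  unfold g
  rw [abs_of_nonneg (mul_nonneg (by norm_num) (sin_nonneg' 7 2 (by norm_num) (by norm_num)))]
  have hc : Real.cos (Real.pi / 14) ≠ 0 := (Real.cos_pos_of_mem_Ioo
    ⟨by linarith [Real.pi_pos], by linarith [Real.pi_pos]⟩).ne'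
  have e1 : Real.pi * ((2 : ℕ) : ℝ) / ((7 : ℕ) : ℝ) = 2 * (Real.pi / 7) := by
    push_cast
    ring
  have e2 : Real.pi / (2 * ((7 : ℕ) : ℝ)) = Real.pi / 14 := by
    push_cast
    ring
  have e3 : Real.sin (Real.pi / 7) = 2 * Real.sin (Real.pi / 14) * Real.cos (Real.pi / 14) := by
    rw [← Real.sin_two_mul]
    congr 1
    ring
  rw [e1, e2, Real.sin_two_mul, e3]
  field_simp
  ring

theorem g73 : g 7 3 = 2 := by
  unfold g
  rw [abs_of_nonneg (mul_nonneg (by norm_num) (sin_nonneg' 7 3 (by norm_num) (by norm_num)))]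
  have hc : Real.cos (Real.pi / 14) ≠ 0 := (Real.cos_pos_of_mem_Ioo
    ⟨by linarith [Real.pi_pos], by linarith [Real.pi_pos]⟩).ne'
  have e1 : Real.pi * ((3 : ℕ) : ℝ) / ((7 : ℕ) : ℝ) = Real.pi / 2 - Real.pi / 14 := by
    push_cast
    ring
  have e2 : Real.pi / (2 * ((7 : ℕ) : ℝ)) = Real.pi / 14 := by
    push_cast
    ring
  rw [e1, e2, Real.sin_pi_div_two_sub]
  field_simp

theorem Vd_g (n : ℕ) (hn : 2 ≤ n) :
    Vd (reg n) = ∏ i : Fin n, ∏ j ∈ Finset.Ioi i, g n (j.val - i.val) := by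
  unfold Vd
  apply Finset.prod_congr rfl
  intro i _
  apply Finset.prod_congr rfl
  intro j hj
  have hij : i < j := Finset.mem_Ioi.mp hj
  have hij' : i.val < j.val := hij
  exact dist_g n hn i j _ (by omega)

theorem prod_g (n : ℕ) (f : ℕ → ℝ) : ∏ i : Fin n, ∏ j ∈ Finset.Ioi i, f (j.val - i.val)
    = ∏ i : Fin n, ∏ j : Fin n, if i < j then f (j.val - i.val) else 1 := by
  apply Finset.prod_congr rfl
  intro i _
  rw [← Finset.prod_filter]
  apply Finset.prod_congr _ (fun _ _ => rfl)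
  ext j
  simp

end M11x

open M11x in
/-- M11 -/
theorem reg_five : Vd (reg 5) = (4 * Real.sin (Real.pi / 10)) ^ 5 * 2 ^ 5 := by
  have h3 : g 5 3 = g 5 2 := g_symm 5 (by norm_num) 2 (by norm_num)
  have h4 : g 5 4 = g 5 1 := g_symm 5 (by norm_num) 1 (by norm_num)
  have key : ∏ i : Fin 5, ∏ j : Fin 5, (if i < j then g 5 (j.val - i.val) else 1)
      = g 5 1 ^ 4 * g 5 2 ^ 3 * g 5 3 ^ 2 * g 5 4 := by
    have e : ∀ i j : Fin 5, (if i < j then g 5 (j.val - i.val) else 1)
        = if i.val < j.val then g 5 (j.val - i.val) else 1 := fun i j => rfl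
    simp only [e]
    rw [Fin.prod_univ_five]
    simp only [Fin.prod_univ_five]
    norm_num
    ring
  rw [Vd_g 5 (by norm_num), prod_g, key, h3, h4, g51, g52]
  ring

open M11x in
/-- M11 -/
theorem reg_seven : Vd (reg 7) = (4 * Real.sin (Real.pi / 14)) ^ 7 *
    (8 * Real.sin (Real.pi / 14) * Real.cos (Real.pi / 7)) ^ 7 * 2 ^ 7 := by
  have h4 : g 7 4 = g 7 3 := g_symm 7 (by norm_num) 3 (by norm_num)
  have h5 : g 7 5 = g 7 2 := g_symm 7 (by norm_num) 2 (by norm_num)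
  have h6 : g 7 6 = g 7 1 := g_symm 7 (by norm_num) 1 (by norm_num)
  have key : ∏ i : Fin 7, ∏ j : Fin 7, (if i < j then g 7 (j.val - i.val) else 1)
      = g 7 1 ^ 6 * g 7 2 ^ 5 * g 7 3 ^ 4 * g 7 4 ^ 3 * g 7 5 ^ 2 * g 7 6 := by
    have e : ∀ i j : Fin 7, (if i < j then g 7 (j.val - i.val) else 1)
        = if i.val < j.val then g 7 (j.val - i.val) else 1 := fun i j => rfl
    simp only [e]
    rw [Fin.prod_univ_seven]
    simp only [Fin.prod_univ_seven]
    norm_num
    ring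
  rw [Vd_g 7 (by norm_num), prod_g, key, h4, h5, h6, g71, g72, g73]
  ring

end Pool.Agent.H280R2.RP
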