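import Pool.Agent.H280R2.RP.Defs

set_option autoImplicit false

namespace Pool.Agent.H280R2.RP

open Finset

namespace M12x

theorem arg_mem {w : ℂ} (h : 0 < w.im) : 0 < w.arg ∧ w.arg < Real.pi := by
  constructor
  · refine lt_of_le_of_ne (Complex.arg_nonneg_iff.2 h.le) fun h0 => ?_
    have := (Complex.arg_eq_zero_iff.1 h0.symm).2
    linarith
  · refine lt_of_le_of_ne (Complex.arg_le_pi w) fun h0 => ?_
    have := (Complex.arg_eq_pi_iff.1 h0).2
    linarith

theorem cosines {a b : ℂ} (ha : a ≠ 0) (hb : b ≠ 0) :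
    ‖b + a‖ ^ 2 = ‖b‖ ^ 2 + ‖a‖ ^ 2 + 2 * ‖b‖ * ‖a‖ * Real.cos ((b / a).arg) := by
  have hw : b / a ≠ 0 := div_ne_zero hb ha
  rw [Complex.cos_arg hw]
  have ha' : ‖a‖ ≠ 0 := norm_ne_zero_iff.2 ha
  have hb' : ‖b‖ ≠ 0 := norm_ne_zero_iff.2 hb
  have h1 : (b / a).re = (b.re * a.re + b.im * a.im) / ‖a‖ ^ 2 := by
    rw [Complex.div_re, Complex.sq_norm]
    ring
  rw [h1, norm_div]
  have h2 : ‖b + a‖ ^ 2 = ‖b‖ ^ 2 + ‖a‖ ^ 2 + 2 * (b.re * a.re + b.im * a.im) := by
    rw [Complex.sq_norm, Complex.sq_norm, Complex.sq_norm, Complex.normSq_apply,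
      Complex.normSq_apply, Complex.normSq_apply, Complex.add_re, Complex.add_im]
    ring
  rw [h2]
  field_simp

theorem prod_div (e : ℕ → ℂ) (he : ∀ j, e j ≠ 0) (m : ℕ) :
    ∏ j ∈ range m, e (j + 1) / e j = e m / e 0 := by
  induction m with
  | zero => simp [he 0]
  | succ m ih =>
    rw [prod_range_succ, ih]
    have := he m
    field_simp

end M12x

/-- M12 -/
theorem turning (n : ℕ) (Z : ℕ → ℂ) (hC : Conv n Z) :
    ∃ τ : ℕ → ℝ, (∀ j, 0 < τ j ∧ τ j < Real.pi) ∧
      (∀ j, ‖Z (j + 2) - Z j‖ ^ 2 = ‖Z (j + 2) - Z (j + 1)‖ ^ 2 + ‖Z (j + 1) - Z j‖ ^ 2 +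
        2 * ‖Z (j + 2) - Z (j + 1)‖ * ‖Z (j + 1) - Z j‖ * Real.cos (τ j)) ∧
      2 * Real.pi ≤ ∑ j ∈ range n, τ j := by
  obtain ⟨hn, hper, hcr⟩ := hC
  obtain ⟨e, he⟩ : ∃ e : ℕ → ℂ, ∀ j, e j = Z (j + 1) - Z j := ⟨_, fun _ => rfl⟩
  have h1 : ∀ j, 0 < (e j).re * (e (j + 1)).im - (e j).im * (e (j + 1)).re := by
    intro j
    have h := hcr j (j + 1) (j + 2) (by omega) (by omega) (by omega)
    rw [he, he]
    unfold cr at h
    simp only [Complex.sub_re, Complex.sub_im]
    have : j + 1 + 1 = j + 2 := rfl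
    rw [this]
    nlinarith
  have he0 : ∀ j, e j ≠ 0 := by
    intro j h0
    have := h1 j
    rw [h0] at this
    simp at this
  have him : ∀ j, 0 < (e (j + 1) / e j).im := by
    intro j
    have h2 : 0 < Complex.normSq (e j) := Complex.normSq_pos.2 (he0 j)
    have h3 : (e (j + 1) / e j).im =
        ((e j).re * (e (j + 1)).im - (e j).im * (e (j + 1)).re) / Complex.normSq (e j) := by
      rw [Complex.div_im]
      ring
    rw [h3]
    exact div_pos (h1 j) h2
  refine ⟨fun j => (e (j + 1) / e j).arg, fun j => M12x.arg_mem (him j), ?_, ?_⟩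
  · intro j
    have h2 := M12x.cosines (he0 j) (he0 (j + 1))
    have h3 : Z (j + 2) - Z j = e (j + 1) + e j := by
      rw [he, he]
      ring
    have h4 : Z (j + 2) - Z (j + 1) = e (j + 1) := (he (j + 1)).symm
    rw [h3, h2, h4, ← he j]
  · have hprod : ∏ j ∈ range n, e (j + 1) / e j = 1 := by
      rw [M12x.prod_div e he0]
      have : e n = e 0 := by
        rw [he, he]
        have a1 := hper 0
        have a2 := hper 1
        rw [Nat.zero_add] at a1
        rw [Nat.add_comm] at a2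
        rw [a1, a2]
      rw [this, div_self (he0 0)]
    have h4 : ∏ j ∈ range n, e (j + 1) / e j =
        ((∏ j ∈ range n, ‖e (j + 1) / e j‖ : ℝ) : ℂ) *
          Complex.exp (((∑ j ∈ range n, (e (j + 1) / e j).arg : ℝ) : ℂ) * Complex.I) := by
      push_cast
      rw [sum_mul, Complex.exp_sum, ← prod_mul_distrib]
      refine prod_congr rfl fun j _ => ?_
      exact (Complex.norm_mul_exp_arg_mul_I (e (j + 1) / e j)).symm
    have h5 : ∏ j ∈ range n, ‖e (j + 1) / e j‖ = 1 := by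
      have := congrArg norm hprod
      rwa [norm_prod, norm_one] at this
    rw [hprod, h5, Complex.ofReal_one, one_mul] at h4
    obtain ⟨k, hk⟩ := Complex.exp_eq_one_iff.1 h4.symm
    have h6 : ∑ j ∈ range n, (e (j + 1) / e j).arg = k * (2 * Real.pi) := by
      have h7 : ((∑ j ∈ range n, (e (j + 1) / e j).arg : ℝ) : ℂ) = ((k * (2 * Real.pi) : ℝ) : ℂ) := by
        apply mul_right_cancel₀ Complex.I_ne_zero
        rw [hk]
        push_cast
        ring
      exact_mod_cast h7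
    have h8 : 0 < ∑ j ∈ range n, (e (j + 1) / e j).arg :=
      sum_pos (fun j _ => (M12x.arg_mem (him j)).1) ⟨0, by simp; omega⟩
    rw [h6] at h8 ⊢
    have h9 : 0 < (k : ℝ) := by
      have := Real.pi_pos
      by_contra hcon
      nlinarith
    have h10 : (1 : ℝ) ≤ k := by
      have : 0 < k := by exact_mod_cast h9
      exact_mod_cast this
    nlinarith [Real.pi_pos]

end Pool.Agent.H280R2.RP
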