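import Pool.Agent.H280R2.RP.Defs

set_option autoImplicit false

namespace Pool.Agent.H280R2.RP

open Finset

namespace M13x

/-- the cosine lies below its tangent lines on `[0, π/2]` -/
theorem cos_tangent (x x0 : ℝ) (hx : 0 ≤ x) (hx' : x ≤ Real.pi / 2) (h0 : 0 ≤ x0)
    (h0' : x0 ≤ Real.pi / 2) : Real.cos x ≤ Real.cos x0 - Real.sin x0 * (x - x0) := by
  have hmono : ∀ u v : ℝ, 0 ≤ u → u ≤ v → v ≤ Real.pi / 2 → Real.sin u ≤ Real.sin v := by
    intro u v hu huv hv
    exact Real.sin_le_sin_of_le_of_le_pi_div_two (by linarith [Real.pi_pos]) hv huv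
  rcases lt_trichotomy x x0 with h | h | h
  · obtain ⟨c, hc, he⟩ := exists_hasDerivAt_eq_slope Real.cos (fun y => - Real.sin y) h
      Real.continuous_cos.continuousOn (fun y _ => Real.hasDerivAt_cos y)
    rw [eq_div_iff (by linarith)] at he
    have h2 := hmono c x0 (by linarith [hc.1]) hc.2.le h0'
    nlinarith
  · rw [h]; simp
  · obtain ⟨c, hc, he⟩ := exists_hasDerivAt_eq_slope Real.cos (fun y => - Real.sin y) h
      Real.continuous_cos.continuousOn (fun y _ => Real.hasDerivAt_cos y)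
    rw [eq_div_iff (by linarith)] at he
    have h2 := hmono x0 c h0 hc.1.le (by linarith [hc.2])
    nlinarith

theorem facts : (0.89875 : ℝ) ≤ Real.cos (Real.pi / 7) ∧ 0 < Real.tan (Real.pi / 7) ∧
    Real.tan (Real.pi / 7) ≤ 0.501 := by
  have hp := Real.pi_pos
  have hp2 := Real.pi_lt_d2
  have h1 := Real.one_sub_sq_div_two_le_cos (x := Real.pi / 7)
  have hc : (0.89875 : ℝ) ≤ Real.cos (Real.pi / 7) := by
    refine le_trans ?_ h1
    nlinarith
  have hs : Real.sin (Real.pi / 7) ≤ Real.pi / 7 := Real.sin_le (by positivity)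
  have hs0 : 0 < Real.sin (Real.pi / 7) := Real.sin_pos_of_pos_of_lt_pi (by positivity) (by linarith)
  refine ⟨hc, ?_, ?_⟩
  · rw [Real.tan_eq_sin_div_cos]
    exact div_pos hs0 (by linarith)
  · rw [Real.tan_eq_sin_div_cos, div_le_iff₀ (by linarith)]
    nlinarith

theorem case1 (x : ℝ) (hx : 0 ≤ x) (hx' : x ≤ Real.pi / 2) :
    Real.cos x ≤ Real.cos (Real.pi / 7) * Real.exp (-Real.tan (Real.pi / 7) * (x - Real.pi / 7)) := by
  obtain ⟨hc, -, -⟩ := facts
  have hp := Real.pi_pos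
  have h1 := cos_tangent x (Real.pi / 7) hx hx' (by positivity) (by linarith)
  have h2 := Real.add_one_le_exp (-Real.tan (Real.pi / 7) * (x - Real.pi / 7))
  have hc0 : 0 < Real.cos (Real.pi / 7) := by linarith
  have h3 : Real.cos (Real.pi / 7) * (-Real.tan (Real.pi / 7) * (x - Real.pi / 7) + 1) =
      Real.cos (Real.pi / 7) - Real.sin (Real.pi / 7) * (x - Real.pi / 7) := by
    rw [Real.tan_eq_sin_div_cos]
    field_simp
    ring
  have h4 := mul_le_mul_of_nonneg_left h2 hc0.le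
  linarith

theorem case2 (x : ℝ) (hx : Real.pi / 4 ≤ x) (hx' : x ≤ Real.pi / 2) :
    Real.exp (Real.tan (Real.pi / 7) * (x - Real.pi / 7)) ≤
      2 * Real.cos (Real.pi / 7) * Real.sin x := by
  obtain ⟨hc, ht0, ht⟩ := facts
  have hp := Real.pi_pos
  have hp2 := Real.pi_lt_d2
  set t := Real.tan (Real.pi / 7) with htd
  set c := Real.cos (Real.pi / 7) with hcd
  -- endpoints
  have e1 : Real.exp (t * (Real.pi / 4 - Real.pi / 7)) ≤ 2 * c * Real.sin (Real.pi / 4) := by
    have h1 : t * (Real.pi / 4 - Real.pi / 7) ≤ 17 / 100 := by nlinarith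
    have h2 : Real.exp (17 / 100) ≤ 1.2 := by
      have := Real.exp_bound' (x := 17 / 100) (by norm_num) (by norm_num) (n := 3) (by norm_num)
      refine this.trans ?_
      norm_num [Finset.sum_range_succ, Nat.factorial]
    have h3 : (1.4 : ℝ) ≤ 2 * Real.sin (Real.pi / 4) := by
      rw [Real.sin_pi_div_four]
      have : (1.4 : ℝ) ≤ Real.sqrt 2 := Real.le_sqrt_of_sq_le (by norm_num)
      linarith
    have h4 := (Real.exp_le_exp.2 h1).trans h2
    nlinarith
  have e2 : Real.exp (t * (Real.pi / 2 - Real.pi / 7)) ≤ 2 * c * Real.sin (Real.pi / 2) := by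
    have h1 : t * (Real.pi / 2 - Real.pi / 7) ≤ 564 / 1000 := by nlinarith
    have h2 : Real.exp (564 / 1000) ≤ 1.797 := by
      have := Real.exp_bound' (x := 564 / 1000) (by norm_num) (by norm_num) (n := 5) (by norm_num)
      refine this.trans ?_
      norm_num [Finset.sum_range_succ, Nat.factorial]
    rw [Real.sin_pi_div_two]
    have h4 := (Real.exp_le_exp.2 h1).trans h2
    linarith
  -- interpolation
  set l : ℝ := (x - Real.pi / 4) / (Real.pi / 4) with hl
  have hl0 : 0 ≤ l := div_nonneg (by linarith) (by positivity)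
  have hl1 : l ≤ 1 := by rw [hl, div_le_one (by positivity)]; linarith
  have hxl : x = (1 - l) * (Real.pi / 4) + l * (Real.pi / 2) := by
    have : l * (Real.pi / 4) = x - Real.pi / 4 := by
      rw [hl]; field_simp
    linarith
  have s1 : (1 - l) * Real.sin (Real.pi / 4) + l * Real.sin (Real.pi / 2) ≤ Real.sin x := by
    have := strictConcaveOn_sin_Icc.concaveOn.2
      (show Real.pi / 4 ∈ Set.Icc 0 Real.pi by constructor <;> linarith)
      (show Real.pi / 2 ∈ Set.Icc 0 Real.pi by constructor <;> linarith)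
      (show 0 ≤ 1 - l by linarith) hl0 (show (1 - l) + l = 1 by ring)
    simp only [smul_eq_mul] at this
    rw [← hxl] at this
    exact this
  have s2 : Real.exp (t * (x - Real.pi / 7)) ≤ (1 - l) * Real.exp (t * (Real.pi / 4 - Real.pi / 7)) +
      l * Real.exp (t * (Real.pi / 2 - Real.pi / 7)) := by
    have := convexOn_exp.2 (Set.mem_univ (t * (Real.pi / 4 - Real.pi / 7)))
      (Set.mem_univ (t * (Real.pi / 2 - Real.pi / 7)))
      (show 0 ≤ 1 - l by linarith) hl0 (show (1 - l) + l = 1 by ring)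
    simp only [smul_eq_mul] at this
    have e : (1 - l) * (t * (Real.pi / 4 - Real.pi / 7)) + l * (t * (Real.pi / 2 - Real.pi / 7)) =
        t * (x - Real.pi / 7) := by
      rw [hxl]; ring
    rw [e] at this
    exact this
  have hc2 : 0 ≤ 2 * c := by linarith
  calc Real.exp (t * (x - Real.pi / 7)) ≤ (1 - l) * Real.exp (t * (Real.pi / 4 - Real.pi / 7)) +
      l * Real.exp (t * (Real.pi / 2 - Real.pi / 7)) := s2
    _ ≤ (1 - l) * (2 * c * Real.sin (Real.pi / 4)) + l * (2 * c * Real.sin (Real.pi / 2)) :=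
      add_le_add (mul_le_mul_of_nonneg_left e1 (by linarith)) (mul_le_mul_of_nonneg_left e2 hl0)
    _ = 2 * c * ((1 - l) * Real.sin (Real.pi / 4) + l * Real.sin (Real.pi / 2)) := by ring
    _ ≤ 2 * c * Real.sin x := mul_le_mul_of_nonneg_left s1 hc2

end M13x

/-- M13 -/
theorem tangent7 (a b τ : ℝ) (ha : 0 < a) (hb : 0 < b) (h0 : 0 < τ) (h1 : τ < Real.pi) :
    (a ^ 2 + b ^ 2 + 2 * a * b * Real.cos τ) * (a * b) ≤
      ((a + b) / 2) ^ 4 * (2 * Real.cos (Real.pi / 7)) ^ 2 *
        Real.exp (-Real.tan (Real.pi / 7) * (τ - 2 * Real.pi / 7)) := by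
  obtain ⟨hc, ht0, ht⟩ := M13x.facts
  obtain ⟨x, rfl⟩ : ∃ x, τ = 2 * x := ⟨τ / 2, by ring⟩
  set c := Real.cos (Real.pi / 7) with hcd
  set t := Real.tan (Real.pi / 7) with htd
  have hsc := Real.sin_sq_add_cos_sq x
  have hcos : Real.cos (2 * x) = 1 - 2 * Real.sin x ^ 2 := by
    rw [Real.cos_two_mul]; linarith
  rw [hcos]
  set S := Real.sin x ^ 2 with hS
  set Cc := Real.cos x ^ 2 with hCc
  have hS0 : 0 ≤ S := sq_nonneg _
  have hab : 0 < a * b := mul_pos ha hb
  have hexp : Real.exp (-t * (2 * x - 2 * Real.pi / 7)) =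
      Real.exp (-t * (x - Real.pi / 7)) ^ 2 := by
    rw [← Real.exp_nat_mul]
    congr 1
    push_cast
    ring
  have hLHS : (a ^ 2 + b ^ 2 + 2 * a * b * (1 - 2 * S)) * (a * b) =
      (a * b) * ((a + b) ^ 2 - 4 * (a * b) * S) := by ring
  rw [hLHS, hexp]
  have hq : 0 ≤ (a + b) ^ 2 - 4 * (a * b) := by nlinarith [sq_nonneg (a - b)]
  rcases le_total x (Real.pi / 4) with hx | hx
  · -- small angle
    have hcx : 0 ≤ Real.cos x := Real.cos_nonneg_of_mem_Icc
      ⟨by linarith [Real.pi_pos], by linarith [Real.pi_pos]⟩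
    have hSC : S ≤ Cc := by
      have h2 : 0 ≤ Real.cos (2 * x) := Real.cos_nonneg_of_mem_Icc
        ⟨by linarith [Real.pi_pos], by linarith [Real.pi_pos]⟩
      rw [hcos] at h2
      linarith
    have h3 : (a * b) * ((a + b) ^ 2 - 4 * (a * b) * S) ≤ (a + b) ^ 4 / 4 * Cc := by
      have h4 : 0 ≤ (a + b) ^ 2 * Cc - 4 * (a * b) * S := by nlinarith
      have h5 := mul_nonneg hq h4
      have hone : S + Cc = 1 := hsc
      have h6 : (a + b) ^ 4 / 4 * Cc - (a * b) * ((a + b) ^ 2 - 4 * (a * b) * S) =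
          ((a + b) ^ 2 - 4 * (a * b)) * ((a + b) ^ 2 * Cc - 4 * (a * b) * S) / 4 := by
        have : Cc = 1 - S := by linarith
        rw [this]; ring
      linarith
    have h7 := M13x.case1 x (by linarith) (by linarith [Real.pi_pos])
    have h8 : Cc ≤ (c * Real.exp (-t * (x - Real.pi / 7))) ^ 2 := pow_le_pow_left₀ hcx h7 2
    calc (a * b) * ((a + b) ^ 2 - 4 * (a * b) * S) ≤ (a + b) ^ 4 / 4 * Cc := h3
      _ ≤ (a + b) ^ 4 / 4 * (c * Real.exp (-t * (x - Real.pi / 7))) ^ 2 :=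
        mul_le_mul_of_nonneg_left h8 (by positivity)
      _ = _ := by ring
  · -- large angle
    have h7 := M13x.case2 x hx (by linarith)
    set E := Real.exp (-t * (x - Real.pi / 7)) with hE
    have hE0 : 0 < E := Real.exp_pos _
    have h8 : 1 ≤ 2 * c * Real.sin x * E := by
      have h9 : Real.exp (t * (x - Real.pi / 7)) * E = 1 := by
        rw [hE, ← Real.exp_add]
        have : t * (x - Real.pi / 7) + -t * (x - Real.pi / 7) = 0 := by ring
        rw [this, Real.exp_zero]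
      rw [← h9]
      exact mul_le_mul_of_nonneg_right h7 hE0.le
    have h9 : 1 ≤ (2 * c * Real.sin x * E) ^ 2 := one_le_pow₀ h8
    have h10 : (2 * c * Real.sin x * E) ^ 2 = (2 * c) ^ 2 * S * E ^ 2 := by rw [hS]; ring
    rw [h10] at h9
    set q := a * b with hqd
    set s := a + b with hsd
    have hS1 : S ≤ 1 := by
      have := sq_nonneg (Real.cos x)
      linarith
    have hL0 : 0 ≤ q * (s ^ 2 - 4 * q * S) := by
      refine mul_nonneg hab.le ?_
      nlinarith
    have h11 : 16 * (q * (s ^ 2 - 4 * q * S)) * S ≤ s ^ 4 := by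
      nlinarith [sq_nonneg (s ^ 2 - 8 * q * S)]
    have h12 : q * (s ^ 2 - 4 * q * S) ≤ q * (s ^ 2 - 4 * q * S) * ((2 * c) ^ 2 * S * E ^ 2) :=
      le_mul_of_one_le_right hL0 h9
    refine h12.trans ?_
    have h13 : 0 ≤ (2 * c) ^ 2 * E ^ 2 / 16 := by positivity
    have h14 := mul_le_mul_of_nonneg_right h11 h13
    calc q * (s ^ 2 - 4 * q * S) * ((2 * c) ^ 2 * S * E ^ 2) =
        16 * (q * (s ^ 2 - 4 * q * S)) * S * ((2 * c) ^ 2 * E ^ 2 / 16) := by ring
      _ ≤ s ^ 4 * ((2 * c) ^ 2 * E ^ 2 / 16) := h14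
      _ = _ := by ring

end Pool.Agent.H280R2.RP
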