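import Pool.Agent.H280R2.RP.Defs
import Pool.Agent.H280R2.RP.M10
import Pool.Agent.H280R2.RP.M12
import Pool.Agent.H280R2.RP.M13
set_option autoImplicit false

namespace Pool.Agent.H280R2.RP

open Finset

/-- M14 -/
theorem seven_prod (Z : ℕ → ℂ) (hC : Conv 7 Z) (hZ : ∀ i j, ‖Z i - Z j‖ ≤ 2) :
    (∏ j ∈ range 7, ‖Z (j + 1) - Z j‖) * ∏ j ∈ range 7, ‖Z (j + 2) - Z j‖ ≤
      (4 * Real.sin (Real.pi / 14)) ^ 7 *
        (8 * Real.sin (Real.pi / 14) * Real.cos (Real.pi / 7)) ^ 7 := by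
  obtain ⟨τ, hτ, hlaw, hsum⟩ := turning 7 Z hC
  have hper := perimeter 7 Z hC hZ
  have hpi := Real.pi_pos
  obtain ⟨a, ha⟩ : ∃ a : ℕ → ℝ, ∀ j, a j = ‖Z (j + 1) - Z j‖ := ⟨_, fun _ => rfl⟩
  obtain ⟨b, hb⟩ : ∃ b : ℕ → ℝ, ∀ j, b j = ‖Z (j + 2) - Z j‖ := ⟨_, fun _ => rfl⟩
  have hapos : ∀ j, 0 < a j := by
    intro j
    have h1 := hC.2.2 j (j + 1) (j + 2) (by omega) (by omega) (by omega)
    rw [ha, norm_pos_iff, sub_ne_zero]
    intro h2
    rw [h2] at h1
    simp [cr] at h1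
  have hbnn : ∀ j, 0 ≤ b j := fun j => by rw [hb]; exact norm_nonneg _
  have hper7 : a 7 = a 0 := by
    rw [ha, ha]
    have e1 : Z (7 + 1) = Z 1 := by
      have := hC.2.1 1
      rwa [show 1 + 7 = 7 + 1 by norm_num] at this
    have e2 : Z 7 = Z 0 := by
      have := hC.2.1 0
      rwa [show 0 + 7 = 7 by norm_num] at this
    rw [e1, e2, zero_add]
  simp only [← ha] at hper
  simp only [← ha, ← hb]
  set c : ℝ := 2 * Real.cos (Real.pi / 7) with hcdef
  set t : ℝ := Real.tan (Real.pi / 7) with htdef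
  have ht : 0 < t := Real.tan_pos_of_pos_of_lt_pi_div_two (by positivity) (by linarith)
  have hc : 0 < c := by
    have := Real.cos_pos_of_mem_Ioo (x := Real.pi / 7) ⟨by linarith, by linarith⟩
    positivity
  set A : ℝ := 4 * Real.sin (Real.pi / 14) with hA
  have hA0 : 0 < A := by
    have := Real.sin_pos_of_pos_of_lt_pi (x := Real.pi / 14) (by positivity) (by linarith)
    positivity
  have hstep : ∀ j ∈ range 7, b j ^ 2 * (a (j + 1) * a j) ≤
      ((a (j + 1) + a j) / 2) ^ 4 * c ^ 2 * Real.exp (-t * (τ j - 2 * Real.pi / 7)) := by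
    intro j _
    have h1 := tangent7 (a (j + 1)) (a j) (τ j) (hapos _) (hapos _) (hτ j).1 (hτ j).2
    have h2 : b j ^ 2 = a (j + 1) ^ 2 + a j ^ 2 + 2 * a (j + 1) * a j * Real.cos (τ j) := by
      rw [hb, ha, ha]
      exact hlaw j
    rw [h2]
    exact h1
  have hprod := prod_le_prod (fun j _ => by
    have := hapos j
    have := hapos (j + 1)
    positivity) hstep
  have hshift : ∏ j ∈ range 7, a (j + 1) = ∏ j ∈ range 7, a j := by
    have h1 := prod_range_succ a 7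
    have h2 := prod_range_succ' a 7
    rw [h1, hper7] at h2
    exact (mul_right_cancel₀ (hapos 0).ne' h2).symm
  rw [prod_mul_distrib, prod_pow, prod_mul_distrib, hshift, prod_mul_distrib, prod_mul_distrib,
    prod_pow, prod_const, card_range, ← Real.exp_sum] at hprod
  have hexp : Real.exp (∑ j ∈ range 7, -t * (τ j - 2 * Real.pi / 7)) ≤ 1 := by
    rw [Real.exp_le_one_iff, ← mul_sum, sum_sub_distrib, sum_const, card_range]
    have h1 : 0 ≤ ∑ j ∈ range 7, τ j - 7 • (2 * Real.pi / 7) := by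
      rw [nsmul_eq_mul]
      push_cast
      linarith
    nlinarith
  have hm0 : ∀ j, 0 ≤ (a (j + 1) + a j) / 2 := fun j => by
    have := hapos j
    have := hapos (j + 1)
    positivity
  have hsumshift : ∑ j ∈ range 7, a (j + 1) = ∑ j ∈ range 7, a j := by
    have h1 := sum_range_succ a 7
    have h2 := sum_range_succ' a 7
    rw [h1, hper7] at h2
    linarith
  have hmprod : ∏ j ∈ range 7, (a (j + 1) + a j) / 2 ≤ A ^ 7 := by
    refine prod_le_pow 7 (fun j => (a (j + 1) + a j) / 2) A hm0 ?_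
    rw [← sum_div, sum_add_distrib, hsumshift]
    have e1 : Real.pi / (2 * ((7 : ℕ) : ℝ)) = Real.pi / 14 := by
      push_cast
      norm_num
    rw [e1] at hper
    linarith
  have hmprod0 : 0 ≤ ∏ j ∈ range 7, (a (j + 1) + a j) / 2 := prod_nonneg fun j _ => hm0 j
  have hPa : 0 ≤ ∏ j ∈ range 7, a j := prod_nonneg fun j _ => (hapos j).le
  have hPb : 0 ≤ ∏ j ∈ range 7, b j := prod_nonneg fun j _ => hbnn j
  have hfin : ((∏ j ∈ range 7, a j) * ∏ j ∈ range 7, b j) ^ 2 ≤ (A ^ 14 * c ^ 7) ^ 2 := by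
    calc ((∏ j ∈ range 7, a j) * ∏ j ∈ range 7, b j) ^ 2
        = (∏ j ∈ range 7, b j) ^ 2 * ((∏ j ∈ range 7, a j) * ∏ j ∈ range 7, a j) := by ring
      _ ≤ (∏ j ∈ range 7, (a (j + 1) + a j) / 2) ^ 4 * (c ^ 2) ^ 7 *
            Real.exp (∑ j ∈ range 7, -t * (τ j - 2 * Real.pi / 7)) := hprod
      _ ≤ (∏ j ∈ range 7, (a (j + 1) + a j) / 2) ^ 4 * (c ^ 2) ^ 7 * 1 :=
          mul_le_mul_of_nonneg_left hexp (by positivity)
      _ ≤ (A ^ 7) ^ 4 * (c ^ 2) ^ 7 * 1 := by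
          have := pow_le_pow_left₀ hmprod0 hmprod 4
          gcongr
      _ = (A ^ 14 * c ^ 7) ^ 2 := by ring
  have h8 : (∏ j ∈ range 7, a j) * ∏ j ∈ range 7, b j ≤ A ^ 14 * c ^ 7 :=
    (pow_le_pow_iff_left₀ (by positivity) (by positivity) two_ne_zero).1 hfin
  calc (∏ j ∈ range 7, a j) * ∏ j ∈ range 7, b j ≤ A ^ 14 * c ^ 7 := h8
    _ = A ^ 7 * (8 * Real.sin (Real.pi / 14) * Real.cos (Real.pi / 7)) ^ 7 := by
      rw [hA, hcdef]
      ring

end Pool.Agent.H280R2.RP
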