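import Pool.Agent.H280R2.RP.Defs

set_option autoImplicit false

/-! M2 (helper605): in an extremal configuration every point has a partner at distance 2. -/

namespace Pool.Agent.H280R2.RP

open Finset Filter Topology

namespace M2x

/-- the product of all differences as a function of the `i`-th point -/
noncomputable def hh {n : ℕ} (z : Fin n → ℂ) (i : Fin n) (w : ℂ) : ℂ :=
  ∏ a : Fin n, ∏ b ∈ Finset.Ioi a, (Function.update z i w a - Function.update z i w b)

theorem norm_hh {n : ℕ} (z : Fin n → ℂ) (i : Fin n) (w : ℂ) :
    ‖hh z i w‖ = Vd (Function.update z i w) := by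
  unfold hh Vd
  rw [norm_prod]
  exact Finset.prod_congr rfl fun a _ => norm_prod _ _

theorem diff_upd {n : ℕ} (z : Fin n → ℂ) (i a : Fin n) :
    Differentiable ℂ (fun w => Function.update z i w a) := by
  by_cases h : a = i
  · subst h
    simp only [Function.update_self]
    exact differentiable_id
  · simp only [Function.update_of_ne h]
    exact differentiable_const _

theorem diff_hh {n : ℕ} (z : Fin n → ℂ) (i : Fin n) : Differentiable ℂ (hh z i) := by
  unfold hh
  refine Differentiable.fun_finsetProd fun a _ => ?_
  exact Differentiable.fun_finsetProd fun b _ => (diff_upd z i a).sub (diff_upd z i b)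

theorem hh_zero {n : ℕ} (z : Fin n → ℂ) {i j : Fin n} (h : j ≠ i) : hh z i (z j) = 0 := by
  unfold hh
  rcases lt_or_gt_of_ne h with h1 | h1
  · refine Finset.prod_eq_zero (Finset.mem_univ j) (Finset.prod_eq_zero (Finset.mem_Ioi.2 h1) ?_)
    rw [Function.update_self, Function.update_of_ne h, sub_self]
  · refine Finset.prod_eq_zero (Finset.mem_univ i) (Finset.prod_eq_zero (Finset.mem_Ioi.2 h1) ?_)
    rw [Function.update_self, Function.update_of_ne h, sub_self]

end M2x

open M2x in
theorem partner (n : ℕ) (hn : 2 ≤ n) (z : Fin n → ℂ) (hz : ∀ i j, ‖z i - z j‖ ≤ 2)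
    (hpos : 0 < Vd z) (hmax : ∀ w : Fin n → ℂ, (∀ i j, ‖w i - w j‖ ≤ 2) → Vd w ≤ Vd z) :
    ∀ i, ∃ j, ‖z i - z j‖ = 2 := by
  intro i
  by_contra hcon
  push Not at hcon
  have hlt : ∀ j, ‖z i - z j‖ < 2 := fun j => lt_of_le_of_ne (hz i j) (hcon j)
  have hz0 : ‖hh z i (z i)‖ = Vd z := by rw [norm_hh, Function.update_eq_self]
  have hev : ∀ᶠ w in 𝓝 (z i), ∀ j, ‖w - z j‖ < 2 := by
    rw [eventually_all]
    intro j
    have hc : Continuous fun w : ℂ => ‖w - z j‖ := by fun_prop
    exact hc.continuousAt.eventually_lt_const (hlt j)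
  have hloc : IsLocalMax (norm ∘ hh z i) (z i) := by
    filter_upwards [hev] with w hw
    simp only [Function.comp_apply]
    rw [hz0, norm_hh]
    refine hmax _ fun a b => ?_
    by_cases ha : a = i
    · subst ha
      by_cases hb : b = a
      · subst hb
        simp
      · rw [Function.update_self, Function.update_of_ne hb]
        exact (hw b).le
    · by_cases hb : b = i
      · subst hb
        rw [Function.update_self, Function.update_of_ne ha, norm_sub_rev]
        exact (hw a).le
      · rw [Function.update_of_ne ha, Function.update_of_ne hb]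
        exact hz a b
  have heq := Complex.eventually_eq_of_isLocalMax_norm
    (Eventually.of_forall fun w => (diff_hh z i).differentiableAt) hloc
  have hall : hh z i = fun _ => hh z i (z i) := by
    refine AnalyticOnNhd.eq_of_eventuallyEq (𝕜 := ℂ) (z₀ := z i) (fun w _ => ?_)
      (fun w _ => analyticAt_const) heq
    exact (diff_hh z i).analyticAt w
  obtain ⟨j, hj⟩ : ∃ j : Fin n, j ≠ i := by
    have : Nontrivial (Fin n) := Fin.nontrivial_iff_two_le.mpr hn
    exact exists_ne i
  have h1 := congrFun hall (z j)
  rw [hh_zero z hj] at h1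
  rw [← h1, norm_zero] at hz0
  linarith

end Pool.Agent.H280R2.RP
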