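import Pool.Agent.H280R2.RP.Defs

set_option autoImplicit false

namespace Pool.Agent.H280R2.RP

open Finset

/-- M3 -/
theorem inj_of_pos (n : ℕ) (z : Fin n → ℂ) (hpos : 0 < Vd z) : Function.Injective z := by
  intro i j hij
  by_contra hne
  rcases lt_or_gt_of_ne hne with h | h
  · have : Vd z = 0 := by
      unfold Vd
      refine Finset.prod_eq_zero (mem_univ i) (Finset.prod_eq_zero (Finset.mem_Ioi.2 h) ?_)
      rw [hij, sub_self, norm_zero]
    linarith
  · have : Vd z = 0 := by
      unfold Vd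
      refine Finset.prod_eq_zero (mem_univ j) (Finset.prod_eq_zero (Finset.mem_Ioi.2 h) ?_)
      rw [hij, sub_self, norm_zero]
    linarith

namespace M3x

lemma norm_sq (w : ℂ) : ‖w‖ ^ 2 = w.re * w.re + w.im * w.im := by
  rw [Complex.sq_norm, Complex.normSq_apply]

/-- strict inequality for the inner product -/
lemma inner_lt (v w : ℂ) (hv : ‖v‖ = 2) (hw : ‖w‖ ≤ 2) (hne : v ≠ w) :
    v.re * w.re + v.im * w.im < 4 := by
  have h1 := norm_sq v
  have h2 := norm_sq w
  have h3 : ‖w‖ ^ 2 ≤ 4 := by nlinarith [norm_nonneg w]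
  have h4 : 0 < (v.re - w.re) ^ 2 + (v.im - w.im) ^ 2 := by
    by_contra hcon
    have h5 : (v.re - w.re) ^ 2 + (v.im - w.im) ^ 2 = 0 :=
      le_antisymm (not_lt.1 hcon) (by positivity)
    have h6 : (v.re - w.re) ^ 2 = 0 := by nlinarith [sq_nonneg (v.re - w.re), sq_nonneg (v.im - w.im)]
    have h7 : (v.im - w.im) ^ 2 = 0 := by nlinarith [sq_nonneg (v.re - w.re), sq_nonneg (v.im - w.im)]
    apply hne
    apply Complex.ext
    · have := pow_eq_zero_iff (two_ne_zero) |>.1 h6
      linarith
    · have := pow_eq_zero_iff (two_ne_zero) |>.1 h7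
      linarith
  rw [hv] at h1
  nlinarith

end M3x

/-- M3 -/
theorem not_hull (n : ℕ) (z : Fin n → ℂ) (hz : ∀ i j, ‖z i - z j‖ ≤ 2)
    (hinj : Function.Injective z) (hp : ∀ i, ∃ j, ‖z i - z j‖ = 2)
    (i a b c : Fin n) (ha : a ≠ i) (hb : b ≠ i) (hc : c ≠ i)
    (s t u : ℝ) (hs : 0 ≤ s) (ht : 0 ≤ t) (hu : 0 ≤ u) (hsum : s + t + u = 1) :
    z i ≠ (s : ℂ) * z a + (t : ℂ) * z b + (u : ℂ) * z c := by
  intro heq
  obtain ⟨q, hq⟩ := hp i
  have key : ∀ p : Fin n, p ≠ i → (z i - z q).re * (z p - z q).re + (z i - z q).im * (z p - z q).im < 4 := by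
    intro p hpi
    refine M3x.inner_lt _ _ hq (hz p q) ?_
    intro hcon
    exact hpi (hinj (by linear_combination -hcon))
  have h1 : (z i - z q) * 1 = (s : ℂ) * (z a - z q) + (t : ℂ) * (z b - z q) + (u : ℂ) * (z c - z q) := by
    have hs' : (s : ℂ) + (t : ℂ) + (u : ℂ) = 1 := by exact_mod_cast hsum
    linear_combination heq + z q * hs'
  have hre := congrArg Complex.re h1
  have him := congrArg Complex.im h1
  rw [mul_one] at hre him
  simp only [Complex.add_re, Complex.add_im, Complex.re_ofReal_mul, Complex.im_ofReal_mul] at hre him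
  have h2 := M3x.norm_sq (z i - z q)
  rw [hq] at h2
  have ka := key a ha
  have kb := key b hb
  have kc := key c hc
  set A := (z i - z q).re * (z a - z q).re + (z i - z q).im * (z a - z q).im with hA
  set B := (z i - z q).re * (z b - z q).re + (z i - z q).im * (z b - z q).im with hB
  set D := (z i - z q).re * (z c - z q).re + (z i - z q).im * (z c - z q).im with hD
  have h3 : s * A + t * B + u * D = 4 := by
    have : s * A + t * B + u * D = (z i - z q).re * (z i - z q).re + (z i - z q).im * (z i - z q).im := by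
      conv_rhs => rw [hre, him]
      rw [hA, hB, hD, hre, him]
      ring
    rw [this, ← h2]
    norm_num
  have h4 : s * (4 - A) + t * (4 - B) + u * (4 - D) = 0 := by
    linear_combination 4 * hsum - h3
  have p1 : 0 ≤ s * (4 - A) := mul_nonneg hs (by linarith)
  have p2 : 0 ≤ t * (4 - B) := mul_nonneg ht (by linarith)
  have p3 : 0 ≤ u * (4 - D) := mul_nonneg hu (by linarith)
  have q1 : s * (4 - A) = 0 := by linarith
  have q2 : t * (4 - B) = 0 := by linarith
  have q3 : u * (4 - D) = 0 := by linarith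
  have r1 : s = 0 := (mul_eq_zero.1 q1).resolve_right (by linarith)
  have r2 : t = 0 := (mul_eq_zero.1 q2).resolve_right (by linarith)
  have r3 : u = 0 := (mul_eq_zero.1 q3).resolve_right (by linarith)
  rw [r1, r2, r3] at hsum
  norm_num at hsum

end Pool.Agent.H280R2.RP
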