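import Pool.Agent.H280R2.RP.Defs

set_option autoImplicit false

namespace Pool.Agent.H280R2.RP

open Finset

namespace M4x

lemma cr_polar (a b c : ℂ) : cr a b c =
    ‖b - a‖ * ‖c - a‖ * Real.sin (Complex.arg (c - a) - Complex.arg (b - a)) := by
  have h1 := Complex.norm_mul_cos_arg (b - a)
  have h2 := Complex.norm_mul_sin_arg (b - a)
  have h3 := Complex.norm_mul_cos_arg (c - a)
  have h4 := Complex.norm_mul_sin_arg (c - a)
  rw [Complex.sub_re] at h1 h3
  rw [Complex.sub_im] at h2 h4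
  unfold cr
  rw [← h1, ← h2, ← h3, ← h4, Real.sin_sub]
  ring

lemma same_arg {a b c : ℂ} (h : Complex.arg (b - a) = Complex.arg (c - a)) (hc : c ≠ a) :
    b = ((1 - ‖b - a‖ / ‖c - a‖ : ℝ) : ℂ) * a + ((‖b - a‖ / ‖c - a‖ : ℝ) : ℂ) * c +
      ((0 : ℝ) : ℂ) * c := by
  have h1 := Complex.norm_mul_cos_arg (b - a)
  have h2 := Complex.norm_mul_sin_arg (b - a)
  have h3 := Complex.norm_mul_cos_arg (c - a)
  have h4 := Complex.norm_mul_sin_arg (c - a)
  rw [Complex.sub_re] at h1 h3
  rw [Complex.sub_im] at h2 h4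
  rw [h] at h1 h2
  have hn : ‖c - a‖ ≠ 0 := norm_ne_zero_iff.2 (sub_ne_zero.2 hc)
  set r := ‖b - a‖ / ‖c - a‖ with hr
  have e : ‖b - a‖ = r * ‖c - a‖ := by rw [hr]; field_simp
  rw [e] at h1 h2
  apply Complex.ext
  · simp only [Complex.add_re, Complex.re_ofReal_mul]
    have : b.re - a.re = r * (c.re - a.re) := by rw [← h1, ← h3]; ring
    linarith
  · simp only [Complex.add_im, Complex.im_ofReal_mul]
    have : b.im - a.im = r * (c.im - a.im) := by rw [← h2, ← h4]; ring
    linarith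

lemma bary (a p q r : ℂ) (hD : cr a p r ≠ 0) :
    q = ((cr q p r / cr a p r : ℝ) : ℂ) * a + ((cr a q r / cr a p r : ℝ) : ℂ) * p +
      ((cr a p q / cr a p r : ℝ) : ℂ) * r := by
  apply Complex.ext
  · simp only [Complex.add_re, Complex.re_ofReal_mul]
    rw [div_mul_eq_mul_div, div_mul_eq_mul_div, div_mul_eq_mul_div, ← add_div, ← add_div,
      eq_div_iff hD]
    unfold cr
    ring
  · simp only [Complex.add_im, Complex.im_ofReal_mul]
    rw [div_mul_eq_mul_div, div_mul_eq_mul_div, div_mul_eq_mul_div, ← add_div, ← add_div,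
      eq_div_iff hD]
    unfold cr
    ring

end M4x

open M4x in
/-- M4 -/
theorem order (n : ℕ) (hn : 3 ≤ n) (z : Fin n → ℂ) (hinj : Function.Injective z)
    (hull : ∀ i a b c : Fin n, a ≠ i → b ≠ i → c ≠ i → ∀ s t u : ℝ, 0 ≤ s → 0 ≤ t → 0 ≤ u →
      s + t + u = 1 → z i ≠ (s : ℂ) * z a + (t : ℂ) * z b + (u : ℂ) * z c) :
    ∃ σ : Equiv.Perm (Fin n), ∀ i j k : Fin n, i < j → j < k →
      0 < cr (z (σ i)) (z (σ j)) (z (σ k)) := by
  classical
  have hne : (Finset.univ : Finset (Fin n)).Nonempty := ⟨⟨0, by omega⟩, Finset.mem_univ _⟩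
  obtain ⟨i0, -, hmin⟩ := Finset.exists_min_image Finset.univ
    (fun i : Fin n => toLex ((z i).im, (z i).re)) hne
  have hpos : ∀ p : Fin n, p ≠ i0 → 0 < (z p - z i0).im ∨
      ((z p - z i0).im = 0 ∧ 0 < (z p - z i0).re) := by
    intro p hp
    have h1 := hmin p (Finset.mem_univ _)
    rw [Prod.Lex.toLex_le_toLex] at h1
    simp only at h1
    rw [Complex.sub_im, Complex.sub_re]
    rcases h1 with h1 | ⟨h1, h2⟩
    · left; linarith
    · right
      refine ⟨by linarith, ?_⟩
      rcases h2.lt_or_eq with h3 | h3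
      · linarith
      · exact absurd (hinj (Complex.ext h3.symm h1.symm)) hp
  have harg0 : ∀ p : Fin n, p ≠ i0 → 0 ≤ Complex.arg (z p - z i0) := by
    intro p hp
    rw [Complex.arg_nonneg_iff]
    rcases hpos p hp with h | h
    · exact h.le
    · exact h.1.ge
  have hargpi : ∀ p : Fin n, p ≠ i0 → Complex.arg (z p - z i0) < Real.pi := by
    intro p hp
    rw [Complex.arg_lt_pi_iff]
    rcases hpos p hp with h | h
    · exact Or.inr h.ne'
    · exact Or.inl h.2.le
  have hzne : ∀ p : Fin n, p ≠ i0 → z p ≠ z i0 := fun p hp h => hp (hinj h)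
  have hnpos : ∀ p : Fin n, p ≠ i0 → 0 < ‖z p - z i0‖ := fun p hp =>
    norm_pos_iff.2 (sub_ne_zero.2 (hzne p hp))
  have hhalf : ∀ p q : Fin n, p ≠ i0 → q ≠ i0 → p ≠ q → ‖z p - z i0‖ ≤ ‖z q - z i0‖ →
      Complex.arg (z p - z i0) ≠ Complex.arg (z q - z i0) := by
    intro p q hp hq hpq hle h
    have h1 := same_arg h (hzne q hq)
    have h2 : ‖z p - z i0‖ / ‖z q - z i0‖ ≤ 1 := (div_le_one (hnpos q hq)).2 hle
    exact hull p i0 q q hp.symm hpq.symm hpq.symm (1 - ‖z p - z i0‖ / ‖z q - z i0‖)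
      (‖z p - z i0‖ / ‖z q - z i0‖) 0 (by linarith) (by positivity) le_rfl (by ring) h1
  have hargne : ∀ p q : Fin n, p ≠ i0 → q ≠ i0 → p ≠ q →
      Complex.arg (z p - z i0) ≠ Complex.arg (z q - z i0) := by
    intro p q hp hq hpq
    rcases le_total ‖z p - z i0‖ ‖z q - z i0‖ with h | h
    · exact hhalf p q hp hq hpq h
    · exact (hhalf q p hq hp hpq.symm h).symm
  let key : Fin n → ℝ := fun p => if p = i0 then -1 else Complex.arg (z p - z i0)
  have hkey0 : key i0 = -1 := if_pos rfl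
  have hkey : ∀ p : Fin n, p ≠ i0 → key p = Complex.arg (z p - z i0) := fun p hp => if_neg hp
  have hkinj : Function.Injective key := by
    intro p q hpq
    by_contra hne'
    by_cases hp : p = i0
    · have hq : q ≠ i0 := fun h => hne' (hp.trans h.symm)
      rw [hp, hkey0, hkey q hq] at hpq
      have := harg0 q hq
      linarith
    · by_cases hq : q = i0
      · rw [hq, hkey0, hkey p hp] at hpq
        have := harg0 p hp
        linarith
      · rw [hkey p hp, hkey q hq] at hpq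
        exact hargne p q hp hq hne' hpq
  let σ : Equiv.Perm (Fin n) := Tuple.sort key
  have hmono : Monotone (key ∘ σ) := Tuple.monotone_sort key
  have hstrict : StrictMono (key ∘ σ) := hmono.strictMono_of_injective
    (hkinj.comp σ.injective)
  -- the first point is `i0`
  have hσ0 : ∀ i j : Fin n, i < j → σ j ≠ i0 := by
    intro i j hij h
    have h1 : key (σ i) < key (σ j) := hstrict hij
    rw [h, hkey0] at h1
    by_cases h2 : σ i = i0
    · rw [h2, hkey0] at h1; linarith
    · rw [hkey _ h2] at h1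
      have := harg0 _ h2
      linarith
  have hbase : ∀ p q : Fin n, p ≠ i0 → q ≠ i0 → key p < key q →
      0 < cr (z i0) (z p) (z q) := by
    intro p q hp hq hpq
    rw [cr_polar]
    rw [hkey p hp, hkey q hq] at hpq
    apply mul_pos (mul_pos (hnpos p hp) (hnpos q hq))
    apply Real.sin_pos_of_pos_of_lt_pi
    · linarith
    · have h1 := harg0 p hp
      have h2 := hargpi q hq
      linarith
  refine ⟨σ, fun i j k hij hjk => ?_⟩
  have hj := hσ0 i j hij
  have hk := hσ0 j k hjk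
  have hij' : key (σ i) < key (σ j) := hstrict hij
  have hjk' : key (σ j) < key (σ k) := hstrict hjk
  by_cases hi : σ i = i0
  · rw [hi]
    exact hbase _ _ hj hk hjk'
  · by_contra hcon
    have hcon' : cr (z (σ i)) (z (σ j)) (z (σ k)) ≤ 0 := not_lt.1 hcon
    have c1 := hbase _ _ hi hj hij'
    have c2 := hbase _ _ hj hk hjk'
    have c3 := hbase _ _ hi hk (hij'.trans hjk')
    have h1 := bary (z i0) (z (σ i)) (z (σ j)) (z (σ k)) c3.ne'
    have hneij : σ i ≠ σ j := fun h => hij.ne (σ.injective h)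
    have hnekj : σ k ≠ σ j := fun h => hjk.ne' (σ.injective h)
    have hsw : cr (z (σ j)) (z (σ i)) (z (σ k)) = - cr (z (σ i)) (z (σ j)) (z (σ k)) := by
      unfold cr; ring
    refine hull (σ j) i0 (σ i) (σ k) (Ne.symm hj) hneij hnekj _ _ _ ?_ ?_ ?_ ?_ h1
    · apply div_nonneg _ c3.le
      rw [hsw]; linarith
    · exact (div_pos c2 c3).le
    · exact (div_pos c1 c3).le
    · rw [← add_div, ← add_div, div_eq_one_iff_eq c3.ne']
      unfold cr
      ring

end Pool.Agent.H280R2.RP
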