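import Pool.Agent.H280R2.RP.Defs

set_option autoImplicit false

namespace Pool.Agent.H280R2.RP

open Finset

namespace M5x

theorem modsub (x P n : ℕ) (hP : n ∣ P) (h1 : P ≤ x) (h2 : x < P + n) : x % n = x - P := by
  obtain ⟨m, rfl⟩ := hP
  have h3 : x = n * m + (x - n * m) := by omega
  rw [h3, Nat.mul_add_mod, Nat.mod_eq_of_lt (by omega)]
  omega

theorem cyc (a b c : ℂ) : cr a b c = cr b c a := by
  unfold cr; ring

end M5x

/-- M5 -/
theorem conv_of_order (n : ℕ) (hn : 3 ≤ n) (y : Fin n → ℂ)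
    (h : ∀ i j k : Fin n, i < j → j < k → 0 < cr (y i) (y j) (y k)) (Z : ℕ → ℂ)
    (hZ : ∀ j, Z j = y ⟨j % n, Nat.mod_lt _ (by omega)⟩) : Conv n Z := by
  have hr : ∀ (x r : ℕ) (hr : r < n), x % n = r → Z x = y ⟨r, hr⟩ := by
    intro x r hr hx
    rw [hZ]
    congr 1
    exact Fin.ext hx
  refine ⟨hn, fun j => ?_, fun i j k hij hjk hki => ?_⟩
  · rw [hZ, hZ]
    congr 1
    exact Fin.ext (Nat.add_mod_right j n)
  · obtain ⟨P, hP, hPi, hPi'⟩ : ∃ P, n ∣ P ∧ P ≤ i ∧ i < P + n := by
      refine ⟨n * (i / n), Dvd.intro _ rfl, Nat.mul_div_le i n, ?_⟩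
      exact Nat.lt_mul_div_succ i (by omega)
    have hPn : n ∣ P + n := (Nat.dvd_add_right hP).2 dvd_rfl
    have ei := M5x.modsub i P n hP hPi hPi'
    by_cases hk : k < P + n
    · have ej := M5x.modsub j P n hP (by omega) (by omega)
      have ek := M5x.modsub k P n hP (by omega) (by omega)
      rw [hr i (i - P) (by omega) ei, hr j (j - P) (by omega) ej, hr k (k - P) (by omega) ek]
      exact h _ _ _ (by rw [Fin.lt_def]; simp only; omega) (by rw [Fin.lt_def]; simp only; omega)
    · have ek := M5x.modsub k (P + n) n hPn (by omega) (by omega)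
      by_cases hj : j < P + n
      · have ej := M5x.modsub j P n hP (by omega) (by omega)
        rw [hr i (i - P) (by omega) ei, hr j (j - P) (by omega) ej,
          hr k (k - (P + n)) (by omega) ek, M5x.cyc, M5x.cyc]
        exact h _ _ _ (by rw [Fin.lt_def]; simp only; omega) (by rw [Fin.lt_def]; simp only; omega)
      · have ej := M5x.modsub j (P + n) n hPn (by omega) (by omega)
        rw [hr i (i - P) (by omega) ei, hr j (j - (P + n)) (by omega) ej,
          hr k (k - (P + n)) (by omega) ek, M5x.cyc]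
        exact h _ _ _ (by rw [Fin.lt_def]; simp only; omega) (by rw [Fin.lt_def]; simp only; omega)

end Pool.Agent.H280R2.RP
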