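import Pool.Agent.H280R2.RP.Defs

set_option autoImplicit false

namespace Pool.Agent.H280R2.RP

open Finset

namespace M6x

lemma Vd_eq (n : ℕ) (z : Fin n → ℂ) : Vd z = ‖(Matrix.vandermonde z).det‖ := by
  rw [Matrix.det_vandermonde, norm_prod]
  unfold Vd
  refine prod_congr rfl fun i _ => ?_
  rw [norm_prod]
  exact prod_congr rfl fun j _ => norm_sub_rev _ _

lemma Vd_ite (n : ℕ) (z : Fin n → ℂ) :
    Vd z = ∏ i : Fin n, ∏ j : Fin n, if i < j then ‖z i - z j‖ else 1 := by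
  unfold Vd
  refine prod_congr rfl fun i _ => ?_
  rw [← prod_filter]
  refine prod_congr ?_ fun _ _ => rfl
  ext j
  simp

end M6x

/-- M6 -/
theorem Vd_perm (n : ℕ) (z : Fin n → ℂ) (σ : Equiv.Perm (Fin n)) :
    Vd (fun i => z (σ i)) = Vd z := by
  rw [M6x.Vd_eq, M6x.Vd_eq]
  have h1 : Matrix.vandermonde (fun i => z (σ i)) = (Matrix.vandermonde z).submatrix σ id := by
    ext i j
    simp [Matrix.vandermonde]
  rw [h1, Matrix.det_permute, norm_mul]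
  rcases Int.units_eq_one_or (Equiv.Perm.sign σ) with h | h <;> simp [h]

/-- M6 -/
theorem Vd_five (y : Fin 5 → ℂ) (Z : ℕ → ℂ)
    (hZ : ∀ j, Z j = y ⟨j % 5, Nat.mod_lt _ (by omega)⟩) :
    Vd y = (∏ j ∈ range 5, ‖Z (j + 1) - Z j‖) * ∏ j ∈ range 5, ‖Z (j + 2) - Z j‖ := by
  have h0 : Z 0 = y 0 := hZ 0
  have h1 : Z 1 = y 1 := hZ 1
  have h2 : Z 2 = y 2 := hZ 2
  have h3 : Z 3 = y 3 := hZ 3
  have h4 : Z 4 = y 4 := hZ 4
  have h5 : Z 5 = y 0 := hZ 5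
  have h6 : Z 6 = y 1 := hZ 6
  rw [M6x.Vd_ite]
  simp only [Fin.prod_univ_five, prod_range_succ, prod_range_zero, Nat.reduceAdd, h0, h1, h2, h3,
    h4, h5, h6]
  simp only [Fin.reduceLT, lt_self_iff_false, if_true, if_false, one_mul, mul_one,
    Fin.isValue, not_lt_zero]
  rw [norm_sub_rev (y 1) (y 0), norm_sub_rev (y 2) (y 1), norm_sub_rev (y 3) (y 2),
    norm_sub_rev (y 4) (y 3), norm_sub_rev (y 2) (y 0), norm_sub_rev (y 3) (y 1),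
    norm_sub_rev (y 4) (y 2)]
  ring

/-- M6 -/
theorem Vd_seven (y : Fin 7 → ℂ) (Z : ℕ → ℂ)
    (hZ : ∀ j, Z j = y ⟨j % 7, Nat.mod_lt _ (by omega)⟩) :
    Vd y = (∏ j ∈ range 7, ‖Z (j + 1) - Z j‖) * (∏ j ∈ range 7, ‖Z (j + 2) - Z j‖) *
      ∏ j ∈ range 7, ‖Z (j + 3) - Z j‖ := by
  have h0 : Z 0 = y 0 := hZ 0
  have h1 : Z 1 = y 1 := hZ 1
  have h2 : Z 2 = y 2 := hZ 2
  have h3 : Z 3 = y 3 := hZ 3
  have h4 : Z 4 = y 4 := hZ 4
  have h5 : Z 5 = y 5 := hZ 5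
  have h6 : Z 6 = y 6 := hZ 6
  have h7 : Z 7 = y 0 := hZ 7
  have h8 : Z 8 = y 1 := hZ 8
  have h9 : Z 9 = y 2 := hZ 9
  rw [M6x.Vd_ite]
  simp only [Fin.prod_univ_seven, prod_range_succ, prod_range_zero, Nat.reduceAdd, h0, h1, h2, h3,
    h4, h5, h6, h7, h8, h9]
  simp only [Fin.reduceLT, lt_self_iff_false, if_true, if_false, one_mul, mul_one,
    Fin.isValue, not_lt_zero]
  rw [norm_sub_rev (y 1) (y 0), norm_sub_rev (y 2) (y 1), norm_sub_rev (y 3) (y 2),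
    norm_sub_rev (y 4) (y 3), norm_sub_rev (y 5) (y 4), norm_sub_rev (y 6) (y 5),
    norm_sub_rev (y 2) (y 0), norm_sub_rev (y 3) (y 1),
    norm_sub_rev (y 4) (y 2), norm_sub_rev (y 5) (y 3), norm_sub_rev (y 6) (y 4),
    norm_sub_rev (y 3) (y 0), norm_sub_rev (y 4) (y 1), norm_sub_rev (y 5) (y 2),
    norm_sub_rev (y 6) (y 3)]
  ring

end Pool.Agent.H280R2.RP
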