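import Pool.Agent.H280R2.RP.Defs
import Pool.Agent.H280R2.RP.M1
import Pool.Agent.H280R2.RP.M10
import Pool.Agent.H280R2.RP.M11
import Pool.Agent.H280R2.RP.M14
import Pool.Agent.H280R2.RP.M2
import Pool.Agent.H280R2.RP.M3
import Pool.Agent.H280R2.RP.M4
import Pool.Agent.H280R2.RP.M5
import Pool.Agent.H280R2.RP.M6
set_option autoImplicit false

namespace Pool.Agent.H280R2.RP

open Finset

namespace M15x

theorem setup (n : ℕ) (hn : 3 ≤ n) (z : Fin n → ℂ) (hz : ∀ i j : Fin n, ‖z i - z j‖ ≤ 2) :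
    ∃ (y : Fin n → ℂ) (Z : ℕ → ℂ), (∀ j, Z j = y ⟨j % n, Nat.mod_lt _ (by omega)⟩) ∧
      Conv n Z ∧ (∀ i j, ‖Z i - Z j‖ ≤ 2) ∧ Vd z ≤ Vd y := by
  obtain ⟨z0, hz0, hpos, hmax⟩ := exists_max n (by omega)
  have hp := partner n (by omega) z0 hz0 hpos hmax
  have hinj := inj_of_pos n z0 hpos
  obtain ⟨σ, hσ⟩ := order n hn z0 hinj
    (fun i a b c ha hb hc s t u hs ht hu hsum =>
      not_hull n z0 hz0 hinj hp i a b c ha hb hc s t u hs ht hu hsum)
  refine ⟨fun i => z0 (σ i), fun j => z0 (σ ⟨j % n, Nat.mod_lt _ (by omega)⟩),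
    fun j => rfl, ?_, fun i j => hz0 _ _, ?_⟩
  · exact conv_of_order n hn (fun i => z0 (σ i)) hσ _ (fun j => rfl)
  · rw [Vd_perm]
    exact hmax z hz

end M15x

theorem final (n : ℕ) (hn : n = 5 ∨ n = 7) (z : Fin n → ℂ)
    (hz : ∀ i j : Fin n, ‖z i - z j‖ ≤ 2) : Vd z ≤ Vd (reg n) := by
  rcases hn with rfl | rfl
  · obtain ⟨y, Z, hy, hC, hZ, hle⟩ := M15x.setup 5 (by norm_num) z hz
    refine hle.trans ?_
    rw [Vd_five y Z hy, reg_five]
    have h1 := perimeter 5 Z hC hZ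
    have h2 := prod_le_pow 5 (fun j => ‖Z (j + 1) - Z j‖)
      (4 * Real.sin (Real.pi / 10)) (fun j => norm_nonneg _) (by
        have : Real.pi / (2 * ((5 : ℕ) : ℝ)) = Real.pi / 10 := by push_cast; ring
        rw [this] at h1
        exact h1)
    have h3 : ∏ j ∈ range 5, ‖Z (j + 2) - Z j‖ ≤ 2 ^ 5 := by
      calc ∏ j ∈ range 5, ‖Z (j + 2) - Z j‖ ≤ ∏ j ∈ range 5, (2 : ℝ) :=
            Finset.prod_le_prod (fun _ _ => norm_nonneg _) (fun _ _ => hZ _ _)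
        _ = 2 ^ 5 := by simp
    exact mul_le_mul h2 h3 (Finset.prod_nonneg fun _ _ => norm_nonneg _)
      (le_trans (Finset.prod_nonneg fun _ _ => norm_nonneg _) h2)
  · obtain ⟨y, Z, hy, hC, hZ, hle⟩ := M15x.setup 7 (by norm_num) z hz
    refine hle.trans ?_
    rw [Vd_seven y Z hy, reg_seven]
    have h2 := seven_prod Z hC hZ
    have h3 : ∏ j ∈ range 7, ‖Z (j + 3) - Z j‖ ≤ 2 ^ 7 := by
      calc ∏ j ∈ range 7, ‖Z (j + 3) - Z j‖ ≤ ∏ j ∈ range 7, (2 : ℝ) :=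
            Finset.prod_le_prod (fun _ _ => norm_nonneg _) (fun _ _ => hZ _ _)
        _ = 2 ^ 7 := by simp
    exact mul_le_mul h2 h3 (Finset.prod_nonneg fun _ _ => norm_nonneg _)
      (le_trans (mul_nonneg (Finset.prod_nonneg fun _ _ => norm_nonneg _)
        (Finset.prod_nonneg fun _ _ => norm_nonneg _)) h2)

end Pool.Agent.H280R2.RP
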