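import Pool.Agent.H280R2.RP.M15

set_option autoImplicit false

namespace Pool.Agent.H280R2.RP

open Finset

namespace M16x

theorem dist_reg (n : ℕ) (hn : 1 < n) (i j : Fin n) :
    ‖reg n i - reg n j‖ = 1 / Real.cos (Real.pi / (2 * (n : ℝ))) *
      (2 * |Real.sin (Real.pi * ((i.val : ℝ) - (j.val : ℝ)) / n)|) := by
  have hn0 : (0 : ℝ) < n := by exact_mod_cast (by omega : 0 < n)
  have hn1 : (1 : ℝ) < n := by exact_mod_cast hn
  have hc : 0 < Real.cos (Real.pi / (2 * (n : ℝ))) := by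
    apply Real.cos_pos_of_mem_Ioo
    constructor
    · have : 0 < Real.pi / (2 * (n : ℝ)) := by positivity
      have := Real.pi_pos
      linarith
    · rw [div_lt_div_iff₀ (by positivity) (by norm_num)]
      nlinarith [Real.pi_pos]
  unfold reg
  rw [← mul_sub, norm_mul, Complex.norm_real, Real.norm_eq_abs, abs_of_pos (by positivity)]
  congr 1
  have h1 : 2 * (Real.pi : ℂ) * Complex.I * (i.val : ℂ) / (n : ℂ) =
      ((Real.pi * ((i.val : ℝ) + (j.val : ℝ)) / n : ℝ) : ℂ) * Complex.I +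
      ((Real.pi * ((i.val : ℝ) - (j.val : ℝ)) / n : ℝ) : ℂ) * Complex.I := by
    push_cast
    ring
  have h2 : 2 * (Real.pi : ℂ) * Complex.I * (j.val : ℂ) / (n : ℂ) =
      ((Real.pi * ((i.val : ℝ) + (j.val : ℝ)) / n : ℝ) : ℂ) * Complex.I +
      -(((Real.pi * ((i.val : ℝ) - (j.val : ℝ)) / n : ℝ) : ℂ) * Complex.I) := by
    push_cast
    ring
  rw [h1, h2, Complex.exp_add, Complex.exp_add, ← mul_sub, norm_mul,
    Complex.norm_exp_ofReal_mul_I, one_mul]
  generalize Real.pi * ((i.val : ℝ) - (j.val : ℝ)) / n = x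
  have h3 : Complex.exp ((x : ℂ) * Complex.I) - Complex.exp (-((x : ℂ) * Complex.I)) =
      2 * Complex.I * (Real.sin x : ℂ) := by
    rw [Complex.ofReal_sin, Complex.sin]
    have := Complex.I_sq
    ring_nf
    rw [this]
    ring
  rw [h3, norm_mul, norm_mul, Complex.norm_I, Complex.norm_real, Real.norm_eq_abs]
  norm_num

theorem three (z : Fin 3 → ℂ) (hz : ∀ i j : Fin 3, ‖z i - z j‖ ≤ 2) : Vd z ≤ Vd (reg 3) := by
  have key : ∀ i j : Fin 3, i ≠ j → ‖z i - z j‖ ≤ ‖reg 3 i - reg 3 j‖ := by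
    intro i j hij
    have h2 : ‖reg 3 i - reg 3 j‖ = 2 := by
      rw [dist_reg 3 (by norm_num)]
      have hc : Real.cos (Real.pi / (2 * ((3 : ℕ) : ℝ))) = √3 / 2 := by
        rw [← Real.cos_pi_div_six]
        congr 1
        push_cast
        ring
      have hs : |Real.sin (Real.pi * ((i.val : ℝ) - (j.val : ℝ)) / ((3 : ℕ) : ℝ))| = √3 / 2 := by
        have e1 : Real.sin (Real.pi / 3) = √3 / 2 := Real.sin_pi_div_three
        have e2 : Real.sin (2 * Real.pi / 3) = √3 / 2 := by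
          rw [← Real.sin_pi_div_three, ← Real.sin_pi_sub (Real.pi / 3)]
          congr 1
          ring
        have hpos : 0 ≤ √3 / 2 := by positivity
        have f1 : Real.sin (Real.pi * (0 - 1) / 3) = -(√3 / 2) := by
          rw [← e1, ← Real.sin_neg]; congr 1; ring
        have f2 : Real.sin (Real.pi * (0 - 2) / 3) = -(√3 / 2) := by
          rw [← e2, ← Real.sin_neg]; congr 1; ring
        have f3 : Real.sin (Real.pi * (1 - 0) / 3) = √3 / 2 := by
          rw [← e1]; congr 1; ring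
        have f4 : Real.sin (Real.pi * (1 - 2) / 3) = -(√3 / 2) := by
          rw [← e1, ← Real.sin_neg]; congr 1; ring
        have f5 : Real.sin (Real.pi * (2 - 0) / 3) = √3 / 2 := by
          rw [← e2]; congr 1; ring
        have f6 : Real.sin (Real.pi * (2 - 1) / 3) = √3 / 2 := by
          rw [← e1]; congr 1; ring
        fin_cases i <;> fin_cases j <;> simp only [Fin.zero_eta, Fin.mk_one, Fin.reduceFinMk,
          ne_eq, not_true_eq_false] at hij ⊢ <;> norm_num at f1 f2 f3 f4 f5 f6 ⊢ <;>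
          simp only [f1, f2, f3, f4, f5, f6, abs_neg, abs_of_nonneg hpos] at * <;> try trivial
      rw [hc, hs]
      have : (√3 : ℝ) ≠ 0 := by positivity
      field_simp
    rw [h2]
    exact hz i j
  unfold Vd
  refine Finset.prod_le_prod (fun i _ => Finset.prod_nonneg fun _ _ => norm_nonneg _) fun i _ =>
    Finset.prod_le_prod (fun _ _ => norm_nonneg _) fun j hj => ?_
  rw [Finset.mem_Ioi] at hj
  exact key i j (ne_of_lt hj)

end M16x

theorem small7 (n : ℕ) (ho : Odd n) (hn : n ≤ 7) (z : Fin n → ℂ)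
    (hz : ∀ i j : Fin n, ‖z i - z j‖ ≤ 2) : Vd z ≤ Vd (reg n) := by
  obtain ⟨k, rfl⟩ := ho
  obtain rfl | rfl | rfl | rfl : k = 0 ∨ k = 1 ∨ k = 2 ∨ k = 3 := by omega
  · simp [Vd]
  · exact M16x.three z hz
  · exact final 5 (Or.inl rfl) z hz
  · exact final 7 (Or.inr rfl) z hz

end Pool.Agent.H280R2.RP
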