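import Pool.Agent.H280R2.RP.Defs9
import Pool.Agent.H280R2.RP.Defs
set_option autoImplicit false

namespace Pool.Agent.H280R2.RP

open Finset

/-- P1 -/
theorem ptolemy (a b c d : ℂ) :
    ‖c - a‖ * ‖d - b‖ ≤ ‖b - a‖ * ‖d - c‖ + ‖c - b‖ * ‖d - a‖ := by
  rw [← norm_mul, ← norm_mul, ← norm_mul]
  have h : (c - a) * (d - b) = (b - a) * (d - c) + (c - b) * (d - a) := by ring
  rw [h]
  exact norm_add_le _ _

namespace P1x

lemma prod_nine (f : Fin 9 → ℝ) :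
    ∏ i, f i = f 0 * f 1 * f 2 * f 3 * f 4 * f 5 * f 6 * f 7 * f 8 := by
  rw [Fin.prod_univ_castSucc, Fin.prod_univ_eight]
  rfl

lemma Vd_ite (n : ℕ) (z : Fin n → ℂ) :
    Vd z = ∏ i : Fin n, ∏ j : Fin n, if i < j then ‖z i - z j‖ else 1 := by
  unfold Vd
  refine prod_congr rfl fun i _ => ?_
  rw [← prod_filter]
  refine prod_congr ?_ fun _ _ => rfl
  ext j
  simp

end P1x

/-- P1 -/
theorem Vd_nine (y : Fin 9 → ℂ) (Z : ℕ → ℂ)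
    (hZ : ∀ j, Z j = y ⟨j % 9, Nat.mod_lt _ (by omega)⟩) :
    Vd y = (∏ j ∈ range 9, ‖Z (j + 1) - Z j‖) * (∏ j ∈ range 9, ‖Z (j + 2) - Z j‖) *
      (∏ j ∈ range 9, ‖Z (j + 3) - Z j‖) * ∏ j ∈ range 9, ‖Z (j + 4) - Z j‖ := by
  have h0 : Z 0 = y 0 := hZ 0
  have h1 : Z 1 = y 1 := hZ 1
  have h2 : Z 2 = y 2 := hZ 2
  have h3 : Z 3 = y 3 := hZ 3
  have h4 : Z 4 = y 4 := hZ 4
  have h5 : Z 5 = y 5 := hZ 5
  have h6 : Z 6 = y 6 := hZ 6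
  have h7 : Z 7 = y 7 := hZ 7
  have h8 : Z 8 = y 8 := hZ 8
  have h9 : Z 9 = y 0 := hZ 9
  have h10 : Z 10 = y 1 := hZ 10
  have h11 : Z 11 = y 2 := hZ 11
  have h12 : Z 12 = y 3 := hZ 12
  rw [P1x.Vd_ite]
  simp only [P1x.prod_nine, prod_range_succ, prod_range_zero, Nat.reduceAdd, h0, h1, h2, h3,
    h4, h5, h6, h7, h8, h9, h10, h11, h12]
  simp only [Fin.reduceLT, lt_self_iff_false, if_true, if_false, one_mul, mul_one,
    Fin.isValue, not_lt_zero]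
  rw [norm_sub_rev (y 1) (y 0), norm_sub_rev (y 2) (y 1), norm_sub_rev (y 3) (y 2),
    norm_sub_rev (y 4) (y 3), norm_sub_rev (y 5) (y 4), norm_sub_rev (y 6) (y 5),
    norm_sub_rev (y 7) (y 6), norm_sub_rev (y 8) (y 7),
    norm_sub_rev (y 2) (y 0), norm_sub_rev (y 3) (y 1),
    norm_sub_rev (y 4) (y 2), norm_sub_rev (y 5) (y 3), norm_sub_rev (y 6) (y 4),
    norm_sub_rev (y 7) (y 5), norm_sub_rev (y 8) (y 6),
    norm_sub_rev (y 3) (y 0), norm_sub_rev (y 4) (y 1), norm_sub_rev (y 5) (y 2),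
    norm_sub_rev (y 6) (y 3), norm_sub_rev (y 7) (y 4), norm_sub_rev (y 8) (y 5),
    norm_sub_rev (y 4) (y 0), norm_sub_rev (y 5) (y 1), norm_sub_rev (y 6) (y 2),
    norm_sub_rev (y 7) (y 3), norm_sub_rev (y 8) (y 4)]
  ring

end Pool.Agent.H280R2.RP
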