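import Pool.Agent.H280R2.RP.Defs9
import Pool.Agent.H280R2.RP.M11
set_option autoImplicit false

/-! # P2: the distances in the regular 9-gon -/

namespace Pool.Agent.H280R2.RP

open Finset

namespace P2x

open M11x

theorem cos_pos18 : 0 < Real.cos (Real.pi / 18) :=
  Real.cos_pos_of_mem_Ioo ⟨by linarith [Real.pi_pos], by linarith [Real.pi_pos]⟩

theorem e18 : Real.pi / (2 * ((9 : ℕ) : ℝ)) = Real.pi / 18 := by
  push_cast
  ring

theorem sin9 : Real.sin (Real.pi / 9) = 2 * Real.sin (Real.pi / 18) * Real.cos (Real.pi / 18) := by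
  rw [← Real.sin_two_mul]
  congr 1
  ring

theorem g91 : g 9 1 = h9 := by
  unfold g h9
  rw [abs_of_nonneg (mul_nonneg (by norm_num) (sin_nonneg' 9 1 (by norm_num) (by norm_num)))]
  have hc := cos_pos18.ne'
  have e1 : Real.pi * ((1 : ℕ) : ℝ) / ((9 : ℕ) : ℝ) = Real.pi / 9 := by
    push_cast
    ring
  rw [e1, e18, sin9]
  field_simp
  ring

theorem g92 : g 9 2 = 2 * h9 * c9 := by
  unfold g h9 c9
  rw [abs_of_nonneg (mul_nonneg (by norm_num) (sin_nonneg' 9 2 (by norm_num) (by norm_num)))]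
  have hc := cos_pos18.ne'
  have e1 : Real.pi * ((2 : ℕ) : ℝ) / ((9 : ℕ) : ℝ) = 2 * (Real.pi / 9) := by
    push_cast
    ring
  rw [e1, e18, Real.sin_two_mul, sin9]
  field_simp
  ring

theorem g94 : g 9 4 = 2 := by
  unfold g
  rw [abs_of_nonneg (mul_nonneg (by norm_num) (sin_nonneg' 9 4 (by norm_num) (by norm_num)))]
  have hc := cos_pos18.ne'
  have e1 : Real.pi * ((4 : ℕ) : ℝ) / ((9 : ℕ) : ℝ) = Real.pi / 2 - Real.pi / 18 := by
    push_cast
    ring
  rw [e1, e18, Real.sin_pi_div_two_sub]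
  field_simp

theorem sin_id (t : ℝ) : Real.sin (3 * t) ^ 2 = Real.sin t ^ 2 + Real.sin (2 * t) * Real.sin (4 * t) := by
  have e2 : 2 * t = 3 * t - t := by ring
  have e4 : 4 * t = 3 * t + t := by ring
  have h1 := Real.sin_sq_add_cos_sq (3 * t)
  have h2 := Real.sin_sq_add_cos_sq t
  rw [e2, e4, Real.sin_sub, Real.sin_add]
  linear_combination (Real.sin t ^ 2) * h1 - (Real.sin (3 * t) ^ 2) * h2

theorem g93 : g 9 3 = Real.sqrt S9 := by
  have hs := sin_nonneg' 9 3 (by norm_num) (by norm_num)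
  have hc := cos_pos18
  unfold g
  rw [abs_of_nonneg (mul_nonneg (by norm_num) hs)]
  have e1 : Real.pi * ((3 : ℕ) : ℝ) / ((9 : ℕ) : ℝ) = 3 * (Real.pi / 9) := by
    push_cast
    ring
  rw [e1] at hs ⊢
  rw [e18]
  have hnn : 0 ≤ 1 / Real.cos (Real.pi / 18) * (2 * Real.sin (3 * (Real.pi / 9))) := by
    positivity
  have e4 : Real.sin (4 * (Real.pi / 9)) = Real.cos (Real.pi / 18) := by
    rw [← Real.sin_pi_div_two_sub]
    congr 1
    ring
  have key : (1 / Real.cos (Real.pi / 18) * (2 * Real.sin (3 * (Real.pi / 9)))) ^ 2 = S9 := by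
    have hid := sin_id (Real.pi / 9)
    rw [e4, Real.sin_two_mul, sin9] at hid
    unfold S9 h9 c9
    rw [mul_pow, div_pow, mul_pow, hid]
    field_simp
    ring
  rw [← key, Real.sqrt_sq hnn]

theorem key9 (f : ℕ → ℝ) : ∏ i : Fin 9, ∏ j : Fin 9, (if i < j then f (j.val - i.val) else 1)
    = f 1 ^ 8 * f 2 ^ 7 * f 3 ^ 6 * f 4 ^ 5 * f 5 ^ 4 * f 6 ^ 3 * f 7 ^ 2 * f 8 := by
  have e : ∀ i : Fin 9, ∏ j : Fin 9, (if i < j then f (j.val - i.val) else 1)
      = ∏ j ∈ Finset.range 9, (if i.val < j then f (j - i.val) else 1) := by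
    intro i
    rw [← Fin.prod_univ_eq_prod_range (fun j => if i.val < j then f (j - i.val) else 1) 9]
    rfl
  rw [Finset.prod_congr rfl fun i _ => e i,
    Fin.prod_univ_eq_prod_range
      (fun i => ∏ j ∈ Finset.range 9, (if i < j then f (j - i) else 1)) 9]
  simp only [Finset.prod_range_succ, Finset.prod_range_zero]
  norm_num
  ring

end P2x

open M11x P2x in
/-- P2 -/
theorem reg_nine : Vd (reg 9) = h9 ^ 9 * (2 * h9 * c9) ^ 9 * (Real.sqrt S9) ^ 9 * 2 ^ 9 := by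
  have h5 : g 9 5 = g 9 4 := g_symm 9 (by norm_num) 4 (by norm_num)
  have h6 : g 9 6 = g 9 3 := g_symm 9 (by norm_num) 3 (by norm_num)
  have h7 : g 9 7 = g 9 2 := g_symm 9 (by norm_num) 2 (by norm_num)
  have h8 : g 9 8 = g 9 1 := g_symm 9 (by norm_num) 1 (by norm_num)
  rw [Vd_g 9 (by norm_num), prod_g, key9, h5, h6, h7, h8, g91, g92, g93, g94]
  ring

end Pool.Agent.H280R2.RP
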