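import Pool.Agent.H280R2.RP.Defs9
set_option autoImplicit false

namespace Pool.Agent.H280R2.RP

namespace P3x

noncomputable def f (r : ℝ) : ℝ := 2 * (r - 1) - 0.458 * (r - 1) ^ 2 - 2 * Real.log r

theorem hd (r : ℝ) (hr : r ≠ 0) : HasDerivAt f ((r - 1) * (2 / r - 0.916)) r := by
  have h1 : HasDerivAt (fun r : ℝ => r - 1) 1 r := (hasDerivAt_id r).sub_const 1
  have h2 := (h1.const_mul 2).sub ((h1.pow 2).const_mul 0.458)
  have h3 := h2.sub ((Real.hasDerivAt_log hr).const_mul 2)
  refine h3.congr_deriv ?_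
  field_simp
  ring

theorem cont (D : Set ℝ) (hD : ∀ r ∈ D, 0 < r) : ContinuousOn f D := fun r hr =>
  (hd r (hD r hr).ne').continuousAt.continuousWithinAt

theorem diff (D : Set ℝ) (hD : ∀ r ∈ D, 0 < r) : DifferentiableOn ℝ f (interior D) := fun r hr =>
  (hd r (hD r (interior_subset hr)).ne').differentiableAt.differentiableWithinAt

theorem anti (a b : ℝ) (ha : 0 < a) (hs : ∀ r, a < r → r < b → (r - 1) * (2 / r - 0.916) ≤ 0) :
    AntitoneOn f (Set.Icc a b) := by
  have hD : ∀ r ∈ Set.Icc a b, 0 < r := fun r hr => lt_of_lt_of_le ha hr.1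
  refine antitoneOn_of_deriv_nonpos (convex_Icc a b) (cont _ hD) (diff _ hD) ?_
  intro r hr
  rw [interior_Icc] at hr
  rw [(hd r (by linarith [hr.1])).deriv]
  exact hs r hr.1 hr.2

theorem mono (a b : ℝ) (ha : 0 < a) (hs : ∀ r, a < r → r < b → 0 ≤ (r - 1) * (2 / r - 0.916)) :
    MonotoneOn f (Set.Icc a b) := by
  have hD : ∀ r ∈ Set.Icc a b, 0 < r := fun r hr => lt_of_lt_of_le ha hr.1
  refine monotoneOn_of_deriv_nonneg (convex_Icc a b) (cont _ hD) (diff _ hD) ?_
  intro r hr
  rw [interior_Icc] at hr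
  rw [(hd r (by linarith [hr.1])).deriv]
  exact hs r hr.1 hr.2

theorem f1 : f 1 = 0 := by simp [f]

theorem f288 : 0 ≤ f 2.88 := by
  have h1 : Real.log 2.88 ≤ 2.88 / Real.exp 1 := by
    have h2 := Real.log_le_sub_one_of_pos (show (0:ℝ) < 2.88 / Real.exp 1 by positivity)
    rw [Real.log_div (by norm_num) (Real.exp_pos 1).ne', Real.log_exp] at h2
    linarith
  have h3 : 2.88 / Real.exp 1 ≤ 1.06 := by
    rw [div_le_iff₀ (Real.exp_pos 1)]
    have := Real.exp_one_gt_d9
    nlinarith
  unfold f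
  norm_num at *
  linarith

end P3x

open P3x in
theorem log_quad (r : ℝ) (h0 : 0 < r) (h1 : r ≤ 2.88) :
    2 * Real.log r ≤ 2 * (r - 1) - 0.458 * (r - 1) ^ 2 := by
  have key : 0 ≤ f r := by
    rcases le_total r 1 with h | h
    · have h2 := anti r 1 h0 (fun s hs1 hs2 => by
        have hs0 : 0 < s := h0.trans hs1
        have h3 : 0 ≤ 2 / s - 0.916 := by
          rw [sub_nonneg, le_div_iff₀ hs0]
          nlinarith
        nlinarith) ⟨le_refl r, h⟩ ⟨h, le_refl 1⟩ h
      rw [f1] at h2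
      exact h2
    · rcases le_total r (2 / 0.916) with h' | h'
      · have h2 := mono 1 r one_pos (fun s hs1 hs2 => by
          have hs0 : 0 < s := one_pos.trans hs1
          have h3 : 0 ≤ 2 / s - 0.916 := by
            rw [sub_nonneg, le_div_iff₀ hs0]
            rw [le_div_iff₀ (by norm_num)] at h'
            nlinarith
          exact mul_nonneg (by linarith) h3) ⟨le_refl 1, h⟩ ⟨h, le_refl r⟩ h
        rw [f1] at h2
        exact h2
      · have h2 := anti r 2.88 h0 (fun s hs1 hs2 => by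
          have hs0 : 0 < s := h0.trans hs1
          have h3 : 2 / s - 0.916 ≤ 0 := by
            rw [sub_nonpos, div_le_iff₀ hs0]
            rw [div_le_iff₀ (by norm_num)] at h'
            nlinarith
          exact mul_nonpos_of_nonneg_of_nonpos (by linarith) h3) ⟨le_refl r, h1⟩ ⟨h1, le_refl _⟩ h1
        exact f288.trans h2
  unfold f at key
  linarith

end Pool.Agent.H280R2.RP
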