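import Pool.Agent.H280R2.RP.Defs9
import Mathlib
set_option autoImplicit false

namespace Pool.Agent.H280R2.RP

namespace P4x

theorem s_bounds : 0.173648 < Real.sin (Real.pi / 18) ∧ Real.sin (Real.pi / 18) < 0.173649 := by
  obtain ⟨s, hs⟩ : ∃ s, s = Real.sin (Real.pi / 18) := ⟨_, rfl⟩
  have h3 : 3 * s - 4 * s ^ 3 = 1 / 2 := by
    have h := Real.sin_three_mul (Real.pi / 18)
    rw [show 3 * (Real.pi / 18) = Real.pi / 6 by ring, Real.sin_pi_div_six] at h
    rw [hs]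
    linarith
  have h0 : 0 < s := by
    rw [hs]
    exact Real.sin_pos_of_pos_of_lt_pi (by positivity) (by linarith [Real.pi_pos])
  have h1 : s < 0.2 := by
    rw [hs]
    have h := Real.sin_lt (x := Real.pi / 18) (by positivity)
    have := Real.pi_lt_d2
    linarith
  rw [← hs]
  constructor
  · by_contra hc
    push Not at hc
    have e : 0 ≤ (0.173648 - s) * (3 - 4 * (s ^ 2 + s * 0.173648 + 0.173648 ^ 2)) := by
      apply mul_nonneg (by linarith)
      nlinarith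
    norm_num at e
    nlinarith
  · by_contra hc
    push Not at hc
    have e : 0 ≤ (s - 0.173649) * (3 - 4 * (s ^ 2 + s * 0.173649 + 0.173649 ^ 2)) := by
      apply mul_nonneg (by linarith)
      nlinarith
    norm_num at e
    nlinarith

theorem c_eq : c9 = 1 - 2 * Real.sin (Real.pi / 18) ^ 2 := by
  unfold c9
  rw [show Real.pi / 9 = 2 * (Real.pi / 18) by ring, Real.cos_two_mul, Real.cos_sq']
  ring

theorem c_bounds : 0.939692 < c9 ∧ c9 < 0.939693 := by
  obtain ⟨h1, h2⟩ := s_bounds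
  rw [c_eq]
  constructor <;> nlinarith

theorem S_bounds : 0.34201 < Real.sin (Real.pi / 9) ∧ Real.sin (Real.pi / 9) < 0.34203 := by
  obtain ⟨h1, h2⟩ := c_bounds
  have h3 : 0 < Real.sin (Real.pi / 9) :=
    Real.sin_pos_of_pos_of_lt_pi (by positivity) (by linarith [Real.pi_pos])
  have h4 := Real.sin_sq_add_cos_sq (Real.pi / 9)
  have h5 : Real.cos (Real.pi / 9) = c9 := rfl
  rw [h5] at h4
  constructor
  · by_contra hc
    push Not at hc
    nlinarith
  · by_contra hc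
    push Not at hc
    nlinarith

end P4x

theorem consts : (0.6945 < h9 ∧ h9 < 0.6947) ∧ (0.9396 < c9 ∧ c9 < 0.9398) ∧
    (0.3419 < Real.sin (Real.pi / 9) ∧ Real.sin (Real.pi / 9) < 0.3421) ∧
    (0.3639 < Real.tan (Real.pi / 9) ∧ Real.tan (Real.pi / 9) < 0.3641) ∧
    (0.4490 < l9 ∧ l9 < 0.4492) ∧ (0.0779 < k9 ∧ k9 < 0.0781) ∧ (0.2586 < B9 ∧ B9 < 0.2589) := by
  obtain ⟨s1, s2⟩ := P4x.s_bounds
  obtain ⟨c1, c2⟩ := P4x.c_bounds
  obtain ⟨t1, t2⟩ := P4x.S_bounds
  have hh : h9 = 4 * Real.sin (Real.pi / 18) := rfl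
  have h1 : 0.694592 < h9 := by rw [hh]; linarith
  have h2 : h9 < 0.694596 := by rw [hh]; linarith
  have hc : Real.cos (Real.pi / 9) = c9 := rfl
  have hc0 : 0 < c9 := by linarith
  have hT : Real.tan (Real.pi / 9) = Real.sin (Real.pi / 9) / c9 := by
    rw [Real.tan_eq_sin_div_cos, hc]
  have T1 : 0.3639 < Real.tan (Real.pi / 9) := by
    rw [hT, lt_div_iff₀ hc0]
    nlinarith
  have T2 : Real.tan (Real.pi / 9) < 0.3641 := by
    rw [hT, div_lt_iff₀ hc0]
    nlinarith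
  have hd : 0 < h9 + 4 * c9 := by linarith
  have L1 : 0.4490 < l9 := by
    unfold l9
    rw [lt_div_iff₀ hd]
    nlinarith
  have L2 : l9 < 0.4492 := by
    unfold l9
    rw [div_lt_iff₀ hd]
    nlinarith
  have K1 : 0.0779 < k9 := by
    unfold k9
    rw [lt_div_iff₀ (by linarith)]
    nlinarith
  have K2 : k9 < 0.0781 := by
    unfold k9
    rw [div_lt_iff₀ (by linarith)]
    nlinarith
  refine ⟨⟨by linarith, by linarith⟩, ⟨by linarith, by linarith⟩, ⟨by linarith, by linarith⟩,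
    ⟨T1, T2⟩, ⟨L1, L2⟩, ⟨K1, K2⟩, ?_, ?_⟩
  · unfold B9
    nlinarith [mul_pos (sub_pos.2 L1) (show (0:ℝ) < Real.sin (Real.pi / 9) - 0.3419 by linarith)]
  · unfold B9
    nlinarith [mul_pos (sub_pos.2 L2) (show (0:ℝ) < 0.3421 - Real.sin (Real.pi / 9) by linarith)]

end Pool.Agent.H280R2.RP
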