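import Pool.Agent.H280R2.RP.Defs9
import Pool.Agent.H280R2.RP.P4
set_option autoImplicit false

namespace Pool.Agent.H280R2.RP

namespace P5x

theorem log_one_sub {y : ℝ} (h0 : 0 ≤ y) (h1 : y < 1) : Real.log (1 - y) ≤ -y - y ^ 2 / 2 := by
  have h := Real.hasSum_pow_div_log_of_abs_lt_one (x := y) (by rw [abs_of_nonneg h0]; exact h1)
  have h2 := sum_le_hasSum (Finset.range 2) (fun i _ => by positivity) h
  norm_num [Finset.sum_range_succ] at h2
  linarith

theorem cos_le {d : ℝ} (h1 : -0.3491 ≤ d) (h2 : d ≤ 0.321) :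
    Real.cos d - 1 ≤ -0.4936 * d ^ 2 := by
  have h := Real.cos_bound (x := d) (by rw [abs_le]; constructor <;> linarith)
  have h3 := (abs_le.1 h).2
  have h4 : |d| ^ 4 = d ^ 2 * d ^ 2 := by
    rw [show |d| ^ 4 = (|d| ^ 2) * (|d| ^ 2) by ring, sq_abs]
  rw [h4] at h3
  have h5 : d ^ 2 ≤ 0.122 := by nlinarith
  nlinarith [sq_nonneg d, mul_nonneg (sq_nonneg d) (sub_nonneg.2 h5)]

theorem sub_sin_le {d : ℝ} (h1 : -0.3491 ≤ d) (h2 : d ≤ 0.321) :
    d - Real.sin d ≤ 0.0803 * d ^ 2 := by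
  rcases le_or_gt d 0 with h | h
  · have h3 : Real.sin (-d) ≤ -d := Real.sin_le (by linarith)
    rw [Real.sin_neg] at h3
    nlinarith [sq_nonneg d]
  · have h3 := Real.sin_gt_sub_cube h
    nlinarith [sq_nonneg d, mul_nonneg (sq_nonneg d) (sub_nonneg.2 h2)]

end P5x

/-- P5 -/
theorem case1 (v y : ℝ) (hv : 0 < v) (hv' : v < Real.pi / 2) (hc : 0.787 ≤ Real.cos v)
    (hy : 0 ≤ y) (hy1 : y < 1) (q : ℝ)
    (hq : q = Real.sqrt (Real.cos v ^ 2 + y * Real.sin v ^ 2)) :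
    (1 / 2) * Real.log ((1 - y) * q ^ 2 / c9 ^ 2) + 2 * B9 * (v - Real.pi / 9) +
      l9 * (q - c9) + k9 * y + (l9 * (q - c9) + 2 * k9 * y) ^ 2 / 1.2 ≤ 0 := by
  obtain ⟨-, ⟨hc1, hc2⟩, ⟨hs1, hs2⟩, ⟨ht1, ht2⟩, ⟨hl1, hl2⟩, ⟨hk1, hk2⟩, -⟩ := consts
  have hpi1 := Real.pi_gt_d6
  have hpi2 := Real.pi_lt_d6
  -- `v ≤ 0.67`
  have hv67 : v ≤ 0.67 := by
    by_contra h
    push Not at h
    have h1 : Real.cos v < Real.cos 0.67 :=
      Real.cos_lt_cos_of_nonneg_of_le_pi_div_two (by norm_num) hv'.le h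
    have h2 := Real.cos_bound (x := 0.67) (by rw [abs_le]; constructor <;> norm_num)
    have h3 := (abs_le.1 h2).2
    have h4 : |(0.67 : ℝ)| = 0.67 := abs_of_pos (by norm_num)
    rw [h4] at h3
    norm_num at h3 hc h1
    linarith
  set c := Real.cos v with hcdef
  set d := v - Real.pi / 9 with hd
  have hd1 : -0.3491 ≤ d := by rw [hd]; linarith
  have hd2 : d ≤ 0.321 := by rw [hd]; linarith
  have hc0 : 0 < c := by linarith
  have hc1' : c ≤ 1 := Real.cos_le_one v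
  have hs2' : Real.sin v ^ 2 = 1 - c ^ 2 := by
    have := Real.sin_sq_add_cos_sq v
    rw [hcdef]; linarith
  have hss : Real.sin v ^ 2 ≤ 0.380631 := by
    rw [hs2']
    nlinarith
  have hss0 : 0 ≤ Real.sin v ^ 2 := sq_nonneg _
  set s2 := Real.sin v ^ 2 with hs2def
  have hq2 : q ^ 2 = c ^ 2 + y * s2 := by
    rw [hq, Real.sq_sqrt (by positivity)]
  have hq0 : 0 ≤ q := by rw [hq]; exact Real.sqrt_nonneg _
  have hqc : c ≤ q := by
    have h1 : c ^ 2 ≤ q ^ 2 := by rw [hq2]; nlinarith [mul_nonneg hy hss0]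
    exact le_of_sq_le_sq h1 hq0
  -- the bounds for the two quotients
  have hu : q - c ≤ 0.2419 * y := by
    have h1 : q ≤ c + 0.2419 * y := by
      apply le_of_sq_le_sq _ (by positivity)
      rw [hq2]
      have h2 : y * s2 ≤ y * (2 * c * 0.2419) := by
        apply mul_le_mul_of_nonneg_left _ hy
        nlinarith
      nlinarith [sq_nonneg (0.2419 * y)]
    linarith
  have hw : y * s2 / c ^ 2 ≤ 0.6146 * y := by
    rw [div_le_iff₀ (by positivity)]
    have : s2 ≤ 0.6146 * c ^ 2 := by nlinarith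
    nlinarith [mul_le_mul_of_nonneg_left this hy]
  -- logarithms
  have hc9 : 0 < c9 := by linarith
  have h1y : 0 < 1 - y := by linarith
  have hlog : Real.log ((1 - y) * q ^ 2 / c9 ^ 2) ≤
      -y - y ^ 2 / 2 + y * s2 / c ^ 2 + 2 * (c / c9 - 1) := by
    have e1 : (1 - y) * q ^ 2 / c9 ^ 2 = (1 - y) * ((1 + y * s2 / c ^ 2) * (c / c9) ^ 2) := by
      rw [hq2]
      field_simp
    have hpos1 : 0 < 1 + y * s2 / c ^ 2 := by positivity
    have hpos2 : 0 < c / c9 := by positivity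
    rw [e1, Real.log_mul h1y.ne' (by positivity), Real.log_mul hpos1.ne' (by positivity),
      Real.log_pow]
    have e2 := P5x.log_one_sub hy hy1
    have e3 := Real.log_le_sub_one_of_pos hpos1
    have e4 := Real.log_le_sub_one_of_pos hpos2
    push_cast
    linarith
  -- trigonometry
  have hadd : c = c9 * Real.cos d - Real.sin (Real.pi / 9) * Real.sin d := by
    rw [hcdef, c9, ← Real.cos_add]
    congr 1
    rw [hd]; ring
  have htan : Real.tan (Real.pi / 9) * c9 = Real.sin (Real.pi / 9) := by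
    rw [Real.tan_eq_sin_div_cos, c9, div_mul_cancel₀]
    exact hc9.ne'
  have hcc : c / c9 - 1 = Real.cos d - 1 - Real.tan (Real.pi / 9) * Real.sin d := by
    rw [div_sub_one hc9.ne', div_eq_iff hc9.ne', hadd, ← htan]
    ring
  have hcos := P5x.cos_le hd1 hd2
  have hsin := P5x.sub_sin_le hd1 hd2
  have hcosle : Real.cos d ≤ 1 := Real.cos_le_one d
  have hLip : |c - c9| ≤ |d| := by
    have := Real.abs_cos_sub_cos_le v (Real.pi / 9)
    exact this
  set S := Real.sin (Real.pi / 9) with hS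
  set T := Real.tan (Real.pi / 9) with hT
  have hB : 2 * B9 = T + l9 * S := by
    rw [B9]; ring
  have hccd : c - c9 = c9 * (Real.cos d - 1) - S * Real.sin d := by
    rw [hadd]; ring
  set C := Real.cos d with hC
  set Z := Real.sin d with hZ
  -- the square
  have hl0 : 0 < l9 := by linarith
  have hk0 : 0 < k9 := by linarith
  have hbeta : (l9 * (q - c9) + 2 * k9 * y) ^ 2 ≤ 2 * (0.4492 * |d|) ^ 2 + 2 * (0.2649 * y) ^ 2 := by
    have e1 : |l9 * (q - c9) + 2 * k9 * y| ≤ 0.4492 * |d| + 0.2649 * y := by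
      have e2 : l9 * (q - c9) + 2 * k9 * y = l9 * (c - c9) + (l9 * (q - c) + 2 * k9 * y) := by ring
      rw [e2]
      refine (abs_add_le _ _).trans (add_le_add ?_ ?_)
      · rw [abs_mul, abs_of_pos hl0]
        exact mul_le_mul hl2.le hLip (abs_nonneg _) (by norm_num)
      · rw [abs_of_nonneg (by have := mul_nonneg hl0.le (sub_nonneg.2 hqc); positivity)]
        have e3 : l9 * (q - c) ≤ 0.4492 * (0.2419 * y) :=
          mul_le_mul hl2.le hu (sub_nonneg.2 hqc) (by norm_num)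
        have e4 : k9 * y ≤ 0.0781 * y := mul_le_mul_of_nonneg_right hk2.le hy
        nlinarith
    have e5 : (l9 * (q - c9) + 2 * k9 * y) ^ 2 ≤ (0.4492 * |d| + 0.2649 * y) ^ 2 := by
      rw [← sq_abs]
      exact pow_le_pow_left₀ (abs_nonneg _) e1 2
    nlinarith [sq_nonneg (0.4492 * |d| - 0.2649 * y)]
  have hsq : |d| ^ 2 = d ^ 2 := sq_abs d
  have hbeta' : (l9 * (q - c9) + 2 * k9 * y) ^ 2 / 1.2 ≤ 0.3364 * d ^ 2 + 0.117 * y ^ 2 := by
    rw [div_le_iff₀ (by norm_num)]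
    rw [mul_pow, mul_pow, hsq] at hbeta
    nlinarith [sq_nonneg d, sq_nonneg y]
  -- final estimate
  have e1 : l9 * (q - c9) = l9 * (q - c) + l9 * (c9 * (C - 1)) - l9 * S * Z := by
    have : q - c9 = (q - c) + (c - c9) := by ring
    rw [this, mul_add, hccd]; ring
  have e2 : l9 * (q - c) ≤ 0.4492 * (0.2419 * y) :=
    mul_le_mul hl2.le hu (sub_nonneg.2 hqc) (by norm_num)
  have e3 : l9 * (c9 * (C - 1)) ≤ 0 := by
    have : C - 1 ≤ 0 := by linarith
    have := mul_nonpos_of_nonneg_of_nonpos hc9.le this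
    exact mul_nonpos_of_nonneg_of_nonpos hl0.le this
  have e4 : k9 * y ≤ 0.0781 * y := mul_le_mul_of_nonneg_right hk2.le hy
  have e5 : (T + l9 * S) * (d - Z) ≤ 0.5179 * (0.0803 * d ^ 2) := by
    have hTS0 : 0 ≤ T + l9 * S := by
      have := mul_nonneg hl0.le (by linarith : 0 ≤ S)
      linarith
    have hTS : T + l9 * S ≤ 0.5179 := by
      have : l9 * S ≤ 0.4492 * 0.3421 := mul_le_mul hl2.le hs2.le (by linarith) (by norm_num)
      linarith
    calc (T + l9 * S) * (d - Z) ≤ (T + l9 * S) * (0.0803 * d ^ 2) :=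
          mul_le_mul_of_nonneg_left hsin hTS0
      _ ≤ 0.5179 * (0.0803 * d ^ 2) := mul_le_mul_of_nonneg_right hTS (by positivity)
  rw [hB]
  have e6 : (1 / 2) * Real.log ((1 - y) * q ^ 2 / c9 ^ 2) ≤
      -y / 2 - y ^ 2 / 4 + 0.3073 * y + (C - 1 - T * Z) := by
    rw [hcc] at hlog
    linarith
  nlinarith [sq_nonneg d, sq_nonneg y]

end Pool.Agent.H280R2.RP
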