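import Pool.Agent.H280R2.RP.Defs9
import Pool.Agent.H280R2.RP.P4
set_option autoImplicit false

namespace Pool.Agent.H280R2.RP

namespace P6x

theorem g0 (q : ℝ) (h0 : 0 ≤ q) (h1 : q ≤ 1) :
    -2 * (q ^ 2 - 1 / 2) ^ 2 + 4491 / 10000 * (q - 9397 / 10000) +
      5 / 6 * (4491 / 10000 * (q - 9397 / 10000)) ^ 2 ≤ -42 / 1000 := by
  nlinarith [sq_nonneg (q ^ 2 - 564 / 1000), sq_nonneg (q - 7576 / 10000)]

theorem g1 (q : ℝ) (h0 : 0 ≤ q) (h1 : q ≤ 1) :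
    -2 * (q ^ 2 - 1 / 2) ^ 2 + 4491 / 10000 * (q - 9397 / 10000) + 78 / 1000 * q ^ 2 +
      5 / 6 * (4491 / 10000 * (q - 9397 / 10000) + 156 / 1000 * q ^ 2) ^ 2 ≤ -42 / 1000 := by
  nlinarith [sq_nonneg (q ^ 2 - 295 / 10000 * q - 573 / 1000), sq_nonneg (q - 7657 / 10000)]

theorem f0' (q y : ℝ) (h0 : 0 ≤ q) (h1 : q ≤ 1) (hy : 0 ≤ y) (hyq : y ≤ q ^ 2) :
    -2 * (q ^ 2 - 1 / 2) ^ 2 + 4491 / 10000 * (q - 9397 / 10000) + 78 / 1000 * y +
      5 / 6 * (4491 / 10000 * (q - 9397 / 10000) + 156 / 1000 * y) ^ 2 ≤ -42 / 1000 := by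
  have e0 := g0 q h0 h1
  have e1 := g1 q h0 h1
  rcases eq_or_lt_of_le (sq_nonneg q) with hq | hq
  · have hy0 : y = 0 := le_antisymm (by rw [hq]; exact hyq) hy
    subst hy0
    simpa using e0
  · -- convexity in y
    set F : ℝ → ℝ := fun z => -2 * (q ^ 2 - 1 / 2) ^ 2 + 4491 / 10000 * (q - 9397 / 10000) +
      78 / 1000 * z + 5 / 6 * (4491 / 10000 * (q - 9397 / 10000) + 156 / 1000 * z) ^ 2 with hF
    have h2 : q ^ 2 * F y ≤ (q ^ 2 - y) * F 0 + y * F (q ^ 2) := by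
      have h3 : 0 ≤ y * (q ^ 2 - y) := mul_nonneg hy (by linarith)
      have h3' : (q ^ 2 - y) * F 0 + y * F (q ^ 2) - q ^ 2 * F y =
          5 / 6 * (156 / 1000) ^ 2 * (y * (q ^ 2 - y) * q ^ 2) := by
        simp only [hF]
        ring
      have h3'' : 0 ≤ y * (q ^ 2 - y) * q ^ 2 := mul_nonneg h3 hq.le
      linarith
    have h4 : F 0 ≤ -42 / 1000 := by
      simp only [hF]
      simpa using e0
    have h5 : F (q ^ 2) ≤ -42 / 1000 := e1
    have h6 : (q ^ 2 - y) * F 0 ≤ (q ^ 2 - y) * (-42 / 1000) :=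
      mul_le_mul_of_nonneg_left h4 (by linarith)
    have h7 : y * F (q ^ 2) ≤ y * (-42 / 1000) := mul_le_mul_of_nonneg_left h5 hy
    have h8 : q ^ 2 * F y ≤ q ^ 2 * (-42 / 1000) := by linarith
    exact le_of_mul_le_mul_left h8 hq

theorem f0 (q y : ℝ) (h0 : 0 ≤ q) (h1 : q ≤ 1) (hy : 0 ≤ y) (hyq : y ≤ q ^ 2) :
    -2 * (q ^ 2 - 1 / 2) ^ 2 + 0.4491 * (q - 0.9397) + 0.078 * y +
      5 / 6 * (0.4491 * (q - 0.9397) + 0.156 * y) ^ 2 ≤ -0.042 := by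
  have h := f0' q y h0 h1 hy hyq
  norm_num at h ⊢
  linarith

theorem exp3 (u : ℝ) (hu : 0 ≤ u) : 1 + u + u ^ 2 / 2 + u ^ 3 / 6 ≤ Real.exp u := by
  have := Real.sum_le_exp_of_nonneg hu 4
  simp [Finset.sum_range_succ, Nat.factorial] at this
  linarith

theorem exp4 : (1.6215 : ℝ) ≤ Real.exp 0.4835 := by
  have := Real.sum_le_exp_of_nonneg (show (0 : ℝ) ≤ 0.4835 by norm_num) 5
  simp [Finset.sum_range_succ, Nat.factorial] at this
  norm_num at this ⊢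
  linarith

theorem lin (l c q : ℝ) (h0 : 0 ≤ q) (h1 : q ≤ 1) (hl1 : 0.4490 < l) (hl2 : l < 0.4492)
    (hc1 : 0.9396 < c) (hc2 : c < 0.9398) :
    |l * (q - c) - 0.4491 * (q - 0.9397)| ≤ 0.00015 := by
  have e : l * (q - c) - 0.4491 * (q - 0.9397) =
      (l - 0.4491) * (q - 0.9397) - l * (c - 0.9397) := by ring
  rw [e]
  have a1 : |l - 0.4491| ≤ 0.0001 := abs_le.2 ⟨by linarith, by linarith⟩
  have a2 : |q - 0.9397| ≤ 0.94 := abs_le.2 ⟨by linarith, by linarith⟩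
  have a3 : |c - 0.9397| ≤ 0.0001 := abs_le.2 ⟨by linarith, by linarith⟩
  have a4 : |l| ≤ 0.4492 := abs_le.2 ⟨by linarith, by linarith⟩
  calc |(l - 0.4491) * (q - 0.9397) - l * (c - 0.9397)|
      ≤ |(l - 0.4491) * (q - 0.9397)| + |l * (c - 0.9397)| := abs_sub _ _
    _ = |l - 0.4491| * |q - 0.9397| + |l| * |c - 0.9397| := by rw [abs_mul, abs_mul]
    _ ≤ 0.0001 * 0.94 + 0.4492 * 0.0001 :=
        add_le_add (mul_le_mul a1 a2 (abs_nonneg _) (by norm_num))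
          (mul_le_mul a4 a3 (abs_nonneg _) (by norm_num))
    _ ≤ 0.00015 := by norm_num

theorem kin (k y : ℝ) (h0 : 0 ≤ y) (h1 : y ≤ 1) (hk1 : 0.0779 < k) (hk2 : k < 0.0781) :
    |k * y - 0.078 * y| ≤ 0.0001 := by
  have e : k * y - 0.078 * y = (k - 0.078) * y := by ring
  rw [e, abs_mul]
  have a1 : |k - 0.078| ≤ 0.0001 := abs_le.2 ⟨by linarith, by linarith⟩
  have a2 : |y| ≤ 1 := abs_le.2 ⟨by linarith, by linarith⟩
  calc |k - 0.078| * |y| ≤ 0.0001 * 1 := mul_le_mul a1 a2 (abs_nonneg _) (by norm_num)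
    _ = 0.0001 := by norm_num

theorem sqb (b c : ℝ) (h1 : |b - c| ≤ 0.00035) (h2 : |c| ≤ 0.45) : b ^ 2 ≤ c ^ 2 + 0.0004 := by
  have e : b ^ 2 = c ^ 2 + (b - c) * (2 * c + (b - c)) := by ring
  rw [e]
  have a1 : |2 * c + (b - c)| ≤ 0.91 := by
    calc |2 * c + (b - c)| ≤ |2 * c| + |b - c| := abs_add_le _ _
      _ = 2 * |c| + |b - c| := by rw [abs_mul, abs_two]
      _ ≤ 0.91 := by linarith
  have a2 : (b - c) * (2 * c + (b - c)) ≤ 0.0004 := by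
    calc (b - c) * (2 * c + (b - c)) ≤ |(b - c) * (2 * c + (b - c))| := le_abs_self _
      _ = |b - c| * |2 * c + (b - c)| := abs_mul _ _
      _ ≤ 0.00035 * 0.91 := mul_le_mul h1 a1 (abs_nonneg _) (by norm_num)
      _ ≤ 0.0004 := by norm_num
  linarith

/-- the bound for `-log sin v` -/
theorem logsin (v : ℝ) (hv : 0 < v) (hv' : v < Real.pi / 2) (hc : Real.cos v ≤ 0.787) :
    -Real.log (Real.sin v) ≤ 0.5172 * (Real.pi / 2 - v) + 0.034 := by
  have hs : 0 < Real.sin v := Real.sin_pos_of_pos_of_lt_pi hv (by linarith [Real.pi_pos])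
  have hc0 : 0 < Real.cos v := Real.cos_pos_of_mem_Ioo ⟨by linarith [Real.pi_pos], hv'⟩
  by_cases hw : 0.87 ≤ Real.pi / 2 - v
  · have h1 : (0.61695 : ℝ) ≤ Real.sin v := by
      have h2 := Real.sin_sq_add_cos_sq v
      by_contra h3
      push Not at h3
      nlinarith
    have h2 : Real.exp (-0.4835) ≤ Real.sin v := by
      rw [Real.exp_neg]
      have h3 : (Real.exp 0.4835)⁻¹ ≤ (1.6215 : ℝ)⁻¹ :=
        inv_anti₀ (by norm_num) exp4
      refine h3.trans (le_trans ?_ h1)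
      norm_num
    have h3 : -0.4835 ≤ Real.log (Real.sin v) := (Real.le_log_iff_exp_le hs).2 h2
    linarith
  · push Not at hw
    set w := Real.pi / 2 - v with hwd
    have hw0 : 0 < w := by linarith
    have h1 : Real.sin v = Real.cos w := by
      rw [hwd, Real.cos_pi_div_two_sub]
    have h2 : 1 - w ^ 2 / 2 ≤ Real.sin v := by
      rw [h1]
      exact Real.one_sub_sq_div_two_le_cos
    set u := 0.5172 * w + 0.034 with hu
    have hu0 : 0 ≤ u := by linarith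
    have h3 := exp3 u hu0
    have h4 : 1 ≤ (1 - w ^ 2 / 2) * (1 + u + u ^ 2 / 2 + u ^ 3 / 6) := by
      rw [hu]
      have hA : 0 ≤ w * (0.87 - w) := mul_nonneg hw0.le (by linarith)
      nlinarith [mul_nonneg hA hw0.le, mul_nonneg (mul_nonneg hA hw0.le) hw0.le,
        mul_nonneg (mul_nonneg (mul_nonneg hA hw0.le) hw0.le) hw0.le]
    have h5 : 0 < 1 - w ^ 2 / 2 := by nlinarith
    have h6 : 1 ≤ Real.sin v * Real.exp u := by
      have h7 : (1 - w ^ 2 / 2) * (1 + u + u ^ 2 / 2 + u ^ 3 / 6) ≤ Real.sin v * Real.exp u :=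
        mul_le_mul h2 h3 (by positivity) hs.le
      linarith
    have h7 : Real.exp (-u) ≤ Real.sin v := by
      rw [Real.exp_neg, inv_le_iff_one_le_mul₀ (Real.exp_pos u)]
      exact h6
    have h8 : -u ≤ Real.log (Real.sin v) := (Real.le_log_iff_exp_le hs).2 h7
    linarith

end P6x

/-- P6 -/
theorem case2 (v y : ℝ) (hv : 0 < v) (hv' : v < Real.pi / 2) (hc : Real.cos v ≤ 0.787)
    (hy : 0 ≤ y) (hy1 : y < 1) (q : ℝ)
    (hq : q = Real.sqrt (Real.cos v ^ 2 + y * Real.sin v ^ 2)) :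
    (1 / 2) * Real.log ((1 - y) * q ^ 2 / c9 ^ 2) + 2 * B9 * (v - Real.pi / 9) +
      l9 * (q - c9) + k9 * y + (l9 * (q - c9) + 2 * k9 * y) ^ 2 / 1.2 ≤ 0 := by
  obtain ⟨-, ⟨hc1, hc2⟩, -, -, ⟨hl1, hl2⟩, ⟨hk1, hk2⟩, ⟨hB1, hB2⟩⟩ := consts
  have hs : 0 < Real.sin v := Real.sin_pos_of_pos_of_lt_pi hv (by linarith [Real.pi_pos])
  have hc0 : 0 < Real.cos v := Real.cos_pos_of_mem_Ioo ⟨by linarith [Real.pi_pos], hv'⟩
  have hsc := Real.sin_sq_add_cos_sq v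
  have ht0 : 0 < Real.cos v ^ 2 + y * Real.sin v ^ 2 := by positivity
  have hq0 : 0 < q := by
    rw [hq]
    exact Real.sqrt_pos.2 ht0
  have hq2 : q ^ 2 = Real.cos v ^ 2 + y * Real.sin v ^ 2 := by
    rw [hq, Real.sq_sqrt ht0.le]
  have h1t : 1 - q ^ 2 = (1 - y) * Real.sin v ^ 2 := by
    rw [hq2]
    linear_combination (-1 : ℝ) * hsc
  have h1t0 : 0 < 1 - q ^ 2 := by
    rw [h1t]
    have : 0 < 1 - y := by linarith
    positivity
  have hq1 : q ≤ 1 := by nlinarith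
  have hyq : y ≤ q ^ 2 := by
    -- 1 - q^2 = (1-y) s^2 <= 1 - y
    have h2 : Real.sin v ^ 2 ≤ 1 := by nlinarith
    have h3 : (1 - y) * Real.sin v ^ 2 ≤ (1 - y) * 1 :=
      mul_le_mul_of_nonneg_left h2 (by linarith)
    linarith
  -- the logarithm
  have hc9 : 0 < c9 := by linarith
  have hlog : Real.log ((1 - y) * q ^ 2 / c9 ^ 2) =
      Real.log (4 * (q ^ 2 * (1 - q ^ 2))) - 2 * Real.log 2 - 2 * Real.log (Real.sin v) -
        2 * Real.log c9 := by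
    have e1 : (1 - y) * q ^ 2 / c9 ^ 2 =
        (4 * (q ^ 2 * (1 - q ^ 2))) / ((2 * (Real.sin v * c9)) ^ 2) := by
      rw [h1t]
      field_simp
      ring
    have e2 : Real.log ((2 * (Real.sin v * c9)) ^ 2) =
        2 * (Real.log 2 + (Real.log (Real.sin v) + Real.log c9)) := by
      rw [Real.log_pow, Real.log_mul two_ne_zero (by positivity), Real.log_mul hs.ne' hc9.ne']
      push_cast
      ring
    rw [e1, Real.log_div (by positivity) (by positivity), e2]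
    ring
  have h4 : Real.log (4 * (q ^ 2 * (1 - q ^ 2))) ≤ 4 * (q ^ 2 * (1 - q ^ 2)) - 1 :=
    Real.log_le_sub_one_of_pos (by positivity)
  have h5 := P6x.logsin v hv hv' hc
  have h6 : -Real.log c9 ≤ 0.0643 := by
    have h7 := Real.one_sub_inv_le_log_of_pos hc9
    have h8 : c9⁻¹ ≤ (0.9396 : ℝ)⁻¹ := inv_anti₀ (by norm_num) hc1.le
    have h9 : (0.9396 : ℝ)⁻¹ ≤ 1.0643 := by norm_num
    linarith
  have h7 := Real.log_two_gt_d9
  have hpi1 := Real.pi_gt_d4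
  have hpi2 := Real.pi_lt_d4
  -- the angle
  have h8 : 2 * B9 * (v - Real.pi / 9) ≤ 0.63262 - 0.5172 * (Real.pi / 2 - v) := by
    have e : v - Real.pi / 9 = 7 * Real.pi / 18 - (Real.pi / 2 - v) := by ring
    rw [e]
    have h9 : 0 < Real.pi / 2 - v := by linarith
    have h10 : 2 * B9 * (7 * Real.pi / 18) ≤ 0.63262 := by
      obtain ⟨P, hP⟩ : ∃ P, P = 7 * Real.pi / 18 := ⟨_, rfl⟩
      have hP1 : 0 ≤ P := by rw [hP]; positivity
      have hP2 : P ≤ 1.221734 := by rw [hP]; linarith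
      rw [← hP]
      have h11 : 2 * B9 ≤ 0.5178 := by linarith
      have h11' : 2 * B9 * P ≤ 0.5178 * P := mul_le_mul_of_nonneg_right h11 hP1
      linarith
    have h12 : 0.5172 * (Real.pi / 2 - v) ≤ 2 * B9 * (Real.pi / 2 - v) :=
      mul_le_mul_of_nonneg_right (by linarith) h9.le
    rw [mul_sub]
    linarith
  -- the polynomial
  have h9 := P6x.f0 q y hq0.le hq1 hy hyq
  obtain ⟨ha1, ha2⟩ := abs_le.1 (P6x.lin l9 c9 q hq0.le hq1 hl1 hl2 hc1 hc2)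
  obtain ⟨hk3, hk4⟩ := abs_le.1 (P6x.kin k9 y hy hy1.le hk1 hk2)
  have h10 : (l9 * (q - c9) + 2 * k9 * y) ^ 2 ≤
      (0.4491 * (q - 0.9397) + 0.156 * y) ^ 2 + 0.0004 := by
    apply P6x.sqb
    · exact abs_le.2 ⟨by linarith, by linarith⟩
    · exact abs_le.2 ⟨by linarith, by linarith⟩
  have h17 : (l9 * (q - c9) + 2 * k9 * y) ^ 2 / 1.2 =
      5 / 6 * (l9 * (q - c9) + 2 * k9 * y) ^ 2 := by ring
  rw [hlog, h17]
  have h16 : (1 / 2) * (4 * (q ^ 2 * (1 - q ^ 2)) - 1) = -2 * (q ^ 2 - 1 / 2) ^ 2 := by ring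
  linarith

end Pool.Agent.H280R2.RP
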