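import Pool.Agent.H280R2.RP.Defs9
import Pool.Agent.H280R2.RP.P3
import Pool.Agent.H280R2.RP.P4
import Pool.Agent.H280R2.RP.P5
import Pool.Agent.H280R2.RP.P6
set_option autoImplicit false

namespace Pool.Agent.H280R2.RP

open Finset

namespace P7x

lemma h9_pos : 0 < h9 := by
  have := consts.1.1
  linarith

lemma c9_pos : 0 < c9 := by
  have := consts.2.1.1
  linarith

lemma S9_pos : 0 < S9 := by
  unfold S9
  have := h9_pos
  have := c9_pos
  positivity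

lemma kS : h9 ^ 2 / S9 = 2 * k9 := by
  unfold S9 k9
  have h1 := h9_pos
  have h2 := c9_pos
  field_simp

lemma lS : 2 * h9 / S9 = l9 := by
  unfold S9 l9
  have h1 := h9_pos
  have h2 := c9_pos
  field_simp

lemma kl : k9 + l9 * c9 = 1 / 2 := by
  unfold k9 l9
  have h1 := h9_pos
  have h2 := c9_pos
  have h3 : h9 + 4 * c9 ≠ 0 := by positivity
  field_simp
  ring

lemma Ah : A9 * h9 = 2 + 2 * k9 + l9 * c9 := by
  have h1 := h9_pos
  have h2 := S9_pos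
  rw [← kS, ← lS]
  unfold A9
  field_simp

/-- both cases together -/
lemma cases (v y : ℝ) (hv : 0 < v) (hv' : v < Real.pi / 2)
    (hy : 0 ≤ y) (hy1 : y < 1) (q : ℝ)
    (hq : q = Real.sqrt (Real.cos v ^ 2 + y * Real.sin v ^ 2)) :
    (1 / 2) * Real.log ((1 - y) * q ^ 2 / c9 ^ 2) + 2 * B9 * (v - Real.pi / 9) +
      l9 * (q - c9) + k9 * y + (l9 * (q - c9) + 2 * k9 * y) ^ 2 / 1.2 ≤ 0 := by
  rcases le_total 0.787 (Real.cos v) with h | h
  · exact case1 v y hv hv' h hy hy1 q hq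
  · exact case2 v y hv hv' h hy hy1 q hq

/-- the main inequality in the new variables -/
lemma main (v y r q : ℝ) (hv : 0 < v) (hv' : v < Real.pi / 2) (hy : 0 ≤ y) (hy1 : y < 1)
    (hr : 0 < r) (hr1 : r ≤ 2.88)
    (hq : q = Real.sqrt (Real.cos v ^ 2 + y * Real.sin v ^ 2)) :
    Real.log ((1 - y) * q ^ 2 / c9 ^ 2) + 4 * Real.log r + 2 * k9 * r ^ 2 * (1 + y) +
      2 * l9 * r * q ≤
      1 + 2 * (2 + 2 * k9 + l9 * c9) * (r - 1) - 4 * B9 * (v - Real.pi / 9) := by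
  have H1 := cases v y hv hv' hy hy1 q hq
  have H2 := log_quad r hr hr1
  have H3 := kl
  have hk : k9 < 0.0781 := consts.2.2.2.2.2.1.2
  have hk0 : 0.0779 < k9 := consts.2.2.2.2.2.1.1
  generalize Real.log ((1 - y) * q ^ 2 / c9 ^ 2) = L at H1 ⊢
  generalize Real.log r = M at H2 ⊢
  have H4 : 0.3 * (r - 1) ^ 2 ≤ (0.458 - k9 - k9 * y) * (r - 1) ^ 2 := by
    apply mul_le_mul_of_nonneg_right _ (sq_nonneg _)
    nlinarith
  have H5 : (l9 * (q - c9) + 2 * k9 * y) * (r - 1) - 0.3 * (r - 1) ^ 2 ≤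
      (l9 * (q - c9) + 2 * k9 * y) ^ 2 / 1.2 := by
    rw [le_div_iff₀ (by norm_num)]
    nlinarith [sq_nonneg ((l9 * (q - c9) + 2 * k9 * y) - 0.6 * (r - 1))]
  have H6 : l9 * c9 = 1 / 2 - k9 := by linarith
  have e1 : 2 * l9 * r * q = 2 * (l9 * (q - c9)) + 2 * (l9 * (q - c9)) * (r - 1) +
      2 * (l9 * c9) * r := by ring
  rw [e1]
  rw [H6] at *
  nlinarith

end P7x

open P7x in
/-- P7 -/
theorem core9 (a b τ : ℝ) (ha : 0 < a) (ha2 : a ≤ 2) (hb : 0 < b) (hb2 : b ≤ 2)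
    (h0 : 0 < τ) (h1 : τ < Real.pi) (x : ℝ) (hx : 0 ≤ x)
    (hxx : x ^ 2 = a ^ 2 + b ^ 2 + 2 * a * b * Real.cos τ) :
    a * b * x ^ 2 * Real.exp (((a ^ 2 + b ^ 2) / 2 + 2 * x) / S9) ≤
      h9 ^ 2 * (2 * h9 * c9) ^ 2 *
        Real.exp (1 + 2 * A9 * ((a + b) / 2 - h9) - 2 * B9 * (τ - 2 * Real.pi / 9)) := by
  have hh := h9_pos
  have hc := c9_pos
  have hS := S9_pos
  obtain ⟨v, rfl⟩ : ∃ v, τ = 2 * v := ⟨τ / 2, by ring⟩
  obtain ⟨r, hr⟩ : ∃ r, (a + b) / 2 = h9 * r := ⟨(a + b) / 2 / h9, by field_simp⟩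
  obtain ⟨y, hy⟩ : ∃ y, y = ((a - b) / (a + b)) ^ 2 := ⟨_, rfl⟩
  obtain ⟨q, hq⟩ : ∃ q, q = Real.sqrt (Real.cos v ^ 2 + y * Real.sin v ^ 2) := ⟨_, rfl⟩
  have hv : 0 < v := by linarith
  have hv' : v < Real.pi / 2 := by linarith
  have hcv : 0 < Real.cos v := Real.cos_pos_of_mem_Ioo ⟨by linarith, hv'⟩
  have hab : 0 < a + b := by linarith
  have hy0 : 0 ≤ y := by rw [hy]; positivity
  have hyab : y * (a + b) ^ 2 = (a - b) ^ 2 := by
    rw [hy]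
    field_simp
  have hy1 : y < 1 := by
    by_contra hcon
    have h2 : (a + b) ^ 2 ≤ y * (a + b) ^ 2 := by nlinarith [sq_nonneg (a + b)]
    rw [hyab] at h2
    nlinarith [mul_pos ha hb]
  have hr0 : 0 < r := by
    by_contra hcon
    have : h9 * r ≤ 0 := by nlinarith
    linarith
  have hr1 : r ≤ 2.88 := by
    have h2 : h9 * r ≤ 2 := by linarith
    have h3 := consts.1.1
    by_contra hcon
    nlinarith
  have hs2 : a + b = 2 * (h9 * r) := by linarith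
  have hab' : a * b = (h9 * r) ^ 2 * (1 - y) := by
    rw [hs2] at hyab
    nlinarith
  have hab2 : (a ^ 2 + b ^ 2) / 2 = (h9 * r) ^ 2 * (1 + y) := by
    rw [hs2] at hyab
    nlinarith
  have hrad : 0 < Real.cos v ^ 2 + y * Real.sin v ^ 2 := by positivity
  have hq2 : q ^ 2 = Real.cos v ^ 2 + y * Real.sin v ^ 2 := by
    rw [hq, Real.sq_sqrt hrad.le]
  have hq0 : 0 < q := by rw [hq]; exact Real.sqrt_pos.2 hrad
  have hx2 : x ^ 2 = (2 * (h9 * r) * q) ^ 2 := by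
    rw [hxx, Real.cos_two_mul']
    have e1 := Real.sin_sq_add_cos_sq v
    have e2 : (2 * (h9 * r) * q) ^ 2 = (a + b) ^ 2 * q ^ 2 := by rw [hs2]; ring
    rw [e2, hq2]
    have e3 : (a + b) ^ 2 * (Real.cos v ^ 2 + y * Real.sin v ^ 2) =
        (a + b) ^ 2 * Real.cos v ^ 2 + (y * (a + b) ^ 2) * Real.sin v ^ 2 := by ring
    rw [e3, hyab]
    have e4 : a ^ 2 + b ^ 2 = (a ^ 2 + b ^ 2) * (Real.sin v ^ 2 + Real.cos v ^ 2) := by
      rw [e1, mul_one]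
    rw [e4]
    ring
  have hxq : x = 2 * (h9 * r) * q := by
    have h2 : 0 ≤ 2 * (h9 * r) * q := by positivity
    exact (sq_eq_sq₀ hx h2).1 hx2
  have hmain := main v y r q hv hv' hy0 hy1 hr0 hr1 hq
  have hL : 0 < (1 - y) * q ^ 2 / c9 ^ 2 := by
    have : 0 < 1 - y := by linarith
    positivity
  have hlhs : a * b * x ^ 2 * Real.exp (((a ^ 2 + b ^ 2) / 2 + 2 * x) / S9) =
      h9 ^ 2 * (2 * h9 * c9) ^ 2 * Real.exp (Real.log ((1 - y) * q ^ 2 / c9 ^ 2) +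
        4 * Real.log r + 2 * k9 * r ^ 2 * (1 + y) + 2 * l9 * r * q) := by
    have e1 : ((a ^ 2 + b ^ 2) / 2 + 2 * x) / S9 = 2 * k9 * r ^ 2 * (1 + y) + 2 * l9 * r * q := by
      rw [hab2, hxq, ← kS, ← lS]
      field_simp
    have e2 : Real.exp (4 * Real.log r) = r ^ 4 := by
      have : (4 : ℝ) * Real.log r = ((4 : ℕ) : ℝ) * Real.log r := by norm_num
      rw [this, Real.exp_nat_mul, Real.exp_log hr0]
    rw [e1, hab', hx2]
    rw [show Real.log ((1 - y) * q ^ 2 / c9 ^ 2) + 4 * Real.log r + 2 * k9 * r ^ 2 * (1 + y) +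
      2 * l9 * r * q = Real.log ((1 - y) * q ^ 2 / c9 ^ 2) + (4 * Real.log r +
        (2 * k9 * r ^ 2 * (1 + y) + 2 * l9 * r * q)) by ring]
    generalize 2 * k9 * r ^ 2 * (1 + y) + 2 * l9 * r * q = W
    rw [Real.exp_add, Real.exp_add (4 * Real.log r), Real.exp_log hL, e2]
    field_simp
  rw [hlhs]
  have hrhs : 1 + 2 * A9 * ((a + b) / 2 - h9) - 2 * B9 * (2 * v - 2 * Real.pi / 9) =
      1 + 2 * (2 + 2 * k9 + l9 * c9) * (r - 1) - 4 * B9 * (v - Real.pi / 9) := by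
    rw [hr, ← Ah]
    ring
  rw [hrhs]
  apply mul_le_mul_of_nonneg_left _ (by positivity)
  exact Real.exp_le_exp.2 hmain

end Pool.Agent.H280R2.RP
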