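import Pool.Agent.H280R2.RP.Defs9
import Pool.Agent.H280R2.RP.P1
import Pool.Agent.H280R2.RP.P7
import Pool.Agent.H280R2.RP.M10
import Pool.Agent.H280R2.RP.M12
/-! P8 (helper124): the product of the chords of order 1, 2, 3 of a convex 9-gon of diameter 2. -/

set_option autoImplicit false

namespace Pool.Agent.H280R2.RP

open Finset

namespace P8x

lemma sum_shift (f : ℕ → ℝ) (hf : f 9 = f 0) :
    ∑ j ∈ range 9, f (j + 1) = ∑ j ∈ range 9, f j := by
  have h1 := Finset.sum_range_succ f 9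
  have h2 := Finset.sum_range_succ' f 9
  rw [h1] at h2
  linarith

lemma prod_shift (f : ℕ → ℝ) (hf : f 9 = f 0) :
    ∏ j ∈ range 9, f (j + 1) = ∏ j ∈ range 9, f j := by
  by_cases h0 : f 0 = 0
  · have h9 : f 9 = 0 := by rw [hf, h0]
    rw [Finset.prod_eq_zero (i := 8) (by simp) h9, Finset.prod_eq_zero (i := 0) (by simp) h0]
  · have h1 := Finset.prod_range_succ f 9
    have h2 := Finset.prod_range_succ' f 9
    rw [h1, hf] at h2
    exact (mul_right_cancel₀ h0 h2).symm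

lemma h9_pos : 0 < h9 := by
  unfold h9
  have : 0 < Real.sin (Real.pi / 18) :=
    Real.sin_pos_of_pos_of_lt_pi (by positivity) (by linarith [Real.pi_pos])
  positivity

lemma c9_pos : 0 < c9 := by
  unfold c9
  apply Real.cos_pos_of_mem_Ioo
  constructor <;> linarith [Real.pi_pos]

lemma S9_pos : 0 < S9 := by
  unfold S9
  have := h9_pos
  have := c9_pos
  positivity

lemma A9_nonneg : 0 ≤ A9 := by
  unfold A9
  have := h9_pos
  have := c9_pos
  have := S9_pos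
  positivity

lemma B9_nonneg : 0 ≤ B9 := by
  unfold B9 l9
  have := h9_pos
  have := c9_pos
  have h1 : 0 ≤ Real.tan (Real.pi / 9) :=
    Real.tan_nonneg_of_nonneg_of_le_pi_div_two (by positivity) (by linarith [Real.pi_pos])
  have h2 : 0 ≤ Real.sin (Real.pi / 9) :=
    Real.sin_nonneg_of_nonneg_of_le_pi (by positivity) (by linarith [Real.pi_pos])
  positivity

/-- abstract form -/
lemma main (h x w τ : ℕ → ℝ) (hp : ∀ j, h (j + 9) = h j) (xp : ∀ j, x (j + 9) = x j)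
    (wp : ∀ j, w (j + 9) = w j) (h0 : ∀ j, 0 < h j) (h2 : ∀ j, h j ≤ 2) (x0 : ∀ j, 0 ≤ x j)
    (w0 : ∀ j, 0 ≤ w j) (hpt : ∀ j, w j * w (j + 1) ≤ h j * h (j + 3) + 2 * x (j + 1))
    (hτ : ∀ j, 0 < τ j ∧ τ j < Real.pi)
    (hx : ∀ j, x j ^ 2 = h (j + 1) ^ 2 + h j ^ 2 + 2 * h (j + 1) * h j * Real.cos (τ j))
    (hs : 2 * Real.pi ≤ ∑ j ∈ range 9, τ j) (hper : ∑ j ∈ range 9, h j ≤ 9 * h9) :
    (∏ j ∈ range 9, h j) * (∏ j ∈ range 9, x j) * ∏ j ∈ range 9, w j ≤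
      h9 ^ 9 * (2 * h9 * c9) ^ 9 * (Real.sqrt S9) ^ 9 := by
  have hS := S9_pos
  have hh9 := h9_pos
  have hc9 := c9_pos
  have hA := A9_nonneg
  have hB := B9_nonneg
  have hsh : ∀ f : ℕ → ℝ, (∀ j, f (j + 9) = f j) → ∑ j ∈ range 9, f (j + 1) = ∑ j ∈ range 9, f j :=
    fun f hf => sum_shift f (by simpa using hf 0)
  -- the product of the third chords
  have hw : (∏ j ∈ range 9, w j) ^ 2 ≤
      S9 ^ 9 * Real.exp (-9) * Real.exp ((∑ j ∈ range 9, (h j ^ 2 + 2 * x j)) / S9) := by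
    have e1 : (∏ j ∈ range 9, w j) ^ 2 = ∏ j ∈ range 9, (w j * w (j + 1)) := by
      rw [Finset.prod_mul_distrib, prod_shift w (by simpa using wp 0), sq]
    have e2 : ∏ j ∈ range 9, (w j * w (j + 1)) ≤
        ∏ j ∈ range 9, (S9 * Real.exp ((h j * h (j + 3) + 2 * x (j + 1)) / S9 - 1)) := by
      apply Finset.prod_le_prod (fun j _ => mul_nonneg (w0 _) (w0 _))
      intro j _
      refine (hpt j).trans ?_
      have h3 := Real.add_one_le_exp ((h j * h (j + 3) + 2 * x (j + 1)) / S9 - 1)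
      rw [sub_add_cancel, div_le_iff₀ hS] at h3
      linarith
    rw [e1]
    refine e2.trans ?_
    rw [Finset.prod_mul_distrib, Finset.prod_const, Finset.card_range, ← Real.exp_sum, mul_assoc,
      ← Real.exp_add]
    apply mul_le_mul_of_nonneg_left _ (by positivity)
    rw [Real.exp_le_exp, Finset.sum_sub_distrib, ← Finset.sum_div, Finset.sum_const,
      Finset.card_range]
    have h4 : ∑ j ∈ range 9, (h j * h (j + 3) + 2 * x (j + 1)) ≤
        ∑ j ∈ range 9, (h j ^ 2 + 2 * x j) := by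
      rw [Finset.sum_add_distrib, Finset.sum_add_distrib]
      have h5 : ∑ j ∈ range 9, 2 * x (j + 1) = ∑ j ∈ range 9, 2 * x j :=
        hsh (fun j => 2 * x j) fun j => by simp only [xp]
      have h6 : ∑ j ∈ range 9, h (j + 3) ^ 2 = ∑ j ∈ range 9, h j ^ 2 := by
        have a1 := hsh (fun j => h j ^ 2) fun j => by simp only [hp]
        have a2 := hsh (fun j => h (j + 1) ^ 2) fun j => by
          simp only [show j + 9 + 1 = j + 1 + 9 by ring, hp]
        have a3 := hsh (fun j => h (j + 2) ^ 2) fun j => by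
          simp only [show j + 9 + 2 = j + 2 + 9 by ring, hp]
        simp only [add_assoc] at a1 a2 a3
        norm_num at a1 a2 a3
        rw [a3, a2, a1]
      have h7 : ∑ j ∈ range 9, h j * h (j + 3) ≤ ∑ j ∈ range 9, h j ^ 2 := by
        have h8 : ∑ j ∈ range 9, h j * h (j + 3) ≤
            ∑ j ∈ range 9, (1 / 2 * h j ^ 2 + 1 / 2 * h (j + 3) ^ 2) := by
          apply Finset.sum_le_sum
          intro j _
          nlinarith [sq_nonneg (h j - h (j + 3))]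
        rw [Finset.sum_add_distrib, ← Finset.mul_sum, ← Finset.mul_sum, h6] at h8
        linarith
      rw [h5]
      linarith
    have h9' := div_le_div_of_nonneg_right h4 hS.le
    rw [nsmul_eq_mul, mul_one]
    push_cast
    linarith
  -- the local inequality
  have hloc : ∏ j ∈ range 9, (h (j + 1) * h j * x j ^ 2 *
      Real.exp (((h (j + 1) ^ 2 + h j ^ 2) / 2 + 2 * x j) / S9)) ≤
      (h9 ^ 2 * (2 * h9 * c9) ^ 2) ^ 9 * Real.exp 9 := by
    have e1 : ∏ j ∈ range 9, (h (j + 1) * h j * x j ^ 2 *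
        Real.exp (((h (j + 1) ^ 2 + h j ^ 2) / 2 + 2 * x j) / S9)) ≤
        ∏ j ∈ range 9, (h9 ^ 2 * (2 * h9 * c9) ^ 2 *
          Real.exp (1 + 2 * A9 * ((h (j + 1) + h j) / 2 - h9) -
            2 * B9 * (τ j - 2 * Real.pi / 9))) := by
      apply Finset.prod_le_prod
      · intro j _
        have := h0 j
        have := h0 (j + 1)
        positivity
      · intro j _
        exact core9 (h (j + 1)) (h j) (τ j) (h0 _) (h2 _) (h0 _) (h2 _) (hτ j).1 (hτ j).2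
          (x j) (x0 j) (hx j)
    refine e1.trans ?_
    rw [Finset.prod_mul_distrib, Finset.prod_const, Finset.card_range, ← Real.exp_sum]
    apply mul_le_mul_of_nonneg_left _ (by positivity)
    rw [Real.exp_le_exp]
    have e2 : ∑ j ∈ range 9, (1 + 2 * A9 * ((h (j + 1) + h j) / 2 - h9) -
        2 * B9 * (τ j - 2 * Real.pi / 9)) =
        9 + 2 * A9 * (∑ j ∈ range 9, h j - 9 * h9) - 2 * B9 * (∑ j ∈ range 9, τ j - 2 * Real.pi) := by
      have a1 := hsh h hp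
      have a2 : ∀ j, (1 + 2 * A9 * ((h (j + 1) + h j) / 2 - h9) -
          2 * B9 * (τ j - 2 * Real.pi / 9)) = A9 * h (j + 1) + A9 * h j - 2 * B9 * τ j +
            (1 - 2 * A9 * h9 + 2 * B9 * (2 * Real.pi / 9)) := by
        intro j; ring
      simp only [a2]
      rw [Finset.sum_add_distrib, Finset.sum_sub_distrib, Finset.sum_add_distrib, ← Finset.mul_sum,
        ← Finset.mul_sum, ← Finset.mul_sum, a1, Finset.sum_const, Finset.card_range, nsmul_eq_mul]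
      push_cast
      ring
    rw [e2]
    have t1 : 2 * A9 * (∑ j ∈ range 9, h j - 9 * h9) ≤ 0 :=
      mul_nonpos_of_nonneg_of_nonpos (by positivity) (by linarith)
    have t2 : 0 ≤ 2 * B9 * (∑ j ∈ range 9, τ j - 2 * Real.pi) :=
      mul_nonneg (by positivity) (by linarith)
    linarith
  -- assembly
  have hph : (∏ j ∈ range 9, h j) ^ 2 = ∏ j ∈ range 9, (h (j + 1) * h j) := by
    rw [Finset.prod_mul_distrib, prod_shift h (by simpa using hp 0), sq]
  have hprod : ∏ j ∈ range 9, (h (j + 1) * h j * x j ^ 2 *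
      Real.exp (((h (j + 1) ^ 2 + h j ^ 2) / 2 + 2 * x j) / S9)) =
      (∏ j ∈ range 9, h j) ^ 2 * (∏ j ∈ range 9, x j) ^ 2 *
        Real.exp ((∑ j ∈ range 9, (h j ^ 2 + 2 * x j)) / S9) := by
    rw [Finset.prod_mul_distrib, Finset.prod_mul_distrib, ← hph, Finset.prod_pow, ← Real.exp_sum,
      ← Finset.sum_div]
    congr 3
    have a1 := hsh (fun j => h j ^ 2) fun j => by simp only [hp]
    have a2 : ∀ j, (h (j + 1) ^ 2 + h j ^ 2) / 2 + 2 * x j =
        1 / 2 * h (j + 1) ^ 2 + 1 / 2 * h j ^ 2 + 2 * x j := by intro j; ring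
    simp only [a2]
    rw [Finset.sum_add_distrib, Finset.sum_add_distrib, ← Finset.mul_sum, ← Finset.mul_sum,
      Finset.sum_add_distrib]
    rw [a1]
    ring
  have hsq : ((∏ j ∈ range 9, h j) * (∏ j ∈ range 9, x j) * ∏ j ∈ range 9, w j) ^ 2 ≤
      (h9 ^ 9 * (2 * h9 * c9) ^ 9 * (Real.sqrt S9) ^ 9) ^ 2 := by
    have hq : (Real.sqrt S9) ^ 2 = S9 := Real.sq_sqrt hS.le
    calc ((∏ j ∈ range 9, h j) * (∏ j ∈ range 9, x j) * ∏ j ∈ range 9, w j) ^ 2
        = (∏ j ∈ range 9, h j) ^ 2 * (∏ j ∈ range 9, x j) ^ 2 * (∏ j ∈ range 9, w j) ^ 2 := by ring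
      _ ≤ (∏ j ∈ range 9, h j) ^ 2 * (∏ j ∈ range 9, x j) ^ 2 *
          (S9 ^ 9 * Real.exp (-9) * Real.exp ((∑ j ∈ range 9, (h j ^ 2 + 2 * x j)) / S9)) :=
          mul_le_mul_of_nonneg_left hw (by positivity)
      _ = S9 ^ 9 * Real.exp (-9) * ((∏ j ∈ range 9, h j) ^ 2 * (∏ j ∈ range 9, x j) ^ 2 *
          Real.exp ((∑ j ∈ range 9, (h j ^ 2 + 2 * x j)) / S9)) := by ring
      _ ≤ S9 ^ 9 * Real.exp (-9) * ((h9 ^ 2 * (2 * h9 * c9) ^ 2) ^ 9 * Real.exp 9) := by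
          rw [← hprod]
          exact mul_le_mul_of_nonneg_left hloc (by positivity)
      _ = S9 ^ 9 * (h9 ^ 2 * (2 * h9 * c9) ^ 2) ^ 9 * (Real.exp (-9) * Real.exp 9) := by ring
      _ = S9 ^ 9 * (h9 ^ 2 * (2 * h9 * c9) ^ 2) ^ 9 := by
          rw [← Real.exp_add]; norm_num
      _ = (h9 ^ 9 * (2 * h9 * c9) ^ 9 * (Real.sqrt S9) ^ 9) ^ 2 := by
          conv_lhs => rw [← hq]
          ring
  have hL : 0 ≤ (∏ j ∈ range 9, h j) * (∏ j ∈ range 9, x j) * ∏ j ∈ range 9, w j :=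
    mul_nonneg (mul_nonneg (Finset.prod_nonneg fun j _ => (h0 j).le)
      (Finset.prod_nonneg fun j _ => x0 j)) (Finset.prod_nonneg fun j _ => w0 j)
  have hR : 0 ≤ h9 ^ 9 * (2 * h9 * c9) ^ 9 * (Real.sqrt S9) ^ 9 := by positivity
  exact (pow_le_pow_iff_left₀ hL hR (by norm_num)).1 hsq

end P8x

/-- P8 -/
theorem nine_prod (Z : ℕ → ℂ) (hC : Conv 9 Z) (hZ : ∀ i j, ‖Z i - Z j‖ ≤ 2) :
    (∏ j ∈ range 9, ‖Z (j + 1) - Z j‖) * (∏ j ∈ range 9, ‖Z (j + 2) - Z j‖) *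
      ∏ j ∈ range 9, ‖Z (j + 3) - Z j‖ ≤
      h9 ^ 9 * (2 * h9 * c9) ^ 9 * (Real.sqrt S9) ^ 9 := by
  obtain ⟨τ, hτ, hx, hs⟩ := turning 9 Z hC
  have hper := perimeter 9 Z hC hZ
  have hp9 := hC.2.1
  refine P8x.main (fun j => ‖Z (j + 1) - Z j‖) (fun j => ‖Z (j + 2) - Z j‖)
    (fun j => ‖Z (j + 3) - Z j‖) τ ?_ ?_ ?_ ?_ ?_ ?_ ?_ ?_ hτ ?_ hs ?_
  · intro j
    simp only [show j + 9 + 1 = j + 1 + 9 by ring, hp9]
  · intro j
    simp only [show j + 9 + 2 = j + 2 + 9 by ring, hp9]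
  · intro j
    simp only [show j + 9 + 3 = j + 3 + 9 by ring, hp9]
  · intro j
    have h1 := hC.2.2 j (j + 1) (j + 2) (by omega) (by omega) (by omega)
    apply norm_pos_iff.2
    intro h2
    rw [sub_eq_zero] at h2
    rw [h2] at h1
    unfold cr at h1
    simp at h1
  · intro j
    exact hZ _ _
  · intro j
    exact norm_nonneg _
  · intro j
    exact norm_nonneg _
  · intro j
    have h1 := ptolemy (Z j) (Z (j + 1)) (Z (j + 3)) (Z (j + 4))
    have h2 : ‖Z (j + 3) - Z (j + 1)‖ * ‖Z (j + 4) - Z j‖ ≤ ‖Z (j + 3) - Z (j + 1)‖ * 2 :=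
      mul_le_mul_of_nonneg_left (hZ _ _) (norm_nonneg _)
    show ‖Z (j + 3) - Z j‖ * ‖Z (j + 1 + 3) - Z (j + 1)‖ ≤
      ‖Z (j + 1) - Z j‖ * ‖Z (j + 3 + 1) - Z (j + 3)‖ + 2 * ‖Z (j + 1 + 2) - Z (j + 1)‖
    rw [show j + 1 + 3 = j + 4 by ring, show j + 3 + 1 = j + 4 by ring,
      show j + 1 + 2 = j + 3 by ring]
    linarith
  · intro j
    have := hx j
    show ‖Z (j + 2) - Z j‖ ^ 2 = ‖Z (j + 1 + 1) - Z (j + 1)‖ ^ 2 + ‖Z (j + 1) - Z j‖ ^ 2 +
      2 * ‖Z (j + 1 + 1) - Z (j + 1)‖ * ‖Z (j + 1) - Z j‖ * Real.cos (τ j)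
    rw [show j + 1 + 1 = j + 2 by ring]
    exact this
  · unfold h9
    have e : (2 * ((9 : ℕ) : ℝ)) = 18 := by norm_num
    rw [e] at hper
    exact_mod_cast hper

end Pool.Agent.H280R2.RP
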