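import Pool.Agent.H280R2.RP.DefsL
set_option autoImplicit false

namespace Pool.Agent.H280R2.RP

open Finset

namespace Q1x

lemma area (r a b c : ℝ) :
    (r * Real.cos b - r * Real.cos a) * (r * Real.sin c - r * Real.sin a) -
      (r * Real.sin b - r * Real.sin a) * (r * Real.cos c - r * Real.cos a) =
    4 * r ^ 2 * (Real.sin ((b - a) / 2) * Real.sin ((c - b) / 2) * Real.sin ((c - a) / 2)) := by
  have h1 : r * Real.cos b - r * Real.cos a = r * (Real.cos b - Real.cos a) := by ring
  have h2 : r * Real.sin c - r * Real.sin a = r * (Real.sin c - Real.sin a) := by ring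
  have h3 : r * Real.sin b - r * Real.sin a = r * (Real.sin b - Real.sin a) := by ring
  have h4 : r * Real.cos c - r * Real.cos a = r * (Real.cos c - Real.cos a) := by ring
  have h5 : Real.sin ((c - b) / 2) = Real.sin ((c + a) / 2) * Real.cos ((b + a) / 2) -
      Real.cos ((c + a) / 2) * Real.sin ((b + a) / 2) := by
    rw [← Real.sin_sub]
    congr 1
    ring
  rw [h1, h2, h3, h4, Real.cos_sub_cos, Real.cos_sub_cos, Real.sin_sub_sin, Real.sin_sub_sin, h5]
  ring

lemma reg_re (n : ℕ) (i : Fin n) : (reg n i).re =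
    (1 / Real.cos (Real.pi / (2 * (n : ℝ)))) * Real.cos (2 * Real.pi * (i.val : ℝ) / n) := by
  unfold reg
  rw [Complex.re_ofReal_mul]
  have e : 2 * (Real.pi : ℂ) * Complex.I * (i.val : ℂ) / (n : ℂ) =
      ((2 * Real.pi * (i.val : ℝ) / n : ℝ) : ℂ) * Complex.I := by
    push_cast
    ring
  rw [e, Complex.exp_ofReal_mul_I_re]

lemma reg_im (n : ℕ) (i : Fin n) : (reg n i).im =
    (1 / Real.cos (Real.pi / (2 * (n : ℝ)))) * Real.sin (2 * Real.pi * (i.val : ℝ) / n) := by
  unfold reg
  rw [Complex.im_ofReal_mul]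
  have e : 2 * (Real.pi : ℂ) * Complex.I * (i.val : ℂ) / (n : ℂ) =
      ((2 * Real.pi * (i.val : ℝ) / n : ℝ) : ℂ) * Complex.I := by
    push_cast
    ring
  rw [e, Complex.exp_ofReal_mul_I_im]

lemma sin_pos (n : ℕ) (hn : 3 ≤ n) (i j : Fin n) (h : i < j) :
    0 < Real.sin ((2 * Real.pi * (j.val : ℝ) / n - 2 * Real.pi * (i.val : ℝ) / n) / 2) := by
  have hn0 : (0 : ℝ) < n := by exact_mod_cast (by omega : 0 < n)
  have h1 : (i.val : ℝ) < j.val := by exact_mod_cast h
  have h2 : (j.val : ℝ) < n := by exact_mod_cast j.2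
  have h3 : (0 : ℝ) ≤ i.val := Nat.cast_nonneg _
  have hpi := Real.pi_pos
  have e : (2 * Real.pi * (j.val : ℝ) / n - 2 * Real.pi * (i.val : ℝ) / n) / 2 =
      Real.pi * (((j.val : ℝ) - i.val) / n) := by
    field_simp
  rw [e]
  apply Real.sin_pos_of_pos_of_lt_pi
  · have : 0 < ((j.val : ℝ) - i.val) / n := div_pos (by linarith) hn0
    positivity
  · have : ((j.val : ℝ) - i.val) / n < 1 := (div_lt_one hn0).2 (by linarith)
    nlinarith

lemma reg_pos (n : ℕ) (hn : 3 ≤ n) (i j k : Fin n) (hij : i < j) (hjk : j < k) :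
    0 < cr (reg n i) (reg n j) (reg n k) := by
  have hn0 : (3 : ℝ) ≤ n := by exact_mod_cast hn
  have hpi := Real.pi_pos
  have hc : 0 < Real.cos (Real.pi / (2 * (n : ℝ))) := by
    apply Real.cos_pos_of_mem_Ioo
    constructor
    · have : 0 < Real.pi / (2 * (n : ℝ)) := by positivity
      linarith
    · rw [div_lt_div_iff₀ (by positivity) (by norm_num)]
      nlinarith
  unfold cr
  simp only [reg_re, reg_im]
  rw [area]
  have h1 := sin_pos n hn i j hij
  have h2 := sin_pos n hn j k hjk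
  have h3 := sin_pos n hn i k (hij.trans hjk)
  positivity

end Q1x

/-- Q1 -/
theorem near_conv (n : ℕ) (hn : 3 ≤ n) : ∃ ε : ℝ, 0 < ε ∧ ∀ z : Fin n → ℂ,
    (∀ i, ‖z i - reg n i‖ < ε) → ∀ i j k : Fin n, i < j → j < k →
      0 < cr (z i) (z j) (z k) := by
  have hopen : IsOpen {z : Fin n → ℂ | ∀ i j k : Fin n, i < j → j < k →
      0 < cr (z i) (z j) (z k)} := by
    simp only [Set.ofPred_forall]
    refine isOpen_iInter_of_finite fun i => isOpen_iInter_of_finite fun j =>
      isOpen_iInter_of_finite fun k => isOpen_iInter_of_finite fun _ =>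
      isOpen_iInter_of_finite fun _ => isOpen_lt continuous_const ?_
    unfold cr
    have hr : ∀ a : Fin n, Continuous (fun z : Fin n → ℂ => (z a).re) := fun a =>
      Complex.continuous_re.comp (continuous_apply a)
    have hi : ∀ a : Fin n, Continuous (fun z : Fin n → ℂ => (z a).im) := fun a =>
      Complex.continuous_im.comp (continuous_apply a)
    exact (((hr j).sub (hr i)).mul ((hi k).sub (hi i))).sub
      (((hi j).sub (hi i)).mul ((hr k).sub (hr i)))
  obtain ⟨ε, hε, hb⟩ := Metric.isOpen_iff.1 hopen (reg n) (Q1x.reg_pos n hn)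
  refine ⟨ε, hε, fun z hz => ?_⟩
  have : z ∈ Metric.ball (reg n) ε := by
    rw [Metric.mem_ball, dist_pi_lt_iff hε]
    intro i
    rw [dist_eq_norm]
    exact hz i
  exact hb this

end Pool.Agent.H280R2.RP
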