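import Pool.Agent.H280R2.RP.DefsL
set_option autoImplicit false

namespace Pool.Agent.H280R2.RP

open Finset

namespace Q3x

theorem alg (p t r : ℝ) (hr : 0 ≤ r) (hr2 : r ≤ 1 / 2) (h : r ^ 2 = p ^ 2 + t ^ 2) :
    p * t ^ 2 - 2 * (1 + p) * r ^ 3 + (t ^ 2 / 2 - r ^ 3) ^ 2 ≤ 0 := by
  have ht : t ^ 2 ≤ r ^ 2 := by nlinarith [sq_nonneg p]
  have hp : |p| ≤ r := abs_le_of_sq_le_sq (by nlinarith [sq_nonneg t]) hr
  have hp1 := (abs_le.1 hp).1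
  have hp2 := (abs_le.1 hp).2
  have hr3 : 0 ≤ r ^ 3 := by positivity
  have hr3' : r ^ 3 ≤ r ^ 2 / 2 := by nlinarith [sq_nonneg r]
  have h1 : (t ^ 2 / 2 - r ^ 3) ^ 2 ≤ (r ^ 2 / 2) ^ 2 := by
    refine sq_le_sq' ?_ ?_
    · nlinarith [sq_nonneg t]
    · nlinarith [sq_nonneg t]
  have h2 : (r ^ 2 / 2) ^ 2 ≤ r ^ 3 / 8 := by nlinarith
  rcases le_total 0 p with h0 | h0
  · have h3 : p * t ^ 2 ≤ r * r ^ 2 := mul_le_mul hp2 ht (sq_nonneg t) hr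
    have h4 : 0 ≤ p * r ^ 3 := mul_nonneg h0 hr3
    nlinarith
  · have h3 : p * t ^ 2 ≤ 0 := mul_nonpos_of_nonpos_of_nonneg h0 (sq_nonneg t)
    have h4 : 0 ≤ (1 / 2 + p) * r ^ 3 := mul_nonneg (by linarith) hr3
    nlinarith

end Q3x

/-- Q3 -/
theorem log_norm_le (X : ℂ) (h : ‖X‖ ≤ 1 / 2) :
    Real.log ‖1 + X‖ ≤ X.re - (1 / 2) * (X ^ 2).re + ‖X‖ ^ 3 := by
  have h1 := Complex.norm_log_sub_logTaylor_le 2 (z := X) (by linarith)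
  have h2 : Complex.logTaylor (2 + 1) X = X - X ^ 2 / 2 := by
    simp [Complex.logTaylor, Finset.sum_range_succ]
    ring
  rw [h2] at h1
  have h3 : (Complex.log (1 + X)).re = Real.log ‖1 + X‖ := Complex.log_re _
  have h4 : (Complex.log (1 + X) - (X - X ^ 2 / 2)).re ≤
      ‖X‖ ^ (2 + 1) * (1 - ‖X‖)⁻¹ / ((2 : ℕ) + 1) :=
    (Complex.re_le_norm _).trans h1
  have h5 : (1 - ‖X‖)⁻¹ ≤ 2 := by
    rw [inv_le_comm₀ (by linarith) (by norm_num)]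
    linarith
  have h6 : ‖X‖ ^ (2 + 1) * (1 - ‖X‖)⁻¹ / ((2 : ℕ) + 1) ≤ ‖X‖ ^ 3 := by
    have h7 : 0 ≤ ‖X‖ ^ 3 := by positivity
    have h8 : ‖X‖ ^ 3 * (1 - ‖X‖)⁻¹ ≤ ‖X‖ ^ 3 * 2 := mul_le_mul_of_nonneg_left h5 h7
    rw [div_le_iff₀ (by positivity)]
    push_cast
    norm_num
    linarith
  have h9 : (Complex.log (1 + X) - (X - X ^ 2 / 2)).re =
      Real.log ‖1 + X‖ - X.re + (1 / 2) * (X ^ 2).re := by
    rw [Complex.sub_re, h3, Complex.sub_re]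
    have : (X ^ 2 / 2).re = (X ^ 2).re / 2 := by
      have := Complex.div_ofNat_re (X ^ 2) 2
      simpa using this
    rw [this]
    ring
  linarith

/-- Q3 -/
theorem norm_ge (u : ℂ) (h : ‖u‖ ≤ 1 / 2) :
    1 + u.re + (1 / 2) * u.im ^ 2 - ‖u‖ ^ 3 ≤ ‖1 + u‖ := by
  have hr := Complex.sq_norm u
  rw [Complex.normSq_apply] at hr
  have h1 := Q3x.alg u.re u.im ‖u‖ (norm_nonneg u) h (by rw [hr]; ring)
  have h2 : ‖1 + u‖ ^ 2 = (1 + u.re) ^ 2 + u.im ^ 2 := by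
    rw [Complex.sq_norm, Complex.normSq_apply]
    simp
    ring
  refine le_of_abs_le (abs_le_of_sq_le_sq ?_ (norm_nonneg _))
  rw [h2]
  nlinarith

end Pool.Agent.H280R2.RP
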