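import Pool.Agent.H280R2.RP.DefsL
set_option autoImplicit false

namespace Pool.Agent.H280R2.RP

open Finset

namespace Q4x

theorem seq (d : ℕ → ℝ) (M : ℕ) (h0 : d 0 = 0) (hM : 0 ≤ d M)
    (hS : ∀ j k, j ≤ k → k < M → d (k + 1) - d k ≤ d (j + 1) - d j) :
    ∀ i ≤ M, 0 ≤ d i := by
  intro i hi
  rcases Nat.eq_zero_or_pos i with h | h
  · rw [h, h0]
  · obtain ⟨l, rfl⟩ : ∃ l, i = l + 1 := ⟨i - 1, by omega⟩
    rcases le_or_gt 0 (d (l + 1) - d l) with h1 | h1
    · have h2 : ∀ m, m ≤ l + 1 → 0 ≤ d m := by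
        intro m
        induction m with
        | zero => intro _; rw [h0]
        | succ m ih =>
          intro hm
          have h3 := ih (by omega)
          have h4 := hS m l (by omega) (by omega)
          linarith
      exact h2 _ le_rfl
    · have h2 : ∀ m, l + 1 ≤ m → m ≤ M → d m ≤ d (l + 1) := by
        intro m hm
        induction m, hm using Nat.le_induction with
        | base => intro _; exact le_rfl
        | succ m hm ih =>
          intro hm2
          have h3 := ih (by omega)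
          have h4 := hS l m (by omega) (by omega)
          linarith
      exact hM.trans (h2 M hi le_rfl)

theorem half (n r : ℕ) (hn : 4 ≤ n) (h2 : 2 ≤ r) (hr : 2 * r ≤ n) :
    (r : ℝ) * (n - r) * Real.sin (Real.pi / n) ^ 2 <
      (n - 1) * Real.sin (r * Real.pi / n) ^ 2 := by
  have hn0 : (0 : ℝ) < n := by exact_mod_cast (by omega : 0 < n)
  have hn4 : (4 : ℝ) ≤ n := by exact_mod_cast hn
  obtain ⟨t, ht⟩ : ∃ t : ℝ, t = Real.pi / n := ⟨_, rfl⟩
  have htn : n * t = Real.pi := by
    rw [ht]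
    field_simp
  have ht0 : 0 < t := by
    rw [ht]
    exact div_pos Real.pi_pos hn0
  have hst : 0 < Real.sin t := by
    apply Real.sin_pos_of_pos_of_lt_pi ht0
    nlinarith [Real.pi_pos]
  obtain ⟨D, hD⟩ : ∃ D : ℕ → ℝ, ∀ j, D j = (n - 1) * Real.sin (j * t) ^ 2 -
      j * (n - j) * Real.sin t ^ 2 := ⟨_, fun _ => rfl⟩
  have hdd : ∀ j, (D (j + 2) - D (j + 1)) - (D (j + 1) - D j) =
      2 * Real.sin t ^ 2 * (1 + (n - 1) * Real.cos (2 * ((j + 1 : ℕ) * t))) := by
    intro j
    rw [hD, hD, hD]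
    have e1 : ((j + 2 : ℕ) : ℝ) * t = ((j + 1 : ℕ) : ℝ) * t + t := by push_cast; ring
    have e2 : ((j : ℕ) : ℝ) * t = ((j + 1 : ℕ) : ℝ) * t - t := by push_cast; ring
    rw [e1, e2, Real.sin_add, Real.sin_sub, Real.cos_two_mul]
    set x := Real.sin (((j + 1 : ℕ) : ℝ) * t)
    set y := Real.cos (((j + 1 : ℕ) : ℝ) * t)
    have h3 : x ^ 2 + y ^ 2 = 1 := Real.sin_sq_add_cos_sq _
    have h4 : Real.sin t ^ 2 + Real.cos t ^ 2 = 1 := Real.sin_sq_add_cos_sq _
    push_cast
    linear_combination (2 * (n - 1) * Real.sin t ^ 2) * h3 * (-1) +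
      (2 * (n - 1) * x ^ 2) * h4
  have hD0 : D 0 = 0 := by rw [hD]; simp
  have hD1 : D 1 = 0 := by
    rw [hD]
    push_cast
    rw [one_mul]
    ring
  have hsym : ∀ j, j ≤ n → D (n - j) = D j := by
    intro j hj
    rw [hD, hD, Nat.cast_sub hj]
    have e1 : ((n : ℝ) - j) * t = Real.pi - j * t := by rw [← htn]; ring
    rw [e1, Real.sin_pi_sub]
    ring
  have hanti : ∀ j k : ℕ, j ≤ k → 2 * (k + 1) ≤ n →
      (D (k + 2) - D (k + 1)) - (D (k + 1) - D k) ≤ (D (j + 2) - D (j + 1)) - (D (j + 1) - D j) := by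
    intro j k hjk hk
    rw [hdd, hdd]
    have hk' : 2 * (((k + 1 : ℕ) : ℝ) * t) ≤ Real.pi := by
      rw [← htn]
      have : (2 * ((k + 1 : ℕ) : ℝ)) ≤ n := by exact_mod_cast hk
      nlinarith
    have hjk' : 2 * (((j + 1 : ℕ) : ℝ) * t) ≤ 2 * (((k + 1 : ℕ) : ℝ) * t) := by
      have : ((j + 1 : ℕ) : ℝ) ≤ ((k + 1 : ℕ) : ℝ) := by exact_mod_cast (by omega : j + 1 ≤ k + 1)
      nlinarith
    have h3 := Real.cos_le_cos_of_nonneg_of_le_pi (x := 2 * (((j + 1 : ℕ) : ℝ) * t))
      (by positivity) hk' hjk'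
    have h4 : (0 : ℝ) ≤ 2 * Real.sin t ^ 2 := by positivity
    apply mul_le_mul_of_nonneg_left _ h4
    have h5 : (0 : ℝ) ≤ n - 1 := by linarith
    have h6 := mul_le_mul_of_nonneg_left h3 h5
    linarith
  -- the first differences
  have hmid : 0 ≤ D ((n - 1) / 2 + 1) - D ((n - 1) / 2) := by
    rcases Nat.even_or_odd' n with ⟨m, hm | hm⟩
    · have e1 : (n - 1) / 2 = m - 1 := by omega
      have e2 : m - 1 + 1 = m := by omega
      rw [e1, e2]
      have h3 := hdd (m - 1)
      have e3 : m - 1 + 2 = m + 1 := by omega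
      have h4 : D (m + 1) = D (m - 1) := by
        have := hsym (m - 1) (by omega)
        rw [← this]
        congr 1
        omega
      rw [e2, e3, h4] at h3
      have e4 : 2 * ((m : ℕ) * t) = Real.pi := by
        rw [← htn]
        have : (n : ℝ) = 2 * m := by exact_mod_cast hm
        rw [this]
        ring
      rw [e4, Real.cos_pi] at h3
      have h5 : 0 ≤ Real.sin t ^ 2 * (n - 2) := mul_nonneg (by positivity) (by linarith)
      nlinarith
    · have e1 : (n - 1) / 2 = m := by omega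
      rw [e1]
      have h4 : D (m + 1) = D m := by
        have := hsym m (by omega)
        rw [← this]
        congr 1
        omega
      rw [h4, sub_self]
  have hpos := seq (fun j => D (j + 1) - D j) ((n - 1) / 2) (by simp [hD0, hD1]) hmid (by
    intro j k hjk hk
    exact hanti j k hjk (by omega))
  have hD2 : 0 < D 2 := by
    have h3 := hdd 0
    rw [hD0, hD1] at h3
    have h4 : 0 ≤ Real.cos (2 * (((0 + 1 : ℕ) : ℝ) * t)) := by
      apply Real.cos_nonneg_of_neg_pi_div_two_le_of_le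
      · have : 0 < 2 * (((0 + 1 : ℕ) : ℝ) * t) := by positivity
        linarith [Real.pi_pos]
      · push_cast
        nlinarith
    have h5 : 0 < 2 * Real.sin t ^ 2 * (1 + (n - 1) * Real.cos (2 * (((0 + 1 : ℕ) : ℝ) * t))) := by
      have : 0 ≤ ((n : ℝ) - 1) * Real.cos (2 * (((0 + 1 : ℕ) : ℝ) * t)) :=
        mul_nonneg (by linarith) h4
      positivity
    rw [← h3] at h5
    simpa using h5
  have hDr : ∀ m, 2 ≤ m → 2 * m ≤ n → D 2 ≤ D m := by
    intro m hm
    induction m, hm using Nat.le_induction with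
    | base => intro _; exact le_rfl
    | succ m hm ih =>
      intro hm2
      have h3 := ih (by omega)
      have h4 := hpos m (by omega)
      linarith
  have h3 := hDr r h2 hr
  have h4 : 0 < D r := lt_of_lt_of_le hD2 h3
  rw [hD] at h4
  rw [← ht, mul_div_assoc, ← ht]
  linarith

end Q4x

/-- Q4 -/
theorem trig_ineq (n r : ℕ) (h2 : 2 ≤ r) (hr : r + 2 ≤ n) :
    (r : ℝ) * (n - r) * Real.sin (Real.pi / n) ^ 2 <
      (n - 1) * Real.sin (r * Real.pi / n) ^ 2 := by
  rcases le_total (2 * r) n with h | h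
  · exact Q4x.half n r (by omega) h2 h
  · have h3 := Q4x.half n (n - r) (by omega) (by omega) (by omega)
    have hn0 : (0 : ℝ) < n := by exact_mod_cast (by omega : 0 < n)
    rw [Nat.cast_sub (by omega : r ≤ n)] at h3
    have e1 : ((n : ℝ) - r) * Real.pi / n = Real.pi - r * Real.pi / n := by
      field_simp
    rw [e1, Real.sin_pi_sub] at h3
    have e2 : ((n : ℝ) - r) * (n - (n - r)) = r * (n - r) := by ring
    rw [e2] at h3
    exact h3

end Pool.Agent.H280R2.RP
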