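import Pool.Agent.H280R2.RP.DefsL
set_option autoImplicit false

namespace Pool.Agent.H280R2.RP

open Finset

namespace Q5x

theorem prim (n : ℕ) (hn : n ≠ 0) : IsPrimitiveRoot (om n) n :=
  Complex.isPrimitiveRoot_exp n hn

theorem om_ne (n : ℕ) : om n ≠ 0 := Complex.exp_ne_zero _

theorem conj_om (n : ℕ) (hn : n ≠ 0) : (starRingEnd ℂ) (om n) = (om n)⁻¹ := by
  have h : ‖om n‖ = 1 := (prim n hn).norm'_eq_one hn
  exact (Complex.inv_eq_conj h).symm

theorem orth (n : ℕ) (hn : n ≠ 0) {a b : ℕ} (ha : a < n) (hb : b < n) :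
    ∑ j ∈ range n, om n ^ (a * j) * ((om n)⁻¹) ^ (b * j) = if a = b then (n : ℂ) else 0 := by
  have h1 : ∀ j, om n ^ (a * j) * ((om n)⁻¹) ^ (b * j) = (om n ^ a * ((om n)⁻¹) ^ b) ^ j := by
    intro j
    rw [mul_pow, ← pow_mul, ← pow_mul]
  simp only [h1]
  split_ifs with hab
  · subst hab
    have h2 : om n ^ a * ((om n)⁻¹) ^ a = 1 := by
      rw [← mul_pow, mul_inv_cancel₀ (om_ne n), one_pow]
    rw [h2]
    simp
  · have hz1 : om n ^ a * ((om n)⁻¹) ^ b ≠ 1 := by
      intro hc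
      rw [inv_pow, mul_inv_eq_one₀ (pow_ne_zero _ (om_ne n))] at hc
      exact hab ((prim n hn).pow_inj ha hb hc)
    have hzn : (om n ^ a * ((om n)⁻¹) ^ b) ^ n = 1 := by
      rw [mul_pow, ← pow_mul, ← pow_mul, mul_comm a, mul_comm b, pow_mul, pow_mul, inv_pow,
        (prim n hn).pow_eq_one, inv_one, one_pow, one_pow, mul_one]
    rw [geom_sum_eq hz1, hzn, sub_self, zero_div]

theorem orth' (n : ℕ) (hn : n ≠ 0) {a b : ℕ} (ha : a < n) (hb : b < n) :
    ∑ m ∈ range n, ((om n)⁻¹) ^ (m * a) * om n ^ (m * b) = if a = b then (n : ℂ) else 0 := by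
  have h1 := orth n hn hb ha
  rw [show (if a = b then (n : ℂ) else 0) = if b = a then (n : ℂ) else 0 by
    simp only [eq_comm]]
  rw [← h1]
  refine Finset.sum_congr rfl fun j _ => ?_
  rw [mul_comm, mul_comm j b, mul_comm j a]

end Q5x

/-- Q5 -/
theorem fourier (n : ℕ) (hn : 3 ≤ n) (η : ℕ → ℂ) (hη : Adm n η) :
    ∃ c : ℕ → ℂ, (∀ j, η j = ∑ m ∈ Finset.Icc 2 (n - 1), c m * om n ^ (m * j)) ∧
      ∑ j ∈ range n, ‖η j‖ ^ 2 = n * ∑ m ∈ Finset.Icc 2 (n - 1), ‖c m‖ ^ 2 := by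
  have hn0 : n ≠ 0 := by omega
  have hnC : (n : ℂ) ≠ 0 := by exact_mod_cast hn0
  obtain ⟨hper, hz, ho⟩ := hη
  let c : ℕ → ℂ := fun m => (1 / (n : ℂ)) * ∑ j ∈ range n, η j * ((om n)⁻¹) ^ (m * j)
  have hc0 : c 0 = 0 := by
    simp only [c, zero_mul, pow_zero, mul_one]
    rw [hz, mul_zero]
  have hc1 : c 1 = 0 := by
    have h1 : ∀ j, om n ^ ((n - 1) * j) = ((om n)⁻¹) ^ (1 * j) := by
      intro j
      rw [pow_mul, pow_mul, pow_one]
      congr 1
      have h2 : om n ^ (n - 1) * om n = 1 := by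
        rw [← pow_succ, Nat.sub_add_cancel (by omega), (Q5x.prim n hn0).pow_eq_one]
      exact eq_inv_of_mul_eq_one_left h2
    simp only [c]
    rw [← ho]
    rw [Finset.sum_congr rfl fun j _ => by rw [← h1 j]]
    rw [ho, mul_zero]
  have hsub : Finset.Icc 2 (n - 1) ⊆ range n := by
    intro m hm
    rw [Finset.mem_Icc] at hm
    rw [Finset.mem_range]
    omega
  have hInv : ∀ j < n, η j = ∑ m ∈ Finset.Icc 2 (n - 1), c m * om n ^ (m * j) := by
    intro j hj
    have h1 : ∑ m ∈ Finset.Icc 2 (n - 1), c m * om n ^ (m * j) =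
        ∑ m ∈ range n, c m * om n ^ (m * j) := by
      refine Finset.sum_subset hsub fun m hm hm' => ?_
      rw [Finset.mem_range] at hm
      rw [Finset.mem_Icc] at hm'
      have h2 : m = 0 ∨ m = 1 := by omega
      rcases h2 with h2 | h2
      · rw [h2, hc0, zero_mul]
      · rw [h2, hc1, zero_mul]
    rw [h1]
    have h2 : ∀ m, c m * om n ^ (m * j) = ∑ l ∈ range n, (1 / (n : ℂ)) * η l *
        (((om n)⁻¹) ^ (m * l) * om n ^ (m * j)) := by
      intro m
      simp only [c]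
      rw [Finset.mul_sum, Finset.sum_mul]
      refine Finset.sum_congr rfl fun l _ => ?_
      ring
    simp only [h2]
    rw [Finset.sum_comm]
    have h3 : ∀ l ∈ range n, ∑ m ∈ range n, (1 / (n : ℂ)) * η l *
        (((om n)⁻¹) ^ (m * l) * om n ^ (m * j)) = if l = j then η l else 0 := by
      intro l hl
      rw [← Finset.mul_sum, Q5x.orth' n hn0 (Finset.mem_range.1 hl) hj]
      split_ifs
      · field_simp
      · simp
    rw [Finset.sum_congr rfl h3, Finset.sum_ite_eq' (range n) j η, if_pos (Finset.mem_range.2 hj)]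
  refine ⟨c, ?_, ?_⟩
  · intro j
    have hp : Function.Periodic η n := hper
    rw [← hp.map_mod_nat j, hInv (j % n) (Nat.mod_lt _ (by omega))]
    refine Finset.sum_congr rfl fun m _ => ?_
    have h1 : om n ^ (m * j) = om n ^ (m * (j % n)) := by
      conv_lhs => rw [← Nat.mod_add_div j n]
      rw [mul_add, pow_add, ← mul_assoc, mul_comm m n, mul_assoc, pow_mul (om n) n,
        (Q5x.prim n hn0).pow_eq_one, one_pow, mul_one]
    rw [h1]
  · have hC : ((∑ j ∈ range n, ‖η j‖ ^ 2 : ℝ) : ℂ) =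
        ((n * ∑ m ∈ Finset.Icc 2 (n - 1), ‖c m‖ ^ 2 : ℝ) : ℂ) := by
      push_cast
      have h1 : ∀ j ∈ range n, ((‖η j‖ : ℂ)) ^ 2 = ∑ m ∈ Finset.Icc 2 (n - 1),
          ∑ m' ∈ Finset.Icc 2 (n - 1), c m * (starRingEnd ℂ) (c m') *
            (om n ^ (m * j) * ((om n)⁻¹) ^ (m' * j)) := by
        intro j hj
        rw [← Complex.mul_conj', hInv j (Finset.mem_range.1 hj), map_sum, Finset.sum_mul_sum]
        refine Finset.sum_congr rfl fun m _ => Finset.sum_congr rfl fun m' _ => ?_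
        rw [map_mul, map_pow, Q5x.conj_om n hn0]
        ring
      rw [Finset.sum_congr rfl h1, Finset.sum_comm, Finset.mul_sum]
      refine Finset.sum_congr rfl fun m hm => ?_
      rw [Finset.sum_comm]
      have h2 : ∀ m' ∈ Finset.Icc 2 (n - 1), ∑ j ∈ range n, c m * (starRingEnd ℂ) (c m') *
          (om n ^ (m * j) * ((om n)⁻¹) ^ (m' * j)) =
          if m = m' then c m * (starRingEnd ℂ) (c m') * (n : ℂ) else 0 := by
        intro m' hm'
        rw [← Finset.mul_sum, Q5x.orth n hn0 (Finset.mem_range.1 (hsub hm))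
          (Finset.mem_range.1 (hsub hm'))]
        split_ifs <;> simp
      rw [Finset.sum_congr rfl h2, Finset.sum_ite_eq, if_pos hm, Complex.mul_conj']
      ring
    exact_mod_cast hC

end Pool.Agent.H280R2.RP
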