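import Pool.Agent.H280R2.RP.DefsL
set_option autoImplicit false

namespace Pool.Agent.H280R2.RP

open Finset

namespace Q6x

theorem prim (n : ℕ) (hn : n ≠ 0) : IsPrimitiveRoot (om n) n := Complex.isPrimitiveRoot_exp n hn

/-- orthogonality -/
theorem orth (n : ℕ) (hn : n ≠ 0) (s : ℕ) :
    ∑ k ∈ range n, (om n ^ k) ^ s = if n ∣ s then (n : ℂ) else 0 := by
  have hp := prim n hn
  have h1 : ∀ k, (om n ^ k) ^ s = (om n ^ s) ^ k := fun k => by
    rw [← pow_mul, ← pow_mul, mul_comm]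
  simp only [h1]
  split_ifs with h
  · have h2 : om n ^ s = 1 := (hp.pow_eq_one_iff_dvd s).2 h
    rw [h2]
    simp
  · have h2 : om n ^ s ≠ 1 := fun h3 => h ((hp.pow_eq_one_iff_dvd s).1 h3)
    have h3 := mul_neg_geom_sum (om n ^ s) n
    have h4 : (om n ^ s) ^ n = 1 := by
      rw [← pow_mul, mul_comm, pow_mul, hp.pow_eq_one, one_pow]
    rw [h4, sub_self] at h3
    exact (mul_eq_zero.1 h3).resolve_left (sub_ne_zero.2 (Ne.symm h2))

theorem ind (n m : ℕ) (hn : 3 ≤ n) (h2 : 2 ≤ m) (hm : m ≤ n) (i j : ℕ) (hi : i < m)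
    (hj : j < n + 2 - m) : (if n ∣ i + j then (n : ℂ) else 0) =
      (if i = 0 then (if j = 0 then (n : ℂ) else 0) else 0) +
      (if i = m - 1 then (if j = n + 1 - m then (n : ℂ) else 0) else 0) := by
  by_cases h : n ∣ i + j
  · rw [if_pos h]
    obtain ⟨c, hc⟩ := h
    have hc2 : c < 2 := by
      by_contra h3
      push Not at h3
      have : n * 2 ≤ n * c := Nat.mul_le_mul_left n h3
      omega
    interval_cases c
    · have e1 : i = 0 := by omega
      have e2 : j = 0 := by omega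
      subst e1 e2
      rw [if_pos rfl, if_pos rfl, if_neg (by omega), add_zero]
    · have e1 : i = m - 1 := by omega
      have e2 : j = n + 1 - m := by omega
      rw [if_neg (by omega), if_pos e1, if_pos e2, zero_add]
  · rw [if_neg h]
    have h3 : ¬ (i = 0 ∧ j = 0) := by
      rintro ⟨rfl, rfl⟩
      exact h (dvd_zero n)
    have h4 : ¬ (i = m - 1 ∧ j = n + 1 - m) := by
      rintro ⟨e1, e2⟩
      exact h ⟨1, by omega⟩
    rw [← ite_and, ← ite_and, if_neg h3, if_neg h4, add_zero]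

theorem dsum (n m : ℕ) (hn : 3 ≤ n) (h2 : 2 ≤ m) (hm : m ≤ n) :
    ∑ i ∈ range m, ∑ j ∈ range (n + 2 - m), (if n ∣ i + j then (n : ℂ) else 0) = 2 * n := by
  rw [Finset.sum_congr rfl fun i hi => Finset.sum_congr rfl fun j hj =>
    ind n m hn h2 hm i j (mem_range.1 hi) (mem_range.1 hj)]
  have e1 : ∀ i, ∑ j ∈ range (n + 2 - m),
      ((if i = 0 then (if j = 0 then (n : ℂ) else 0) else 0) +
      (if i = m - 1 then (if j = n + 1 - m then (n : ℂ) else 0) else 0)) =
      (if i = 0 then (n : ℂ) else 0) + (if i = m - 1 then (n : ℂ) else 0) := by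
    intro i
    rw [Finset.sum_add_distrib]
    congr 1
    · split_ifs
      · rw [Finset.sum_ite_eq', if_pos (mem_range.2 (by omega))]
      · simp
    · split_ifs
      · rw [Finset.sum_ite_eq', if_pos (mem_range.2 (by omega))]
      · simp
  rw [Finset.sum_congr rfl fun i _ => e1 i, Finset.sum_add_distrib, Finset.sum_ite_eq',
    Finset.sum_ite_eq', if_pos (mem_range.2 (by omega)), if_pos (mem_range.2 (by omega))]
  ring

end Q6x

/-- Q6 -/
theorem kernel_sum (n : ℕ) (hn : 3 ≤ n) (m : ℕ) (h2 : 2 ≤ m) (hm : m ≤ n) :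
    ∑ k ∈ Finset.Ico 1 n, ((1 - om n ^ (m * k)) * (1 - om n ^ ((n + 2 - m) * k))) /
      (1 - om n ^ k) ^ 2 = -(((m : ℂ) - 2) * ((n : ℂ) - m)) := by
  have hp := Q6x.prim n (by omega)
  have h3 : ∀ k ∈ Finset.Ico 1 n, ((1 - om n ^ (m * k)) * (1 - om n ^ ((n + 2 - m) * k))) /
      (1 - om n ^ k) ^ 2 =
      ∑ i ∈ range m, ∑ j ∈ range (n + 2 - m), (om n ^ k) ^ (i + j) := by
    intro k hk
    obtain ⟨hk1, hk2⟩ := Finset.mem_Ico.1 hk
    have hx : (1 - om n ^ k) ≠ 0 := by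
      rw [sub_ne_zero]
      intro h
      have := (hp.pow_eq_one_iff_dvd k).1 h.symm
      exact absurd (Nat.le_of_dvd (by omega) this) (by omega)
    have e1 := mul_neg_geom_sum (om n ^ k) m
    have e2 := mul_neg_geom_sum (om n ^ k) (n + 2 - m)
    have e3 : om n ^ (m * k) = (om n ^ k) ^ m := by rw [← pow_mul, mul_comm]
    have e4 : om n ^ ((n + 2 - m) * k) = (om n ^ k) ^ (n + 2 - m) := by rw [← pow_mul, mul_comm]
    rw [e3, e4, ← e1, ← e2, div_eq_iff (pow_ne_zero 2 hx)]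
    have e5 : ∑ i ∈ range m, ∑ j ∈ range (n + 2 - m), (om n ^ k) ^ (i + j) =
        (∑ i ∈ range m, (om n ^ k) ^ i) * ∑ j ∈ range (n + 2 - m), (om n ^ k) ^ j := by
      rw [Finset.sum_mul_sum]
      exact Finset.sum_congr rfl fun i _ => Finset.sum_congr rfl fun j _ => pow_add _ _ _
    rw [e5]
    ring
  rw [Finset.sum_congr rfl h3]
  have h4 : ∑ k ∈ range n, ∑ i ∈ range m, ∑ j ∈ range (n + 2 - m), (om n ^ k) ^ (i + j) =
      2 * n := by
    rw [Finset.sum_comm, ← Q6x.dsum n m hn h2 hm]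
    refine Finset.sum_congr rfl fun i _ => ?_
    rw [Finset.sum_comm]
    exact Finset.sum_congr rfl fun j _ => Q6x.orth n (by omega) (i + j)
  have h5 : ∑ k ∈ range n, ∑ i ∈ range m, ∑ j ∈ range (n + 2 - m), (om n ^ k) ^ (i + j) =
      ∑ i ∈ range m, ∑ j ∈ range (n + 2 - m), (om n ^ 0) ^ (i + j) +
      ∑ k ∈ Finset.Ico 1 n, ∑ i ∈ range m, ∑ j ∈ range (n + 2 - m), (om n ^ k) ^ (i + j) := by
    rw [Finset.range_eq_Ico, Finset.sum_eq_sum_Ico_succ_bot (by omega)]
  have h6 : ∑ i ∈ range m, ∑ j ∈ range (n + 2 - m), (om n ^ 0) ^ (i + j) =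
      (m : ℂ) * ((n : ℂ) + 2 - m) := by
    simp only [pow_zero, one_pow, Finset.sum_const, Finset.card_range, nsmul_eq_mul, mul_one]
    rw [Nat.cast_sub (by omega)]
    push_cast
    ring
  rw [h4, h6] at h5
  linear_combination -h5

end Pool.Agent.H280R2.RP
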