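import Pool.Agent.H280R2.RP.DefsL
import Pool.Agent.H280R2.RP.Q6
set_option autoImplicit false

namespace Pool.Agent.H280R2.RP

open Finset

namespace Q7x

lemma om_prim (n : ℕ) (hn : 3 ≤ n) : IsPrimitiveRoot (om n) n :=
  Complex.isPrimitiveRoot_exp n (by omega)

lemma geom (n : ℕ) (hn : 3 ≤ n) (s : ℕ) :
    ∑ j ∈ range n, om n ^ (s * j) = if n ∣ s then (n : ℂ) else 0 := by
  have hp := om_prim n hn
  split_ifs with h
  · obtain ⟨t, rfl⟩ := h
    have : ∀ j ∈ range n, om n ^ (n * t * j) = 1 := by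
      intro j _
      rw [mul_assoc, pow_mul, hp.pow_eq_one, one_pow]
    rw [Finset.sum_congr rfl this]
    simp
  · have h1 : om n ^ s ≠ 1 := by
      intro h2
      exact h (hp.dvd_of_pow_eq_one s h2)
    have h3 : ∑ j ∈ range n, om n ^ (s * j) = ∑ j ∈ range n, (om n ^ s) ^ j := by
      apply Finset.sum_congr rfl
      intro j _
      rw [pow_mul]
    rw [h3, geom_sum_eq h1, ← pow_mul, mul_comm s n, pow_mul, hp.pow_eq_one, one_pow, sub_self,
      zero_div]

/-- the kernel -/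
noncomputable def KK (n m l k : ℕ) : ℂ :=
  ((1 - om n ^ (m * k)) * (1 - om n ^ (l * k))) / (1 - om n ^ k) ^ 2

lemma XX_eq (n : ℕ) (hn : 3 ≤ n) (c η : ℕ → ℂ)
    (hη : ∀ j, η j = ∑ m ∈ Finset.Icc 2 (n - 1), c m * om n ^ (m * j)) (j k : ℕ)
    (hk : k ∈ Finset.Ico 1 n) :
    XX n η j k = ∑ m ∈ Finset.Icc 2 (n - 1),
      c m * ((1 - om n ^ (m * k)) / (1 - om n ^ k)) * om n ^ ((m - 1) * j) := by
  have hp := om_prim n hn
  have hk' := Finset.mem_Ico.mp hk
  have h0 : om n ≠ 0 := hp.ne_zero (by omega)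
  have h1 : (1 : ℂ) - om n ^ k ≠ 0 := by
    intro h
    have h2 : om n ^ k = 1 := by linear_combination -h
    exact absurd (Nat.le_of_dvd (by omega) (hp.dvd_of_pow_eq_one k h2)) (by omega)
  have h3 : om n ^ (j + k) - om n ^ j ≠ 0 := by
    intro h
    have h4 : om n ^ j * (1 - om n ^ k) = 0 := by
      rw [pow_add] at h
      linear_combination -h
    rcases mul_eq_zero.mp h4 with h5 | h5
    · exact pow_ne_zero _ h0 h5
    · exact h1 h5
  unfold XX
  rw [div_eq_iff h3, hη, hη, ← Finset.sum_sub_distrib, Finset.sum_mul]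
  apply Finset.sum_congr rfl
  intro m hm
  have hm' := Finset.mem_Icc.mp hm
  have e1 : m * (j + k) = (m - 1) * j + j + m * k := by
    obtain ⟨m', rfl⟩ := Nat.exists_eq_add_of_le (show 1 ≤ m by omega)
    rw [Nat.add_sub_cancel_left]
    ring
  have e2 : m * j = (m - 1) * j + j := by
    obtain ⟨m', rfl⟩ := Nat.exists_eq_add_of_le (show 1 ≤ m by omega)
    rw [Nat.add_sub_cancel_left]
    ring
  rw [e1, e2, pow_add, pow_add, pow_add]
  have e3 : (1 - om n ^ (m * k)) / (1 - om n ^ k) * (1 - om n ^ k) = 1 - om n ^ (m * k) :=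
    div_mul_cancel₀ _ h1
  linear_combination (c m * om n ^ ((m - 1) * j) * om n ^ j) * e3

lemma XX_sq (n : ℕ) (hn : 3 ≤ n) (c η : ℕ → ℂ)
    (hη : ∀ j, η j = ∑ m ∈ Finset.Icc 2 (n - 1), c m * om n ^ (m * j)) (j k : ℕ)
    (hk : k ∈ Finset.Ico 1 n) :
    XX n η j k ^ 2 = ∑ m ∈ Finset.Icc 2 (n - 1), ∑ l ∈ Finset.Icc 2 (n - 1),
      c m * c l * KK n m l k * om n ^ ((m + l - 2) * j) := by
  rw [XX_eq n hn c η hη j k hk, sq, Finset.sum_mul_sum]
  apply Finset.sum_congr rfl
  intro m hm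
  apply Finset.sum_congr rfl
  intro l hl
  have hm' := Finset.mem_Icc.mp hm
  have hl' := Finset.mem_Icc.mp hl
  have e1 : (m + l - 2) * j = (m - 1) * j + (l - 1) * j := by
    rw [← Nat.add_mul]
    congr 1
    omega
  rw [e1, pow_add]
  unfold KK
  rw [mul_div_assoc, sq, ← div_div]
  ring

lemma sum_j (n : ℕ) (hn : 3 ≤ n) (c η : ℕ → ℂ)
    (hη : ∀ j, η j = ∑ m ∈ Finset.Icc 2 (n - 1), c m * om n ^ (m * j)) (k : ℕ)
    (hk : k ∈ Finset.Ico 1 n) :
    ∑ j ∈ range n, XX n η j k ^ 2 = ∑ m ∈ Finset.Icc 3 (n - 1),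
      c m * c (n + 2 - m) * KK n m (n + 2 - m) k * n := by
  have h1 : ∑ j ∈ range n, XX n η j k ^ 2 = ∑ m ∈ Finset.Icc 2 (n - 1),
      ∑ l ∈ Finset.Icc 2 (n - 1), c m * c l * KK n m l k *
        (if n ∣ (m + l - 2) then (n : ℂ) else 0) := by
    rw [Finset.sum_congr rfl (fun j _ => XX_sq n hn c η hη j k hk), Finset.sum_comm]
    apply Finset.sum_congr rfl
    intro m _
    rw [Finset.sum_comm]
    apply Finset.sum_congr rfl
    intro l _
    rw [← Finset.mul_sum, geom n hn]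
  rw [h1]
  have h2 : ∀ m ∈ Finset.Icc 2 (n - 1), ∑ l ∈ Finset.Icc 2 (n - 1), c m * c l * KK n m l k *
        (if n ∣ (m + l - 2) then (n : ℂ) else 0) =
        if 3 ≤ m then c m * c (n + 2 - m) * KK n m (n + 2 - m) k * n else 0 := by
    intro m hm
    have hm' := Finset.mem_Icc.mp hm
    have key : ∀ l ∈ Finset.Icc 2 (n - 1), n ∣ (m + l - 2) → m + l = n + 2 := by
      intro l hl hd
      have hl' := Finset.mem_Icc.mp hl
      obtain ⟨t, ht⟩ := hd
      have ht0 : t ≠ 0 := by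
        rintro rfl
        omega
      have ht1 : t < 2 := by
        by_contra hc
        have : n * 2 ≤ n * t := Nat.mul_le_mul_left n (by omega)
        omega
      have : t = 1 := by omega
      subst this
      omega
    split_ifs with h3
    · rw [Finset.sum_eq_single (n + 2 - m)]
      · rw [if_pos]
        have : m + (n + 2 - m) - 2 = n := by omega
        rw [this]
      · intro l hl hne
        rw [if_neg, mul_zero]
        intro hd
        have := key l hl hd
        omega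
      · intro hne
        exfalso
        apply hne
        rw [Finset.mem_Icc]
        omega
    · apply Finset.sum_eq_zero
      intro l hl
      have hl' := Finset.mem_Icc.mp hl
      rw [if_neg, mul_zero]
      intro hd
      have := key l hl hd
      omega
  rw [Finset.sum_congr rfl h2, ← Finset.sum_filter]
  apply Finset.sum_congr _ (fun _ _ => rfl)
  ext m
  simp only [Finset.mem_filter, Finset.mem_Icc]
  omega

end Q7x

/-- Q7 -/
theorem quad_sum (n : ℕ) (hn : 3 ≤ n) (c η : ℕ → ℂ)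
    (hη : ∀ j, η j = ∑ m ∈ Finset.Icc 2 (n - 1), c m * om n ^ (m * j)) :
    ∑ k ∈ Finset.Ico 1 n, ∑ j ∈ range n, XX n η j k ^ 2 =
      -(n : ℂ) * ∑ m ∈ Finset.Icc 3 (n - 1),
        (((m : ℂ) - 2) * ((n : ℂ) - m)) * (c m * c (n + 2 - m)) := by
  rw [Finset.sum_congr rfl (fun k hk => Q7x.sum_j n hn c η hη k hk), Finset.sum_comm,
    Finset.mul_sum]
  apply Finset.sum_congr rfl
  intro m hm
  have hm' := Finset.mem_Icc.mp hm
  have h := kernel_sum n hn m (by omega) (by omega)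
  have h2 : ∑ k ∈ Finset.Ico 1 n, Q7x.KK n m (n + 2 - m) k = -(((m : ℂ) - 2) * ((n : ℂ) - m)) := h
  rw [← Finset.sum_mul, ← Finset.mul_sum, h2]
  ring

end Pool.Agent.H280R2.RP
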