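import Pool.Agent.H280R2.RP.DefsL
/-! Q8: the imaginary parts of the divided differences. -/

set_option autoImplicit false

namespace Pool.Agent.H280R2.RP

open Finset

namespace Q8x

theorem prim (n : ℕ) (hn : n ≠ 0) : IsPrimitiveRoot (om n) n :=
  Complex.isPrimitiveRoot_exp n hn

theorem om_pow_n (n : ℕ) (hn : n ≠ 0) : om n ^ n = 1 := (prim n hn).pow_eq_one

theorem om_ne (n : ℕ) : om n ≠ 0 := Complex.exp_ne_zero _

theorem norm_om (n : ℕ) (hn : n ≠ 0) : ‖om n‖ = 1 :=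
  Complex.norm_eq_one_of_pow_eq_one (om_pow_n n hn) hn

theorem conj_pow (n : ℕ) (hn : n ≠ 0) (k : ℕ) :
    (starRingEnd ℂ) (om n ^ k) = (om n ^ k)⁻¹ := by
  rw [Complex.inv_eq_conj]
  rw [norm_pow, norm_om n hn, one_pow]

theorem orth (n : ℕ) (hn : n ≠ 0) (r s : ℕ) (hr : r < n) (hs : s < n) :
    ∑ j ∈ range n, om n ^ (r * j) * (starRingEnd ℂ) (om n ^ (s * j)) =
      if r = s then (n : ℂ) else 0 := by
  have h1 : ∀ j, om n ^ (r * j) * (starRingEnd ℂ) (om n ^ (s * j)) =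
      (om n ^ r * (om n ^ s)⁻¹) ^ j := by
    intro j
    rw [conj_pow n hn, mul_pow, inv_pow, ← pow_mul, ← pow_mul]
  simp only [h1]
  split_ifs with h
  · subst h
    rw [mul_inv_cancel₀ (pow_ne_zero _ (om_ne n))]
    simp
  · have h2 : om n ^ r * (om n ^ s)⁻¹ ≠ 1 := by
      intro h3
      apply h
      have h4 : om n ^ r = om n ^ s := by
        rw [mul_inv_eq_one₀ (pow_ne_zero _ (om_ne n))] at h3
        exact h3
      exact (prim n hn).pow_inj hr hs h4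
    rw [geom_sum_eq h2]
    have h3 : (om n ^ r * (om n ^ s)⁻¹) ^ n = 1 := by
      rw [mul_pow, inv_pow, ← pow_mul, ← pow_mul, mul_comm r n, mul_comm s n, pow_mul, pow_mul,
        om_pow_n n hn]
      simp
    rw [h3, sub_self, zero_div]

theorem parseval (n : ℕ) (hn : n ≠ 0) (V : ℕ → ℂ) :
    ∑ j ∈ range n, ‖∑ r ∈ Ico 1 n, V r * om n ^ (r * j)‖ ^ 2 =
      (n : ℝ) * ∑ r ∈ Ico 1 n, ‖V r‖ ^ 2 := by
  apply Complex.ofReal_injective
  push_cast
  have h1 : ∀ z : ℂ, ((‖z‖ : ℂ)) ^ 2 = z * (starRingEnd ℂ) z := fun z => (Complex.mul_conj' z).symm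
  simp only [h1]
  have h2 : ∀ j, (∑ r ∈ Ico 1 n, V r * om n ^ (r * j)) *
      (starRingEnd ℂ) (∑ r ∈ Ico 1 n, V r * om n ^ (r * j)) =
      ∑ r ∈ Ico 1 n, ∑ s ∈ Ico 1 n, (V r * (starRingEnd ℂ) (V s)) *
        (om n ^ (r * j) * (starRingEnd ℂ) (om n ^ (s * j))) := by
    intro j
    rw [map_sum, Finset.sum_mul_sum]
    refine Finset.sum_congr rfl fun r _ => Finset.sum_congr rfl fun s _ => ?_
    rw [map_mul]
    ring
  simp only [h2]
  rw [Finset.sum_comm, Finset.mul_sum]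
  refine Finset.sum_congr rfl fun r hr => ?_
  rw [Finset.sum_comm]
  rw [Finset.mem_Ico] at hr
  have h3 : ∀ s ∈ Ico 1 n, ∑ j ∈ range n, (V r * (starRingEnd ℂ) (V s)) *
        (om n ^ (r * j) * (starRingEnd ℂ) (om n ^ (s * j))) =
      if r = s then (V r * (starRingEnd ℂ) (V s)) * (n : ℂ) else 0 := by
    intro s hs
    rw [Finset.mem_Ico] at hs
    rw [← Finset.mul_sum, orth n hn r s hr.2 hs.2]
    split_ifs <;> simp
  rw [Finset.sum_congr rfl h3, Finset.sum_ite_eq, if_pos (Finset.mem_Ico.mpr hr)]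
  ring

theorem XX_eq (n : ℕ) (hn : 3 ≤ n) (c η U : ℕ → ℂ)
    (hη : ∀ j, η j = ∑ m ∈ Finset.Icc 2 (n - 1), c m * om n ^ (m * j))
    (hU : ∀ r, U r = c (r + 1) * (om n ^ (r + 1) - 1) / (om n - 1)) (j : ℕ) :
    XX n η j 1 = ∑ r ∈ Ico 1 n, U r * om n ^ (r * j) := by
  have hn0 : n ≠ 0 := by omega
  have hω : om n ≠ 0 := om_ne n
  have hω1 : om n - 1 ≠ 0 := by
    rw [sub_ne_zero]
    exact (prim n hn0).ne_one (by omega)
  obtain ⟨k, rfl⟩ : ∃ k, n = k + 1 := ⟨n - 1, by omega⟩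
  have h1 : ∑ r ∈ Ico 1 (k + 1), U r * om (k + 1) ^ (r * j) =
      ∑ r ∈ Ico 1 k, U r * om (k + 1) ^ (r * j) := by
    rw [Finset.sum_Ico_succ_top (by omega)]
    have : U k = 0 := by
      rw [hU, om_pow_n (k + 1) hn0, sub_self, mul_zero, zero_div]
    rw [this, zero_mul, add_zero]
  rw [h1]
  have h2 : ∑ r ∈ Ico 1 k, U r * om (k + 1) ^ (r * j) =
      ∑ m ∈ Icc 2 k, U (m - 1) * om (k + 1) ^ ((m - 1) * j) := by
    refine Finset.sum_bij (fun r _ => r + 1) ?_ ?_ ?_ ?_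
    · intro r hr
      rw [Finset.mem_Ico] at hr
      rw [Finset.mem_Icc]
      omega
    · intro a _ b _ h
      omega
    · intro m hm
      rw [Finset.mem_Icc] at hm
      exact ⟨m - 1, Finset.mem_Ico.mpr (by omega), by omega⟩
    · intro r _
      rw [Nat.add_sub_cancel]
  rw [h2]
  unfold XX
  rw [hη, hη, Nat.add_sub_cancel, ← Finset.sum_sub_distrib, Finset.sum_div]
  refine Finset.sum_congr rfl fun m hm => ?_
  rw [Finset.mem_Icc] at hm
  obtain ⟨t, rfl⟩ : ∃ t, m = t + 1 := ⟨m - 1, by omega⟩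
  rw [hU, Nat.add_sub_cancel]
  have h3 : om (k + 1) ^ (j + 1) - om (k + 1) ^ j = om (k + 1) ^ j * (om (k + 1) - 1) := by
    rw [pow_succ]
    ring
  have h4 : om (k + 1) ^ ((t + 1) * (j + 1)) =
      om (k + 1) ^ ((t + 1) * j) * om (k + 1) ^ (t + 1) := by
    rw [← pow_add]
    congr 1
  have h5 : om (k + 1) ^ ((t + 1) * j) = om (k + 1) ^ (t * j) * om (k + 1) ^ j := by
    rw [← pow_add]
    congr 1
    ring
  rw [h3, h4, h5]
  have h6 : om (k + 1) ^ j ≠ 0 := pow_ne_zero _ hω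
  field_simp

theorem conj_sum (n : ℕ) (hn : n ≠ 0) (U : ℕ → ℂ) (j : ℕ) :
    (starRingEnd ℂ) (∑ r ∈ Ico 1 n, U r * om n ^ (r * j)) =
      ∑ r ∈ Ico 1 n, (starRingEnd ℂ) (U (n - r)) * om n ^ (r * j) := by
  rw [map_sum]
  refine Finset.sum_bij (fun r _ => n - r) ?_ ?_ ?_ ?_
  · intro r hr
    rw [Finset.mem_Ico] at hr ⊢
    omega
  · intro a ha b hb h
    rw [Finset.mem_Ico] at ha hb
    omega
  · intro m hm
    rw [Finset.mem_Ico] at hm
    exact ⟨n - m, Finset.mem_Ico.mpr (by omega), by omega⟩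
  · intro r hr
    rw [Finset.mem_Ico] at hr
    have h1 : n - (n - r) = r := by omega
    rw [h1, map_mul, conj_pow n hn]
    congr 1
    apply inv_eq_of_mul_eq_one_right
    rw [← pow_add, ← Nat.add_mul]
    have h2 : r + (n - r) = n := by omega
    rw [h2, pow_mul, om_pow_n n hn, one_pow]

end Q8x

open Q8x in
/-- Q8 -/
theorem im_sum (n : ℕ) (hn : 3 ≤ n) (c η U : ℕ → ℂ)
    (hη : ∀ j, η j = ∑ m ∈ Finset.Icc 2 (n - 1), c m * om n ^ (m * j))
    (hU : ∀ r, U r = c (r + 1) * (om n ^ (r + 1) - 1) / (om n - 1)) :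
    ∑ j ∈ range n, (XX n η j 1).im ^ 2 =
      (n / 4 : ℝ) * ∑ r ∈ Finset.Ico 1 n, ‖U r - (starRingEnd ℂ) (U (n - r))‖ ^ 2 := by
  have hn0 : n ≠ 0 := by omega
  have h1 : ∀ j, (XX n η j 1).im ^ 2 = (1 / 4) *
      ‖∑ r ∈ Ico 1 n, (U r - (starRingEnd ℂ) (U (n - r))) * om n ^ (r * j)‖ ^ 2 := by
    intro j
    have h2 : ∑ r ∈ Ico 1 n, (U r - (starRingEnd ℂ) (U (n - r))) * om n ^ (r * j) =
        XX n η j 1 - (starRingEnd ℂ) (XX n η j 1) := by
      rw [XX_eq n hn c η U hη hU j, conj_sum n hn0 U j, ← Finset.sum_sub_distrib]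
      refine Finset.sum_congr rfl fun r _ => ?_
      ring
    rw [h2, Complex.sub_conj, norm_mul, Complex.norm_I, mul_one, Complex.norm_real,
      Real.norm_eq_abs, sq_abs]
    ring
  simp only [h1]
  rw [← Finset.mul_sum, parseval n hn0]
  ring

end Pool.Agent.H280R2.RP
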