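import Pool.Agent.H280R2.RP.DefsL
import Pool.Agent.H280R2.RP.Q4
import Pool.Agent.H280R2.RP.Q5
import Pool.Agent.H280R2.RP.Q7
import Pool.Agent.H280R2.RP.Q8
set_option autoImplicit false

/-!
# Q9: positivity of the quadratic form (helper398)
-/

namespace Pool.Agent.H280R2.RP

open Finset

namespace Q9x

theorem om_pow (n : ℕ) (k : ℕ) : om n ^ k =
    ((Real.cos (2 * (k * Real.pi / n)) : ℝ) : ℂ) + ((Real.sin (2 * (k * Real.pi / n)) : ℝ) : ℂ) *
      Complex.I := by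
  unfold om
  rw [← Complex.exp_nat_mul]
  have e : (k : ℂ) * (2 * (Real.pi : ℂ) * Complex.I / n) =
      ((2 * (k * Real.pi / n) : ℝ) : ℂ) * Complex.I := by
    push_cast
    ring
  rw [e, Complex.exp_mul_I, Complex.ofReal_cos, Complex.ofReal_sin]

theorem om_n {n : ℕ} (hn : 1 ≤ n) : om n ^ n = 1 := by
  rw [om_pow]
  have h : (n : ℝ) ≠ 0 := by positivity
  have e : (2 * ((n : ℝ) * Real.pi / n)) = 2 * Real.pi := by field_simp
  rw [e, Real.cos_two_pi, Real.sin_two_pi]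
  simp

theorem om_comp {n : ℕ} (hn : 1 ≤ n) {r : ℕ} (hr : r ≤ n) : om n ^ (n - r) * om n ^ r = 1 := by
  rw [← pow_add, Nat.sub_add_cancel hr, om_n hn]

theorem om_comp' {n : ℕ} (hn : 1 ≤ n) {r : ℕ} (hr : r ≤ n) : om n ^ (n - r) =
    ((Real.cos (2 * (r * Real.pi / n)) : ℝ) : ℂ) - ((Real.sin (2 * (r * Real.pi / n)) : ℝ) : ℂ) *
      Complex.I := by
  have h1 := om_comp hn hr
  rw [om_pow n r] at h1
  set C := Real.cos (2 * (r * Real.pi / n))
  set S := Real.sin (2 * (r * Real.pi / n))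
  have h2 : S ^ 2 + C ^ 2 = 1 := Real.sin_sq_add_cos_sq _
  have h3 : ((C : ℂ) + (S : ℂ) * Complex.I) * ((C : ℂ) - (S : ℂ) * Complex.I) = 1 := by
    have h4 : ((S : ℂ)) ^ 2 + (C : ℂ) ^ 2 = 1 := by exact_mod_cast h2
    linear_combination h4 - (S : ℂ) ^ 2 * Complex.I_sq
  calc om n ^ (n - r) = om n ^ (n - r) * (((C : ℂ) + (S : ℂ) * Complex.I) *
        ((C : ℂ) - (S : ℂ) * Complex.I)) := by rw [h3, mul_one]
    _ = (om n ^ (n - r) * ((C : ℂ) + (S : ℂ) * Complex.I)) * ((C : ℂ) - (S : ℂ) * Complex.I) := by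
        ring
    _ = (C : ℂ) - (S : ℂ) * Complex.I := by rw [h1, one_mul]

theorem two_cos (x : ℝ) : Real.cos (2 * x) = 1 - 2 * Real.sin x ^ 2 := by
  rw [Real.cos_two_mul]
  have := Real.sin_sq_add_cos_sq x
  linarith

theorem om_key {n : ℕ} (hn : 1 ≤ n) {r : ℕ} (hr : r ≤ n) :
    (om n ^ (r + 1) - 1) * (om n ^ (n - r + 1) - 1) * ((Real.sin (Real.pi / n) ^ 2 : ℝ) : ℂ) =
      -(om n - 1) ^ 2 *
        ((Real.sin (r * Real.pi / n) ^ 2 - Real.sin (Real.pi / n) ^ 2 : ℝ) : ℂ) := by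
  have h1 := om_comp hn hr
  have h2 := om_pow n r
  have h3 := om_comp' hn hr
  have h4 := om_pow n 1
  have h5 := om_comp' hn (r := 1) hn
  have h6 := om_comp hn (r := 1) hn
  have hs : om n ^ r + om n ^ (n - r) = 2 - 4 * ((Real.sin (r * Real.pi / n) ^ 2 : ℝ) : ℂ) := by
    rw [h2, h3, two_cos]; push_cast; ring
  have hs1 : om n ^ 1 + om n ^ (n - 1) = 2 - 4 * ((Real.sin (Real.pi / n) ^ 2 : ℝ) : ℂ) := by
    rw [h4, h5, two_cos]; push_cast; ring_nf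
  rw [pow_one] at hs1 h6
  rw [pow_succ, pow_succ, Complex.ofReal_sub]
  generalize ((Real.sin (r * Real.pi / n) ^ 2 : ℝ) : ℂ) = s at *
  generalize ((Real.sin (Real.pi / n) ^ 2 : ℝ) : ℂ) = t at *
  generalize om n ^ r = a at *
  generalize om n ^ (n - r) = b at *
  generalize om n ^ (n - 1) = v at *
  generalize om n = w at *
  linear_combination t * w ^ 2 * h1 - t * w * hs + s * w * hs1 - s * h6

theorem sin_pos' {n : ℕ} (hn : 3 ≤ n) : 0 < Real.sin (Real.pi / n) := by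
  have h : (3 : ℝ) ≤ n := by exact_mod_cast hn
  apply Real.sin_pos_of_pos_of_lt_pi
  · exact div_pos Real.pi_pos (by linarith)
  · rw [div_lt_iff₀ (by linarith)]
    nlinarith [Real.pi_pos]

theorem sin_le {n : ℕ} (hn : 3 ≤ n) {k : ℕ} (h1 : 1 ≤ k) (hk : k + 1 ≤ n) :
    Real.sin (Real.pi / n) ≤ Real.sin (k * Real.pi / n) := by
  have hn3 : (3 : ℝ) ≤ n := by exact_mod_cast hn
  have hn0 : (0 : ℝ) < n := by linarith
  have h1' : (1 : ℝ) ≤ k := by exact_mod_cast h1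
  have hk' : (k : ℝ) + 1 ≤ n := by exact_mod_cast hk
  have hpi := Real.pi_pos
  have h := Real.sin_sub_sin (k * Real.pi / n) (Real.pi / n)
  have e1 : (k * Real.pi / n - Real.pi / n) / 2 = (k - 1) * Real.pi / (2 * n) := by field_simp
  have e2 : (k * Real.pi / n + Real.pi / n) / 2 = (k + 1) * Real.pi / (2 * n) := by field_simp
  rw [e1, e2] at h
  have h2 : 0 ≤ Real.sin ((k - 1) * Real.pi / (2 * n)) := by
    apply Real.sin_nonneg_of_nonneg_of_le_pi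
    · apply div_nonneg
      · exact mul_nonneg (by linarith) hpi.le
      · linarith
    · rw [div_le_iff₀ (by linarith)]
      nlinarith
  have h3 : 0 ≤ Real.cos ((k + 1) * Real.pi / (2 * n)) := by
    apply Real.cos_nonneg_of_neg_pi_div_two_le_of_le
    · have : 0 ≤ (k + 1) * Real.pi / (2 * n) := by positivity
      linarith
    · rw [div_le_div_iff₀ (by linarith) (by norm_num)]
      nlinarith
  have h4 : 0 ≤ 2 * Real.sin ((k - 1) * Real.pi / (2 * n)) *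
      Real.cos ((k + 1) * Real.pi / (2 * n)) := by positivity
  linarith

theorem om_ne {n : ℕ} (hn : 3 ≤ n) : om n - 1 ≠ 0 := by
  intro h
  have h1 := om_pow n 1
  rw [pow_one, sub_eq_zero.1 h] at h1
  have h2 := congrArg Complex.re h1
  simp only [Complex.one_re, Complex.add_re, Complex.ofReal_re, Complex.mul_re, Complex.I_re,
    Complex.ofReal_im, Complex.I_im, mul_zero, zero_mul, sub_zero, add_zero] at h2
  rw [two_cos] at h2
  have h3 := sin_pos' hn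
  push_cast at h2
  rw [one_mul] at h2
  nlinarith

theorem norm_om {n : ℕ} (k : ℕ) : ‖om n ^ k - 1‖ ^ 2 = 4 * Real.sin (k * Real.pi / n) ^ 2 := by
  rw [om_pow, Complex.sq_norm, Complex.normSq_apply]
  simp only [Complex.sub_re, Complex.sub_im, Complex.one_re, Complex.one_im, Complex.add_re,
    Complex.add_im, Complex.ofReal_re, Complex.mul_re, Complex.mul_im, Complex.I_re,
    Complex.ofReal_im, Complex.I_im, mul_zero, sub_zero, add_zero, mul_one, zero_add]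
  have h1 := two_cos (k * Real.pi / n)
  have h2 := Real.sin_sq_add_cos_sq (2 * (k * Real.pi / n))
  nlinarith

theorem norm_le {n : ℕ} (hn : 3 ≤ n) {k : ℕ} (h1 : 1 ≤ k) (hk : k + 1 ≤ n) :
    ‖om n - 1‖ ≤ ‖om n ^ k - 1‖ := by
  have h2 := norm_om (n := n) k
  have h3 := norm_om (n := n) 1
  rw [pow_one, Nat.cast_one, one_mul] at h3
  have h4 := sin_le hn h1 hk
  have h5 := sin_pos' hn
  apply le_of_sq_le_sq _ (norm_nonneg _)
  rw [h2, h3]
  nlinarith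

theorem U_ge {n : ℕ} (hn : 3 ≤ n) {k : ℕ} (h1 : 1 ≤ k) (hk : k + 1 ≤ n) (c u : ℂ)
    (hu : u = c * (om n ^ k - 1) / (om n - 1)) : ‖c‖ ^ 2 ≤ ‖u‖ ^ 2 := by
  have h2 := norm_le hn h1 hk
  have h3 : 0 < ‖om n - 1‖ := norm_pos_iff.2 (om_ne hn)
  have h4 : ‖c‖ ≤ ‖u‖ := by
    rw [hu, norm_div, norm_mul, le_div_iff₀ h3]
    exact mul_le_mul_of_nonneg_left h2 (norm_nonneg _)
  exact pow_le_pow_left₀ (norm_nonneg _) h4 2

theorem real_ineq {n kap mu al be rho : ℝ} (hn : 0 < n) (h1 : mu ≤ kap) (h2 : mu ≤ n - 1 - kap)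
    (hP : 0 ≤ al + be + 2 * rho) (hQ : 0 ≤ al + be - 2 * rho) :
    n / 4 * mu * (al + be) ≤ n / 2 * kap * rho + n * (n - 1) / 8 * (al + be - 2 * rho) := by
  have h3 : 0 ≤ (kap - mu) * (al + be + 2 * rho) := mul_nonneg (by linarith) hP
  have h4 : 0 ≤ (n - 1 - kap - mu) * (al + be - 2 * rho) := mul_nonneg (by linarith) hQ
  have h5 : 0 ≤ n * ((kap - mu) * (al + be + 2 * rho) +
      (n - 1 - kap - mu) * (al + be - 2 * rho)) := mul_nonneg hn.le (by linarith)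
  nlinarith

theorem nsq_sub (A B : ℂ) : ‖A - (starRingEnd ℂ) B‖ ^ 2 = ‖A‖ ^ 2 + ‖B‖ ^ 2 - 2 * (A * B).re := by
  rw [Complex.sq_norm, Complex.sq_norm, Complex.sq_norm, Complex.normSq_sub, Complex.conj_conj,
    Complex.normSq_conj]

theorem nsq_add (A B : ℂ) : 0 ≤ ‖A‖ ^ 2 + ‖B‖ ^ 2 + 2 * (A * B).re := by
  have h : ‖A + (starRingEnd ℂ) B‖ ^ 2 = ‖A‖ ^ 2 + ‖B‖ ^ 2 + 2 * (A * B).re := by
    rw [Complex.sq_norm, Complex.sq_norm, Complex.sq_norm, Complex.normSq_add, Complex.conj_conj,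
      Complex.normSq_conj]
  rw [← h]
  positivity

/-- the inequality for a pair of modes -/
theorem mode {n : ℕ} (hn : 3 ≤ n) (r : ℕ) : ∃ mu : ℝ, 0 < mu ∧ (r ∈ Ico 1 n → ∀ c U : ℕ → ℂ,
    (∀ r, U r = c (r + 1) * (om n ^ (r + 1) - 1) / (om n - 1)) →
      (n / 4 : ℝ) * mu * (‖U r‖ ^ 2 + ‖U (n - r)‖ ^ 2) ≤
        -(n / 2 : ℝ) * (((r : ℝ) + 1 - 2) * (n - (r + 1)) *
          (c (r + 1) * c (n + 2 - (r + 1))).re) +
        (n * (n - 1) / 8 : ℝ) * ‖U r - (starRingEnd ℂ) (U (n - r))‖ ^ 2) := by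
  have hn3 : (3 : ℝ) ≤ n := by exact_mod_cast hn
  have hU0 : ∀ c U : ℕ → ℂ, (∀ r, U r = c (r + 1) * (om n ^ (r + 1) - 1) / (om n - 1)) →
      U (n - 1) = 0 := by
    intro c U hU
    rw [hU, Nat.sub_add_cancel (by omega), om_n (by omega)]
    simp
  by_cases hr1 : r = 1
  · subst hr1
    refine ⟨(n - 1) / 2, by linarith, ?_⟩
    intro _ c U hU
    rw [hU0 c U hU]
    simp only [map_zero, sub_zero, norm_zero]
    push_cast
    ring_nf
    exact le_refl _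
  by_cases hrn : r = n - 1
  · refine ⟨(n - 1) / 2, by linarith, ?_⟩
    intro _ c U hU
    have e : n - r = 1 := by omega
    have e1 : (r : ℝ) + 1 = n := by
      have : r + 1 = n := by omega
      exact_mod_cast this
    rw [nsq_sub, e, hrn, hU0 c U hU, ← hrn, e1]
    simp only [zero_mul, Complex.zero_re, norm_zero]
    ring_nf
    exact le_refl _
  by_cases hr : r ∈ Ico 1 n
  swap
  · exact ⟨1, one_pos, fun h => absurd h hr⟩
  rw [mem_Ico] at hr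
  have hr2 : 2 ≤ r := by omega
  have hrn2 : r + 2 ≤ n := by omega
  have hr2' : (2 : ℝ) ≤ r := by exact_mod_cast hr2
  have hrn2' : (r : ℝ) + 2 ≤ n := by exact_mod_cast hrn2
  have htr := trig_ineq n r hr2 hrn2
  have hs := sin_pos' hn
  set s : ℝ := Real.sin (Real.pi / n) ^ 2 with hsdef
  have hs0 : 0 < s := by positivity
  set S : ℝ := Real.sin (r * Real.pi / n) ^ 2 - s with hSdef
  have hK : 0 < ((r : ℝ) + 1 - 2) * (n - (r + 1)) := mul_pos (by linarith) (by linarith)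
  have hS1 : ((r : ℝ) + 1 - 2) * (n - (r + 1)) * s < (n - 1) * S := by
    rw [hSdef]
    nlinarith
  have hS0 : 0 < S := by
    have h1 : 0 < ((r : ℝ) + 1 - 2) * (n - (r + 1)) * s := mul_pos hK hs0
    have h2 : 0 < (n - 1 : ℝ) * S := by linarith
    exact (pos_iff_pos_of_mul_pos h2).1 (by linarith)
  set kap : ℝ := ((r : ℝ) + 1 - 2) * (n - (r + 1)) * s / S with hkap
  have hkap0 : 0 < kap := div_pos (mul_pos hK hs0) hS0
  have hkap1 : kap < n - 1 := by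
    rw [hkap, div_lt_iff₀ hS0]
    exact hS1
  refine ⟨min kap (n - 1 - kap), lt_min hkap0 (by linarith), ?_⟩
  intro _ c U hU
  have hkey := om_key (n := n) (by omega) (r := r) (by omega)
  have hc : (c (r + 1) * c (n + 2 - (r + 1))).re * S = - s * (U r * U (n - r)).re := by
    have e : n + 2 - (r + 1) = n - r + 1 := by omega
    rw [e]
    have h0 := om_ne hn
    have h1 : c (r + 1) * c (n - r + 1) * ((S : ℝ) : ℂ) = -((s : ℝ) : ℂ) * (U r * U (n - r)) := by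
      have h2 : (om n - 1) ^ 2 * (c (r + 1) * c (n - r + 1) * ((S : ℝ) : ℂ)) =
          (om n - 1) ^ 2 * (-((s : ℝ) : ℂ) * (U r * U (n - r))) := by
        have e3 : (om n - 1) ^ 2 * (U r * U (n - r)) =
            (c (r + 1) * c (n - r + 1)) * ((om n ^ (r + 1) - 1) * (om n ^ (n - r + 1) - 1)) := by
          rw [hU r, hU (n - r)]
          field_simp
        linear_combination (c (r + 1) * c (n - r + 1)) * hkey + ((s : ℝ) : ℂ) * e3
      exact mul_left_cancel₀ (pow_ne_zero 2 h0) h2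
    have h3 := congrArg Complex.re h1
    rw [Complex.re_mul_ofReal] at h3
    rw [h3, ← Complex.ofReal_neg, Complex.re_ofReal_mul]
  have hc' : (c (r + 1) * c (n + 2 - (r + 1))).re = - (s / S) * (U r * U (n - r)).re := by
    field_simp
    linarith
  rw [hc', nsq_sub]
  have h4 := real_ineq (n := (n : ℝ)) (kap := kap) (mu := min kap (n - 1 - kap))
    (al := ‖U r‖ ^ 2) (be := ‖U (n - r)‖ ^ 2) (rho := (U r * U (n - r)).re) (by linarith)
    (min_le_left _ _) (min_le_right _ _) (nsq_add _ _) (by rw [← nsq_sub]; positivity)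
  refine h4.trans (le_of_eq ?_)
  rw [hkap]
  ring

end Q9x

open Q9x in
/-- Q9 -/
theorem quad_pos (n : ℕ) (hn : 3 ≤ n) : ∃ c0 : ℝ, 0 < c0 ∧ ∀ η : ℕ → ℂ, Adm n η →
    c0 * ∑ j ∈ range n, ‖η j‖ ^ 2 ≤
      (1 / 2) * (∑ k ∈ Finset.Ico 1 n, ∑ j ∈ range n, XX n η j k ^ 2).re +
        ((n : ℝ) - 1) / 2 * ∑ j ∈ range n, (XX n η j 1).im ^ 2 := by
  have hn3 : (3 : ℝ) ≤ n := by exact_mod_cast hn
  choose mu hmu0 hmu using mode hn
  obtain ⟨r0, hr0, hmin⟩ := Finset.exists_min_image (Ico 1 n) mu ⟨1, by rw [mem_Ico]; omega⟩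
  refine ⟨mu r0 / 4, by linarith [hmu0 r0], ?_⟩
  intro η hη
  obtain ⟨c, hc1, hc2⟩ := fourier n hn η hη
  obtain ⟨U, hU⟩ : ∃ U : ℕ → ℂ, ∀ r, U r = c (r + 1) * (om n ^ (r + 1) - 1) / (om n - 1) :=
    ⟨_, fun r => rfl⟩
  rw [quad_sum n hn c η hc1, im_sum n hn c η U hc1 hU, hc2]
  -- the first sum
  have h1 : (∑ m ∈ Finset.Icc 3 (n - 1),
      (((m : ℂ) - 2) * ((n : ℂ) - m)) * (c m * c (n + 2 - m))).re =
      ∑ r ∈ Ico 1 n, ((r : ℝ) + 1 - 2) * (n - (r + 1)) *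
          (c (r + 1) * c (n + 2 - (r + 1))).re := by
    have e1 : ∑ r ∈ Ico 1 n, ((r : ℝ) + 1 - 2) * (n - (r + 1)) *
          (c (r + 1) * c (n + 2 - (r + 1))).re =
        ∑ m ∈ Ico (1 + 1) (n + 1), (((m : ℝ) - 2) * (n - m) * (c m * c (n + 2 - m)).re) := by
      rw [← Finset.sum_Ico_add']
      apply Finset.sum_congr rfl
      intro r _
      push_cast
      rfl
    rw [e1, Complex.re_sum]
    have e2 : ∑ m ∈ Finset.Icc 3 (n - 1),
        ((((m : ℂ) - 2) * ((n : ℂ) - m)) * (c m * c (n + 2 - m))).re =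
        ∑ m ∈ Finset.Icc 3 (n - 1), (((m : ℝ) - 2) * (n - m) * (c m * c (n + 2 - m)).re) := by
      apply Finset.sum_congr rfl
      intro m _
      have e3 : (((m : ℂ) - 2) * ((n : ℂ) - m)) = ((((m : ℝ) - 2) * (n - m) : ℝ) : ℂ) := by
        push_cast; rfl
      rw [e3, Complex.re_ofReal_mul]
    rw [e2]
    apply Finset.sum_subset
    · intro m hm
      rw [mem_Icc] at hm
      rw [mem_Ico]
      omega
    · intro m hm hm'
      rw [mem_Ico] at hm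
      rw [mem_Icc] at hm'
      have h : m = 2 ∨ m = n := by omega
      rcases h with rfl | rfl
      · push_cast; ring
      · ring
  have h2 : (-(n : ℂ) * ∑ m ∈ Finset.Icc 3 (n - 1),
      (((m : ℂ) - 2) * ((n : ℂ) - m)) * (c m * c (n + 2 - m))).re =
      -(n : ℝ) * ∑ r ∈ Ico 1 n, ((r : ℝ) + 1 - 2) * (n - (r + 1)) *
          (c (r + 1) * c (n + 2 - (r + 1))).re := by
    rw [← h1]
    have e : -(n : ℂ) = ((-(n : ℝ) : ℝ) : ℂ) := by push_cast; rfl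
    rw [e, Complex.re_ofReal_mul]
  rw [h2]
  have h3 : ∑ m ∈ Finset.Icc 2 (n - 1), ‖c m‖ ^ 2 ≤ ∑ r ∈ Ico 1 n, ‖U r‖ ^ 2 := by
    have e1 : ∑ m ∈ Finset.Icc 2 (n - 1), ‖c m‖ ^ 2 = ∑ r ∈ Ico 1 (n - 1), ‖c (r + 1)‖ ^ 2 := by
      rw [Finset.sum_Ico_add' (fun m => ‖c m‖ ^ 2) 1 (n - 1) 1]
      apply Finset.sum_congr _ (fun _ _ => rfl)
      ext m
      rw [mem_Icc, mem_Ico]
      omega
    rw [e1]
    calc ∑ r ∈ Ico 1 (n - 1), ‖c (r + 1)‖ ^ 2 ≤ ∑ r ∈ Ico 1 (n - 1), ‖U r‖ ^ 2 := by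
          apply Finset.sum_le_sum
          intro r hr
          rw [mem_Ico] at hr
          exact U_ge hn (by omega) (by omega) _ _ (hU r)
      _ ≤ ∑ r ∈ Ico 1 n, ‖U r‖ ^ 2 := by
          apply Finset.sum_le_sum_of_subset_of_nonneg
          · intro r hr
            rw [mem_Ico] at hr ⊢
            omega
          · intro r _ _
            positivity
  have h4 : ∑ r ∈ Ico 1 n, ‖U (n - r)‖ ^ 2 = ∑ r ∈ Ico 1 n, ‖U r‖ ^ 2 := by
    have := Finset.sum_Ico_reflect (fun r => ‖U r‖ ^ 2) 1 (m := n) (n := n) (by omega)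
    rw [this]
    apply Finset.sum_congr _ (fun _ _ => rfl)
    ext m
    rw [mem_Ico, mem_Ico]
    omega
  have h5 : (n / 4 : ℝ) * mu r0 * (∑ r ∈ Ico 1 n, ‖U r‖ ^ 2 + ∑ r ∈ Ico 1 n, ‖U (n - r)‖ ^ 2) ≤
      -(n / 2 : ℝ) * ∑ r ∈ Ico 1 n, ((r : ℝ) + 1 - 2) * (n - (r + 1)) *
          (c (r + 1) * c (n + 2 - (r + 1))).re +
        (n * (n - 1) / 8 : ℝ) * ∑ r ∈ Ico 1 n, ‖U r - (starRingEnd ℂ) (U (n - r))‖ ^ 2 := by
    rw [← Finset.sum_add_distrib, Finset.mul_sum, Finset.mul_sum, Finset.mul_sum,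
      ← Finset.sum_add_distrib]
    apply Finset.sum_le_sum
    intro r hr
    refine le_trans ?_ (hmu r hr c U hU)
    have h6 := hmin r hr
    have h7 : 0 ≤ ‖U r‖ ^ 2 + ‖U (n - r)‖ ^ 2 := by positivity
    have h8 : (n / 4 : ℝ) * mu r0 ≤ n / 4 * mu r := mul_le_mul_of_nonneg_left h6 (by linarith)
    exact mul_le_mul_of_nonneg_right h8 h7
  rw [h4] at h5
  have h9 : (n / 4 : ℝ) * mu r0 * (2 * ∑ m ∈ Finset.Icc 2 (n - 1), ‖c m‖ ^ 2) ≤
      (n / 4 : ℝ) * mu r0 * (2 * ∑ r ∈ Ico 1 n, ‖U r‖ ^ 2) := by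
    apply mul_le_mul_of_nonneg_left _ (mul_nonneg (by linarith) (hmu0 r0).le)
    linarith
  have h10 : 0 ≤ (n / 4 : ℝ) * mu r0 * ∑ m ∈ Finset.Icc 2 (n - 1), ‖c m‖ ^ 2 := by
    apply mul_nonneg (mul_nonneg (by linarith) (hmu0 r0).le)
    exact Finset.sum_nonneg (fun _ _ => by positivity)
  linarith

end Pool.Agent.H280R2.RP
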