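import Pool.Agent.H280R2.RP.DefsL
import Pool.Agent.H280R2.RP.Q3
import Pool.Agent.H280R2.RP.Q9
set_option autoImplicit false

namespace Pool.Agent.H280R2.RP

open Finset

namespace Q10x

theorem omn (n : ℕ) (hn : 1 ≤ n) : om n ^ n = 1 := by
  unfold om
  have h0 : (n : ℂ) ≠ 0 := by
    have : n ≠ 0 := by omega
    exact_mod_cast this
  rw [← Complex.exp_nat_mul, mul_div_cancel₀ _ h0]
  exact Complex.exp_two_pi_mul_I

theorem norm_om (n : ℕ) (hn : 1 ≤ n) : ‖om n‖ = 1 :=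
  Complex.norm_eq_one_of_pow_eq_one (omn n hn) (by omega)

theorem shift {α : Type} [AddCommGroup α] (n : ℕ) (f : ℕ → α) (hf : ∀ j, f (j + n) = f j)
    (k : ℕ) : ∑ j ∈ range n, f (j + k) = ∑ j ∈ range n, f j := by
  induction k with
  | zero => rfl
  | succ k ih =>
    have h1 := Finset.sum_range_succ (fun j => f (j + k)) n
    have h2 := Finset.sum_range_succ' (fun j => f (j + k)) n
    have h3 : f (n + k) = f (0 + k) := by
      rw [zero_add, add_comm n k]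
      exact hf k
    rw [h2, h3] at h1
    have h4 := add_right_cancel h1
    rw [← ih, ← h4]
    refine Finset.sum_congr rfl fun j _ => ?_
    congr 1
    omega

theorem bound (n : ℕ) (hn : 1 ≤ n) : ∃ K : ℝ, 1 ≤ K ∧ ∀ k : ℕ, ‖(om n ^ k - 1)⁻¹‖ ≤ K := by
  refine ⟨1 + ∑ k ∈ range n, ‖(om n ^ k - 1)⁻¹‖, ?_, fun k => ?_⟩
  · have : 0 ≤ ∑ k ∈ range n, ‖(om n ^ k - 1)⁻¹‖ := Finset.sum_nonneg fun _ _ => norm_nonneg _
    linarith
  · have h1 : om n ^ k = om n ^ (k % n) := pow_eq_pow_mod k (omn n hn)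
    have h2 := Finset.single_le_sum (f := fun k => ‖(om n ^ k - 1)⁻¹‖)
      (fun _ _ => norm_nonneg _) (Finset.mem_range.2 (Nat.mod_lt k (by omega : 0 < n)))
    rw [h1]
    have h3 : ‖(om n ^ (k % n) - 1)⁻¹‖ ≤ ∑ k ∈ range n, ‖(om n ^ k - 1)⁻¹‖ := h2
    linarith

theorem XX_eq (n : ℕ) (hn : 1 ≤ n) (η : ℕ → ℂ) (j k : ℕ) : XX n η j k =
    (om n ^ k - 1)⁻¹ * (om n ^ k * (η (j + k) * om n ^ ((n - 1) * (j + k))) -
      η j * om n ^ ((n - 1) * j)) := by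
  have hw : om n ≠ 0 := by
    intro h
    have := norm_om n hn
    rw [h, norm_zero] at this
    exact zero_ne_one this
  have hinv : ∀ i : ℕ, om n ^ ((n - 1) * i) = (om n ^ i)⁻¹ := by
    intro i
    refine eq_inv_of_mul_eq_one_left ?_
    rw [← pow_add]
    have : (n - 1) * i + i = n * i := by
      obtain ⟨m, rfl⟩ : ∃ m, n = m + 1 := ⟨n - 1, by omega⟩
      rw [Nat.add_sub_cancel]
      ring
    rw [this, pow_mul, omn n hn, one_pow]
  have h1 : om n ^ (j + k) - om n ^ j = om n ^ j * (om n ^ k - 1) := by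
    rw [pow_add]
    ring
  unfold XX
  rw [h1, hinv, hinv, div_eq_mul_inv, mul_inv, pow_add, mul_inv]
  have h2 : om n ^ k * (om n ^ k)⁻¹ = 1 := mul_inv_cancel₀ (pow_ne_zero _ hw)
  linear_combination (om n ^ k - 1)⁻¹ * η (j + k) * (om n ^ j)⁻¹ * (-h2)

theorem XX_le (n : ℕ) (hn : 1 ≤ n) (K : ℝ) (hK : ∀ k : ℕ, ‖(om n ^ k - 1)⁻¹‖ ≤ K) (η : ℕ → ℂ)
    (j k : ℕ) : ‖XX n η j k‖ ≤ K * (‖η (j + k)‖ + ‖η j‖) := by
  have h1 : om n ^ (j + k) - om n ^ j = om n ^ j * (om n ^ k - 1) := by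
    rw [pow_add]
    ring
  unfold XX
  rw [h1, div_eq_mul_inv, mul_inv, norm_mul, norm_mul, norm_inv, norm_pow, norm_om n hn, one_pow,
    inv_one, one_mul, mul_comm]
  have h2 : 0 ≤ ‖(om n ^ k - 1)⁻¹‖ := norm_nonneg _
  exact mul_le_mul (hK k) (norm_sub_le _ _) (norm_nonneg _) (h2.trans (hK k))

theorem XX_sum (n : ℕ) (hn : 1 ≤ n) (η : ℕ → ℂ) (hη : Adm n η) (k : ℕ) :
    ∑ j ∈ range n, XX n η j k = 0 := by
  have h1 : ∀ j, η (j + n) * om n ^ ((n - 1) * (j + n)) = η j * om n ^ ((n - 1) * j) := by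
    intro j
    rw [hη.1 j, mul_add, pow_add, mul_comm (n - 1) n, pow_mul (om n) n, omn n hn, one_pow,
      mul_one]
  have h2 := shift n (fun j => η j * om n ^ ((n - 1) * j)) h1 k
  simp only [XX_eq n hn]
  rw [← Finset.mul_sum, Finset.sum_sub_distrib, ← Finset.mul_sum, h2, hη.2.2]
  simp

theorem log_ge (m y : ℝ) (h1 : 1 + y ≤ m) (h2 : |y| ≤ 1 / 2) : y - 2 * y ^ 2 ≤ Real.log m := by
  have h3 := abs_le.1 h2
  have h4 : 0 < 1 + y := by linarith [h3.1]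
  have h5 : Real.log (1 + y) ≤ Real.log m := Real.log_le_log h4 h1
  have h6 := Real.one_sub_inv_le_log_of_pos h4
  have h7 : y - 2 * y ^ 2 ≤ 1 - (1 + y)⁻¹ := by
    have h8 : 1 - (1 + y)⁻¹ = y / (1 + y) := by
      field_simp
      ring
    rw [h8, le_div_iff₀ h4]
    nlinarith [sq_nonneg y, mul_nonneg (sq_nonneg y) (show 0 ≤ 1 + 2 * y by linarith [h3.1])]
  linarith

end Q10x

/-- Q10 -/
theorem local_norm (n : ℕ) (hn : 3 ≤ n) : ∃ δ c1 : ℝ, 0 < δ ∧ 0 < c1 ∧ ∀ η : ℕ → ℂ,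
    Adm n η → (∀ j, ‖η j‖ ≤ δ) → (∀ j k, ‖XX n η j k‖ ≤ 1 / 2) ∧
    (1 / 2) * ∑ k ∈ Finset.Ico 1 n, ∑ j ∈ range n, Real.log ‖1 + XX n η j k‖ +
      c1 * ∑ j ∈ range n, ‖η j‖ ^ 2 ≤
      (n : ℝ) * (n - 1) / 2 * Real.log ((1 / n) * ∑ j ∈ range n, ‖1 + XX n η j 1‖) := by
  obtain ⟨c0, hc0, hquad⟩ := quad_pos n hn
  obtain ⟨K, hK1, hK⟩ := Q10x.bound n (by omega)
  have hnR : (3 : ℝ) ≤ n := by exact_mod_cast hn
  have hn0 : (0 : ℝ) < n := by linarith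
  have hK0 : 0 < K := by linarith
  obtain ⟨δ, hδ0, hδ1, hδ2⟩ : ∃ δ : ℝ, 0 < δ ∧ K * δ ≤ 1 / 4 ∧ 48 * n * K ^ 3 * δ ≤ c0 := by
    refine ⟨min (1 / (4 * K)) (c0 / (48 * n * K ^ 3)), lt_min (by positivity) (by positivity),
      ?_, ?_⟩
    · have h := min_le_left (1 / (4 * K)) (c0 / (48 * n * K ^ 3))
      have h2 := mul_le_mul_of_nonneg_left h hK0.le
      refine h2.trans (le_of_eq ?_)
      field_simp
    · have h := min_le_right (1 / (4 * K)) (c0 / (48 * n * K ^ 3))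
      have h2 := mul_le_mul_of_nonneg_left h (show (0 : ℝ) ≤ 48 * n * K ^ 3 by positivity)
      refine h2.trans (le_of_eq ?_)
      field_simp
  refine ⟨δ, c0 / 4, hδ0, by linarith, fun η hη hsm => ?_⟩
  have hX1 : ∀ j k, ‖XX n η j k‖ ≤ K * (‖η (j + k)‖ + ‖η j‖) :=
    Q10x.XX_le n (by omega) K hK η
  have hX2 : ∀ j k, ‖XX n η j k‖ ≤ 2 * K * δ := by
    intro j k
    refine (hX1 j k).trans ?_
    have h1 := hsm (j + k)
    have h2 := hsm j
    have h3 : K * (‖η (j + k)‖ + ‖η j‖) ≤ K * (δ + δ) :=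
      mul_le_mul_of_nonneg_left (by linarith) hK0.le
    linarith
  have hX3 : ∀ j k, ‖XX n η j k‖ ≤ 1 / 2 := fun j k => (hX2 j k).trans (by linarith)
  refine ⟨hX3, ?_⟩
  set S : ℝ := ∑ j ∈ range n, ‖η j‖ ^ 2 with hS
  have hS0 : 0 ≤ S := Finset.sum_nonneg fun _ _ => by positivity
  have hSδ : S ≤ n * δ ^ 2 := by
    have : S ≤ ∑ _j ∈ range n, δ ^ 2 := Finset.sum_le_sum fun j _ =>
      pow_le_pow_left₀ (norm_nonneg _) (hsm j) 2
    rwa [Finset.sum_const, card_range, nsmul_eq_mul] at this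
  have hper : ∀ k, ∑ j ∈ range n, ‖η (j + k)‖ ^ 2 = S := fun k =>
    Q10x.shift n (fun j => ‖η j‖ ^ 2) (fun j => by show ‖η (j + n)‖ ^ 2 = ‖η j‖ ^ 2; rw [hη.1 j]) k
  have hsq : ∀ k, ∑ j ∈ range n, ‖XX n η j k‖ ^ 2 ≤ 4 * K ^ 2 * S := by
    intro k
    have h1 : ∀ j ∈ range n, ‖XX n η j k‖ ^ 2 ≤
        2 * K ^ 2 * ‖η (j + k)‖ ^ 2 + 2 * K ^ 2 * ‖η j‖ ^ 2 := by
      intro j _
      have h2 := pow_le_pow_left₀ (norm_nonneg _) (hX1 j k) 2
      have h3 : (K * (‖η (j + k)‖ + ‖η j‖)) ^ 2 ≤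
          2 * K ^ 2 * ‖η (j + k)‖ ^ 2 + 2 * K ^ 2 * ‖η j‖ ^ 2 := by
        nlinarith [mul_nonneg (sq_nonneg K) (sq_nonneg (‖η (j + k)‖ - ‖η j‖))]
      exact h2.trans h3
    refine (Finset.sum_le_sum h1).trans (le_of_eq ?_)
    rw [Finset.sum_add_distrib, ← Finset.mul_sum, ← Finset.mul_sum, hper k, ← hS]
    ring
  have hcu : ∀ k, ∑ j ∈ range n, ‖XX n η j k‖ ^ 3 ≤ 8 * K ^ 3 * δ * S := by
    intro k
    have h1 : ∀ j ∈ range n, ‖XX n η j k‖ ^ 3 ≤ 2 * K * δ * ‖XX n η j k‖ ^ 2 := by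
      intro j _
      have h2 := mul_le_mul_of_nonneg_right (hX2 j k) (sq_nonneg ‖XX n η j k‖)
      calc ‖XX n η j k‖ ^ 3 = ‖XX n η j k‖ * ‖XX n η j k‖ ^ 2 := by ring
        _ ≤ _ := h2
    refine (Finset.sum_le_sum h1).trans ?_
    rw [← Finset.mul_sum]
    have h3 := mul_le_mul_of_nonneg_left (hsq k) (show 0 ≤ 2 * K * δ by positivity)
    refine h3.trans (le_of_eq ?_)
    ring
  have hre : ∀ k, ∑ j ∈ range n, (XX n η j k).re = 0 := by
    intro k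
    rw [← Complex.re_sum, Q10x.XX_sum n (by omega) η hη k, Complex.zero_re]
  have hL : ∀ k, ∑ j ∈ range n, Real.log ‖1 + XX n η j k‖ ≤
      -(1 / 2) * (∑ j ∈ range n, XX n η j k ^ 2).re + 8 * K ^ 3 * δ * S := by
    intro k
    have h1 : ∑ j ∈ range n, Real.log ‖1 + XX n η j k‖ ≤
        ∑ j ∈ range n, ((XX n η j k).re - (1 / 2) * (XX n η j k ^ 2).re + ‖XX n η j k‖ ^ 3) :=
      Finset.sum_le_sum fun j _ => log_norm_le _ (hX3 j k)
    rw [Finset.sum_add_distrib, Finset.sum_sub_distrib, ← Finset.mul_sum, hre k,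
      ← Complex.re_sum] at h1
    have h2 := hcu k
    linarith
  have hL2 : ∑ k ∈ Finset.Ico 1 n, ∑ j ∈ range n, Real.log ‖1 + XX n η j k‖ ≤
      -(1 / 2) * (∑ k ∈ Finset.Ico 1 n, ∑ j ∈ range n, XX n η j k ^ 2).re +
        n * (8 * K ^ 3 * δ * S) := by
    refine (Finset.sum_le_sum fun k _ => hL k).trans ?_
    rw [Finset.sum_add_distrib, ← Finset.mul_sum, ← Complex.re_sum, Finset.sum_const,
      Nat.card_Ico, nsmul_eq_mul]
    have h1 : ((n - 1 : ℕ) : ℝ) ≤ n := by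
      have : n - 1 ≤ n := Nat.sub_le _ _
      exact_mod_cast this
    have h2 : 0 ≤ 8 * K ^ 3 * δ * S := by positivity
    have h3 := mul_le_mul_of_nonneg_right h1 h2
    linarith
  set Q : ℝ := (∑ k ∈ Finset.Ico 1 n, ∑ j ∈ range n, XX n η j k ^ 2).re with hQ
  set I : ℝ := ∑ j ∈ range n, (XX n η j 1).im ^ 2 with hI
  have hq : c0 * S ≤ (1 / 2) * Q + ((n : ℝ) - 1) / 2 * I := hquad η hη
  set C : ℝ := ∑ j ∈ range n, ‖XX n η j 1‖ ^ 3 with hC
  have hC0 : 0 ≤ C := Finset.sum_nonneg fun _ _ => by positivity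
  have hC1 : C ≤ 8 * K ^ 3 * δ * S := hcu 1
  have hI0 : 0 ≤ I := Finset.sum_nonneg fun _ _ => by positivity
  have hI1 : I ≤ 4 * K ^ 2 * S := by
    refine (Finset.sum_le_sum fun j _ => ?_).trans (hsq 1)
    have h1 := Complex.abs_im_le_norm (XX n η j 1)
    rw [← sq_abs]
    exact pow_le_pow_left₀ (abs_nonneg _) h1 2
  have hM : (n : ℝ) + I / 2 - C ≤ ∑ j ∈ range n, ‖1 + XX n η j 1‖ := by
    have h1 : ∑ j ∈ range n, (1 + (XX n η j 1).re + (1 / 2) * (XX n η j 1).im ^ 2 -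
        ‖XX n η j 1‖ ^ 3) ≤ ∑ j ∈ range n, ‖1 + XX n η j 1‖ :=
      Finset.sum_le_sum fun j _ => norm_ge _ (hX3 j 1)
    rw [Finset.sum_sub_distrib, Finset.sum_add_distrib, Finset.sum_add_distrib, hre 1,
      ← Finset.mul_sum, Finset.sum_const, card_range, nsmul_eq_mul] at h1
    linarith
  -- the number `y`
  set y : ℝ := (I / 2 - C) / n with hy
  have hny : n * y = I / 2 - C := by
    rw [hy]
    field_simp
  have hm : 1 + y ≤ (1 / n) * ∑ j ∈ range n, ‖1 + XX n η j 1‖ := by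
    rw [one_div, ← div_eq_inv_mul, le_div_iff₀ hn0]
    have : (1 + y) * n = n + n * y := by ring
    rw [this, hny]
    linarith
  have hKd : 8 * K ^ 3 * δ * S ≤ 2 * K ^ 2 * S := by
    have h1 : 8 * K ^ 3 * δ * S = 8 * (K * δ) * (K ^ 2 * S) := by ring
    have h2 : 0 ≤ K ^ 2 * S := by positivity
    rw [h1]
    nlinarith
  have hyab : n * |y| ≤ 4 * K ^ 2 * S := by
    have h1 : n * |y| = |n * y| := by rw [abs_mul, abs_of_pos hn0]
    rw [h1, hny, abs_le]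
    constructor <;> linarith
  have hy2 : |y| ≤ 4 * (K * δ) ^ 2 := by
    have h1 : n * |y| ≤ n * (4 * (K * δ) ^ 2) := by
      refine hyab.trans ?_
      have h2 := mul_le_mul_of_nonneg_left hSδ (show 0 ≤ 4 * K ^ 2 by positivity)
      refine h2.trans (le_of_eq ?_)
      ring
    exact le_of_mul_le_mul_left h1 hn0
  have hKδ0 : 0 < K * δ := by positivity
  have hy3 : |y| ≤ 1 / 2 := by
    refine hy2.trans ?_
    nlinarith
  have hlog := Q10x.log_ge _ y hm hy3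
  have hy4 : n * y ^ 2 ≤ 4 * K ^ 3 * δ * S := by
    have h1 : n * y ^ 2 = |y| * (n * |y|) := by
      rw [← sq_abs]
      ring
    rw [h1]
    have h2 : |y| * (n * |y|) ≤ (4 * (K * δ) ^ 2) * (4 * K ^ 2 * S) :=
      mul_le_mul hy2 hyab (by positivity) (by positivity)
    refine h2.trans ?_
    have h3 : 4 * (K * δ) ^ 2 * (4 * K ^ 2 * S) = (K * δ) * (16 * (K ^ 3 * δ * S)) := by ring
    rw [h3]
    have h4 : 0 ≤ 16 * (K ^ 3 * δ * S) := by positivity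
    nlinarith
  have hR : ((n : ℝ) - 1) / 4 * I - (n - 1) * (8 * K ^ 3 * δ * S) ≤
      (n : ℝ) * (n - 1) / 2 * Real.log ((1 / n) * ∑ j ∈ range n, ‖1 + XX n η j 1‖) := by
    have h1 := mul_le_mul_of_nonneg_left hlog
      (show 0 ≤ (n : ℝ) * (n - 1) / 2 from by
        have : (0 : ℝ) ≤ n - 1 := by linarith
        positivity)
    refine le_trans ?_ h1
    have h2 : (n : ℝ) * (n - 1) / 2 * (y - 2 * y ^ 2) =
        (n - 1) / 2 * (n * y) - (n - 1) * (n * y ^ 2) := by ring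
    rw [h2, hny]
    have h3 : (0 : ℝ) ≤ n - 1 := by linarith
    have h4 := mul_le_mul_of_nonneg_left hy4 h3
    have h5 := mul_le_mul_of_nonneg_left hC1 h3
    nlinarith
  have hfin : 12 * n * (K ^ 3 * δ * S) ≤ c0 / 4 * S := by
    have h1 := mul_le_mul_of_nonneg_right hδ2 hS0
    nlinarith
  have hpos : 0 ≤ K ^ 3 * δ * S := by positivity
  nlinarith

end Pool.Agent.H280R2.RP
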