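import Pool.Agent.H280R2.RP.DefsL
set_option autoImplicit false

namespace Pool.Agent.H280R2.RP

open Finset

namespace Q11x

theorem prim (n : ℕ) (hn : 3 ≤ n) : IsPrimitiveRoot (om n) n :=
  Complex.isPrimitiveRoot_exp n (by omega)

theorem norm_om (n : ℕ) (hn : 3 ≤ n) (j : ℕ) : ‖om n ^ j‖ = 1 := by
  rw [norm_pow, (prim n hn).norm'_eq_one (by omega), one_pow]

theorem sum_om (n : ℕ) (hn : 3 ≤ n) : ∑ i ∈ range n, om n ^ i = 0 :=
  (prim n hn).geom_sum_eq_zero (by omega)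

theorem sum_om' (n : ℕ) (hn : 3 ≤ n) : ∑ i ∈ range n, om n ^ ((n - 1) * i) = 0 := by
  have h1 : om n ^ (n - 1) ≠ 1 := by
    intro h
    have h2 := ((prim n hn).pow_eq_one_iff_dvd (n - 1)).1 h
    have := Nat.le_of_dvd (by omega) h2
    omega
  have h2 : (∑ i ∈ range n, (om n ^ (n - 1)) ^ i) * (om n ^ (n - 1) - 1) = 0 := by
    rw [geom_sum_mul, ← pow_mul, mul_comm, pow_mul, (prim n hn).pow_eq_one, one_pow, sub_self]
  have h3 := (mul_eq_zero.1 h2).resolve_right (sub_ne_zero.2 h1)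
  rw [← h3]
  exact Finset.sum_congr rfl fun i _ => pow_mul _ _ _

theorem om_mul (n : ℕ) (hn : 3 ≤ n) (i : ℕ) : om n ^ i * om n ^ ((n - 1) * i) = 1 := by
  rw [← pow_add]
  have : i + (n - 1) * i = n * i := by
    obtain ⟨m, rfl⟩ : ∃ m, n = m + 1 := ⟨n - 1, by omega⟩
    simp only [Nat.add_sub_cancel]
    ring
  rw [this, pow_mul, (prim n hn).pow_eq_one, one_pow]

theorem reg_eq (n : ℕ) (hn : 3 ≤ n) (i : Fin n) :
    reg n i = ((1 / Real.cos (Real.pi / (2 * (n : ℝ))) : ℝ) : ℂ) * om n ^ i.val := by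
  unfold reg om
  congr 1
  rw [← Complex.exp_nat_mul]
  congr 1
  ring

theorem r0_ge (n : ℕ) (hn : 3 ≤ n) : 1 ≤ 1 / Real.cos (Real.pi / (2 * (n : ℝ))) := by
  have hn' : (3 : ℝ) ≤ n := by exact_mod_cast hn
  have h1 : 0 < Real.cos (Real.pi / (2 * (n : ℝ))) := by
    apply Real.cos_pos_of_mem_Ioo
    constructor
    · have : 0 < Real.pi / (2 * (n : ℝ)) := by positivity
      have := Real.pi_pos
      linarith
    · rw [div_lt_div_iff₀ (by positivity) (by norm_num)]
      have := Real.pi_pos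
      nlinarith
  rw [le_div_iff₀ h1, one_mul]
  exact Real.cos_le_one _

end Q11x

open Q11x in
/-- Q11 -/
theorem normal_form (n : ℕ) (hn : 3 ≤ n) (δ : ℝ) (hδ : 0 < δ) : ∃ ε : ℝ, 0 < ε ∧
    ∀ z : Fin n → ℂ, (∀ i, ‖z i - reg n i‖ < ε) → ∃ (a b : ℂ) (η : ℕ → ℂ), a ≠ 0 ∧ Adm n η ∧
      (∀ j, ‖η j‖ ≤ δ) ∧ ∀ i : Fin n, z i = a * (om n ^ i.val + η i.val) + b := by
  set ε : ℝ := min (1 / 2) (δ / 6) with hε
  have hε0 : 0 < ε := lt_min (by norm_num) (by positivity)
  have hε1 : ε ≤ 1 / 2 := min_le_left _ _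
  have hε2 : ε ≤ δ / 6 := min_le_right _ _
  refine ⟨ε, hε0, fun z hz => ?_⟩
  have hn0 : 0 < n := by omega
  have hnR : (0 : ℝ) < n := by exact_mod_cast hn0
  have hnC : (n : ℂ) ≠ 0 := by exact_mod_cast hn0.ne'
  set r : ℝ := 1 / Real.cos (Real.pi / (2 * (n : ℝ))) with hr
  have hr1 : 1 ≤ r := r0_ge n hn
  -- extension
  let zz : ℕ → ℂ := fun j => z ⟨j % n, Nat.mod_lt _ hn0⟩
  have hzz : ∀ i : Fin n, zz i.val = z i := fun i => by
    show z ⟨i.val % n, _⟩ = z i
    congr 1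
    exact Fin.ext (Nat.mod_eq_of_lt i.2)
  have hzzp : ∀ j, zz (j + n) = zz j := fun j => by
    show z ⟨(j + n) % n, _⟩ = z ⟨j % n, _⟩
    congr 1
    exact Fin.ext (Nat.add_mod_right j n)
  have homp : ∀ j, om n ^ (j + n) = om n ^ j := fun j => by
    rw [pow_add, (prim n hn).pow_eq_one, mul_one]
  have hom : ∀ j, om n ^ j = om n ^ (j % n) := fun j => by
    conv_lhs => rw [← Nat.div_add_mod j n, pow_add, pow_mul, (prim n hn).pow_eq_one, one_pow,
      one_mul]
  have hζ : ∀ j, ‖zz j - r * om n ^ j‖ ≤ ε := fun j => by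
    have h1 := (hz ⟨j % n, Nat.mod_lt _ hn0⟩).le
    rw [reg_eq n hn] at h1
    rw [hom j]
    exact h1
  set b : ℂ := (1 / n) * ∑ j ∈ range n, zz j with hb
  set a : ℂ := (1 / n) * ∑ j ∈ range n, zz j * om n ^ ((n - 1) * j) with ha
  have hbn : ‖b‖ ≤ ε := by
    have h1 : b = (1 / n) * ∑ j ∈ range n, (zz j - r * om n ^ j) := by
      rw [Finset.sum_sub_distrib, ← Finset.mul_sum, sum_om n hn, mul_zero, sub_zero]
    rw [h1, norm_mul]
    have h2 : ‖∑ j ∈ range n, (zz j - r * om n ^ j)‖ ≤ n * ε := by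
      refine (norm_sum_le _ _).trans ?_
      calc ∑ j ∈ range n, ‖zz j - r * om n ^ j‖ ≤ ∑ _j ∈ range n, ε :=
            Finset.sum_le_sum fun j _ => hζ j
        _ = n * ε := by rw [Finset.sum_const, card_range, nsmul_eq_mul]
    have h3 : ‖(1 / n : ℂ)‖ = 1 / n := by
      rw [norm_div, norm_one, Complex.norm_natCast]
    rw [h3]
    calc 1 / (n : ℝ) * ‖∑ j ∈ range n, (zz j - r * om n ^ j)‖ ≤ 1 / (n : ℝ) * (n * ε) :=
          mul_le_mul_of_nonneg_left h2 (by positivity)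
      _ = ε := by field_simp
  have han : ‖a - r‖ ≤ ε := by
    have h1 : a - r = (1 / n) * ∑ j ∈ range n, (zz j - r * om n ^ j) * om n ^ ((n - 1) * j) := by
      have e1 : ∑ j ∈ range n, (zz j - r * om n ^ j) * om n ^ ((n - 1) * j) =
          (∑ j ∈ range n, zz j * om n ^ ((n - 1) * j)) - n * r := by
        have : ∀ j ∈ range n, (zz j - r * om n ^ j) * om n ^ ((n - 1) * j) =
            zz j * om n ^ ((n - 1) * j) - r := fun j _ => by
          rw [sub_mul, mul_assoc, om_mul n hn, mul_one]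
        rw [Finset.sum_congr rfl this, Finset.sum_sub_distrib, Finset.sum_const, card_range,
          nsmul_eq_mul]
      rw [e1, mul_sub, ← ha, ← mul_assoc, one_div, inv_mul_cancel₀ hnC, one_mul]
    rw [h1, norm_mul]
    have h2 : ‖∑ j ∈ range n, (zz j - r * om n ^ j) * om n ^ ((n - 1) * j)‖ ≤ n * ε := by
      refine (norm_sum_le _ _).trans ?_
      calc ∑ j ∈ range n, ‖(zz j - r * om n ^ j) * om n ^ ((n - 1) * j)‖ ≤ ∑ _j ∈ range n, ε :=
            Finset.sum_le_sum fun j _ => by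
              rw [norm_mul, norm_om n hn, mul_one]
              exact hζ j
        _ = n * ε := by rw [Finset.sum_const, card_range, nsmul_eq_mul]
    have h3 : ‖(1 / n : ℂ)‖ = 1 / n := by
      rw [norm_div, norm_one, Complex.norm_natCast]
    rw [h3]
    calc 1 / (n : ℝ) * ‖∑ j ∈ range n, (zz j - r * om n ^ j) * om n ^ ((n - 1) * j)‖ ≤
          1 / (n : ℝ) * (n * ε) := mul_le_mul_of_nonneg_left h2 (by positivity)
      _ = ε := by field_simp
  have har : 1 / 2 ≤ ‖a‖ := by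
    have h1 : ‖(r : ℂ)‖ ≤ ‖a‖ + ‖a - r‖ := by
      have := norm_sub_le a (a - r)
      rw [sub_sub_cancel] at this
      exact this
    have h2 : ‖(r : ℂ)‖ = r := by
      rw [Complex.norm_real, Real.norm_of_nonneg (by linarith)]
    rw [h2] at h1
    linarith
  have ha0 : a ≠ 0 := by
    intro h
    rw [h, norm_zero] at har
    norm_num at har
  refine ⟨a, b, fun j => (zz j - b) / a - om n ^ j, ha0, ⟨?_, ?_, ?_⟩, ?_, ?_⟩
  · intro j
    show (zz (j + n) - b) / a - om n ^ (j + n) = (zz j - b) / a - om n ^ j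
    rw [hzzp, homp]
  · show ∑ j ∈ range n, ((zz j - b) / a - om n ^ j) = 0
    rw [Finset.sum_sub_distrib, sum_om n hn, sub_zero, ← Finset.sum_div, Finset.sum_sub_distrib,
      Finset.sum_const, card_range, nsmul_eq_mul]
    have : (n : ℂ) * b = ∑ j ∈ range n, zz j := by
      rw [hb, ← mul_assoc, one_div, mul_inv_cancel₀ hnC, one_mul]
    rw [this, sub_self, zero_div]
  · show ∑ j ∈ range n, ((zz j - b) / a - om n ^ j) * om n ^ ((n - 1) * j) = 0
    have h1 : ∀ j ∈ range n, ((zz j - b) / a - om n ^ j) * om n ^ ((n - 1) * j) =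
        (zz j * om n ^ ((n - 1) * j)) / a - (b / a) * om n ^ ((n - 1) * j) - 1 := fun j _ => by
      rw [sub_mul, om_mul n hn]
      ring
    rw [Finset.sum_congr rfl h1, Finset.sum_sub_distrib, Finset.sum_sub_distrib, ← Finset.sum_div,
      ← Finset.mul_sum, sum_om' n hn, mul_zero, sub_zero, Finset.sum_const, card_range,
      nsmul_eq_mul, mul_one]
    have : ∑ j ∈ range n, zz j * om n ^ ((n - 1) * j) = n * a := by
      rw [ha, ← mul_assoc, one_div, mul_inv_cancel₀ hnC, one_mul]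
    rw [this, mul_div_assoc, div_self ha0, mul_one, sub_self]
  · intro j
    show ‖(zz j - b) / a - om n ^ j‖ ≤ δ
    have h1 : (zz j - b) / a - om n ^ j =
        ((zz j - r * om n ^ j) - b - (a - r) * om n ^ j) / a := by
      field_simp
      ring
    rw [h1, norm_div, div_le_iff₀ (by linarith)]
    have h2 : ‖(zz j - r * om n ^ j) - b - (a - r) * om n ^ j‖ ≤ ε + ε + ε := by
      refine (norm_sub_le _ _).trans (add_le_add ((norm_sub_le _ _).trans
        (add_le_add (hζ j) hbn)) ?_)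
      rw [norm_mul, norm_om n hn, mul_one]
      exact han
    calc ‖(zz j - r * om n ^ j) - b - (a - r) * om n ^ j‖ ≤ ε + ε + ε := h2
      _ ≤ δ * (1 / 2) := by linarith
      _ ≤ δ * ‖a‖ := mul_le_mul_of_nonneg_left har hδ.le
  · intro i
    show z i = a * (om n ^ i.val + ((zz i.val - b) / a - om n ^ i.val)) + b
    rw [hzz]
    field_simp
    ring

end Pool.Agent.H280R2.RP
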