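import Pool.Agent.H280R2.RP.DefsL
set_option autoImplicit false

namespace Pool.Agent.H280R2.RP

open Finset

namespace Q2x

lemma shift (n : ℕ) (g : ℕ → ℝ) (hg : ∀ j, g (j + n) = g j) (a : ℕ) :
    ∑ k ∈ range n, g (a + k) = ∑ k ∈ range n, g k := by
  induction a with
  | zero => simp
  | succ a ih =>
    rw [← ih]
    have h1 : ∑ k ∈ range (n + 1), g (a + k) = ∑ k ∈ range n, g (a + 1 + k) + g a := by
      rw [Finset.sum_range_succ']
      simp only [add_zero]
      congr 1
      refine Finset.sum_congr rfl fun k _ => ?_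
      rw [show a + (k + 1) = a + 1 + k by ring]
    have h2 : ∑ k ∈ range (n + 1), g (a + k) = ∑ k ∈ range n, g (a + k) + g a := by
      rw [Finset.sum_range_succ, hg]
    linarith

lemma symm_sum (n : ℕ) (F : Fin n → Fin n → ℝ) (hF : ∀ i j, F i j = F j i) :
    ∑ i, ∑ j, F i j = 2 * ∑ i, ∑ j ∈ Finset.Ioi i, F i j + ∑ i, F i i := by
  have h1 : ∀ i j : Fin n, F i j = (if i < j then F i j else 0) + (if j < i then F i j else 0)
      + (if i = j then F i j else 0) := by
    intro i j
    rcases lt_trichotomy i j with h | h | h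
    · simp [h, h.ne, h.not_gt]
    · simp [h]
    · simp [h, h.ne', h.not_gt]
  have h2 : ∀ i : Fin n, ∑ j ∈ Finset.Ioi i, F i j = ∑ j, if i < j then F i j else 0 := by
    intro i
    rw [← Finset.sum_filter]
    refine Finset.sum_congr ?_ fun _ _ => rfl
    ext j
    simp
  have h3 : ∑ i, ∑ j, (if j < i then F i j else 0) = ∑ i, ∑ j, if i < j then F i j else 0 := by
    rw [Finset.sum_comm]
    refine Finset.sum_congr rfl fun i _ => Finset.sum_congr rfl fun j _ => ?_
    rw [hF j i]
  have h4 : ∑ i, ∑ j, (if i = j then F i j else 0) = ∑ i, F i i := by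
    refine Finset.sum_congr rfl fun i _ => ?_
    rw [Finset.sum_ite_eq]
    simp
  calc ∑ i, ∑ j, F i j = ∑ i, ∑ j, ((if i < j then F i j else 0) + (if j < i then F i j else 0)
      + (if i = j then F i j else 0)) :=
        Finset.sum_congr rfl fun i _ => Finset.sum_congr rfl fun j _ => h1 i j
    _ = ∑ i, ∑ j, (if i < j then F i j else 0) + ∑ i, ∑ j, (if j < i then F i j else 0)
      + ∑ i, ∑ j, (if i = j then F i j else 0) := by
        simp only [Finset.sum_add_distrib]
    _ = _ := by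
        rw [h3, h4, Finset.sum_congr rfl fun i _ => h2 i]
        ring

end Q2x

/-- Q2 -/
theorem pair_sum (n : ℕ) (hn : 1 ≤ n) (f : ℕ → ℕ → ℝ) (hs : ∀ i j, f i j = f j i)
    (hp : ∀ i j, f (i + n) j = f i j) :
    ∑ i : Fin n, ∑ j ∈ Finset.Ioi i, f i.val j.val =
      (1 / 2) * ∑ k ∈ Finset.Ico 1 n, ∑ j ∈ range n, f j (j + k) := by
  have hp2 : ∀ i j, f i (j + n) = f i j := fun i j => by rw [hs, hp, hs]
  have h1 : ∀ j, ∑ k ∈ Finset.Ico 1 n, f j (j + k) = ∑ l ∈ range n, f j l - f j j := by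
    intro j
    have h2 := Q2x.shift n (fun l => f j l) (fun l => hp2 j l) j
    have h3 : ∑ k ∈ range n, f j (j + k) = f j (j + 0) + ∑ k ∈ Finset.Ico 1 n, f j (j + k) := by
      rw [Finset.range_eq_Ico, Finset.sum_eq_sum_Ico_succ_bot (by omega : 0 < n)]
    rw [add_zero] at h3
    linarith
  have h4 := Q2x.symm_sum n (fun i j => f i.val j.val) (fun i j => hs _ _)
  have h5 : ∑ i : Fin n, ∑ j : Fin n, f i.val j.val = ∑ i ∈ range n, ∑ j ∈ range n, f i j := by
    rw [Finset.sum_range (fun i => ∑ j ∈ range n, f i j)]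
    refine Finset.sum_congr rfl fun i _ => ?_
    rw [Finset.sum_range]
  have h6 : ∑ i : Fin n, f i.val i.val = ∑ i ∈ range n, f i i :=
    (Finset.sum_range (fun i => f i i)).symm
  rw [Finset.sum_comm, Finset.sum_congr rfl fun j _ => h1 j, Finset.sum_sub_distrib]
  rw [h5, h6] at h4
  linarith

end Pool.Agent.H280R2.RP
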