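import Pool.Agent.H280R2.RP.DefsL
import Pool.Agent.H280R2.RP.Q1
import Pool.Agent.H280R2.RP.Q10
import Pool.Agent.H280R2.RP.Q11
import Pool.Agent.H280R2.RP.Q2
import Pool.Agent.H280R2.RP.M10
import Pool.Agent.H280R2.RP.M5
set_option autoImplicit false

namespace Pool.Agent.H280R2.RP

open Finset

namespace Q12x

theorem om_pow (n i : ℕ) :
    om n ^ i = Complex.exp (2 * (Real.pi : ℂ) * Complex.I * (i : ℂ) / (n : ℂ)) := by
  unfold om
  rw [← Complex.exp_nat_mul]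
  congr 1
  ring

theorem prim (n : ℕ) (hn : 3 ≤ n) : IsPrimitiveRoot (om n) n :=
  Complex.isPrimitiveRoot_exp n (by omega)

theorem norm_om (n : ℕ) (hn : 3 ≤ n) : ‖om n‖ = 1 :=
  Complex.norm_eq_one_of_pow_eq_one (prim n hn).pow_eq_one (by omega)

theorem ne (n : ℕ) (hn : 3 ≤ n) (i j : Fin n) (h : i ≠ j) : om n ^ i.val - om n ^ j.val ≠ 0 := by
  intro h0
  exact h (Fin.ext ((prim n hn).pow_inj i.2 j.2 (sub_eq_zero.1 h0)))

theorem norm_sub_one (n : ℕ) (hn : 3 ≤ n) : ‖om n - 1‖ =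
    4 * Real.sin (Real.pi / (2 * n)) * Real.cos (Real.pi / (2 * n)) := by
  have hn0 : (0 : ℝ) < n := by exact_mod_cast (by omega : 0 < n)
  have e : om n = Complex.exp (Complex.I * ((2 * Real.pi / n : ℝ) : ℂ)) := by
    unfold om
    congr 1
    push_cast
    ring
  have e2 : 2 * Real.pi / n / 2 = 2 * (Real.pi / (2 * n)) := by
    field_simp
  have h0 : 0 < Real.pi / (2 * n) := div_pos Real.pi_pos (by positivity)
  have h1 : Real.pi / (2 * n) < Real.pi / 2 := by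
    have h3 : (3 : ℝ) ≤ n := by exact_mod_cast hn
    exact div_lt_div_of_pos_left Real.pi_pos (by norm_num) (by linarith)
  have hs : 0 < Real.sin (Real.pi / (2 * n)) := Real.sin_pos_of_pos_of_lt_pi h0 (by linarith [Real.pi_pos])
  have hc : 0 < Real.cos (Real.pi / (2 * n)) :=
    Real.cos_pos_of_mem_Ioo ⟨by linarith, h1⟩
  rw [e, Complex.norm_exp_I_mul_ofReal_sub_one, e2, Real.sin_two_mul, Real.norm_eq_abs,
    abs_of_pos (by positivity)]
  ring

theorem reg_eq (n : ℕ) (i : Fin n) :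
    reg n i = ((1 / Real.cos (Real.pi / (2 * (n : ℝ))) : ℝ) : ℂ) * om n ^ i.val := by
  rw [om_pow]
  rfl

theorem card_eq (n : ℕ) (hn : 1 ≤ n) :
    ((∑ i : Fin n, (Finset.Ioi i).card : ℕ) : ℝ) = (n : ℝ) * (n - 1) / 2 := by
  have h := pair_sum n hn (fun _ _ => 1) (fun _ _ => rfl) (fun _ _ => rfl)
  simp only [sum_const, nsmul_eq_mul, mul_one, card_range, Nat.card_Ico] at h
  rw [Nat.cast_sum, h, Nat.cast_sub hn]
  push_cast
  ring

theorem prod_split {n : ℕ} (r : ℝ) (g : Fin n → Fin n → ℝ) :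
    ∏ i : Fin n, ∏ j ∈ Finset.Ioi i, (r * g i j) =
      r ^ (∑ i : Fin n, (Finset.Ioi i).card) * ∏ i : Fin n, ∏ j ∈ Finset.Ioi i, g i j := by
  rw [← Finset.prod_pow_eq_pow_sum, ← Finset.prod_mul_distrib]
  refine Finset.prod_congr rfl fun i _ => ?_
  rw [Finset.prod_mul_distrib, Finset.prod_const]

end Q12x

open Q12x

/-- Q12 -/
theorem local_max (n : ℕ) (hn : 3 ≤ n) : ∃ ε : ℝ, 0 < ε ∧ ∀ z : Fin n → ℂ,
    (∀ i, ‖z i - reg n i‖ < ε) → (∀ i j, ‖z i - z j‖ ≤ 2) →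
      Vd z ≤ Vd (reg n) ∧
        (Vd z = Vd (reg n) → ∃ a b : ℂ, ‖a‖ = 1 ∧ ∀ i, z i = a * reg n i + b) := by
  obtain ⟨ε1, hε1, H1⟩ := near_conv n hn
  obtain ⟨δ, c1, hδ, hc1, H2⟩ := local_norm n hn
  obtain ⟨ε2, hε2, H3⟩ := normal_form n hn δ hδ
  refine ⟨min ε1 ε2, lt_min hε1 hε2, fun z hz hd => ?_⟩
  have hn0 : (0 : ℝ) < n := by exact_mod_cast (by omega : 0 < n)
  have hconv := H1 z (fun i => (hz i).trans_le (min_le_left _ _))
  obtain ⟨a, b, η, ha, hη, hηδ, hzf⟩ := H3 z (fun i => (hz i).trans_le (min_le_right _ _))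
  obtain ⟨hX, hlog⟩ := H2 η hη hηδ
  have hper := hη.1
  have hwn : om n ^ n = 1 := (prim n hn).pow_eq_one
  have hwm : ∀ j : ℕ, om n ^ (j % n) = om n ^ j := by
    intro j
    conv_rhs => rw [← Nat.div_add_mod j n, pow_add, pow_mul, hwn, one_pow, one_mul]
  have hηp : ∀ (q j : ℕ), η (j + q * n) = η j := by
    intro q
    induction q with
    | zero => intro j; simp
    | succ q ih =>
      intro j
      rw [Nat.succ_mul, ← add_assoc, hper, ih]
  have hηm : ∀ j : ℕ, η (j % n) = η j := by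
    intro j
    conv_rhs => rw [← Nat.mod_add_div j n, mul_comm n, hηp]
  -- the convex polygon
  obtain ⟨Z, hZ⟩ : ∃ Z : ℕ → ℂ, Z = fun j => z ⟨j % n, Nat.mod_lt _ (by omega)⟩ := ⟨_, rfl⟩
  have hC : Conv n Z := conv_of_order n hn z hconv Z (fun j => by rw [hZ])
  have hP := perimeter n Z hC (fun i j => by rw [hZ]; exact hd _ _)
  have hZf : ∀ j, Z j = a * (om n ^ j + η j) + b := by
    intro j
    rw [hZ]
    show z ⟨j % n, _⟩ = _
    rw [hzf]
    show a * (om n ^ (j % n) + η (j % n)) + b = _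
    rw [hwm, hηm]
  have hw1 : om n - 1 ≠ 0 := by
    have := (prim n hn).ne_one (by omega)
    exact sub_ne_zero.2 this
  have hZd : ∀ j, ‖Z (j + 1) - Z j‖ = ‖a‖ * ‖om n - 1‖ * ‖1 + XX n η j 1‖ := by
    intro j
    have hne : om n ^ (j + 1) - om n ^ j ≠ 0 := by
      rw [pow_succ, show om n ^ j * om n - om n ^ j = om n ^ j * (om n - 1) by ring]
      exact mul_ne_zero (pow_ne_zero _ (by
        intro h; have := norm_om n hn; rw [h, norm_zero] at this; norm_num at this)) hw1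
    have e : Z (j + 1) - Z j = a * ((om n ^ (j + 1) - om n ^ j) * (1 + XX n η j 1)) := by
      rw [hZf, hZf]
      unfold XX
      field_simp
      ring
    rw [e, norm_mul, norm_mul, ← mul_assoc]
    congr 2
    rw [pow_succ, show om n ^ j * om n - om n ^ j = om n ^ j * (om n - 1) by ring, norm_mul,
      norm_pow, norm_om n hn, one_pow, one_mul]
  -- the mean
  obtain ⟨M, hM⟩ : ∃ M : ℝ, M = (1 / n) * ∑ j ∈ range n, ‖1 + XX n η j 1‖ := ⟨_, rfl⟩
  have hge : ∀ j k, 1 / 2 ≤ ‖1 + XX n η j k‖ := by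
    intro j k
    have h1 := hX j k
    have h2 : ‖(1 : ℂ)‖ - ‖XX n η j k‖ ≤ ‖1 + XX n η j k‖ := by
      have := norm_sub_norm_le (1 : ℂ) (-XX n η j k)
      rwa [norm_neg, sub_neg_eq_add] at this
    rw [norm_one] at h2
    linarith
  have hMpos : 0 < M := by
    rw [hM]
    refine mul_pos (by positivity) (Finset.sum_pos (fun j _ => ?_) ⟨0, by simp; omega⟩)
    linarith [hge j 1]
  obtain ⟨cs, hcs⟩ : ∃ cs : ℝ, cs = Real.cos (Real.pi / (2 * n)) := ⟨_, rfl⟩
  obtain ⟨sn, hsn⟩ : ∃ sn : ℝ, sn = Real.sin (Real.pi / (2 * n)) := ⟨_, rfl⟩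
  have h0 : 0 < Real.pi / (2 * n) := div_pos Real.pi_pos (by positivity)
  have h1 : Real.pi / (2 * n) < Real.pi / 2 := by
    have h3 : (3 : ℝ) ≤ n := by exact_mod_cast hn
    exact div_lt_div_of_pos_left Real.pi_pos (by norm_num) (by linarith)
  have hs0 : 0 < sn := by
    rw [hsn]
    exact Real.sin_pos_of_pos_of_lt_pi h0 (by linarith [Real.pi_pos])
  have hc0 : 0 < cs := by
    rw [hcs]
    exact Real.cos_pos_of_mem_Ioo ⟨by linarith, h1⟩
  obtain ⟨r0, hr0⟩ : ∃ r0 : ℝ, r0 = 1 / cs := ⟨_, rfl⟩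
  have hr0p : 0 < r0 := by rw [hr0]; positivity
  have haM : ‖a‖ * M ≤ r0 := by
    rw [Finset.sum_congr rfl fun j _ => hZd j, ← Finset.mul_sum, norm_sub_one n hn, ← hcs, ← hsn]
      at hP
    have e : ∑ j ∈ range n, ‖1 + XX n η j 1‖ = n * M := by
      rw [hM]; field_simp
    rw [e] at hP
    have h2 : (4 * sn * n) * (‖a‖ * M * cs) ≤ (4 * sn * n) * 1 := by
      calc (4 * sn * n) * (‖a‖ * M * cs) = ‖a‖ * (4 * sn * cs) * (n * M) := by ring
        _ ≤ n * (4 * sn) := hP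
        _ = _ := by ring
    have h3 := le_of_mul_le_mul_left h2 (by positivity)
    rw [hr0, le_div_iff₀ hc0]
    exact h3
  -- the products
  obtain ⟨N, hN⟩ : ∃ N : ℕ, N = ∑ i : Fin n, (Finset.Ioi i).card := ⟨_, rfl⟩
  have hNr : (N : ℝ) = (n : ℝ) * (n - 1) / 2 := by rw [hN]; exact card_eq n (by omega)
  have hN0 : N ≠ 0 := by
    intro h
    rw [h] at hNr
    have h3 : (3 : ℝ) ≤ n := by exact_mod_cast hn
    push_cast at hNr
    nlinarith
  obtain ⟨V0, hV0⟩ : ∃ V0 : ℝ, V0 = ∏ i : Fin n, ∏ j ∈ Finset.Ioi i,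
    ‖om n ^ i.val - om n ^ j.val‖ := ⟨_, rfl⟩
  have hV0p : 0 < V0 := by
    rw [hV0]
    refine Finset.prod_pos fun i _ => Finset.prod_pos fun j hj => ?_
    exact norm_pos_iff.2 (ne n hn i j (Finset.mem_Ioi.1 hj).ne)
  have hVreg : Vd (reg n) = r0 ^ N * V0 := by
    rw [hN, hV0, ← prod_split]
    unfold Vd
    refine Finset.prod_congr rfl fun i _ => Finset.prod_congr rfl fun j _ => ?_
    rw [reg_eq, reg_eq, ← mul_sub, norm_mul, Complex.norm_real, Real.norm_eq_abs, hr0, hcs,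
      abs_of_pos (by rw [← hcs]; positivity)]
  obtain ⟨f, hf⟩ : ∃ f : ℕ → ℕ → ℝ, f = fun i j =>
    Real.log ‖1 + (η i - η j) / (om n ^ i - om n ^ j)‖ := ⟨_, rfl⟩
  have hfs : ∀ i j, f i j = f j i := by
    intro i j
    rw [hf]
    show Real.log ‖1 + (η i - η j) / (om n ^ i - om n ^ j)‖
      = Real.log ‖1 + (η j - η i) / (om n ^ j - om n ^ i)‖
    rw [← neg_sub (η j), ← neg_sub (om n ^ j), neg_div_neg_eq]
  have hfp : ∀ i j, f (i + n) j = f i j := by
    intro i j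
    rw [hf]
    show Real.log ‖1 + (η (i + n) - η j) / (om n ^ (i + n) - om n ^ j)‖
      = Real.log ‖1 + (η i - η j) / (om n ^ i - om n ^ j)‖
    rw [hper, pow_add, hwn, mul_one]
  have hfX : ∀ j k, f j (j + k) = Real.log ‖1 + XX n η j k‖ := by
    intro j k
    rw [hfs, hf]
    rfl
  have hpair := pair_sum n (by omega) f hfs hfp
  obtain ⟨S, hS⟩ : ∃ S : ℝ, S = ∑ i : Fin n, ∑ j ∈ Finset.Ioi i, f i.val j.val := ⟨_, rfl⟩
  rw [← hS] at hpair
  simp only [hfX] at hpair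
  obtain ⟨Q, hQ⟩ : ∃ Q : ℝ, Q = ∑ j ∈ range n, ‖η j‖ ^ 2 := ⟨_, rfl⟩
  have hQ0 : 0 ≤ Q := by rw [hQ]; positivity
  rw [← hpair, ← hQ, ← hM, ← hNr] at hlog
  have hVz : Vd z = ‖a‖ ^ N * (V0 * Real.exp S) := by
    rw [hS, hV0, Real.exp_sum, ← Finset.prod_mul_distrib, hN]
    simp only [Real.exp_sum, ← Finset.prod_mul_distrib]
    rw [← prod_split]
    unfold Vd
    refine Finset.prod_congr rfl fun i _ => Finset.prod_congr rfl fun j hj => ?_
    have hij : i < j := Finset.mem_Ioi.1 hj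
    have hne := ne n hn i j hij.ne
    have hne2 : om n ^ j.val - om n ^ i.val ≠ 0 := ne n hn j i hij.ne'
    have hpos : 0 < ‖1 + (η i.val - η j.val) / (om n ^ i.val - om n ^ j.val)‖ := by
      have h5 := hge i.val (j.val - i.val)
      unfold XX at h5
      rw [show i.val + (j.val - i.val) = j.val by have := Fin.lt_def.1 hij; omega,
        ← neg_sub (η i.val), ← neg_sub (om n ^ i.val), neg_div_neg_eq] at h5
      linarith
    rw [hf]
    show ‖z i - z j‖ = ‖a‖ * (‖om n ^ i.val - om n ^ j.val‖ *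
      Real.exp (Real.log ‖1 + (η i.val - η j.val) / (om n ^ i.val - om n ^ j.val)‖))
    rw [Real.exp_log hpos, ← norm_mul, ← norm_mul, hzf, hzf]
    congr 1
    field_simp
    ring
  have hexp : Real.exp S ≤ M ^ N * Real.exp (-(c1 * Q)) := by
    have e : M ^ N = Real.exp (N * Real.log M) := by
      rw [Real.exp_nat_mul, Real.exp_log hMpos]
    rw [e, ← Real.exp_add]
    exact Real.exp_le_exp.2 (by linarith)
  have hE1 : Real.exp (-(c1 * Q)) ≤ 1 := by
    rw [Real.exp_le_one_iff]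
    have : 0 ≤ c1 * Q := by positivity
    linarith
  have haM0 : 0 ≤ ‖a‖ * M := by positivity
  have hpow : (‖a‖ * M) ^ N ≤ r0 ^ N := pow_le_pow_left₀ haM0 haM N
  have hmain : Vd z ≤ (‖a‖ * M) ^ N * V0 * Real.exp (-(c1 * Q)) := by
    rw [hVz]
    calc ‖a‖ ^ N * (V0 * Real.exp S) ≤ ‖a‖ ^ N * (V0 * (M ^ N * Real.exp (-(c1 * Q)))) := by
          gcongr
      _ = _ := by rw [mul_pow]; ring
  refine ⟨?_, fun heq => ?_⟩
  · rw [hVreg]
    calc Vd z ≤ (‖a‖ * M) ^ N * V0 * Real.exp (-(c1 * Q)) := hmain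
      _ ≤ r0 ^ N * V0 * 1 := by gcongr
      _ = _ := by ring
  · rw [heq, hVreg] at hmain
    have hrV : 0 < r0 ^ N * V0 := by positivity
    have e1 : r0 ^ N * V0 ≤ r0 ^ N * V0 * Real.exp (-(c1 * Q)) := by
      refine hmain.trans ?_
      gcongr
    have e2 : 1 ≤ Real.exp (-(c1 * Q)) := by
      by_contra hcon
      push Not at hcon
      have := mul_lt_mul_of_pos_left hcon hrV
      rw [mul_one] at this
      linarith
    have e3 : Q = 0 := by
      rcases hQ0.eq_or_lt with h | h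
      · exact h.symm
      · exact absurd e2 (not_le.2 (by rw [← Real.exp_zero]; exact Real.exp_lt_exp.2 (by have := mul_pos hc1 h; linarith)))
    have e4 : r0 ^ N * V0 ≤ (‖a‖ * M) ^ N * V0 := by
      refine hmain.trans ?_
      exact mul_le_of_le_one_right (by positivity) hE1
    have e5 : r0 ≤ ‖a‖ * M := by
      have := le_of_mul_le_mul_right e4 hV0p
      exact le_of_pow_le_pow_left₀ hN0 haM0 this
    have e6 : ∀ j, η j = 0 := by
      intro j
      rw [hQ] at e3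
      have h5 := (Finset.sum_eq_zero_iff_of_nonneg (fun _ _ => by positivity)).1 e3 (j % n)
        (Finset.mem_range.2 (Nat.mod_lt _ (by omega)))
      rw [hηm] at h5
      exact norm_eq_zero.1 (pow_eq_zero_iff (two_ne_zero) |>.1 h5)
    have e7 : M = 1 := by
      rw [hM]
      have : ∀ j ∈ range n, ‖1 + XX n η j 1‖ = 1 := by
        intro j _
        unfold XX
        rw [e6, e6, sub_zero, zero_div, add_zero, norm_one]
      rw [Finset.sum_congr rfl this]
      simp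
      field_simp
    have e8 : ‖a‖ = r0 := by
      rw [e7, mul_one] at e5 haM
      exact le_antisymm haM e5
    have hr0c : ((r0 : ℝ) : ℂ) ≠ 0 := by exact_mod_cast hr0p.ne'
    refine ⟨a / (r0 : ℂ), b, ?_, fun i => ?_⟩
    · rw [norm_div, e8, Complex.norm_real, Real.norm_eq_abs, abs_of_pos hr0p, div_self hr0p.ne']
    · rw [hzf, e6, add_zero, reg_eq, ← hcs, ← hr0]
      field_simp

end Pool.Agent.H280R2.RP
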