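import Pool.Agent.H280R2.RP.Defs11
import Pool.Agent.H280R2.RP.M11
set_option autoImplicit false

/-! # R2: the distances in the regular 11-gon (helper890) -/

namespace Pool.Agent.H280R2.RP

open Finset

namespace R2x

open M11x

theorem cos_pos22 : 0 < Real.cos (Real.pi / 22) :=
  Real.cos_pos_of_mem_Ioo ⟨by linarith [Real.pi_pos], by linarith [Real.pi_pos]⟩

theorem e22 : Real.pi / (2 * ((11 : ℕ) : ℝ)) = Real.pi / 22 := by
  push_cast
  ring

theorem sin11 : Real.sin (Real.pi / 11) =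
    2 * Real.sin (Real.pi / 22) * Real.cos (Real.pi / 22) := by
  rw [← Real.sin_two_mul]
  congr 1
  ring

theorem g111 : g 11 1 = h11 := by
  unfold g h11
  rw [abs_of_nonneg (mul_nonneg (by norm_num) (sin_nonneg' 11 1 (by norm_num) (by norm_num)))]
  have hc := cos_pos22.ne'
  have e1 : Real.pi * ((1 : ℕ) : ℝ) / ((11 : ℕ) : ℝ) = Real.pi / 11 := by
    push_cast
    ring
  rw [e1, e22, sin11]
  field_simp
  ring

theorem g112 : g 11 2 = e2 := by
  unfold g e2 h11 c11
  rw [abs_of_nonneg (mul_nonneg (by norm_num) (sin_nonneg' 11 2 (by norm_num) (by norm_num)))]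
  have hc := cos_pos22.ne'
  have e1 : Real.pi * ((2 : ℕ) : ℝ) / ((11 : ℕ) : ℝ) = 2 * (Real.pi / 11) := by
    push_cast
    ring
  rw [e1, e22, Real.sin_two_mul, sin11]
  field_simp
  ring

theorem g115 : g 11 5 = 2 := by
  unfold g
  rw [abs_of_nonneg (mul_nonneg (by norm_num) (sin_nonneg' 11 5 (by norm_num) (by norm_num)))]
  have hc := cos_pos22.ne'
  have e1 : Real.pi * ((5 : ℕ) : ℝ) / ((11 : ℕ) : ℝ) = Real.pi / 2 - Real.pi / 22 := by
    push_cast
    ring
  rw [e1, e22, Real.sin_pi_div_two_sub]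
  field_simp

/-- `sin² a = sin² b + sin (a - b) sin (a + b)` -/
theorem sin_id2 (a b : ℝ) :
    Real.sin a ^ 2 = Real.sin b ^ 2 + Real.sin (a - b) * Real.sin (a + b) := by
  have h1 := Real.sin_sq_add_cos_sq a
  have h2 := Real.sin_sq_add_cos_sq b
  rw [Real.sin_sub, Real.sin_add]
  linear_combination (Real.sin b ^ 2) * h1 - (Real.sin a ^ 2) * h2

theorem sin5 : Real.sin (5 * (Real.pi / 11)) = Real.cos (Real.pi / 22) := by
  rw [← Real.sin_pi_div_two_sub]
  congr 1
  ring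

theorem sin6 : Real.sin (6 * (Real.pi / 11)) = Real.cos (Real.pi / 22) := by
  rw [← sin5, ← Real.sin_pi_sub]
  congr 1
  ring

theorem sin2 : Real.sin (2 * (Real.pi / 11)) =
    2 * (2 * Real.sin (Real.pi / 22) * Real.cos (Real.pi / 22)) * Real.cos (Real.pi / 11) := by
  rw [Real.sin_two_mul, sin11]

theorem g113 : g 11 3 = Real.sqrt T3 := by
  have hs := sin_nonneg' 11 3 (by norm_num) (by norm_num)
  have hc := cos_pos22
  unfold g
  rw [abs_of_nonneg (mul_nonneg (by norm_num) hs)]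
  have e1 : Real.pi * ((3 : ℕ) : ℝ) / ((11 : ℕ) : ℝ) = 3 * (Real.pi / 11) := by
    push_cast
    ring
  rw [e1] at hs ⊢
  rw [e22]
  have hnn : 0 ≤ 1 / Real.cos (Real.pi / 22) * (2 * Real.sin (3 * (Real.pi / 11))) := by
    positivity
  have key : (1 / Real.cos (Real.pi / 22) * (2 * Real.sin (3 * (Real.pi / 11)))) ^ 2 = T3 := by
    have hid := sin_id2 (3 * (Real.pi / 11)) (2 * (Real.pi / 11))
    have a1 : 3 * (Real.pi / 11) - 2 * (Real.pi / 11) = Real.pi / 11 := by ring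
    have a2 : 3 * (Real.pi / 11) + 2 * (Real.pi / 11) = 5 * (Real.pi / 11) := by ring
    rw [a1, a2, sin5, sin2, sin11] at hid
    unfold T3 e2 h11 c11
    rw [mul_pow, div_pow, mul_pow, hid]
    field_simp
    ring
  rw [← key, Real.sqrt_sq hnn]

theorem g114 : g 11 4 = Real.sqrt T4 := by
  have hs := sin_nonneg' 11 4 (by norm_num) (by norm_num)
  have hc := cos_pos22
  unfold g
  rw [abs_of_nonneg (mul_nonneg (by norm_num) hs)]
  have e1 : Real.pi * ((4 : ℕ) : ℝ) / ((11 : ℕ) : ℝ) = 4 * (Real.pi / 11) := by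
    push_cast
    ring
  rw [e1] at hs ⊢
  rw [e22]
  have hnn : 0 ≤ 1 / Real.cos (Real.pi / 22) * (2 * Real.sin (4 * (Real.pi / 11))) := by
    positivity
  have key : (1 / Real.cos (Real.pi / 22) * (2 * Real.sin (4 * (Real.pi / 11)))) ^ 2 = T4 := by
    have hid := sin_id2 (4 * (Real.pi / 11)) (2 * (Real.pi / 11))
    have a1 : 4 * (Real.pi / 11) - 2 * (Real.pi / 11) = 2 * (Real.pi / 11) := by ring
    have a2 : 4 * (Real.pi / 11) + 2 * (Real.pi / 11) = 6 * (Real.pi / 11) := by ring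
    rw [a1, a2, sin6, sin2] at hid
    unfold T4 e2 h11 c11
    rw [mul_pow, div_pow, mul_pow, hid]
    field_simp
    ring
  rw [← key, Real.sqrt_sq hnn]

theorem key11 (f : ℕ → ℝ) : ∏ i : Fin 11, ∏ j : Fin 11, (if i < j then f (j.val - i.val) else 1)
    = f 1 ^ 10 * f 2 ^ 9 * f 3 ^ 8 * f 4 ^ 7 * f 5 ^ 6 * f 6 ^ 5 * f 7 ^ 4 * f 8 ^ 3 * f 9 ^ 2 *
      f 10 := by
  have e : ∀ i : Fin 11, ∏ j : Fin 11, (if i < j then f (j.val - i.val) else 1)
      = ∏ j ∈ Finset.range 11, (if i.val < j then f (j - i.val) else 1) := by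
    intro i
    rw [← Fin.prod_univ_eq_prod_range (fun j => if i.val < j then f (j - i.val) else 1) 11]
    rfl
  rw [Finset.prod_congr rfl fun i _ => e i,
    Fin.prod_univ_eq_prod_range
      (fun i => ∏ j ∈ Finset.range 11, (if i < j then f (j - i) else 1)) 11]
  simp only [Finset.prod_range_succ, Finset.prod_range_zero]
  norm_num
  ring

end R2x

open M11x R2x in
/-- R2 -/
theorem reg_eleven : Vd (reg 11) =
    h11 ^ 11 * e2 ^ 11 * (Real.sqrt T3) ^ 11 * (Real.sqrt T4) ^ 11 * 2 ^ 11 := by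
  have h6 : g 11 6 = g 11 5 := g_symm 11 (by norm_num) 5 (by norm_num)
  have h7 : g 11 7 = g 11 4 := g_symm 11 (by norm_num) 4 (by norm_num)
  have h8 : g 11 8 = g 11 3 := g_symm 11 (by norm_num) 3 (by norm_num)
  have h9' : g 11 9 = g 11 2 := g_symm 11 (by norm_num) 2 (by norm_num)
  have h10 : g 11 10 = g 11 1 := g_symm 11 (by norm_num) 1 (by norm_num)
  rw [Vd_g 11 (by norm_num), prod_g, key11, h6, h7, h8, h9', h10, g111, g112, g113, g114, g115]
  ring

end Pool.Agent.H280R2.RP
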