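import Pool.Agent.H280R2.RP.Defs11
set_option autoImplicit false

namespace Pool.Agent.H280R2.RP

namespace R3x

theorem mulb {a b c d x y : ℝ} (ha : 0 < a) (hc : 0 < c) (h1 : a < x) (h2 : x < b) (h3 : c < y)
    (h4 : y < d) : a * c < x * y ∧ x * y < b * d := by
  constructor
  · exact mul_lt_mul'' h1 h3 ha.le hc.le
  · exact mul_lt_mul'' h2 h4 (ha.trans h1).le (hc.trans h3).le

theorem invb {a b x : ℝ} (ha : 0 < a) (h1 : a < x) (h2 : x < b) : 1 / b < 1 / x ∧ 1 / x < 1 / a := by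
  constructor
  · exact one_div_lt_one_div_of_lt (ha.trans h1) h2
  · exact one_div_lt_one_div_of_lt ha h1

theorem x_bounds : 0.07139981 < Real.pi / 44 ∧ Real.pi / 44 < 0.07139985 := by
  have h1 := Real.pi_gt_d6
  have h2 := Real.pi_lt_d6
  constructor
  · rw [lt_div_iff₀ (by norm_num)]
    linarith
  · rw [div_lt_iff₀ (by norm_num)]
    linarith

theorem s_bounds : 0.142311 < Real.sin (Real.pi / 22) ∧ Real.sin (Real.pi / 22) < 0.142318 := by
  obtain ⟨x1, x2⟩ := x_bounds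
  have hx : |Real.pi / 44| ≤ 1 := by
    rw [abs_of_pos (by linarith)]
    linarith
  have hs := Real.sin_bound hx
  have hc := Real.cos_bound hx
  rw [abs_of_pos (show (0:ℝ) < Real.pi / 44 by linarith)] at hs hc
  have e : Real.sin (Real.pi / 22) = 2 * Real.sin (Real.pi / 44) * Real.cos (Real.pi / 44) := by
    rw [← Real.sin_two_mul]
    congr 1
    ring
  rw [e]
  generalize Real.sin (Real.pi / 44) = u at *
  generalize Real.cos (Real.pi / 44) = w at *
  generalize Real.pi / 44 = x at *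
  obtain ⟨q1, q2⟩ := mulb (by norm_num) (by norm_num) x1 x2 x1 x2
  obtain ⟨r1, r2⟩ := mulb (by norm_num) (by norm_num) q1 q2 x1 x2
  obtain ⟨v1, v2⟩ := mulb (by norm_num) (by norm_num) r1 r2 x1 x2
  obtain ⟨y1, y2⟩ := mulb (by norm_num) (by norm_num) v1 v2 x1 x2
  have y3 : x * x * x * x * x = x ^ 5 := by ring
  rw [y3] at y1 y2
  have q3 : x * x = x ^ 2 := by ring
  have r3 : x * x * x = x ^ 3 := by ring
  have v3 : x * x * x * x = x ^ 4 := by ring
  rw [q3] at q1 q2
  rw [r3] at r1 r2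
  rw [v3] at v1 v2
  norm_num at q1 q2 r1 r2 v1 v2 y1 y2
  obtain ⟨a1, a2⟩ := abs_le.1 hs
  obtain ⟨b1, b2⟩ := abs_le.1 hc
  have u1 : 0.0713377 < u := by linarith
  have u2 : u < 0.0713406 := by linarith
  have w1 : 0.9974496 < w := by linarith
  have w2 : w < 0.9974525 := by linarith
  obtain ⟨g1, g2⟩ := mulb (by norm_num) (by norm_num) u1 u2 w1 w2
  norm_num at g1 g2
  constructor <;> linarith

theorem c_eq : c11 = 1 - 2 * Real.sin (Real.pi / 22) ^ 2 := by
  unfold c11
  rw [show Real.pi / 11 = 2 * (Real.pi / 22) by ring, Real.cos_two_mul, Real.cos_sq']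
  ring

theorem c_bounds : 0.959490 < c11 ∧ c11 < 0.959496 := by
  obtain ⟨h1, h2⟩ := s_bounds
  obtain ⟨g1, g2⟩ := mulb (by norm_num) (by norm_num) h1 h2 h1 h2
  rw [c_eq]
  norm_num at g1 g2
  constructor <;> nlinarith

theorem S_bounds : 0.28171 < Real.sin (Real.pi / 11) ∧ Real.sin (Real.pi / 11) < 0.28175 := by
  obtain ⟨h1, h2⟩ := c_bounds
  obtain ⟨g1, g2⟩ := mulb (by norm_num) (by norm_num) h1 h2 h1 h2
  have h3 : 0 < Real.sin (Real.pi / 11) :=
    Real.sin_pos_of_pos_of_lt_pi (by positivity) (by linarith [Real.pi_pos])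
  have h4 := Real.sin_sq_add_cos_sq (Real.pi / 11)
  have h5 : Real.cos (Real.pi / 11) = c11 := rfl
  rw [h5] at h4
  norm_num at g1 g2
  constructor
  · by_contra hc
    push Not at hc
    nlinarith
  · by_contra hc
    push Not at hc
    nlinarith

end R3x

open R3x in
theorem consts11 : (0.5692 < h11 ∧ h11 < 0.5693) ∧ (0.9594 < c11 ∧ c11 < 0.9595) ∧
    (0.2816 < Real.sin (Real.pi / 11) ∧ Real.sin (Real.pi / 11) < 0.2818) ∧
    (0.2935 < Real.tan (Real.pi / 11) ∧ Real.tan (Real.pi / 11) < 0.2937) ∧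
    (0.4696 < p11 ∧ p11 < 0.4700) ∧ (0.3368 < l11 ∧ l11 < 0.3372) ∧
    (0.3211 < B11 ∧ B11 < 0.3215) := by
  obtain ⟨s1, s2⟩ := s_bounds
  obtain ⟨c1, c2⟩ := c_bounds
  obtain ⟨t1, t2⟩ := S_bounds
  have hh : h11 = 4 * Real.sin (Real.pi / 22) := rfl
  have h1 : 0.569244 < h11 := by rw [hh]; linarith
  have h2 : h11 < 0.569272 := by rw [hh]; linarith
  have hc : Real.cos (Real.pi / 11) = c11 := rfl
  have hc0 : 0 < c11 := by linarith
  have hT : Real.tan (Real.pi / 11) = Real.sin (Real.pi / 11) / c11 := by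
    rw [Real.tan_eq_sin_div_cos, hc]
  have T1 : 0.29360 < Real.tan (Real.pi / 11) := by
    rw [hT, lt_div_iff₀ hc0]
    linarith
  have T2 : Real.tan (Real.pi / 11) < 0.29366 := by
    rw [hT, div_lt_iff₀ hc0]
    linarith
  obtain ⟨e1, e3⟩ := mulb (by norm_num) (by norm_num) h1 h2 c1 c2
  have E1 : 1.092366 < e2 := by
    unfold e2
    norm_num at e1
    linarith
  have E2 : e2 < 1.092430 := by
    unfold e2
    norm_num at e3
    linarith
  obtain ⟨f1, f2⟩ := mulb (by norm_num) (by norm_num) E1 E2 E1 E2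
  rw [← sq] at f1 f2
  norm_num at f1 f2
  have A1 : 2.33174 < T3 := by
    unfold T3
    rw [sq]
    linarith
  have A2 : T3 < 2.33196 := by
    unfold T3
    rw [sq]
    linarith
  have D1 : 3.37798 < T4 := by
    unfold T4
    rw [sq]
    linarith
  have D2 : T4 < 3.37828 := by
    unfold T4
    rw [sq]
    linarith
  obtain ⟨i1, i2⟩ := invb (by norm_num) A1 A2
  obtain ⟨j1, j2⟩ := invb (by norm_num) D1 D2
  have i3 : 0.42882 < 1 / T3 := lt_trans (by norm_num) i1
  have i4 : 1 / T3 < 0.42887 := lt_trans i2 (by norm_num)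
  have j3 : 0.29600 < 1 / T4 := lt_trans (by norm_num) j1
  have j4 : 1 / T4 < 0.29604 := lt_trans j2 (by norm_num)
  have al1 : 0.36241 < al11 := by
    unfold al11
    linarith
  have al2 : al11 < 0.362455 := by
    unfold al11
    linarith
  obtain ⟨k1, k2⟩ := mulb (by norm_num) (by norm_num) h1 h2 h1 h2
  obtain ⟨m1, m2⟩ := mulb (by norm_num) (by norm_num) al1 al2 k1 k2
  norm_num at m1 m2
  have P1 : 0.46973 < p11 := by
    unfold p11
    rw [sq]
    linarith
  have P2 : p11 < 0.46986 := by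
    unfold p11
    rw [sq]
    linarith
  have hb : be11 = 1 / T4 := rfl
  rw [← hb] at j3 j4
  obtain ⟨n1, n2⟩ := mulb (by norm_num) (by norm_num) j3 j4 h1 h2
  norm_num at n1 n2
  have L1 : 0.33699 < l11 := by
    unfold l11
    linarith
  have L2 : l11 < 0.33706 := by
    unfold l11
    linarith
  obtain ⟨o1, o2⟩ := mulb (by norm_num) (by norm_num) P1 P2 t1 t2
  obtain ⟨o3, o4⟩ := mulb (by norm_num) (by norm_num) o1 o2 c1 c2
  obtain ⟨o5, o6⟩ := mulb (by norm_num) (by norm_num) L1 L2 t1 t2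
  norm_num at o3 o4 o5 o6
  refine ⟨⟨by linarith, by linarith⟩, ⟨by linarith, by linarith⟩, ⟨by linarith, by linarith⟩,
    ⟨by linarith, by linarith⟩, ⟨by linarith, by linarith⟩, ⟨by linarith, by linarith⟩, ?_, ?_⟩
  · unfold B11
    linarith
  · unfold B11
    linarith

end Pool.Agent.H280R2.RP
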