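import Pool.Agent.H280R2.RP.Defs11
import Pool.Agent.H280R2.RP.R3
set_option autoImplicit false

namespace Pool.Agent.H280R2.RP

namespace R4x

/-- the function `2 t - 2 log (1 + t) - a t ^ 2` -/
noncomputable def ph (a t : ℝ) : ℝ := 2 * t - 2 * Real.log (1 + t) - a * t ^ 2

theorem ph_deriv (a t : ℝ) (ht : -1 < t) : HasDerivAt (ph a) (2 * t * (1 / (1 + t) - a)) t := by
  have hne : 1 + t ≠ 0 := by linarith
  have h1 : HasDerivAt (fun t : ℝ => 1 + t) 1 t := by
    simpa using (hasDerivAt_id t).const_add 1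
  have h2 : HasDerivAt (fun t : ℝ => Real.log (1 + t)) (1 / (1 + t)) t := h1.log hne
  have h0 : HasDerivAt (fun t : ℝ => 2 * t) (2 * 1) t := (hasDerivAt_id t).const_mul 2
  have h3 : HasDerivAt (fun t : ℝ => t ^ 2) (2 * t) t := by
    simpa using hasDerivAt_pow 2 t
  have h4 : HasDerivAt (ph a) (2 * 1 - 2 * (1 / (1 + t)) - a * (2 * t)) t :=
    (h0.sub (h2.const_mul 2)).sub (h3.const_mul a)
  refine h4.congr_deriv ?_
  field_simp
  ring

theorem ph_zero (a : ℝ) : ph a 0 = 0 := by
  unfold ph
  simp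

theorem ph_mono {a x : ℝ} (ha : 0 ≤ a) (hx0 : 0 ≤ x) (hx : (1 + x) * a ≤ 1) : 0 ≤ ph a x := by
  have hm : MonotoneOn (ph a) (Set.Icc 0 x) := by
    apply monotoneOn_of_deriv_nonneg (convex_Icc 0 x)
    · intro t ht
      exact (ph_deriv a t (by linarith [ht.1])).continuousAt.continuousWithinAt
    · intro t ht
      rw [interior_Icc] at ht
      exact (ph_deriv a t (by linarith [ht.1])).differentiableAt.differentiableWithinAt
    · intro t ht
      rw [interior_Icc] at ht
      rw [(ph_deriv a t (by linarith [ht.1])).deriv]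
      have h1 : 0 < 1 + t := by linarith [ht.1]
      have h2 : a ≤ 1 / (1 + t) := by
        rw [le_div_iff₀ h1]
        nlinarith [ht.2, mul_nonneg ha (sub_nonneg.2 ht.2.le)]
      have h3 := ht.1
      exact mul_nonneg (by linarith) (by linarith)
  have h := hm (Set.left_mem_Icc.2 hx0) (Set.right_mem_Icc.2 hx0) hx0
  rwa [ph_zero] at h

theorem ph_anti {a x y : ℝ} (ha : 0 ≤ a) (hx0 : 0 ≤ x) (hxy : x ≤ y) (hx : 1 ≤ (1 + x) * a) :
    ph a y ≤ ph a x := by
  have hm : AntitoneOn (ph a) (Set.Icc x y) := by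
    apply antitoneOn_of_deriv_nonpos (convex_Icc x y)
    · intro t ht
      exact (ph_deriv a t (by linarith [ht.1])).continuousAt.continuousWithinAt
    · intro t ht
      rw [interior_Icc] at ht
      exact (ph_deriv a t (by linarith [ht.1])).differentiableAt.differentiableWithinAt
    · intro t ht
      rw [interior_Icc] at ht
      rw [(ph_deriv a t (by linarith [ht.1])).deriv]
      have h1 : 0 < 1 + t := by linarith [ht.1]
      have h2 : 1 / (1 + t) ≤ a := by
        rw [div_le_iff₀ h1]
        nlinarith [mul_nonneg ha (sub_nonneg.2 ht.1.le)]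
      have h3 := ht.1
      exact mul_nonpos_of_nonneg_of_nonpos (by linarith) (by linarith)
  exact hm (Set.left_mem_Icc.2 hxy) (Set.right_mem_Icc.2 hxy) hxy

theorem ph_neg {x : ℝ} (hx : -1 < x) (hx0 : x ≤ 0) : 0 ≤ ph 1 x := by
  have hm : AntitoneOn (ph 1) (Set.Icc x 0) := by
    apply antitoneOn_of_deriv_nonpos (convex_Icc x 0)
    · intro t ht
      exact (ph_deriv 1 t (by linarith [ht.1])).continuousAt.continuousWithinAt
    · intro t ht
      rw [interior_Icc] at ht
      exact (ph_deriv 1 t (by linarith [ht.1])).differentiableAt.differentiableWithinAt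
    · intro t ht
      rw [interior_Icc] at ht
      rw [(ph_deriv 1 t (by linarith [ht.1])).deriv]
      have h1 : 0 < 1 + t := by linarith [ht.1]
      have h2 : 1 ≤ 1 / (1 + t) := by
        rw [le_div_iff₀ h1]
        linarith [ht.2]
      exact mul_nonpos_of_nonpos_of_nonneg (by linarith [ht.2]) (by linarith)
  have h := hm (Set.left_mem_Icc.2 hx0) (Set.right_mem_Icc.2 hx0) hx0
  rwa [ph_zero] at h

theorem log_bd : Real.log 1.7569 ≤ 0.5646672 := by
  have h1 : Real.log 1.7569 ≤ Real.log (2 * 0.98394 ^ 8) :=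
    Real.log_le_log (by norm_num) (by norm_num)
  have h2 : Real.log (2 * 0.98394 ^ 8) = Real.log 2 + 8 * Real.log 0.98394 := by
    rw [Real.log_mul (by norm_num) (by norm_num), Real.log_pow]
    norm_num
  have h3 : Real.log 0.98394 ≤ 0.98394 - 1 := Real.log_le_sub_one_of_pos (by norm_num)
  have h4 := Real.log_two_lt_d9
  rw [h2] at h1
  norm_num at h1 h3 h4 ⊢
  linarith

theorem log_bd2 : Real.log 2.3 ≤ 0.844 := by
  have h1 : Real.log 2.3 = Real.log (2 * 1.15) := by norm_num
  have h2 : Real.log (2 * 1.15) = Real.log 2 + Real.log 1.15 := by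
    rw [Real.log_mul (by norm_num) (by norm_num)]
  have h3 : Real.log 1.15 ≤ 1.15 - 1 := Real.log_le_sub_one_of_pos (by norm_num)
  have h4 := Real.log_two_lt_d9
  rw [h1, h2]
  norm_num at h3 h4 ⊢
  linarith

/-- tangent bound -/
theorem log_tan {r s : ℝ} (hr : 0 < r) (hs : 0 < s) : Real.log r ≤ Real.log s + (r / s - 1) := by
  have h1 : Real.log (r / s) ≤ r / s - 1 := Real.log_le_sub_one_of_pos (by positivity)
  rw [Real.log_div hr.ne' hs.ne'] at h1
  linarith

/-- the main estimate -/
theorem main {p l c r q : ℝ} (hc1 : 0.9594 < c) (hc2 : c < 0.9595) (hp1 : 0.4696 < p)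
    (hp2 : p < 0.4700) (hl1 : 0.3368 < l) (hr : 0 < r) (hr2 : r ≤ 3.5137) (hq : 0 < q)
    (hq1 : q ≤ 1) (hrq : r * q ≤ 1.7569) (D : ℝ)
    (hD : D = if q ≤ c then 4 * (1 - p * q ^ 2) else 0.8) :
    (2 * p * (q ^ 2 - c ^ 2) + l * (q - c)) * (r - 1) + p * q ^ 2 * (r - 1) ^ 2 +
      (2 * Real.log r - 2 * (r - 1)) ≤
        (2 * p * (q ^ 2 - c ^ 2) + l * (q - c)) ^ 2 / D := by
  set g : ℝ := 2 * p * (q ^ 2 - c ^ 2) + l * (q - c) with hg
  have hph : ∀ a, ph a (r - 1) = 2 * (r - 1) - 2 * Real.log r - a * (r - 1) ^ 2 := by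
    intro a
    unfold ph
    rw [show 1 + (r - 1) = r by ring]
  have hp3 : p < 0.47 := by
    norm_num at hp2 ⊢
    linarith
  have hq2 : q ^ 2 ≤ 1 := by nlinarith
  have hpq : p * q ^ 2 ≤ 0.47 := by nlinarith [sq_nonneg q]
  have hpq0 : 0 ≤ p * q ^ 2 := by positivity
  have hs0 : 0 ≤ (r - 1) ^ 2 := sq_nonneg _
  rcases le_or_gt r 1 with h1 | h1
  · -- case A
    have hA := ph_neg (x := r - 1) (by linarith) (by linarith)
    rw [hph] at hA
    by_cases hqc : q ≤ c
    · rw [if_pos hqc] at hD
      have hD0 : 0 < 4 * (1 - p * q ^ 2) := by linarith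
      rw [hD, le_div_iff₀ hD0]
      have h2 : g * (r - 1) + p * q ^ 2 * (r - 1) ^ 2 + (2 * Real.log r - 2 * (r - 1)) ≤
          g * (r - 1) - (1 - p * q ^ 2) * (r - 1) ^ 2 := by linarith
      have h3 := mul_le_mul_of_nonneg_right h2 hD0.le
      have h4 := sq_nonneg (g - 2 * (1 - p * q ^ 2) * (r - 1))
      nlinarith
    · rw [if_neg hqc] at hD
      rw [not_le] at hqc
      have hg0 : 0 ≤ g := by
        have : 0 ≤ q ^ 2 - c ^ 2 := by nlinarith
        have h5 : 0 ≤ 2 * p * (q ^ 2 - c ^ 2) := mul_nonneg (by linarith) this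
        have h6 : 0 ≤ l * (q - c) := mul_nonneg (by linarith) (by linarith)
        linarith
      have h2 : g * (r - 1) ≤ 0 := mul_nonpos_of_nonneg_of_nonpos hg0 (by linarith)
      have h3 : p * q ^ 2 * (r - 1) ^ 2 ≤ 1 * (r - 1) ^ 2 :=
        mul_le_mul_of_nonneg_right (by linarith) hs0
      have h4 : 0 ≤ g ^ 2 / D := by rw [hD]; positivity
      linarith
  · by_cases hqc : q ≤ c
    · -- case B
      rw [if_pos hqc] at hD
      have hD0 : 0 < D := by rw [hD]; linarith
      have hg0 : g ≤ 0 := by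
        have : q ^ 2 - c ^ 2 ≤ 0 := by nlinarith
        have h5 : 2 * p * (q ^ 2 - c ^ 2) ≤ 0 :=
          mul_nonpos_of_nonneg_of_nonpos (by linarith) this
        have h6 : l * (q - c) ≤ 0 := mul_nonpos_of_nonneg_of_nonpos (by linarith) (by linarith)
        linarith
      have h2 : g * (r - 1) ≤ 0 := mul_nonpos_of_nonpos_of_nonneg hg0 (by linarith)
      have h4 : 0 ≤ g ^ 2 / D := by positivity
      have h5 : p * q ^ 2 * (r - 1) ^ 2 ≤ 2 * (r - 1) - 2 * Real.log r := by
        rcases le_or_gt r 2.3 with h6 | h6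
        · have h7 := ph_mono (a := 0.434) (x := r - 1) (by norm_num) (by linarith)
            (by norm_num at h6 ⊢; linarith)
          rw [hph] at h7
          have h8 : q ^ 2 ≤ 0.9595 ^ 2 := by
            apply pow_le_pow_left₀ hq.le
            linarith
          have h9 : p * q ^ 2 ≤ 0.434 := by
            calc p * q ^ 2 ≤ 0.47 * 0.9595 ^ 2 := by
                  apply mul_le_mul hp3.le h8 (by positivity) (by norm_num)
              _ ≤ 0.434 := by norm_num
          have h10 := mul_le_mul_of_nonneg_right h9 hs0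
          linarith
        · have h7 := log_tan hr (by norm_num : (0 : ℝ) < 2.3)
          have h8 := log_bd2
          have h9 : (r - 1) ^ 2 * q ^ 2 ≤ (0.7154 * 1.7569) ^ 2 := by
            rw [← mul_pow]
            apply pow_le_pow_left₀ (by apply mul_nonneg <;> linarith)
            -- (r - 1) q ≤ 0.7154 * 1.7569
            have h10 : (r - 1) * 1 ≤ 0.7154 * r := by
              norm_num at hr2 ⊢
              linarith
            calc (r - 1) * q ≤ (0.7154 * r) * q := by
                  apply mul_le_mul_of_nonneg_right _ hq.le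
                  linarith
              _ = 0.7154 * (r * q) := by ring
              _ ≤ 0.7154 * 1.7569 := by
                  apply mul_le_mul_of_nonneg_left hrq (by norm_num)
          have h11 : p * q ^ 2 * (r - 1) ^ 2 ≤ 0.47 * (0.7154 * 1.7569) ^ 2 := by
            calc p * q ^ 2 * (r - 1) ^ 2 = p * ((r - 1) ^ 2 * q ^ 2) := by ring
              _ ≤ 0.47 * (0.7154 * 1.7569) ^ 2 := by
                  apply mul_le_mul hp3.le h9 (by positivity) (by norm_num)
          have h12 : (0.47 : ℝ) * (0.7154 * 1.7569) ^ 2 ≤ 0.7426 := by norm_num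
          have h13 : r / 2.3 ≤ r - 1.3 := by
            rw [div_le_iff₀ (by norm_num)]
            norm_num at h6 ⊢
            linarith
          norm_num at h7 h8 h11 h12 h13 h6 ⊢
          linarith
      linarith
    · -- case C
      rw [if_neg hqc] at hD
      rw [not_le] at hqc
      have h2 : g * (r - 1) ≤ g ^ 2 / D + 0.2 * (r - 1) ^ 2 := by
        have h3 : g ^ 2 / D = 1.25 * g ^ 2 := by
          rw [hD]
          norm_num
          ring
        rw [h3]
        nlinarith [sq_nonneg (g - 0.4 * (r - 1))]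
      have h5 : (0.2 + p * q ^ 2) * (r - 1) ^ 2 ≤ 2 * (r - 1) - 2 * Real.log r := by
        have hφ0 : 0 ≤ ph 0.67 0.7569 := by
          unfold ph
          have := log_bd
          norm_num at this ⊢
          linarith
        rcases le_or_gt r 1.7569 with h6 | h6
        · have h8 : 0 ≤ ph 0.67 (r - 1) := by
            rcases le_or_gt ((1 + (r - 1)) * 0.67) 1 with h7 | h7
            · exact ph_mono (by norm_num) (by linarith) h7
            · exact hφ0.trans (ph_anti (by norm_num) (by linarith)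
                (by norm_num at h6 ⊢; linarith) h7.le)
          rw [hph] at h8
          have h9 := mul_le_mul_of_nonneg_right
            (show 0.2 + p * q ^ 2 ≤ 0.67 by norm_num at hpq ⊢; linarith) hs0
          linarith
        · have h7 := log_tan hr (by norm_num : (0 : ℝ) < 1.7569)
          have h8 := log_bd
          have hr3 : r ≤ 1.8313 := by
            by_contra h9
            rw [not_le] at h9
            have h10 : 1.8313 * 0.9594 < r * q := by
              apply mul_lt_mul'' h9 (lt_trans hc1 hqc) (by norm_num) (by norm_num)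
            norm_num at h10 hrq
            linarith
          -- p q² (r-1)² r² ≤ 0.47 * 1.7569² (r-1)²
          have h9 : p * q ^ 2 * r ^ 2 ≤ 0.47 * 1.7569 ^ 2 := by
            calc p * q ^ 2 * r ^ 2 = p * (r * q) ^ 2 := by ring
              _ ≤ 0.47 * 1.7569 ^ 2 := by
                  apply mul_le_mul hp3.le _ (by positivity) (by norm_num)
                  exact pow_le_pow_left₀ (by positivity) hrq 2
          have h10 : (0.2 + p * q ^ 2) * (r - 1) ^ 2 * r ^ 2 ≤
              (0.2 * r ^ 2 + 0.47 * 1.7569 ^ 2) * (r - 1) ^ 2 := by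
            nlinarith
          have h11 : (0.2 * r ^ 2 + 0.47 * 1.7569 ^ 2) * (r - 1) ^ 2 ≤
              (2 * (r - 1) - 2 * (0.5646672 + (r / 1.7569 - 1))) * r ^ 2 := by
            obtain ⟨t, ht⟩ : ∃ t, r = 1.7569 + t := ⟨r - 1.7569, by ring⟩
            have ht0 : 0 ≤ t := by linarith
            have ht1 : t ≤ 0.0744 := by
              norm_num at hr3 ht ⊢
              linarith
            have e1 : r / 1.7569 = 1 + t / 1.7569 := by
              rw [ht]
              norm_num
              ring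
            have e2 : t / 1.7569 ≤ 0.5692 * t := by
              rw [div_le_iff₀ (by norm_num)]
              nlinarith
            rw [e1]
            have h12 : (2 * (r - 1) - 2 * (0.5646672 + (1 + 0.5692 * t - 1))) * r ^ 2 ≤
                (2 * (r - 1) - 2 * (0.5646672 + (1 + t / 1.7569 - 1))) * r ^ 2 := by
              apply mul_le_mul_of_nonneg_right _ (sq_nonneg r)
              linarith
            refine le_trans ?_ h12
            rw [ht]
            have ht2 : 0 ≤ t ^ 2 := sq_nonneg t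
            have ht3 : t ^ 2 ≤ 0.0744 * t := by nlinarith
            have ht4 : t ^ 3 ≤ 0.0744 * t ^ 2 := by nlinarith
            have ht5 : t ^ 4 ≤ 0.0744 * t ^ 3 := by nlinarith [pow_nonneg ht0 3]
            nlinarith [pow_nonneg ht0 3, pow_nonneg ht0 4]
          have hr20 : 0 < r ^ 2 := by positivity
          have h13 := le_of_mul_le_mul_right (h10.trans h11) hr20
          linarith
      linarith

end R4x

theorem relim11 (r q : ℝ) (hr : 0 < r) (hr2 : r ≤ 3.5137) (hq : 0 < q) (hq1 : q ≤ 1)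
    (hrq : r * q ≤ 1.7569) :
    2 * Real.log r - 2 * (r - 1) + p11 * c11 ^ 2 * (r - 1) ^ 2 +
      p11 * r ^ 2 * (q ^ 2 - c11 ^ 2) + l11 * r * (q - c11) ≤
      p11 * (q ^ 2 - c11 ^ 2) + l11 * (q - c11) +
        (2 * p11 * (q ^ 2 - c11 ^ 2) + l11 * (q - c11)) ^ 2 / DD q := by
  obtain ⟨-, ⟨hc1, hc2⟩, -, -, ⟨hp1, hp2⟩, ⟨hl1, -⟩, -⟩ := consts11
  have h := R4x.main hc1 hc2 hp1 hp2 hl1 hr hr2 hq hq1 hrq (DD q) rfl
  have e : 2 * Real.log r - 2 * (r - 1) + p11 * c11 ^ 2 * (r - 1) ^ 2 +
      p11 * r ^ 2 * (q ^ 2 - c11 ^ 2) + l11 * r * (q - c11) =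
      p11 * (q ^ 2 - c11 ^ 2) + l11 * (q - c11) +
      ((2 * p11 * (q ^ 2 - c11 ^ 2) + l11 * (q - c11)) * (r - 1) + p11 * q ^ 2 * (r - 1) ^ 2 +
      (2 * Real.log r - 2 * (r - 1))) := by ring
  rw [e]
  linarith

end Pool.Agent.H280R2.RP
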