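import Pool.Agent.H280R2.RP.Defs11
import Pool.Agent.H280R2.RP.R3
set_option autoImplicit false

namespace Pool.Agent.H280R2.RP

namespace R5x

theorem log_one_sub {y : ℝ} (h0 : 0 ≤ y) (h1 : y < 1) : Real.log (1 - y) ≤ -y - y ^ 2 / 2 := by
  have h := Real.hasSum_pow_div_log_of_abs_lt_one (x := y) (by rw [abs_of_nonneg h0]; exact h1)
  have h2 := sum_le_hasSum (Finset.range 2) (fun i _ => by positivity) h
  norm_num [Finset.sum_range_succ] at h2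
  linarith

theorem sq_le {d : ℝ} (h1 : -0.2857 ≤ d) (h2 : d ≤ 0.327) : d ^ 2 ≤ 0.10693 := by
  nlinarith

theorem cos_le {d : ℝ} (h1 : -0.2857 ≤ d) (h2 : d ≤ 0.327) :
    Real.cos d - 1 ≤ -0.4944 * d ^ 2 := by
  have h := Real.cos_bound (x := d) (by rw [abs_le]; constructor <;> linarith)
  have h3 := (abs_le.1 h).2
  have h4 : |d| ^ 4 = d ^ 2 * d ^ 2 := by
    rw [show |d| ^ 4 = (|d| ^ 2) * (|d| ^ 2) by ring, sq_abs]
  rw [h4] at h3
  have h5 := sq_le h1 h2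
  nlinarith [sq_nonneg d, mul_nonneg (sq_nonneg d) (sub_nonneg.2 h5)]

theorem sin_sq_ge {d : ℝ} (h1 : -0.2857 ≤ d) (h2 : d ≤ 0.327) :
    0.9623 * d ^ 2 ≤ Real.sin d ^ 2 := by
  have e1 := cos_le h1 h2
  have e2 := Real.one_sub_sq_div_two_le_cos (x := d)
  have e3 := Real.sin_sq_add_cos_sq d
  have h5 := sq_le h1 h2
  set C := Real.cos d
  have e4 : 0 ≤ 1 + C := by nlinarith [sq_nonneg d]
  have e5 : 0 ≤ (1 - C - 0.4944 * d ^ 2) * (1 + C) := mul_nonneg (by linarith) e4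
  have e6 : 0 ≤ d ^ 2 * (C - (1 - d ^ 2 / 2)) := mul_nonneg (sq_nonneg d) (by linarith)
  have e7 : 0 ≤ d ^ 2 * (0.10693 - d ^ 2) := mul_nonneg (sq_nonneg d) (by linarith)
  nlinarith

theorem sub_sin_le {d : ℝ} (h : 0 ≤ d) (h2 : d ≤ 0.327) :
    d - Real.sin d ≤ 0.08175 * d ^ 2 := by
  rcases h.eq_or_lt with h | h
  · rw [← h]; simp
  · have h3 := Real.sin_gt_sub_cube h
    nlinarith [sq_nonneg d, mul_nonneg (sq_nonneg d) (sub_nonneg.2 h2)]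

theorem sub_sin_cos_le {d : ℝ} (h : 0 ≤ d) (h2 : d ≤ 0.327) :
    d - Real.sin d * Real.cos d ≤ 0.327 * d ^ 2 := by
  rcases h.eq_or_lt with h | h
  · rw [← h]; simp
  · have h3 := Real.sin_gt_sub_cube (x := 2 * d) (by linarith)
    rw [Real.sin_two_mul] at h3
    nlinarith [sq_nonneg d, mul_nonneg (sq_nonneg d) (sub_nonneg.2 h2)]

theorem sub_sin_cos_neg {d : ℝ} (h : d ≤ 0) : d - Real.sin d * Real.cos d ≤ 0 := by
  have h3 : Real.sin (2 * (-d)) ≤ 2 * (-d) := Real.sin_le (by linarith)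
  rw [Real.sin_two_mul, Real.sin_neg, Real.cos_neg] at h3
  nlinarith

theorem sub_sin_neg {d : ℝ} (h : d ≤ 0) : d - Real.sin d ≤ 0 := by
  have h3 : Real.sin (-d) ≤ -d := Real.sin_le (by linarith)
  rw [Real.sin_neg] at h3
  linarith

theorem log_le {c c₀ s2 y q : ℝ} (hc : 0 < c) (hc0 : 0 < c₀) (hs : 0 ≤ s2) (hy : 0 ≤ y)
    (hy1 : y < 1) (hq2 : q ^ 2 = c ^ 2 + y * s2) :
    Real.log ((1 - y) * q ^ 2 / c₀ ^ 2) ≤
      -y - y ^ 2 / 2 + y * s2 / c ^ 2 + 2 * (c / c₀ - 1) := by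
  have h1y : 0 < 1 - y := by linarith
  have e1 : (1 - y) * q ^ 2 / c₀ ^ 2 = (1 - y) * ((1 + y * s2 / c ^ 2) * (c / c₀) ^ 2) := by
    rw [hq2]
    field_simp
  have hpos1 : 0 < 1 + y * s2 / c ^ 2 := by positivity
  have hpos2 : 0 < c / c₀ := by positivity
  rw [e1, Real.log_mul h1y.ne' (by positivity), Real.log_mul hpos1.ne' (by positivity),
    Real.log_pow]
  have e2 := log_one_sub hy hy1
  have e3 := Real.log_le_sub_one_of_pos hpos1
  have e4 := Real.log_le_sub_one_of_pos hpos2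
  push_cast
  linarith

theorem dterms {C Z d c₀ S T p l : ℝ} (hc1 : 0.9594 < c₀) (hc2 : c₀ < 0.9595)
    (hs1 : 0.2816 < S) (hs2 : S < 0.2818) (ht1 : 0.2935 < T) (ht2 : T < 0.2937)
    (hp1 : 0.4696 < p) (hp2 : p < 0.4700) (hl1 : 0.3368 < l) (hl2 : l < 0.3372)
    (hcos : C - 1 ≤ -0.4944 * d ^ 2) (hsin2 : 0.9623 * d ^ 2 ≤ Z ^ 2)
    (hdpos : 0 ≤ d → d - Z ≤ 0.08175 * d ^ 2 ∧ d - Z * C ≤ 0.327 * d ^ 2 ∧ Z ≤ d)
    (hdneg : d ≤ 0 → d - Z ≤ 0 ∧ d - Z * C ≤ 0) :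
    (0 ≤ d → (C - 1) * (1 + l * c₀) + (T + l * S) * (d - Z) - (p * (2 * c₀ ^ 2 - 1)) * Z ^ 2 +
      2 * p * S * c₀ * (d - Z * C) ≤ -0.919 * d ^ 2) ∧
    (d ≤ 0 → (C - 1) * (1 + l * c₀) + (T + l * S) * (d - Z) - (p * (2 * c₀ ^ 2 - 1)) * Z ^ 2 +
      2 * p * S * c₀ * (d - Z * C) ≤ -1.034 * d ^ 2) := by
  have hd0 : 0 ≤ d ^ 2 := sq_nonneg d
  have hg1 : (C - 1) * (1 + l * c₀) ≤ -0.65414 * d ^ 2 := by
    have e1 : 0.32312 ≤ l * c₀ := by nlinarith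
    have e2 : 0 ≤ (1 - C) * (l * c₀ - 0.32312) := mul_nonneg (by nlinarith) (by linarith)
    nlinarith
  have hpc : 0.3948 ≤ p * (2 * c₀ ^ 2 - 1) := by
    have e1 : 0.8408 ≤ 2 * c₀ ^ 2 - 1 := by nlinarith
    nlinarith
  have hg3 : -(p * (2 * c₀ ^ 2 - 1)) * Z ^ 2 ≤ -0.3799 * d ^ 2 := by
    have e2 : 0 ≤ (p * (2 * c₀ ^ 2 - 1) - 0.3948) * Z ^ 2 := mul_nonneg (by linarith) (sq_nonneg Z)
    nlinarith
  have hlS0 : 0 ≤ T + l * S := by
    have : 0 ≤ l * S := mul_nonneg (by linarith) (by linarith)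
    linarith
  have hlS : T + l * S ≤ 0.3888 := by
    have : l * S ≤ 0.3372 * 0.2818 := mul_le_mul hl2.le hs2.le (by linarith) (by norm_num)
    linarith
  have hpS0 : 0 ≤ 2 * p * S * c₀ :=
    mul_nonneg (mul_nonneg (by linarith) (by linarith)) (by linarith)
  have hpS : 2 * p * S * c₀ ≤ 0.2542 := by
    have e1 : p * S ≤ 0.4700 * 0.2818 := mul_le_mul hp2.le hs2.le (by linarith) (by norm_num)
    have e2 : (p * S) * c₀ ≤ (0.4700 * 0.2818) * 0.9595 :=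
      mul_le_mul e1 hc2.le (by linarith) (by norm_num)
    nlinarith
  constructor
  · intro h
    obtain ⟨a1, a2, -⟩ := hdpos h
    have b1 : (T + l * S) * (d - Z) ≤ 0.3888 * (0.08175 * d ^ 2) :=
      (mul_le_mul_of_nonneg_left a1 hlS0).trans (mul_le_mul_of_nonneg_right hlS (by positivity))
    have b2 : 2 * p * S * c₀ * (d - Z * C) ≤ 0.2542 * (0.327 * d ^ 2) :=
      (mul_le_mul_of_nonneg_left a2 hpS0).trans (mul_le_mul_of_nonneg_right hpS (by positivity))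
    linarith
  · intro h
    obtain ⟨a1, a2⟩ := hdneg h
    have b1 : (T + l * S) * (d - Z) ≤ 0 := mul_nonpos_of_nonneg_of_nonpos hlS0 a1
    have b2 : 2 * p * S * c₀ * (d - Z * C) ≤ 0 := mul_nonpos_of_nonneg_of_nonpos hpS0 a2
    linarith

theorem gam1 {c q c₀ S p l C Z d : ℝ} (hc1 : 0.9594 < c₀) (hc2 : c₀ < 0.9595)
    (hs2 : S < 0.2818) (hs1 : 0.2816 < S)
    (hp1 : 0.4696 < p) (hp2 : p < 0.4700) (hl1 : 0.3368 < l) (hl2 : l < 0.3372)
    (hc0 : 0 < c) (hqc : c ≤ q) (hq : q ≤ c₀) (hcc : c - c₀ = c₀ * (C - 1) - S * Z)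
    (hC : 1 - d ^ 2 / 2 ≤ C) (hZ : Z ≤ d) (hd : 0 ≤ d) (hd2 : d ≤ 0.327) :
    (2 * p * (q ^ 2 - c₀ ^ 2) + l * (q - c₀)) ^ 2 / (4 * (1 - p * q ^ 2)) ≤ 0.39 * d ^ 2 := by
  have hcd : c₀ - c ≤ 0.4388 * d := by
    have e1 : c₀ * (1 - C) ≤ 0.9595 * (0.1635 * d) := by
      have : 1 - C ≤ 0.1635 * d := by nlinarith
      rcases le_or_gt 0 (1 - C) with h | h
      · exact mul_le_mul hc2.le this h (by norm_num)
      · have : c₀ * (1 - C) ≤ 0 := mul_nonpos_of_nonneg_of_nonpos (by linarith) h.le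
        have : 0 ≤ 0.9595 * (0.1635 * d) := by positivity
        linarith
    have e2 : S * Z ≤ 0.2818 * d :=
      (mul_le_mul_of_nonneg_left hZ (by linarith)).trans (mul_le_mul_of_nonneg_right hs2.le hd)
    nlinarith
  have hcc0 : 0 ≤ c₀ - c := by linarith
  have hfac : 2 * p * (c₀ + c) + l ≤ 2.1411 := by
    have : p * (c₀ + c) ≤ 0.4700 * 1.919 := mul_le_mul hp2.le (by linarith) (by linarith) (by norm_num)
    linarith
  have hfac0 : 0 ≤ 2 * p * (c₀ + c) + l := by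
    have : 0 ≤ p * (c₀ + c) := mul_nonneg (by linarith) (by linarith)
    linarith
  have hq2 : c ^ 2 ≤ q ^ 2 := pow_le_pow_left₀ hc0.le hqc 2
  have hq3 : q ^ 2 ≤ c₀ ^ 2 := pow_le_pow_left₀ (by linarith) hq 2
  have h1 : 0 ≤ -(2 * p * (q ^ 2 - c₀ ^ 2) + l * (q - c₀)) := by
    have a1 : 0 ≤ p * (c₀ ^ 2 - q ^ 2) := mul_nonneg (by linarith) (by linarith)
    have a2 : 0 ≤ l * (c₀ - q) := mul_nonneg (by linarith) (by linarith)
    linarith
  have h2 : -(2 * p * (q ^ 2 - c₀ ^ 2) + l * (q - c₀)) ≤ 0.94 * d := by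
    have a1 : p * (c₀ ^ 2 - q ^ 2) ≤ p * (c₀ ^ 2 - c ^ 2) :=
      mul_le_mul_of_nonneg_left (by linarith) (by linarith)
    have a2 : l * (c₀ - q) ≤ l * (c₀ - c) := mul_le_mul_of_nonneg_left (by linarith) (by linarith)
    have a3 : (c₀ - c) * (2 * p * (c₀ + c) + l) ≤ 0.4388 * d * 2.1411 :=
      mul_le_mul hcd hfac hfac0 (by positivity)
    have a4 : (c₀ - c) * (2 * p * (c₀ + c) + l) =
      2 * (p * (c₀ ^ 2 - c ^ 2)) + l * (c₀ - c) := by ring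
    linarith
  have h3 : (2 * p * (q ^ 2 - c₀ ^ 2) + l * (q - c₀)) ^ 2 ≤ 0.8836 * d ^ 2 := by
    have := pow_le_pow_left₀ h1 h2 2
    rw [neg_sq] at this
    calc _ ≤ (0.94 * d) ^ 2 := this
      _ = 0.8836 * d ^ 2 := by ring
  have hden : 2.269 ≤ 4 * (1 - p * q ^ 2) := by
    have a1 : q ^ 2 ≤ 0.92065 := by nlinarith
    have : p * q ^ 2 ≤ 0.4700 * 0.92065 := mul_le_mul hp2.le a1 (sq_nonneg q) (by norm_num)
    linarith
  rw [div_le_iff₀ (by linarith)]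
  nlinarith [mul_nonneg (sq_nonneg d) (sub_nonneg.2 hden)]

theorem gam2 {c q c₀ p l y s2 : ℝ} (hc1 : 0.9594 < c₀) (hc2 : c₀ < 0.9595)
    (hp1 : 0.4696 < p) (hp2 : p < 0.4700) (hl1 : 0.3368 < l) (hl2 : l < 0.3372)
    (hc0 : 0 < c) (hqc : c ≤ q) (hq : c₀ < q) (hcc : c ≤ c₀) (hy : 0 ≤ y)
    (hq2 : q ^ 2 = c ^ 2 + y * s2) (hys : y * s2 ≤ 0.3276 * y) (hu : q - c ≤ 0.1998 * y) :
    (2 * p * (q ^ 2 - c₀ ^ 2) + l * (q - c₀)) ^ 2 / 0.8 ≤ 0.1763 * y ^ 2 := by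
  have hcc2 : c ^ 2 ≤ c₀ ^ 2 := pow_le_pow_left₀ hc0.le hcc 2
  have hq3 : c₀ ^ 2 ≤ q ^ 2 := pow_le_pow_left₀ (by linarith) hq.le 2
  have h1 : 0 ≤ 2 * p * (q ^ 2 - c₀ ^ 2) + l * (q - c₀) := by
    have a1 : 0 ≤ p * (q ^ 2 - c₀ ^ 2) := mul_nonneg (by linarith) (by linarith)
    have a2 : 0 ≤ l * (q - c₀) := mul_nonneg (by linarith) (by linarith)
    linarith
  have h2 : 2 * p * (q ^ 2 - c₀ ^ 2) + l * (q - c₀) ≤ 0.3755 * y := by
    have a1 : p * (q ^ 2 - c₀ ^ 2) ≤ 0.4700 * (0.3276 * y) :=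
      mul_le_mul hp2.le (by linarith) (by linarith) (by norm_num)
    have a2 : l * (q - c₀) ≤ 0.3372 * (0.1998 * y) :=
      mul_le_mul hl2.le (by linarith) (by linarith) (by norm_num)
    linarith
  have h3 := pow_le_pow_left₀ h1 h2 2
  rw [div_le_iff₀ (by norm_num)]
  nlinarith [sq_nonneg y]

theorem gam3 {c q c₀ S p l C Z d y s2 : ℝ} (hc1 : 0.9594 < c₀) (hc2 : c₀ < 0.9595)
    (hs2 : S < 0.2818) (hs1 : 0.2816 < S)
    (hp1 : 0.4696 < p) (hp2 : p < 0.4700) (hl1 : 0.3368 < l) (hl2 : l < 0.3372)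
    (hcc1 : c ≤ 1) (hqc : c ≤ q) (hcc0 : c₀ < c) (hcc : c - c₀ = c₀ * (C - 1) - S * Z)
    (hC : C ≤ 1) (hZ : d - Z ≤ 0) (hd : d ≤ 0) (hy : 0 ≤ y) (hs : s2 = 1 - c ^ 2)
    (hq2 : q ^ 2 = c ^ 2 + y * s2) (h2c : 2 * c * (q - c) ≤ y * s2) :
    (2 * p * (q ^ 2 - c₀ ^ 2) + l * (q - c₀)) ^ 2 / 0.8 ≤ 0.9432 * d ^ 2 + 0.0199 * y ^ 2 := by
  have hs79 : s2 ≤ 0.07956 := by rw [hs]; nlinarith
  have hs0 : 0 ≤ s2 := by rw [hs]; nlinarith
  have hys : y * s2 ≤ 0.07956 * y := by nlinarith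
  have hu : q - c ≤ 0.04147 * y := by
    have h3 : 0 ≤ (c - 0.9594) * (q - c) := mul_nonneg (by linarith) (by linarith)
    nlinarith
  have hcd : c - c₀ ≤ 0.2818 * (-d) := by
    have e1 : c₀ * (C - 1) ≤ 0 := mul_nonpos_of_nonneg_of_nonpos (by linarith) (by linarith)
    have e2 : S * (-Z) ≤ S * (-d) := mul_le_mul_of_nonneg_left (by linarith) (by linarith)
    have e3 : S * (-d) ≤ 0.2818 * (-d) := mul_le_mul_of_nonneg_right hs2.le (by linarith)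
    linarith
  have hfac : 2 * p * (c + c₀) + l ≤ 2.1792 := by
    have : p * (c + c₀) ≤ 0.4700 * 1.9595 := mul_le_mul hp2.le (by linarith) (by linarith) (by norm_num)
    linarith
  have hfac0 : 0 ≤ 2 * p * (c + c₀) + l := by
    have : 0 ≤ p * (c + c₀) := mul_nonneg (by linarith) (by linarith)
    linarith
  have h1 : 0 ≤ 2 * p * (q ^ 2 - c₀ ^ 2) + l * (q - c₀) := by
    have hq3 : c₀ ^ 2 ≤ q ^ 2 := pow_le_pow_left₀ (by linarith) (by linarith) 2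
    have a1 : 0 ≤ p * (q ^ 2 - c₀ ^ 2) := mul_nonneg (by linarith) (by linarith)
    have a2 : 0 ≤ l * (q - c₀) := mul_nonneg (by linarith) (by linarith)
    linarith
  have h2 : 2 * p * (q ^ 2 - c₀ ^ 2) + l * (q - c₀) ≤ 0.6142 * (-d) + 0.0888 * y := by
    have a0 : (c - c₀) * (2 * p * (c + c₀) + l) ≤ 0.2818 * (-d) * 2.1792 :=
      mul_le_mul hcd hfac hfac0 (by nlinarith)
    have a1 : p * (y * s2) ≤ 0.4700 * (0.07956 * y) :=
      mul_le_mul hp2.le hys (mul_nonneg hy hs0) (by norm_num)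
    have a2 : l * (q - c) ≤ 0.3372 * (0.04147 * y) :=
      mul_le_mul hl2.le hu (by linarith) (by norm_num)
    have a3 : 2 * p * (q ^ 2 - c₀ ^ 2) + l * (q - c₀) =
        (c - c₀) * (2 * p * (c + c₀) + l) + 2 * (p * (y * s2)) + l * (q - c) := by
      rw [hq2]; ring
    rw [a3]
    linarith
  have h3 := pow_le_pow_left₀ h1 h2 2
  rw [div_le_iff₀ (by norm_num)]
  nlinarith [sq_nonneg y, sq_nonneg d, sq_nonneg (0.6142 * (-d) - 0.0888 * y)]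

end R5x

/-- R5 -/
theorem case1_11 (v y : ℝ) (hv : 0 < v) (hv' : v < Real.pi / 2) (hc : 0.82 ≤ Real.cos v)
    (hy : 0 ≤ y) (hy1 : y < 1) (q : ℝ)
    (hq : q = Real.sqrt (Real.cos v ^ 2 + y * Real.sin v ^ 2)) :
    (1 / 2) * Real.log ((1 - y) * q ^ 2 / c11 ^ 2) + 2 * B11 * (v - Real.pi / 11) +
      p11 * (q ^ 2 - c11 ^ 2) + l11 * (q - c11) +
        (2 * p11 * (q ^ 2 - c11 ^ 2) + l11 * (q - c11)) ^ 2 / DD q ≤ 0 := by
  obtain ⟨-, ⟨hc1, hc2⟩, ⟨hs1, hs2⟩, ⟨ht1, ht2⟩, ⟨hp1, hp2⟩, ⟨hl1, hl2⟩, -⟩ := consts11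
  have hpi1 := Real.pi_gt_d6
  have hpi2 := Real.pi_lt_d6
  have hv61 : v ≤ 0.6125 := by
    by_contra h
    push Not at h
    have h1 : Real.cos v < Real.cos 0.6125 :=
      Real.cos_lt_cos_of_nonneg_of_le_pi_div_two (by norm_num) hv'.le h
    have h2 := Real.cos_bound (x := 0.6125) (by rw [abs_le]; constructor <;> norm_num)
    have h3 := (abs_le.1 h2).2
    have h4 : |(0.6125 : ℝ)| = 0.6125 := abs_of_pos (by norm_num)
    rw [h4] at h3
    norm_num at h3 hc h1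
    linarith
  set c := Real.cos v with hcdef
  set d := v - Real.pi / 11 with hd
  have hd1 : -0.2857 ≤ d := by rw [hd]; linarith
  have hd2 : d ≤ 0.327 := by rw [hd]; linarith
  have hc0 : 0 < c := by linarith
  have hc1' : c ≤ 1 := Real.cos_le_one v
  have hs2' : Real.sin v ^ 2 = 1 - c ^ 2 := by
    have := Real.sin_sq_add_cos_sq v
    rw [hcdef]; linarith
  have hss : Real.sin v ^ 2 ≤ 0.3276 := by
    rw [hs2']
    nlinarith
  have hss0 : 0 ≤ Real.sin v ^ 2 := sq_nonneg _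
  set s2 := Real.sin v ^ 2 with hs2def
  have hq2 : q ^ 2 = c ^ 2 + y * s2 := by
    rw [hq, Real.sq_sqrt (by positivity)]
  have hq0 : 0 ≤ q := by rw [hq]; exact Real.sqrt_nonneg _
  have hys0 : 0 ≤ y * s2 := mul_nonneg hy hss0
  have hqc : c ≤ q := by
    have h1 : c ^ 2 ≤ q ^ 2 := by rw [hq2]; linarith
    exact le_of_sq_le_sq h1 hq0
  have hys : y * s2 ≤ 0.3276 * y := by nlinarith
  have h2c : 2 * c * (q - c) ≤ y * s2 := by nlinarith [sq_nonneg (q - c)]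
  have hu : q - c ≤ 0.1998 * y := by
    have h3 : 0 ≤ (c - 0.82) * (q - c) := mul_nonneg (by linarith) (by linarith)
    nlinarith
  have hw : y * s2 / c ^ 2 ≤ 0.4873 * y := by
    rw [div_le_iff₀ (by positivity)]
    have : s2 ≤ 0.4873 * c ^ 2 := by nlinarith
    nlinarith [mul_le_mul_of_nonneg_left this hy]
  -- logarithms
  have hc9 : 0 < c11 := by linarith
  have hlog := R5x.log_le hc0 hc9 hss0 hy hy1 hq2
  -- trigonometry
  have hadd : c = c11 * Real.cos d - Real.sin (Real.pi / 11) * Real.sin d := by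
    rw [hcdef, c11, ← Real.cos_add]
    congr 1
    rw [hd]; ring
  have htan : Real.tan (Real.pi / 11) * c11 = Real.sin (Real.pi / 11) := by
    rw [Real.tan_eq_sin_div_cos, c11, div_mul_cancel₀]
    exact hc9.ne'
  have hcc : c / c11 - 1 = Real.cos d - 1 - Real.tan (Real.pi / 11) * Real.sin d := by
    rw [div_sub_one hc9.ne', div_eq_iff hc9.ne', hadd, ← htan]
    ring
  have hS2 : Real.sin (Real.pi / 11) ^ 2 = 1 - c11 ^ 2 := by
    have := Real.sin_sq_add_cos_sq (Real.pi / 11)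
    rw [c11]; linarith
  have hcos := R5x.cos_le hd1 hd2
  have hcos2 := Real.one_sub_sq_div_two_le_cos (x := d)
  have hsin2 := R5x.sin_sq_ge hd1 hd2
  have hZC := Real.sin_sq_add_cos_sq d
  have hdpos : 0 ≤ d → d - Real.sin d ≤ 0.08175 * d ^ 2 ∧
      d - Real.sin d * Real.cos d ≤ 0.327 * d ^ 2 ∧ Real.sin d ≤ d := fun h =>
    ⟨R5x.sub_sin_le h hd2, R5x.sub_sin_cos_le h hd2, Real.sin_le h⟩
  have hdneg : d ≤ 0 → d - Real.sin d ≤ 0 ∧ d - Real.sin d * Real.cos d ≤ 0 := fun h =>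
    ⟨R5x.sub_sin_neg h, R5x.sub_sin_cos_neg h⟩
  have hmono1 : c ≤ c11 → 0 ≤ d := by
    intro h
    by_contra hcon
    push Not at hcon
    have : Real.cos (Real.pi / 11) < Real.cos v :=
      Real.cos_lt_cos_of_nonneg_of_le_pi_div_two hv.le (by linarith) (by rw [hd] at hcon; linarith)
    rw [c11] at h
    linarith
  have hmono2 : c11 < c → d ≤ 0 := by
    intro h
    by_contra hcon
    push Not at hcon
    have : Real.cos v < Real.cos (Real.pi / 11) :=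
      Real.cos_lt_cos_of_nonneg_of_le_pi_div_two (by positivity) hv'.le
        (by rw [hd] at hcon; linarith)
    rw [c11] at h
    linarith
  have hB : 2 * B11 = Real.tan (Real.pi / 11) + 2 * p11 * Real.sin (Real.pi / 11) * c11 +
      l11 * Real.sin (Real.pi / 11) := by
    rw [B11]; ring
  have hDD : DD q = if q ≤ c11 then 4 * (1 - p11 * q ^ 2) else 0.8 := rfl
  rw [hB, hDD]
  rw [hcc] at hlog
  clear hDD hB htan hcc
  generalize Real.sin (Real.pi / 11) = S at *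
  generalize Real.tan (Real.pi / 11) = T at *
  generalize Real.log ((1 - y) * q ^ 2 / c11 ^ 2) = LL at *
  generalize Real.cos d = C at *
  generalize Real.sin d = Z at *
  clear_value c s2 d
  generalize c11 = c₀ at *
  generalize p11 = p at *
  generalize l11 = l at *
  obtain ⟨hG1, hG2⟩ := R5x.dterms hc1 hc2 hs1 hs2 ht1 ht2 hp1 hp2 hl1 hl2 hcos hsin2 hdpos hdneg
  obtain ⟨G, hG⟩ : ∃ G : ℝ, G = (C - 1) * (1 + l * c₀) + (T + l * S) * (d - Z) -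
      (p * (2 * c₀ ^ 2 - 1)) * Z ^ 2 + 2 * p * S * c₀ * (d - Z * C) := ⟨_, rfl⟩
  rw [← hG] at hG1 hG2
  have hcd : c - c₀ = c₀ * (C - 1) - S * Z := by rw [hadd]; ring
  have hE : (1 / 2) * LL + (T + 2 * p * S * c₀ + l * S) * d + p * (q ^ 2 - c₀ ^ 2) +
      l * (q - c₀) ≤ -0.0349 * y - y ^ 2 / 4 + G := by
    have a1 : p * (y * s2) ≤ 0.154 * y := by
      have : p * (y * s2) ≤ 0.4700 * (0.3276 * y) := mul_le_mul hp2.le hys hys0 (by norm_num)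
      linarith
    have a2 : l * (q - c) ≤ 0.0674 * y := by
      have : l * (q - c) ≤ 0.3372 * (0.1998 * y) :=
        mul_le_mul hl2.le hu (by linarith) (by norm_num)
      linarith
    have a3 : c ^ 2 - c₀ ^ 2 = -(2 * c₀ ^ 2 - 1) * Z ^ 2 - 2 * S * c₀ * (Z * C) := by
      rw [hadd]
      have hC2 : C ^ 2 = 1 - Z ^ 2 := by linarith
      have : (c₀ * C - S * Z) ^ 2 = c₀ ^ 2 * C ^ 2 - 2 * c₀ * C * S * Z + S ^ 2 * Z ^ 2 := by ring
      rw [this, hC2, hS2]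
      ring
    have a4 : p * (q ^ 2 - c₀ ^ 2) = p * (y * s2) + p * (c ^ 2 - c₀ ^ 2) := by rw [hq2]; ring
    have a5 : l * (q - c₀) = l * (q - c) + l * (c - c₀) := by ring
    rw [a4, a5, a3, hcd, hG]
    nlinarith
  have hy2 : 0 ≤ y ^ 2 := sq_nonneg y
  have hd0 : 0 ≤ d ^ 2 := sq_nonneg d
  have hC1 : C ≤ 1 := by linarith
  split_ifs with hqq
  · have hdp := hmono1 (hqc.trans hqq)
    have g := R5x.gam1 hc1 hc2 hs2 hs1 hp1 hp2 hl1 hl2 hc0 hqc hqq hcd hcos2 (hdpos hdp).2.2 hdp hd2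
    have := hG1 hdp
    linarith
  · push Not at hqq
    rcases le_or_gt c c₀ with hcc0 | hcc0
    · have hdp := hmono1 hcc0
      have g := R5x.gam2 hc1 hc2 hp1 hp2 hl1 hl2 hc0 hqc hqq hcc0 hy hq2 hys hu
      have := hG1 hdp
      linarith
    · have hdn := hmono2 hcc0
      have g := R5x.gam3 hc1 hc2 hs2 hs1 hp1 hp2 hl1 hl2 hc1' hqc hcc0 hcd hC1 (hdneg hdn).1 hdn hy
        hs2' hq2 h2c
      have := hG2 hdn
      linarith

end Pool.Agent.H280R2.RP
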