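import Pool.Agent.H280R2.RP.Defs11
import Pool.Agent.H280R2.RP.R3
set_option autoImplicit false

namespace Pool.Agent.H280R2.RP

namespace R6x

theorem poly (q : ℝ) (h0 : 0 ≤ q) (h1 : q ≤ 9595 / 10000) :
    (94 / 100 * (92065 / 100000 - q ^ 2) + 3372 / 10000 * (9595 / 10000 - q)) ^ 2 ≤
      (336147 / 1000000 - (q ^ 2 - q ^ 4) * 100 / 48 + 4696 / 10000 * (92044 / 100000 - q ^ 2) +
        3368 / 10000 * (9594 / 10000 - q)) * (4 * (1 - 47 / 100 * q ^ 2)) := by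
  have hS : 0 ≤ (228936049513 / 46875000000) * q ^ 0 + (273966247 / 23437500) * q ^ 1 + (64671 / 12500) * q ^ 2 + (-4559 / 750) * q ^ 3 + (-47 / 12) * q ^ 4 := by
    have a1 : q ^ 2 ≤ q := by nlinarith
    have a0 : 0 ≤ q ^ 2 := sq_nonneg q
    have a2 : q ^ 3 ≤ q ^ 2 := by nlinarith
    have a3 : q ^ 4 ≤ q ^ 2 := by nlinarith
    linarith
  have key : (336147 / 1000000 - (q ^ 2 - q ^ 4) * 100 / 48 +
      4696 / 10000 * (92044 / 100000 - q ^ 2) +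
        3368 / 10000 * (9594 / 10000 - q)) * (4 * (1 - 47 / 100 * q ^ 2)) -
      (94 / 100 * (92065 / 100000 - q ^ 2) + 3372 / 10000 * (9595 / 10000 - q)) ^ 2 =
      (q - (97 / 125)) ^ 2 * ((228936049513 / 46875000000) * q ^ 0 + (273966247 / 23437500) * q ^ 1 + (64671 / 12500) * q ^ 2 + (-4559 / 750) * q ^ 3 + (-47 / 12) * q ^ 4) +
        ((7806713779203 / 976562500000000) + (-6475865399 / 1464843750000) * (q - (97 / 125))) := by ring
  have h2 := mul_nonneg (sq_nonneg (q - (97 / 125))) hS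
  have h3 : 0 ≤ (7806713779203 / 976562500000000) + (-6475865399 / 1464843750000) * (q - (97 / 125)) := by linarith
  linarith

theorem exp3 (u : ℝ) (hu : 0 ≤ u) : 1 + u + u ^ 2 / 2 + u ^ 3 / 6 ≤ Real.exp u := by
  have := Real.sum_le_exp_of_nonneg hu 4
  simp [Finset.sum_range_succ, Nat.factorial] at this
  linarith

/-- the bound for `-log sin v` -/
theorem logsin (v : ℝ) (hv : 0 < v) (hv' : v < Real.pi / 2) (hc : Real.cos v ≤ 0.82) :
    -Real.log (Real.sin v) ≤ 0.6422 * (Real.pi / 2 - v) + 0.007 := by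
  have hs : 0 < Real.sin v := Real.sin_pos_of_pos_of_lt_pi hv (by linarith [Real.pi_pos])
  have hc0 : 0 < Real.cos v := Real.cos_pos_of_mem_Ioo ⟨by linarith [Real.pi_pos], hv'⟩
  by_cases hw : 0.9 ≤ Real.pi / 2 - v
  · have h1 : (0.572 : ℝ) ≤ Real.sin v := by
      have h2 := Real.sin_sq_add_cos_sq v
      by_contra h3
      push Not at h3
      nlinarith
    have h4 : (1.749 : ℝ) ≤ Real.exp 0.5849 := by
      have := exp3 0.5849 (by norm_num)
      norm_num at this ⊢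
      linarith
    have h2 : Real.exp (-0.5849) ≤ Real.sin v := by
      rw [Real.exp_neg]
      have h3 : (Real.exp 0.5849)⁻¹ ≤ (1.749 : ℝ)⁻¹ :=
        inv_anti₀ (by norm_num) h4
      refine h3.trans (le_trans ?_ h1)
      norm_num
    have h3 : -0.5849 ≤ Real.log (Real.sin v) := (Real.le_log_iff_exp_le hs).2 h2
    linarith
  · push Not at hw
    set w := Real.pi / 2 - v with hwd
    have hw0 : 0 < w := by linarith
    have h1 : Real.sin v = Real.cos w := by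
      rw [hwd, Real.cos_pi_div_two_sub]
    have h2 : 1 - w ^ 2 / 2 ≤ Real.sin v := by
      rw [h1]
      exact Real.one_sub_sq_div_two_le_cos
    set u := 0.6422 * w + 0.007 with hu
    have hu0 : 0 ≤ u := by linarith
    have h3 := exp3 u hu0
    have h4 : 1 ≤ (1 - w ^ 2 / 2) * (1 + u + u ^ 2 / 2 + u ^ 3 / 6) := by
      rw [hu]
      have hA : 0 ≤ w * (0.9 - w) := mul_nonneg hw0.le (by linarith)
      nlinarith [mul_nonneg hA hw0.le, mul_nonneg (mul_nonneg hA hw0.le) hw0.le,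
        mul_nonneg (mul_nonneg (mul_nonneg hA hw0.le) hw0.le) hw0.le]
    have h5 : 0 < 1 - w ^ 2 / 2 := by nlinarith
    have h6 : 1 ≤ Real.sin v * Real.exp u := by
      have h7 : (1 - w ^ 2 / 2) * (1 + u + u ^ 2 / 2 + u ^ 3 / 6) ≤ Real.sin v * Real.exp u :=
        mul_le_mul h2 h3 (by positivity) hs.le
      linarith
    have h7 : Real.exp (-u) ≤ Real.sin v := by
      rw [Real.exp_neg, inv_le_iff_one_le_mul₀ (Real.exp_pos u)]
      exact h6
    have h8 : -u ≤ Real.log (Real.sin v) := (Real.le_log_iff_exp_le hs).2 h7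
    linarith

/-- the part `q ≤ c` -/
theorem Kle (q c p l : ℝ) (h0 : 0 ≤ q) (hqc : q ≤ c) (hc1 : 0.9594 < c) (hc2 : c < 0.9595)
    (hp1 : 0.4696 < p) (hp2 : p < 0.4700) (hl1 : 0.3368 < l) (hl2 : l < 0.3372) :
    p * (q ^ 2 - c ^ 2) + l * (q - c) +
      (2 * p * (q ^ 2 - c ^ 2) + l * (q - c)) ^ 2 / (4 * (1 - p * q ^ 2)) ≤
      0.336147 - (q ^ 2 - q ^ 4) * 100 / 48 := by
  have hP := poly q h0 (by linarith)
  have hcc1 : 0.92044 ≤ c ^ 2 := by nlinarith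
  have hcc2 : c ^ 2 ≤ 0.92065 := by nlinarith
  have hu : 0 ≤ c ^ 2 - q ^ 2 := by nlinarith
  have hw : 0 ≤ c - q := by linarith
  have hq2 : q ^ 2 ≤ 0.92065 := by linarith
  have hD : 0 < 4 * (1 - 47 / 100 * q ^ 2) := by nlinarith
  have hD' : 4 * (1 - 47 / 100 * q ^ 2) ≤ 4 * (1 - p * q ^ 2) := by
    nlinarith [mul_nonneg (show (0:ℝ) ≤ 0.47 - p by linarith) (sq_nonneg q)]
  have h1 : p * (c ^ 2 - q ^ 2) ≥ 0.4696 * (0.92044 - q ^ 2) := by
    have := mul_le_mul_of_nonneg_right hp1.le hu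
    nlinarith
  have h2 : l * (c - q) ≥ 0.3368 * (0.9594 - q) := by
    have := mul_le_mul_of_nonneg_right hl1.le hw
    nlinarith
  have h3 : 0 ≤ 2 * p * (c ^ 2 - q ^ 2) + l * (c - q) := by
    have h3a : 0 ≤ 2 * p * (c ^ 2 - q ^ 2) := mul_nonneg (by linarith) hu
    have h3b : 0 ≤ l * (c - q) := mul_nonneg (by linarith) hw
    linarith
  have h4 : 2 * p * (c ^ 2 - q ^ 2) + l * (c - q) ≤
      94 / 100 * (92065 / 100000 - q ^ 2) + 3372 / 10000 * (9595 / 10000 - q) := by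
    have h4a : 2 * p * (c ^ 2 - q ^ 2) ≤ 94 / 100 * (c ^ 2 - q ^ 2) :=
      mul_le_mul_of_nonneg_right (by linarith) hu
    have h4b : l * (c - q) ≤ 3372 / 10000 * (c - q) :=
      mul_le_mul_of_nonneg_right (by linarith) hw
    linarith
  have h5 : (2 * p * (q ^ 2 - c ^ 2) + l * (q - c)) ^ 2 ≤
      (94 / 100 * (92065 / 100000 - q ^ 2) + 3372 / 10000 * (9595 / 10000 - q)) ^ 2 := by
    have e : (2 * p * (q ^ 2 - c ^ 2) + l * (q - c)) ^ 2 =
        (2 * p * (c ^ 2 - q ^ 2) + l * (c - q)) ^ 2 := by ring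
    rw [e]
    exact pow_le_pow_left₀ h3 h4 2
  have h6 : (2 * p * (q ^ 2 - c ^ 2) + l * (q - c)) ^ 2 / (4 * (1 - p * q ^ 2)) ≤
      336147 / 1000000 - (q ^ 2 - q ^ 4) * 100 / 48 + 4696 / 10000 * (92044 / 100000 - q ^ 2) +
        3368 / 10000 * (9594 / 10000 - q) := by
    have h7 : (2 * p * (q ^ 2 - c ^ 2) + l * (q - c)) ^ 2 / (4 * (1 - p * q ^ 2)) ≤
        (94 / 100 * (92065 / 100000 - q ^ 2) + 3372 / 10000 * (9595 / 10000 - q)) ^ 2 /
          (4 * (1 - 47 / 100 * q ^ 2)) :=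
      div_le_div₀ (sq_nonneg _) h5 hD hD'
    refine h7.trans ?_
    rw [div_le_iff₀ hD]
    exact hP
  have e1 : p * (q ^ 2 - c ^ 2) = -(p * (c ^ 2 - q ^ 2)) := by ring
  have e2 : l * (q - c) = -(l * (c - q)) := by ring
  norm_num at h1 h2 ⊢
  linarith

/-- the part `q > c` -/
theorem Kgt (q c p l : ℝ) (h1 : q ≤ 1) (hqc : c < q) (hc1 : 0.9594 < c)
    (hp1 : 0.4696 < p) (hp2 : p < 0.4700) (hl1 : 0.3368 < l) (hl2 : l < 0.3372) :
    p * (q ^ 2 - c ^ 2) + l * (q - c) +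
      (2 * p * (q ^ 2 - c ^ 2) + l * (q - c)) ^ 2 / 0.8 ≤
      0.336147 - (q ^ 2 - q ^ 4) * 100 / 48 := by
  have hcc1 : 0.92044 ≤ c ^ 2 := by nlinarith
  have hq2 : q ^ 2 ≤ 1 := by nlinarith
  have hu : 0 ≤ q ^ 2 - c ^ 2 := by nlinarith
  have hu' : q ^ 2 - c ^ 2 ≤ 0.08 := by linarith
  have hw : 0 ≤ q - c := by linarith
  have hw' : q - c ≤ 0.041 := by linarith
  have a1 : p * (q ^ 2 - c ^ 2) ≤ 0.4700 * 0.08 :=
    mul_le_mul hp2.le hu' hu (by norm_num)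
  have a2 : l * (q - c) ≤ 0.3372 * 0.041 :=
    mul_le_mul hl2.le hw' hw (by norm_num)
  have a3 : 0 ≤ p * (q ^ 2 - c ^ 2) := mul_nonneg (by linarith) hu
  have a4 : 0 ≤ l * (q - c) := mul_nonneg (by linarith) hw
  have a5 : 2 * p * (q ^ 2 - c ^ 2) + l * (q - c) ≤ 0.09 := by
    have e : 2 * p * (q ^ 2 - c ^ 2) = 2 * (p * (q ^ 2 - c ^ 2)) := by ring
    rw [e]
    norm_num at a1 a2 ⊢
    linarith
  have a6 : 0 ≤ 2 * p * (q ^ 2 - c ^ 2) + l * (q - c) := by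
    have e : 2 * p * (q ^ 2 - c ^ 2) = 2 * (p * (q ^ 2 - c ^ 2)) := by ring
    rw [e]
    linarith
  have a7 : (2 * p * (q ^ 2 - c ^ 2) + l * (q - c)) ^ 2 ≤ 0.09 ^ 2 := pow_le_pow_left₀ a6 a5 2
  have a8 : (2 * p * (q ^ 2 - c ^ 2) + l * (q - c)) ^ 2 / 0.8 ≤ 0.09 ^ 2 / 0.8 :=
    div_le_div_of_nonneg_right a7 (by norm_num)
  have a9 : q ^ 2 - q ^ 4 ≤ 0.08 := by
    have h3 : 0.92044 ≤ q ^ 2 := by linarith
    nlinarith
  norm_num at a1 a2 a8 a9 ⊢
  linarith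

end R6x

/-- R6 -/
theorem case2_11 (v y : ℝ) (hv : 0 < v) (hv' : v < Real.pi / 2) (hc : Real.cos v ≤ 0.82)
    (hy : 0 ≤ y) (hy1 : y < 1) (q : ℝ)
    (hq : q = Real.sqrt (Real.cos v ^ 2 + y * Real.sin v ^ 2)) :
    (1 / 2) * Real.log ((1 - y) * q ^ 2 / c11 ^ 2) + 2 * B11 * (v - Real.pi / 11) +
      p11 * (q ^ 2 - c11 ^ 2) + l11 * (q - c11) +
        (2 * p11 * (q ^ 2 - c11 ^ 2) + l11 * (q - c11)) ^ 2 / DD q ≤ 0 := by
  obtain ⟨-, ⟨hc1, hc2⟩, -, -, ⟨hp1, hp2⟩, ⟨hl1, hl2⟩, ⟨hB1, hB2⟩⟩ := consts11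
  have hs : 0 < Real.sin v := Real.sin_pos_of_pos_of_lt_pi hv (by linarith [Real.pi_pos])
  have hc0 : 0 < Real.cos v := Real.cos_pos_of_mem_Ioo ⟨by linarith [Real.pi_pos], hv'⟩
  have hsc := Real.sin_sq_add_cos_sq v
  have ht0 : 0 < Real.cos v ^ 2 + y * Real.sin v ^ 2 := by positivity
  have hq0 : 0 < q := by
    rw [hq]
    exact Real.sqrt_pos.2 ht0
  have hq2 : q ^ 2 = Real.cos v ^ 2 + y * Real.sin v ^ 2 := by
    rw [hq, Real.sq_sqrt ht0.le]
  have h1t : 1 - q ^ 2 = (1 - y) * Real.sin v ^ 2 := by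
    rw [hq2]
    linear_combination (-1 : ℝ) * hsc
  have h1t0 : 0 < 1 - q ^ 2 := by
    rw [h1t]
    have : 0 < 1 - y := by linarith
    positivity
  have hq1 : q ≤ 1 := by nlinarith
  -- the logarithm
  have hc9 : 0 < c11 := by linarith
  have hlog : Real.log ((1 - y) * q ^ 2 / c11 ^ 2) =
      Real.log (4 * (q ^ 2 * (1 - q ^ 2))) - 2 * Real.log 2 - 2 * Real.log (Real.sin v) -
        2 * Real.log c11 := by
    have e1 : (1 - y) * q ^ 2 / c11 ^ 2 =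
        (4 * (q ^ 2 * (1 - q ^ 2))) / ((2 * (Real.sin v * c11)) ^ 2) := by
      rw [h1t]
      field_simp
      ring
    have e2 : Real.log ((2 * (Real.sin v * c11)) ^ 2) =
        2 * (Real.log 2 + (Real.log (Real.sin v) + Real.log c11)) := by
      rw [Real.log_pow, Real.log_mul two_ne_zero (by positivity), Real.log_mul hs.ne' hc9.ne']
      push_cast
      ring
    rw [e1, Real.log_div (by positivity) (by positivity), e2]
    ring
  have h4 : Real.log (4 * (q ^ 2 * (1 - q ^ 2))) ≤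
      4 * (q ^ 2 * (1 - q ^ 2)) / 0.96 - 1 - 0.04 := by
    have hx : 0 < 4 * (q ^ 2 * (1 - q ^ 2)) := by positivity
    have e : 4 * (q ^ 2 * (1 - q ^ 2)) = (4 * (q ^ 2 * (1 - q ^ 2)) / 0.96) * 0.96 := by
      field_simp
    have e2 : Real.log (4 * (q ^ 2 * (1 - q ^ 2))) =
        Real.log (4 * (q ^ 2 * (1 - q ^ 2)) / 0.96) + Real.log 0.96 := by
      rw [← Real.log_mul (by positivity) (by norm_num), ← e]
    have e3 := Real.log_le_sub_one_of_pos (show 0 < 4 * (q ^ 2 * (1 - q ^ 2)) / 0.96 by positivity)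
    have e4 := Real.log_le_sub_one_of_pos (show (0 : ℝ) < 0.96 by norm_num)
    rw [e2]
    linarith
  have h4' : 4 * (q ^ 2 * (1 - q ^ 2)) / 0.96 = 2 * ((q ^ 2 - q ^ 4) * 100 / 48) := by
    ring
  have h5 := R6x.logsin v hv hv' hc
  have h6 : -Real.log c11 ≤ 0.0424 := by
    have h7 := Real.one_sub_inv_le_log_of_pos hc9
    have h8 : c11⁻¹ ≤ (0.9594 : ℝ)⁻¹ := inv_anti₀ (by norm_num) hc1.le
    have h9 : (0.9594 : ℝ)⁻¹ ≤ 1.0424 := by norm_num
    linarith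
  have h7 := Real.log_two_gt_d9
  have hpi1 := Real.pi_gt_d4
  have hpi2 := Real.pi_lt_d4
  -- the angle
  have h8 : 2 * B11 * (v - Real.pi / 11) ≤ 0.8264 - 0.6422 * (Real.pi / 2 - v) := by
    have e : v - Real.pi / 11 = 9 * Real.pi / 22 - (Real.pi / 2 - v) := by ring
    rw [e]
    have h9 : 0 < Real.pi / 2 - v := by linarith
    have h10 : 2 * B11 * (9 * Real.pi / 22) ≤ 0.8264 := by
      obtain ⟨P, hP⟩ : ∃ P, P = 9 * Real.pi / 22 := ⟨_, rfl⟩
      have hP1 : 0 ≤ P := by rw [hP]; positivity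
      have hP2 : P ≤ 1.28521 := by rw [hP]; linarith
      rw [← hP]
      have h11 : 2 * B11 ≤ 0.643 := by linarith
      have h11' : 2 * B11 * P ≤ 0.643 * P := mul_le_mul_of_nonneg_right h11 hP1
      linarith
    have h12 : 0.6422 * (Real.pi / 2 - v) ≤ 2 * B11 * (Real.pi / 2 - v) :=
      mul_le_mul_of_nonneg_right (by linarith) h9.le
    rw [mul_sub]
    linarith
  -- the polynomial
  have h9 : p11 * (q ^ 2 - c11 ^ 2) + l11 * (q - c11) +
      (2 * p11 * (q ^ 2 - c11 ^ 2) + l11 * (q - c11)) ^ 2 / DD q ≤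
      0.336147 - (q ^ 2 - q ^ 4) * 100 / 48 := by
    unfold DD
    split_ifs with hqc
    · exact R6x.Kle q c11 p11 l11 hq0.le hqc hc1 hc2 hp1 hp2 hl1 hl2
    · exact R6x.Kgt q c11 p11 l11 hq1 (not_le.1 hqc) hc1 hp1 hp2 hl1 hl2
  rw [hlog]
  linarith

end Pool.Agent.H280R2.RP
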