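import Pool.Agent.H280R2.RP.Defs11
import Pool.Agent.H280R2.RP.R3
import Pool.Agent.H280R2.RP.R4
import Pool.Agent.H280R2.RP.R5
import Pool.Agent.H280R2.RP.R6
set_option autoImplicit false

namespace Pool.Agent.H280R2.RP

open Finset

namespace R7x

lemma h11_pos : 0 < h11 := by
  have := consts11.1.1
  linarith

lemma c11_pos : 0 < c11 := by
  have := consts11.2.1.1
  linarith

lemma e2_pos : 0 < e2 := by
  unfold e2
  have := h11_pos
  have := c11_pos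
  positivity

lemma T3_pos : 0 < T3 := by
  unfold T3
  have := h11_pos
  have := e2_pos
  positivity

lemma T4_pos : 0 < T4 := by
  unfold T4
  have := e2_pos
  positivity

lemma h11_sq : 0.324 < h11 ^ 2 := by
  have h1 := consts11.2.1.2
  have h2 : c11 = 1 - h11 ^ 2 / 8 := by
    unfold c11 h11
    rw [show Real.pi / 11 = 2 * (Real.pi / 22) by ring, Real.cos_two_mul]
    have := Real.sin_sq_add_cos_sq (Real.pi / 22)
    nlinarith
  linarith

lemma E0 : p11 * c11 ^ 2 + l11 * c11 + h11 / T3 = 1 := by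
  have h3 := T3_pos
  have h4 := T4_pos
  have e3 : p11 * c11 ^ 2 = al11 * e2 ^ 2 := by
    unfold p11 e2
    ring
  have e4 : l11 * c11 = be11 * e2 := by
    unfold l11 e2
    ring
  have e5 : (e2 ^ 2 + 2 * h11) / T3 = 1 := by
    have : e2 ^ 2 + 2 * h11 = T3 := rfl
    rw [this]
    exact div_self h3.ne'
  have e6 : (e2 ^ 2 + 2 * e2) / T4 = 1 := by
    have : e2 ^ 2 + 2 * e2 = T4 := rfl
    rw [this]
    exact div_self h4.ne'
  rw [e3, e4]
  unfold al11 be11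
  have e7 : (1 / T3 + 1 / T4) / 2 * e2 ^ 2 + 1 / T4 * e2 + h11 / T3 =
      ((e2 ^ 2 + 2 * h11) / T3 + (e2 ^ 2 + 2 * e2) / T4) / 2 := by ring
  rw [e7, e5, e6]
  norm_num

lemma Ah : A11 * h11 = 2 + 2 * p11 * c11 ^ 2 + l11 * c11 + h11 / T3 := by
  have h1 : 2 / h11 * h11 = 2 := div_mul_cancel₀ 2 h11_pos.ne'
  have h2 : A11 * h11 = 2 / h11 * h11 + 2 * (4 * al11 * h11 ^ 2) * c11 ^ 2 +
      2 * be11 * h11 * c11 + h11 / T3 := by
    unfold A11
    ring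
  rw [h2, h1]
  rfl

/-- both cases together -/
lemma cases (v y : ℝ) (hv : 0 < v) (hv' : v < Real.pi / 2)
    (hy : 0 ≤ y) (hy1 : y < 1) (q : ℝ)
    (hq : q = Real.sqrt (Real.cos v ^ 2 + y * Real.sin v ^ 2)) :
    (1 / 2) * Real.log ((1 - y) * q ^ 2 / c11 ^ 2) + 2 * B11 * (v - Real.pi / 11) +
      p11 * (q ^ 2 - c11 ^ 2) + l11 * (q - c11) +
        (2 * p11 * (q ^ 2 - c11 ^ 2) + l11 * (q - c11)) ^ 2 / DD q ≤ 0 := by
  rcases le_total 0.82 (Real.cos v) with h | h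
  · exact case1_11 v y hv hv' h hy hy1 q hq
  · exact case2_11 v y hv hv' h hy hy1 q hq

/-- the main inequality in the new variables -/
lemma main (v y r q : ℝ) (hv : 0 < v) (hv' : v < Real.pi / 2) (hy : 0 ≤ y) (hy1 : y < 1)
    (hr : 0 < r) (hr1 : r ≤ 3.5137) (hq0 : 0 < q) (hq1 : q ≤ 1) (hrq : r * q ≤ 1.7569)
    (hq : q = Real.sqrt (Real.cos v ^ 2 + y * Real.sin v ^ 2)) :
    Real.log ((1 - y) * q ^ 2 / c11 ^ 2) + 4 * Real.log r + 2 * p11 * r ^ 2 * q ^ 2 +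
      2 * l11 * r * q + 2 * (h11 / T3) * r ≤
      2 + 2 * (2 + 2 * p11 * c11 ^ 2 + l11 * c11 + h11 / T3) * (r - 1) -
        4 * B11 * (v - Real.pi / 11) := by
  have H1 := cases v y hv hv' hy hy1 q hq
  have H2 := relim11 r q hr hr1 hq0 hq1 hrq
  have H3 : h11 / T3 = 1 - p11 * c11 ^ 2 - l11 * c11 := by
    have := E0
    linarith
  rw [H3]
  generalize (2 * p11 * (q ^ 2 - c11 ^ 2) + l11 * (q - c11)) ^ 2 / DD q = G at H1 H2
  generalize Real.log ((1 - y) * q ^ 2 / c11 ^ 2) = L at H1 ⊢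
  generalize Real.log r = M at H2 ⊢
  linarith

end R7x

open R7x in
/-- R7 -/
theorem core11 (a b τ : ℝ) (ha : 0 < a) (ha2 : a ≤ 2) (hb : 0 < b) (hb2 : b ≤ 2)
    (h0 : 0 < τ) (h1 : τ < Real.pi) (x : ℝ) (hx : 0 ≤ x) (hx2 : x ≤ 2)
    (hxx : x ^ 2 = a ^ 2 + b ^ 2 + 2 * a * b * Real.cos τ) :
    a * b * x ^ 2 * Real.exp (2 * al11 * x ^ 2 + 2 * be11 * x + (a + b) / T3) ≤
      h11 ^ 2 * e2 ^ 2 *
        Real.exp (2 + 2 * A11 * ((a + b) / 2 - h11) - 2 * B11 * (τ - 2 * Real.pi / 11)) := by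
  have hh := h11_pos
  have hc := c11_pos
  have hS := T3_pos
  obtain ⟨v, rfl⟩ : ∃ v, τ = 2 * v := ⟨τ / 2, by ring⟩
  obtain ⟨r, hr⟩ : ∃ r, (a + b) / 2 = h11 * r := ⟨(a + b) / 2 / h11, by field_simp⟩
  obtain ⟨y, hy⟩ : ∃ y, y = ((a - b) / (a + b)) ^ 2 := ⟨_, rfl⟩
  obtain ⟨q, hq⟩ : ∃ q, q = Real.sqrt (Real.cos v ^ 2 + y * Real.sin v ^ 2) := ⟨_, rfl⟩
  have hv : 0 < v := by linarith
  have hv' : v < Real.pi / 2 := by linarith
  have hcv : 0 < Real.cos v := Real.cos_pos_of_mem_Ioo ⟨by linarith, hv'⟩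
  have hab : 0 < a + b := by linarith
  have hy0 : 0 ≤ y := by rw [hy]; positivity
  have hyab : y * (a + b) ^ 2 = (a - b) ^ 2 := by
    rw [hy]
    field_simp
  have hy1 : y < 1 := by
    by_contra hcon
    have h2 : (a + b) ^ 2 ≤ y * (a + b) ^ 2 := by nlinarith [sq_nonneg (a + b)]
    rw [hyab] at h2
    nlinarith [mul_pos ha hb]
  have hr0 : 0 < r := by
    by_contra hcon
    have : h11 * r ≤ 0 := by nlinarith
    linarith
  have hr1 : r ≤ 3.5137 := by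
    have h2 : h11 * r ≤ 2 := by linarith
    have h3 := h11_sq
    by_contra hcon
    have h4 : 3.5137 < r := not_le.1 hcon
    have h5 : (h11 * r) ^ 2 ≤ 4 := by
      have : 0 < h11 * r := mul_pos hh hr0
      nlinarith
    have h6 : (3.5137 : ℝ) ^ 2 < r ^ 2 := by nlinarith
    have h7 : h11 ^ 2 * r ^ 2 ≤ 4 := by rw [← mul_pow]; exact h5
    nlinarith
  have hs2 : a + b = 2 * (h11 * r) := by linarith
  have hab' : a * b = (h11 * r) ^ 2 * (1 - y) := by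
    rw [hs2] at hyab
    nlinarith
  have hrad : 0 < Real.cos v ^ 2 + y * Real.sin v ^ 2 := by positivity
  have hq2 : q ^ 2 = Real.cos v ^ 2 + y * Real.sin v ^ 2 := by
    rw [hq, Real.sq_sqrt hrad.le]
  have hq0 : 0 < q := by rw [hq]; exact Real.sqrt_pos.2 hrad
  have hq1 : q ≤ 1 := by
    have h2 := Real.sin_sq_add_cos_sq v
    have h3 : q ^ 2 ≤ 1 := by
      rw [hq2]
      nlinarith [sq_nonneg (Real.sin v)]
    nlinarith
  have hx2' : x ^ 2 = (2 * (h11 * r) * q) ^ 2 := by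
    rw [hxx, Real.cos_two_mul']
    have e1 := Real.sin_sq_add_cos_sq v
    have e2 : (2 * (h11 * r) * q) ^ 2 = (a + b) ^ 2 * q ^ 2 := by rw [hs2]; ring
    rw [e2, hq2]
    have e3 : (a + b) ^ 2 * (Real.cos v ^ 2 + y * Real.sin v ^ 2) =
        (a + b) ^ 2 * Real.cos v ^ 2 + (y * (a + b) ^ 2) * Real.sin v ^ 2 := by ring
    rw [e3, hyab]
    have e4 : a ^ 2 + b ^ 2 = (a ^ 2 + b ^ 2) * (Real.sin v ^ 2 + Real.cos v ^ 2) := by
      rw [e1, mul_one]
    rw [e4]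
    ring
  have hxq : x = 2 * (h11 * r) * q := by
    have h2 : 0 ≤ 2 * (h11 * r) * q := by positivity
    exact (sq_eq_sq₀ hx h2).1 hx2'
  have hrq : r * q ≤ 1.7569 := by
    have h2 : h11 * (r * q) ≤ 1 := by
      rw [hxq] at hx2
      linarith
    have h3 := consts11.1.1
    by_contra hcon
    have h4 : 1.7569 < r * q := not_le.1 hcon
    nlinarith
  have hmain := main v y r q hv hv' hy0 hy1 hr0 hr1 hq0 hq1 hrq hq
  have hL : 0 < (1 - y) * q ^ 2 / c11 ^ 2 := by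
    have : 0 < 1 - y := by linarith
    positivity
  have hlhs : a * b * x ^ 2 * Real.exp (2 * al11 * x ^ 2 + 2 * be11 * x + (a + b) / T3) =
      h11 ^ 2 * e2 ^ 2 * Real.exp (Real.log ((1 - y) * q ^ 2 / c11 ^ 2) +
        4 * Real.log r + 2 * p11 * r ^ 2 * q ^ 2 + 2 * l11 * r * q + 2 * (h11 / T3) * r) := by
    have e1 : 2 * al11 * x ^ 2 + 2 * be11 * x + (a + b) / T3 =
        2 * p11 * r ^ 2 * q ^ 2 + 2 * l11 * r * q + 2 * (h11 / T3) * r := by
      rw [hxq, hs2]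
      unfold p11 l11
      ring
    have e3 : Real.exp (4 * Real.log r) = r ^ 4 := by
      have : (4 : ℝ) * Real.log r = ((4 : ℕ) : ℝ) * Real.log r := by norm_num
      rw [this, Real.exp_nat_mul, Real.exp_log hr0]
    rw [e1, hab', hx2']
    rw [show Real.log ((1 - y) * q ^ 2 / c11 ^ 2) + 4 * Real.log r + 2 * p11 * r ^ 2 * q ^ 2 +
      2 * l11 * r * q + 2 * (h11 / T3) * r = Real.log ((1 - y) * q ^ 2 / c11 ^ 2) +
        (4 * Real.log r + (2 * p11 * r ^ 2 * q ^ 2 + 2 * l11 * r * q + 2 * (h11 / T3) * r)) by ring]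
    generalize 2 * p11 * r ^ 2 * q ^ 2 + 2 * l11 * r * q + 2 * (h11 / T3) * r = W
    rw [Real.exp_add, Real.exp_add (4 * Real.log r), Real.exp_log hL, e3]
    unfold e2
    field_simp
  rw [hlhs]
  have hrhs : 2 + 2 * A11 * ((a + b) / 2 - h11) - 2 * B11 * (2 * v - 2 * Real.pi / 11) =
      2 + 2 * (2 + 2 * p11 * c11 ^ 2 + l11 * c11 + h11 / T3) * (r - 1) -
        4 * B11 * (v - Real.pi / 11) := by
    rw [hr, ← Ah]
    ring
  rw [hrhs]
  apply mul_le_mul_of_nonneg_left _ (by positivity)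
  exact Real.exp_le_exp.2 hmain

end Pool.Agent.H280R2.RP
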