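import Pool.Agent.H280R2.RP.Defs11
import Pool.Agent.H280R2.RP.R7
import Pool.Agent.H280R2.RP.P1
import Pool.Agent.H280R2.RP.M10
import Pool.Agent.H280R2.RP.M12
/-! R8 (helper598): the product of the chords of order 1, 2, 3, 4 of a convex 11-gon of
diameter 2. -/

set_option autoImplicit false

namespace Pool.Agent.H280R2.RP

open Finset

namespace R8x

lemma sum_shift (f : ℕ → ℝ) (hf : f 11 = f 0) :
    ∑ j ∈ range 11, f (j + 1) = ∑ j ∈ range 11, f j := by
  have h1 := Finset.sum_range_succ f 11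
  have h2 := Finset.sum_range_succ' f 11
  rw [h1] at h2
  linarith

lemma prod_shift (f : ℕ → ℝ) (hf : f 11 = f 0) :
    ∏ j ∈ range 11, f (j + 1) = ∏ j ∈ range 11, f j := by
  by_cases h0 : f 0 = 0
  · have h9 : f 11 = 0 := by rw [hf, h0]
    rw [Finset.prod_eq_zero (i := 10) (by simp) h9, Finset.prod_eq_zero (i := 0) (by simp) h0]
  · have h1 := Finset.prod_range_succ f 11
    have h2 := Finset.prod_range_succ' f 11
    rw [h1, hf] at h2
    exact (mul_right_cancel₀ h0 h2).symm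

lemma sum_shiftk (f : ℕ → ℝ) (hf : ∀ j, f (j + 11) = f j) (k : ℕ) :
    ∑ j ∈ range 11, f (j + k) = ∑ j ∈ range 11, f j := by
  induction k with
  | zero => simp
  | succ k ih =>
    rw [← ih]
    have h := sum_shift (fun j => f (j + k)) (by
      show f (11 + k) = f (0 + k)
      rw [show 11 + k = (0 + k) + 11 by ring]
      exact hf _)
    rw [← h]
    apply Finset.sum_congr rfl
    intro j _
    show f (j + (k + 1)) = f (j + 1 + k)
    rw [show j + (k + 1) = j + 1 + k by ring]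

lemma prod_shiftk (f : ℕ → ℝ) (hf : ∀ j, f (j + 11) = f j) (k : ℕ) :
    ∏ j ∈ range 11, f (j + k) = ∏ j ∈ range 11, f j := by
  induction k with
  | zero => simp
  | succ k ih =>
    rw [← ih]
    have h := prod_shift (fun j => f (j + k)) (by
      show f (11 + k) = f (0 + k)
      rw [show 11 + k = (0 + k) + 11 by ring]
      exact hf _)
    rw [← h]
    apply Finset.prod_congr rfl
    intro j _
    show f (j + (k + 1)) = f (j + 1 + k)
    rw [show j + (k + 1) = j + 1 + k by ring]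

lemma h11_pos : 0 < h11 := by
  unfold h11
  have : 0 < Real.sin (Real.pi / 22) :=
    Real.sin_pos_of_pos_of_lt_pi (by positivity) (by linarith [Real.pi_pos])
  positivity

lemma c11_pos : 0 < c11 := by
  unfold c11
  apply Real.cos_pos_of_mem_Ioo
  constructor <;> linarith [Real.pi_pos]

lemma e2_pos : 0 < e2 := by
  unfold e2
  have := h11_pos
  have := c11_pos
  positivity

lemma T3_pos : 0 < T3 := by
  unfold T3
  have := h11_pos
  have := e2_pos
  positivity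

lemma T4_pos : 0 < T4 := by
  unfold T4
  have := e2_pos
  positivity

lemma al_pos : 0 < al11 := by
  unfold al11
  have := T3_pos
  have := T4_pos
  positivity

lemma be_pos : 0 < be11 := by
  unfold be11
  have := T4_pos
  positivity

lemma A11_nonneg : 0 ≤ A11 := by
  unfold A11
  have := h11_pos
  have := c11_pos
  have := al_pos
  have := be_pos
  have := T3_pos
  positivity

lemma B11_nonneg : 0 ≤ B11 := by
  unfold B11 l11 p11
  have := h11_pos
  have := c11_pos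
  have := al_pos
  have := be_pos
  have h1 : 0 ≤ Real.tan (Real.pi / 11) :=
    Real.tan_nonneg_of_nonneg_of_le_pi_div_two (by positivity) (by linarith [Real.pi_pos])
  have h2 : 0 ≤ Real.sin (Real.pi / 11) :=
    Real.sin_nonneg_of_nonneg_of_le_pi (by positivity) (by linarith [Real.pi_pos])
  positivity

lemma cross (x : ℕ → ℝ) (xp : ∀ j, x (j + 11) = x j) (k : ℕ) :
    ∑ j ∈ range 11, x j * x (j + k) ≤ ∑ j ∈ range 11, x j ^ 2 := by
  have h6 : ∑ j ∈ range 11, x (j + k) ^ 2 = ∑ j ∈ range 11, x j ^ 2 :=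
    sum_shiftk (fun j => x j ^ 2) (fun j => by simp only [xp]) k
  have h8 : ∑ j ∈ range 11, x j * x (j + k) ≤
      ∑ j ∈ range 11, (1 / 2 * x j ^ 2 + 1 / 2 * x (j + k) ^ 2) := by
    apply Finset.sum_le_sum
    intro j _
    nlinarith [sq_nonneg (x j - x (j + k))]
  rw [Finset.sum_add_distrib, ← Finset.mul_sum, ← Finset.mul_sum, h6] at h8
  linarith

lemma expo (v P : ℕ → ℝ) (T : ℝ) (hT : 0 < T) (vp : ∀ j, v (j + 11) = v j)
    (v0 : ∀ j, 0 ≤ v j) (hv : ∀ j, v j * v (j + 2) ≤ P j) :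
    (∏ j ∈ range 11, v j) ^ 2 ≤
      T ^ 11 * Real.exp (-11) * Real.exp ((∑ j ∈ range 11, P j) / T) := by
  have e1 : (∏ j ∈ range 11, v j) ^ 2 = ∏ j ∈ range 11, (v j * v (j + 2)) := by
    rw [Finset.prod_mul_distrib, prod_shiftk v vp 2, sq]
  have e2 : ∏ j ∈ range 11, (v j * v (j + 2)) ≤
      ∏ j ∈ range 11, (T * Real.exp (P j / T - 1)) := by
    apply Finset.prod_le_prod (fun j _ => mul_nonneg (v0 _) (v0 _))
    intro j _
    refine (hv j).trans ?_
    have h3 := Real.add_one_le_exp (P j / T - 1)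
    rw [sub_add_cancel, div_le_iff₀ hT] at h3
    linarith
  rw [e1]
  refine e2.trans (le_of_eq ?_)
  rw [Finset.prod_mul_distrib, Finset.prod_const, Finset.card_range, ← Real.exp_sum, mul_assoc,
    ← Real.exp_add, Finset.sum_sub_distrib, ← Finset.sum_div, Finset.sum_const,
    Finset.card_range, nsmul_eq_mul, mul_one]
  congr 2
  push_cast
  ring

/-- abstract form -/
lemma main (h x w u τ : ℕ → ℝ) (hp : ∀ j, h (j + 11) = h j) (xp : ∀ j, x (j + 11) = x j)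
    (wp : ∀ j, w (j + 11) = w j) (up : ∀ j, u (j + 11) = u j)
    (h0 : ∀ j, 0 < h j) (h2 : ∀ j, h j ≤ 2) (x0 : ∀ j, 0 ≤ x j) (x2 : ∀ j, x j ≤ 2)
    (w0 : ∀ j, 0 ≤ w j) (u0 : ∀ j, 0 ≤ u j)
    (hpw : ∀ j, w j * w (j + 2) ≤ x j * x (j + 3) + 2 * h (j + 2))
    (hpu : ∀ j, u j * u (j + 2) ≤ x j * x (j + 4) + 2 * x (j + 2))
    (hτ : ∀ j, 0 < τ j ∧ τ j < Real.pi)
    (hx : ∀ j, x j ^ 2 = h (j + 1) ^ 2 + h j ^ 2 + 2 * h (j + 1) * h j * Real.cos (τ j))
    (hs : 2 * Real.pi ≤ ∑ j ∈ range 11, τ j) (hper : ∑ j ∈ range 11, h j ≤ 11 * h11) :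
    (∏ j ∈ range 11, h j) * (∏ j ∈ range 11, x j) * (∏ j ∈ range 11, w j) *
      (∏ j ∈ range 11, u j) ≤
      h11 ^ 11 * e2 ^ 11 * (Real.sqrt T3) ^ 11 * (Real.sqrt T4) ^ 11 := by
  have hT3 := T3_pos
  have hT4 := T4_pos
  have hh := h11_pos
  have he := e2_pos
  have hA := A11_nonneg
  have hB := B11_nonneg
  have s1 : ∑ j ∈ range 11, h (j + 1) = ∑ j ∈ range 11, h j := sum_shiftk h hp 1
  have s2 : ∑ j ∈ range 11, h (j + 2) = ∑ j ∈ range 11, h j := sum_shiftk h hp 2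
  have s3 : ∑ j ∈ range 11, x (j + 2) = ∑ j ∈ range 11, x j := sum_shiftk x xp 2
  -- third chords
  have hw : (∏ j ∈ range 11, w j) ^ 2 ≤ T3 ^ 11 * Real.exp (-11) *
      Real.exp ((∑ j ∈ range 11, x j ^ 2 + 2 * ∑ j ∈ range 11, h j) / T3) := by
    refine (expo w (fun j => x j * x (j + 3) + 2 * h (j + 2)) T3 hT3 wp w0 hpw).trans ?_
    apply mul_le_mul_of_nonneg_left _ (by positivity)
    rw [Real.exp_le_exp]
    apply div_le_div_of_nonneg_right _ hT3.le
    rw [Finset.sum_add_distrib, ← Finset.mul_sum, s2]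
    have := cross x xp 3
    linarith
  -- fourth chords
  have hu : (∏ j ∈ range 11, u j) ^ 2 ≤ T4 ^ 11 * Real.exp (-11) *
      Real.exp ((∑ j ∈ range 11, x j ^ 2 + 2 * ∑ j ∈ range 11, x j) / T4) := by
    refine (expo u (fun j => x j * x (j + 4) + 2 * x (j + 2)) T4 hT4 up u0 hpu).trans ?_
    apply mul_le_mul_of_nonneg_left _ (by positivity)
    rw [Real.exp_le_exp]
    apply div_le_div_of_nonneg_right _ hT4.le
    rw [Finset.sum_add_distrib, ← Finset.mul_sum, s3]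
    have := cross x xp 4
    linarith
  -- the local inequality
  have hloc : ∏ j ∈ range 11, (h (j + 1) * h j * x j ^ 2 *
      Real.exp (2 * al11 * x j ^ 2 + 2 * be11 * x j + (h (j + 1) + h j) / T3)) ≤
      (h11 ^ 2 * e2 ^ 2) ^ 11 * Real.exp 22 := by
    have e1 : ∏ j ∈ range 11, (h (j + 1) * h j * x j ^ 2 *
        Real.exp (2 * al11 * x j ^ 2 + 2 * be11 * x j + (h (j + 1) + h j) / T3)) ≤
        ∏ j ∈ range 11, (h11 ^ 2 * e2 ^ 2 *
          Real.exp (2 + 2 * A11 * ((h (j + 1) + h j) / 2 - h11) -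
            2 * B11 * (τ j - 2 * Real.pi / 11))) := by
      apply Finset.prod_le_prod
      · intro j _
        have := h0 j
        have := h0 (j + 1)
        positivity
      · intro j _
        exact core11 (h (j + 1)) (h j) (τ j) (h0 _) (h2 _) (h0 _) (h2 _) (hτ j).1
          (hτ j).2 (x j) (x0 j) (x2 j) (hx j)
    refine e1.trans ?_
    rw [Finset.prod_mul_distrib, Finset.prod_const, Finset.card_range, ← Real.exp_sum]
    apply mul_le_mul_of_nonneg_left _ (by positivity)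
    rw [Real.exp_le_exp]
    have e3 : ∑ j ∈ range 11, (2 + 2 * A11 * ((h (j + 1) + h j) / 2 - h11) -
        2 * B11 * (τ j - 2 * Real.pi / 11)) =
        22 + 2 * A11 * (∑ j ∈ range 11, h j - 11 * h11) -
          2 * B11 * (∑ j ∈ range 11, τ j - 2 * Real.pi) := by
      have a2 : ∀ j, (2 + 2 * A11 * ((h (j + 1) + h j) / 2 - h11) -
          2 * B11 * (τ j - 2 * Real.pi / 11)) = A11 * h (j + 1) + A11 * h j - 2 * B11 * τ j +
            (2 - 2 * A11 * h11 + 2 * B11 * (2 * Real.pi / 11)) := by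
        intro j; ring
      simp only [a2]
      rw [Finset.sum_add_distrib, Finset.sum_sub_distrib, Finset.sum_add_distrib, ← Finset.mul_sum,
        ← Finset.mul_sum, ← Finset.mul_sum, s1, Finset.sum_const, Finset.card_range, nsmul_eq_mul]
      push_cast
      ring
    rw [e3]
    have t1 : 2 * A11 * (∑ j ∈ range 11, h j - 11 * h11) ≤ 0 :=
      mul_nonpos_of_nonneg_of_nonpos (by positivity) (by linarith)
    have t2 : 0 ≤ 2 * B11 * (∑ j ∈ range 11, τ j - 2 * Real.pi) :=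
      mul_nonneg (by positivity) (by linarith)
    linarith
  -- assembly
  have hph : (∏ j ∈ range 11, h j) ^ 2 = ∏ j ∈ range 11, (h (j + 1) * h j) := by
    rw [Finset.prod_mul_distrib, prod_shiftk h hp 1, sq]
  have hprod : ∏ j ∈ range 11, (h (j + 1) * h j * x j ^ 2 *
      Real.exp (2 * al11 * x j ^ 2 + 2 * be11 * x j + (h (j + 1) + h j) / T3)) =
      (∏ j ∈ range 11, h j) ^ 2 * (∏ j ∈ range 11, x j) ^ 2 *
        (Real.exp ((∑ j ∈ range 11, x j ^ 2 + 2 * ∑ j ∈ range 11, h j) / T3) *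
         Real.exp ((∑ j ∈ range 11, x j ^ 2 + 2 * ∑ j ∈ range 11, x j) / T4)) := by
    rw [Finset.prod_mul_distrib, Finset.prod_mul_distrib, ← hph, Finset.prod_pow, ← Real.exp_sum,
      ← Real.exp_add]
    congr 2
    have a2 : ∀ j, 2 * al11 * x j ^ 2 + 2 * be11 * x j + (h (j + 1) + h j) / T3 =
        2 * al11 * x j ^ 2 + 2 * be11 * x j + (1 / T3 * h (j + 1) + 1 / T3 * h j) := by
      intro j; ring
    simp only [a2]
    rw [Finset.sum_add_distrib, Finset.sum_add_distrib, Finset.sum_add_distrib,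
      ← Finset.mul_sum, ← Finset.mul_sum, ← Finset.mul_sum, ← Finset.mul_sum, s1]
    unfold al11 be11
    ring
  have hsq : ((∏ j ∈ range 11, h j) * (∏ j ∈ range 11, x j) * (∏ j ∈ range 11, w j) *
      (∏ j ∈ range 11, u j)) ^ 2 ≤
      (h11 ^ 11 * e2 ^ 11 * (Real.sqrt T3) ^ 11 * (Real.sqrt T4) ^ 11) ^ 2 := by
    have hq3 : (Real.sqrt T3) ^ 2 = T3 := Real.sq_sqrt hT3.le
    have hq4 : (Real.sqrt T4) ^ 2 = T4 := Real.sq_sqrt hT4.le
    have hww : 0 ≤ (∏ j ∈ range 11, w j) ^ 2 := by positivity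
    have huu : 0 ≤ (∏ j ∈ range 11, u j) ^ 2 := by positivity
    calc ((∏ j ∈ range 11, h j) * (∏ j ∈ range 11, x j) * (∏ j ∈ range 11, w j) *
          (∏ j ∈ range 11, u j)) ^ 2
        = (∏ j ∈ range 11, h j) ^ 2 * (∏ j ∈ range 11, x j) ^ 2 *
          ((∏ j ∈ range 11, w j) ^ 2 * (∏ j ∈ range 11, u j) ^ 2) := by ring
      _ ≤ (∏ j ∈ range 11, h j) ^ 2 * (∏ j ∈ range 11, x j) ^ 2 *
          ((T3 ^ 11 * Real.exp (-11) *
            Real.exp ((∑ j ∈ range 11, x j ^ 2 + 2 * ∑ j ∈ range 11, h j) / T3)) *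
          (T4 ^ 11 * Real.exp (-11) *
            Real.exp ((∑ j ∈ range 11, x j ^ 2 + 2 * ∑ j ∈ range 11, x j) / T4))) := by
          apply mul_le_mul_of_nonneg_left _ (by positivity)
          exact mul_le_mul hw hu huu (by positivity)
      _ = T3 ^ 11 * T4 ^ 11 * (Real.exp (-11) * Real.exp (-11)) *
          ((∏ j ∈ range 11, h j) ^ 2 * (∏ j ∈ range 11, x j) ^ 2 *
          (Real.exp ((∑ j ∈ range 11, x j ^ 2 + 2 * ∑ j ∈ range 11, h j) / T3) *
         Real.exp ((∑ j ∈ range 11, x j ^ 2 + 2 * ∑ j ∈ range 11, x j) / T4))) := by ring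
      _ ≤ T3 ^ 11 * T4 ^ 11 * (Real.exp (-11) * Real.exp (-11)) *
          ((h11 ^ 2 * e2 ^ 2) ^ 11 * Real.exp 22) := by
          rw [← hprod]
          exact mul_le_mul_of_nonneg_left hloc (by positivity)
      _ = T3 ^ 11 * T4 ^ 11 * (h11 ^ 2 * e2 ^ 2) ^ 11 *
          (Real.exp (-11) * Real.exp (-11) * Real.exp 22) := by ring
      _ = T3 ^ 11 * T4 ^ 11 * (h11 ^ 2 * e2 ^ 2) ^ 11 := by
          rw [← Real.exp_add, ← Real.exp_add]; norm_num
      _ = (h11 ^ 11 * e2 ^ 11 * (Real.sqrt T3) ^ 11 * (Real.sqrt T4) ^ 11) ^ 2 := by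
          have e5 : (h11 ^ 11 * e2 ^ 11 * (Real.sqrt T3) ^ 11 * (Real.sqrt T4) ^ 11) ^ 2 =
              ((Real.sqrt T3) ^ 2) ^ 11 * ((Real.sqrt T4) ^ 2) ^ 11 *
                (h11 ^ 2 * e2 ^ 2) ^ 11 := by ring
          rw [e5, hq3, hq4]
  have hL : 0 ≤ (∏ j ∈ range 11, h j) * (∏ j ∈ range 11, x j) * (∏ j ∈ range 11, w j) *
      (∏ j ∈ range 11, u j) :=
    mul_nonneg (mul_nonneg (mul_nonneg (Finset.prod_nonneg fun j _ => (h0 j).le)
      (Finset.prod_nonneg fun j _ => x0 j)) (Finset.prod_nonneg fun j _ => w0 j))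
      (Finset.prod_nonneg fun j _ => u0 j)
  have hR : 0 ≤ h11 ^ 11 * e2 ^ 11 * (Real.sqrt T3) ^ 11 * (Real.sqrt T4) ^ 11 := by positivity
  exact (pow_le_pow_iff_left₀ hL hR (by norm_num)).1 hsq

end R8x

/-- R8 -/
theorem eleven_prod (Z : ℕ → ℂ) (hC : Conv 11 Z) (hZ : ∀ i j, ‖Z i - Z j‖ ≤ 2) :
    (∏ j ∈ range 11, ‖Z (j + 1) - Z j‖) * (∏ j ∈ range 11, ‖Z (j + 2) - Z j‖) *
      (∏ j ∈ range 11, ‖Z (j + 3) - Z j‖) * (∏ j ∈ range 11, ‖Z (j + 4) - Z j‖) ≤
      h11 ^ 11 * e2 ^ 11 * (Real.sqrt T3) ^ 11 * (Real.sqrt T4) ^ 11 := by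
  obtain ⟨τ, hτ, hx, hs⟩ := turning 11 Z hC
  have hper := perimeter 11 Z hC hZ
  have hp11 := hC.2.1
  refine R8x.main (fun j => ‖Z (j + 1) - Z j‖) (fun j => ‖Z (j + 2) - Z j‖)
    (fun j => ‖Z (j + 3) - Z j‖) (fun j => ‖Z (j + 4) - Z j‖) τ
    ?_ ?_ ?_ ?_ ?_ ?_ ?_ ?_ ?_ ?_ ?_ ?_ hτ ?_ hs ?_
  · intro j
    simp only [show j + 11 + 1 = j + 1 + 11 by ring, hp11]
  · intro j
    simp only [show j + 11 + 2 = j + 2 + 11 by ring, hp11]
  · intro j
    simp only [show j + 11 + 3 = j + 3 + 11 by ring, hp11]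
  · intro j
    simp only [show j + 11 + 4 = j + 4 + 11 by ring, hp11]
  · intro j
    have h1 := hC.2.2 j (j + 1) (j + 2) (by omega) (by omega) (by omega)
    apply norm_pos_iff.2
    intro h2
    rw [sub_eq_zero] at h2
    rw [h2] at h1
    unfold cr at h1
    simp at h1
  · intro j
    exact hZ _ _
  · intro j
    exact norm_nonneg _
  · intro j
    exact hZ _ _
  · intro j
    exact norm_nonneg _
  · intro j
    exact norm_nonneg _
  · intro j
    have h1 := ptolemy (Z j) (Z (j + 2)) (Z (j + 3)) (Z (j + 5))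
    have h2 : ‖Z (j + 3) - Z (j + 2)‖ * ‖Z (j + 5) - Z j‖ ≤ ‖Z (j + 3) - Z (j + 2)‖ * 2 :=
      mul_le_mul_of_nonneg_left (hZ _ _) (norm_nonneg _)
    show ‖Z (j + 3) - Z j‖ * ‖Z (j + 2 + 3) - Z (j + 2)‖ ≤
      ‖Z (j + 2) - Z j‖ * ‖Z (j + 3 + 2) - Z (j + 3)‖ + 2 * ‖Z (j + 2 + 1) - Z (j + 2)‖
    rw [show j + 2 + 3 = j + 5 by ring, show j + 3 + 2 = j + 5 by ring,
      show j + 2 + 1 = j + 3 by ring]
    linarith
  · intro j
    have h1 := ptolemy (Z j) (Z (j + 2)) (Z (j + 4)) (Z (j + 6))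
    have h2 : ‖Z (j + 4) - Z (j + 2)‖ * ‖Z (j + 6) - Z j‖ ≤ ‖Z (j + 4) - Z (j + 2)‖ * 2 :=
      mul_le_mul_of_nonneg_left (hZ _ _) (norm_nonneg _)
    show ‖Z (j + 4) - Z j‖ * ‖Z (j + 2 + 4) - Z (j + 2)‖ ≤
      ‖Z (j + 2) - Z j‖ * ‖Z (j + 4 + 2) - Z (j + 4)‖ + 2 * ‖Z (j + 2 + 2) - Z (j + 2)‖
    rw [show j + 2 + 4 = j + 6 by ring, show j + 4 + 2 = j + 6 by ring,
      show j + 2 + 2 = j + 4 by ring]
    linarith
  · intro j
    have := hx j
    show ‖Z (j + 2) - Z j‖ ^ 2 = ‖Z (j + 1 + 1) - Z (j + 1)‖ ^ 2 + ‖Z (j + 1) - Z j‖ ^ 2 +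
      2 * ‖Z (j + 1 + 1) - Z (j + 1)‖ * ‖Z (j + 1) - Z j‖ * Real.cos (τ j)
    rw [show j + 1 + 1 = j + 2 by ring]
    exact this
  · unfold h11
    have e : (2 * ((11 : ℕ) : ℝ)) = 22 := by norm_num
    rw [e] at hper
    exact_mod_cast hper

end Pool.Agent.H280R2.RP
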