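import Pool.Agent.H280R2.RP.P9
import Pool.Agent.H280R2.RP.R1
import Pool.Agent.H280R2.RP.R2
import Pool.Agent.H280R2.RP.R8

set_option autoImplicit false

namespace Pool.Agent.H280R2.RP

open Finset

theorem final11 (z : Fin 11 → ℂ) (hz : ∀ i j : Fin 11, ‖z i - z j‖ ≤ 2) :
    Vd z ≤ Vd (reg 11) := by
  obtain ⟨y, Z, hy, hC, hZ, hle⟩ := M15x.setup 11 (by norm_num) z hz
  refine hle.trans ?_
  rw [Vd_eleven y Z hy, reg_eleven]
  have h2 := eleven_prod Z hC hZ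
  have h3 : ∏ j ∈ range 11, ‖Z (j + 5) - Z j‖ ≤ 2 ^ 11 := by
    calc ∏ j ∈ range 11, ‖Z (j + 5) - Z j‖ ≤ ∏ j ∈ range 11, (2 : ℝ) :=
          Finset.prod_le_prod (fun _ _ => norm_nonneg _) (fun _ _ => hZ _ _)
      _ = 2 ^ 11 := by simp
  exact mul_le_mul h2 h3 (Finset.prod_nonneg fun _ _ => norm_nonneg _)
    (le_trans (mul_nonneg (mul_nonneg (mul_nonneg (Finset.prod_nonneg fun _ _ => norm_nonneg _)
      (Finset.prod_nonneg fun _ _ => norm_nonneg _))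
      (Finset.prod_nonneg fun _ _ => norm_nonneg _))
      (Finset.prod_nonneg fun _ _ => norm_nonneg _)) h2)

theorem small11 (n : ℕ) (ho : Odd n) (hn : n ≤ 11) (z : Fin n → ℂ)
    (hz : ∀ i j : Fin n, ‖z i - z j‖ ≤ 2) : Vd z ≤ Vd (reg n) := by
  rcases Nat.lt_or_ge 9 n with h | h
  · obtain rfl : n = 11 := by
      obtain ⟨k, rfl⟩ := ho
      omega
    exact final11 z hz
  · exact small9 n ho h z hz

end Pool.Agent.H280R2.RP
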