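import Pool.Agent.H280R2.RP.Defs

set_option autoImplicit false

namespace Pool.Agent.H280R2.RP.Stubs

open Finset Pool.Agent.H280R2.RP

/-- M1 -/
theorem exists_max (n : ℕ) (hn : 2 ≤ n) :
    ∃ z : Fin n → ℂ, (∀ i j, ‖z i - z j‖ ≤ 2) ∧ 0 < Vd z ∧
      ∀ w : Fin n → ℂ, (∀ i j, ‖w i - w j‖ ≤ 2) → Vd w ≤ Vd z := by
  sorry

/-- M2 -/
theorem partner (n : ℕ) (hn : 2 ≤ n) (z : Fin n → ℂ) (hz : ∀ i j, ‖z i - z j‖ ≤ 2)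
    (hpos : 0 < Vd z) (hmax : ∀ w : Fin n → ℂ, (∀ i j, ‖w i - w j‖ ≤ 2) → Vd w ≤ Vd z) :
    ∀ i, ∃ j, ‖z i - z j‖ = 2 := by
  sorry

/-- M3 -/
theorem inj_of_pos (n : ℕ) (z : Fin n → ℂ) (hpos : 0 < Vd z) : Function.Injective z := by
  sorry

/-- M3 -/
theorem not_hull (n : ℕ) (z : Fin n → ℂ) (hz : ∀ i j, ‖z i - z j‖ ≤ 2)
    (hinj : Function.Injective z) (hp : ∀ i, ∃ j, ‖z i - z j‖ = 2)
    (i a b c : Fin n) (ha : a ≠ i) (hb : b ≠ i) (hc : c ≠ i)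
    (s t u : ℝ) (hs : 0 ≤ s) (ht : 0 ≤ t) (hu : 0 ≤ u) (hsum : s + t + u = 1) :
    z i ≠ (s : ℂ) * z a + (t : ℂ) * z b + (u : ℂ) * z c := by
  sorry

/-- M4 -/
theorem order (n : ℕ) (hn : 3 ≤ n) (z : Fin n → ℂ) (hinj : Function.Injective z)
    (hull : ∀ i a b c : Fin n, a ≠ i → b ≠ i → c ≠ i → ∀ s t u : ℝ, 0 ≤ s → 0 ≤ t → 0 ≤ u →
      s + t + u = 1 → z i ≠ (s : ℂ) * z a + (t : ℂ) * z b + (u : ℂ) * z c) :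
    ∃ σ : Equiv.Perm (Fin n), ∀ i j k : Fin n, i < j → j < k →
      0 < cr (z (σ i)) (z (σ j)) (z (σ k)) := by
  sorry

/-- M5 -/
theorem conv_of_order (n : ℕ) (hn : 3 ≤ n) (y : Fin n → ℂ)
    (h : ∀ i j k : Fin n, i < j → j < k → 0 < cr (y i) (y j) (y k)) (Z : ℕ → ℂ)
    (hZ : ∀ j, Z j = y ⟨j % n, Nat.mod_lt _ (by omega)⟩) : Conv n Z := by
  sorry

/-- M6 -/
theorem Vd_perm (n : ℕ) (z : Fin n → ℂ) (σ : Equiv.Perm (Fin n)) :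
    Vd (fun i => z (σ i)) = Vd z := by
  sorry

/-- M6 -/
theorem Vd_five (y : Fin 5 → ℂ) (Z : ℕ → ℂ)
    (hZ : ∀ j, Z j = y ⟨j % 5, Nat.mod_lt _ (by omega)⟩) :
    Vd y = (∏ j ∈ range 5, ‖Z (j + 1) - Z j‖) * ∏ j ∈ range 5, ‖Z (j + 2) - Z j‖ := by
  sorry

/-- M6 -/
theorem Vd_seven (y : Fin 7 → ℂ) (Z : ℕ → ℂ)
    (hZ : ∀ j, Z j = y ⟨j % 7, Nat.mod_lt _ (by omega)⟩) :
    Vd y = (∏ j ∈ range 7, ‖Z (j + 1) - Z j‖) * (∏ j ∈ range 7, ‖Z (j + 2) - Z j‖) *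
      ∏ j ∈ range 7, ‖Z (j + 3) - Z j‖ := by
  sorry

/-- M7 -/
theorem proj_bound (n : ℕ) (Z : ℕ → ℂ) (hC : Conv n Z) (c : ℂ) (D : ℝ)
    (hD : ∀ i j, |(c * (Z i - Z j)).re| ≤ D) :
    ∑ j ∈ range n, |(c * (Z (j + 1) - Z j)).re| ≤ 2 * D := by
  sorry

/-- M8 -/
theorem reinhardt_sorted (n : ℕ) (hn : 1 ≤ n) (α h : ℕ → ℝ)
    (hmono : ∀ i, i < n → α i ≤ α (i + 1)) (hend : α n = α 0 + Real.pi)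
    (hh : ∀ j, 0 ≤ h j) (D : ℝ)
    (hD : ∀ φ : ℝ, ∑ j ∈ range n, h j * |Real.cos (α j - φ)| ≤ D) :
    ∑ j ∈ range n, h j ≤ D * n * Real.sin (Real.pi / (2 * n)) := by
  sorry

/-- M9 -/
theorem reinhardt_lines (n : ℕ) (hn : 1 ≤ n) (e : ℕ → ℂ) (D : ℝ)
    (hD : ∀ c : ℂ, ‖c‖ = 1 → ∑ j ∈ range n, |(c * e j).re| ≤ D) :
    ∑ j ∈ range n, ‖e j‖ ≤ D * n * Real.sin (Real.pi / (2 * n)) := by
  sorry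

/-- M10 -/
theorem perimeter (n : ℕ) (Z : ℕ → ℂ) (hC : Conv n Z) (hZ : ∀ i j, ‖Z i - Z j‖ ≤ 2) :
    ∑ j ∈ range n, ‖Z (j + 1) - Z j‖ ≤ n * (4 * Real.sin (Real.pi / (2 * n))) := by
  sorry

/-- M10 -/
theorem prod_le_pow (n : ℕ) (a : ℕ → ℝ) (M : ℝ) (ha : ∀ j, 0 ≤ a j)
    (hs : ∑ j ∈ range n, a j ≤ n * M) : ∏ j ∈ range n, a j ≤ M ^ n := by
  sorry

/-- M11 -/
theorem reg_five : Vd (reg 5) = (4 * Real.sin (Real.pi / 10)) ^ 5 * 2 ^ 5 := by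
  sorry

/-- M11 -/
theorem reg_seven : Vd (reg 7) = (4 * Real.sin (Real.pi / 14)) ^ 7 *
    (8 * Real.sin (Real.pi / 14) * Real.cos (Real.pi / 7)) ^ 7 * 2 ^ 7 := by
  sorry

/-- M12 -/
theorem turning (n : ℕ) (Z : ℕ → ℂ) (hC : Conv n Z) :
    ∃ τ : ℕ → ℝ, (∀ j, 0 < τ j ∧ τ j < Real.pi) ∧
      (∀ j, ‖Z (j + 2) - Z j‖ ^ 2 = ‖Z (j + 2) - Z (j + 1)‖ ^ 2 + ‖Z (j + 1) - Z j‖ ^ 2 +
        2 * ‖Z (j + 2) - Z (j + 1)‖ * ‖Z (j + 1) - Z j‖ * Real.cos (τ j)) ∧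
      2 * Real.pi ≤ ∑ j ∈ range n, τ j := by
  sorry

/-- M13 -/
theorem tangent7 (a b τ : ℝ) (ha : 0 < a) (hb : 0 < b) (h0 : 0 < τ) (h1 : τ < Real.pi) :
    (a ^ 2 + b ^ 2 + 2 * a * b * Real.cos τ) * (a * b) ≤
      ((a + b) / 2) ^ 4 * (2 * Real.cos (Real.pi / 7)) ^ 2 *
        Real.exp (-Real.tan (Real.pi / 7) * (τ - 2 * Real.pi / 7)) := by
  sorry

/-- M14 -/
theorem seven_prod (Z : ℕ → ℂ) (hC : Conv 7 Z) (hZ : ∀ i j, ‖Z i - Z j‖ ≤ 2) :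
    (∏ j ∈ range 7, ‖Z (j + 1) - Z j‖) * ∏ j ∈ range 7, ‖Z (j + 2) - Z j‖ ≤
      (4 * Real.sin (Real.pi / 14)) ^ 7 *
        (8 * Real.sin (Real.pi / 14) * Real.cos (Real.pi / 7)) ^ 7 := by
  sorry

/-- M15: the final statement -/
theorem final (n : ℕ) (hn : n = 5 ∨ n = 7) (z : Fin n → ℂ)
    (hz : ∀ i j : Fin n, ‖z i - z j‖ ≤ 2) : Vd z ≤ Vd (reg n) := by
  sorry

end Pool.Agent.H280R2.RP.Stubs
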