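import Pool.Agent.H280R2.RP.Defs11

set_option autoImplicit false

namespace Pool.Agent.H280R2.RP.Stubs11

open Finset Pool.Agent.H280R2.RP

/-- R1 -/
theorem Vd_eleven (y : Fin 11 → ℂ) (Z : ℕ → ℂ)
    (hZ : ∀ j, Z j = y ⟨j % 11, Nat.mod_lt _ (by omega)⟩) :
    Vd y = (∏ j ∈ range 11, ‖Z (j + 1) - Z j‖) * (∏ j ∈ range 11, ‖Z (j + 2) - Z j‖) *
      (∏ j ∈ range 11, ‖Z (j + 3) - Z j‖) * (∏ j ∈ range 11, ‖Z (j + 4) - Z j‖) *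
      ∏ j ∈ range 11, ‖Z (j + 5) - Z j‖ := by
  sorry

/-- R2 -/
theorem reg_eleven : Vd (reg 11) =
    h11 ^ 11 * e2 ^ 11 * (Real.sqrt T3) ^ 11 * (Real.sqrt T4) ^ 11 * 2 ^ 11 := by
  sorry

/-- R3 -/
theorem consts11 : (0.5692 < h11 ∧ h11 < 0.5693) ∧ (0.9594 < c11 ∧ c11 < 0.9595) ∧
    (0.2816 < Real.sin (Real.pi / 11) ∧ Real.sin (Real.pi / 11) < 0.2818) ∧
    (0.2935 < Real.tan (Real.pi / 11) ∧ Real.tan (Real.pi / 11) < 0.2937) ∧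
    (0.4696 < p11 ∧ p11 < 0.4700) ∧ (0.3368 < l11 ∧ l11 < 0.3372) ∧
    (0.3211 < B11 ∧ B11 < 0.3215) := by
  sorry

/-- R4 -/
theorem relim11 (r q : ℝ) (hr : 0 < r) (hr2 : r ≤ 3.5137) (hq : 0 < q) (hq1 : q ≤ 1)
    (hrq : r * q ≤ 1.7569) :
    2 * Real.log r - 2 * (r - 1) + p11 * c11 ^ 2 * (r - 1) ^ 2 +
      p11 * r ^ 2 * (q ^ 2 - c11 ^ 2) + l11 * r * (q - c11) ≤
      p11 * (q ^ 2 - c11 ^ 2) + l11 * (q - c11) +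
        (2 * p11 * (q ^ 2 - c11 ^ 2) + l11 * (q - c11)) ^ 2 / DD q := by
  sorry

/-- R5 -/
theorem case1_11 (v y : ℝ) (hv : 0 < v) (hv' : v < Real.pi / 2) (hc : 0.82 ≤ Real.cos v)
    (hy : 0 ≤ y) (hy1 : y < 1) (q : ℝ)
    (hq : q = Real.sqrt (Real.cos v ^ 2 + y * Real.sin v ^ 2)) :
    (1 / 2) * Real.log ((1 - y) * q ^ 2 / c11 ^ 2) + 2 * B11 * (v - Real.pi / 11) +
      p11 * (q ^ 2 - c11 ^ 2) + l11 * (q - c11) +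
        (2 * p11 * (q ^ 2 - c11 ^ 2) + l11 * (q - c11)) ^ 2 / DD q ≤ 0 := by
  sorry

/-- R6 -/
theorem case2_11 (v y : ℝ) (hv : 0 < v) (hv' : v < Real.pi / 2) (hc : Real.cos v ≤ 0.82)
    (hy : 0 ≤ y) (hy1 : y < 1) (q : ℝ)
    (hq : q = Real.sqrt (Real.cos v ^ 2 + y * Real.sin v ^ 2)) :
    (1 / 2) * Real.log ((1 - y) * q ^ 2 / c11 ^ 2) + 2 * B11 * (v - Real.pi / 11) +
      p11 * (q ^ 2 - c11 ^ 2) + l11 * (q - c11) +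
        (2 * p11 * (q ^ 2 - c11 ^ 2) + l11 * (q - c11)) ^ 2 / DD q ≤ 0 := by
  sorry

/-- R7 -/
theorem core11 (a b τ : ℝ) (ha : 0 < a) (ha2 : a ≤ 2) (hb : 0 < b) (hb2 : b ≤ 2)
    (h0 : 0 < τ) (h1 : τ < Real.pi) (x : ℝ) (hx : 0 ≤ x) (hx2 : x ≤ 2)
    (hxx : x ^ 2 = a ^ 2 + b ^ 2 + 2 * a * b * Real.cos τ) :
    a * b * x ^ 2 * Real.exp (2 * al11 * x ^ 2 + 2 * be11 * x + (a + b) / T3) ≤
      h11 ^ 2 * e2 ^ 2 *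
        Real.exp (2 + 2 * A11 * ((a + b) / 2 - h11) - 2 * B11 * (τ - 2 * Real.pi / 11)) := by
  sorry

/-- R8 -/
theorem eleven_prod (Z : ℕ → ℂ) (hC : Conv 11 Z) (hZ : ∀ i j, ‖Z i - Z j‖ ≤ 2) :
    (∏ j ∈ range 11, ‖Z (j + 1) - Z j‖) * (∏ j ∈ range 11, ‖Z (j + 2) - Z j‖) *
      (∏ j ∈ range 11, ‖Z (j + 3) - Z j‖) * (∏ j ∈ range 11, ‖Z (j + 4) - Z j‖) ≤
      h11 ^ 11 * e2 ^ 11 * (Real.sqrt T3) ^ 11 * (Real.sqrt T4) ^ 11 := by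
  sorry

end Pool.Agent.H280R2.RP.Stubs11
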