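import Pool.Agent.H280R2.RP.Defs9

set_option autoImplicit false

namespace Pool.Agent.H280R2.RP

open Finset

namespace Stubs9

/-- P1 -/
theorem ptolemy (a b c d : ℂ) :
    ‖c - a‖ * ‖d - b‖ ≤ ‖b - a‖ * ‖d - c‖ + ‖c - b‖ * ‖d - a‖ := by
  sorry

/-- P1 -/
theorem Vd_nine (y : Fin 9 → ℂ) (Z : ℕ → ℂ)
    (hZ : ∀ j, Z j = y ⟨j % 9, Nat.mod_lt _ (by omega)⟩) :
    Vd y = (∏ j ∈ range 9, ‖Z (j + 1) - Z j‖) * (∏ j ∈ range 9, ‖Z (j + 2) - Z j‖) *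
      (∏ j ∈ range 9, ‖Z (j + 3) - Z j‖) * ∏ j ∈ range 9, ‖Z (j + 4) - Z j‖ := by
  sorry

/-- P2 -/
theorem reg_nine : Vd (reg 9) = h9 ^ 9 * (2 * h9 * c9) ^ 9 * (Real.sqrt S9) ^ 9 * 2 ^ 9 := by
  sorry

/-- P3 -/
theorem log_quad (r : ℝ) (h0 : 0 < r) (h1 : r ≤ 2.88) :
    2 * Real.log r ≤ 2 * (r - 1) - 0.458 * (r - 1) ^ 2 := by
  sorry

/-- P4 -/
theorem consts : (0.6945 < h9 ∧ h9 < 0.6947) ∧ (0.9396 < c9 ∧ c9 < 0.9398) ∧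
    (0.3419 < Real.sin (Real.pi / 9) ∧ Real.sin (Real.pi / 9) < 0.3421) ∧
    (0.3639 < Real.tan (Real.pi / 9) ∧ Real.tan (Real.pi / 9) < 0.3641) ∧
    (0.4490 < l9 ∧ l9 < 0.4492) ∧ (0.0779 < k9 ∧ k9 < 0.0781) ∧ (0.2586 < B9 ∧ B9 < 0.2589) := by
  sorry

/-- P5 -/
theorem case1 (v y : ℝ) (hv : 0 < v) (hv' : v < Real.pi / 2) (hc : 0.787 ≤ Real.cos v)
    (hy : 0 ≤ y) (hy1 : y < 1) (q : ℝ)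
    (hq : q = Real.sqrt (Real.cos v ^ 2 + y * Real.sin v ^ 2)) :
    (1 / 2) * Real.log ((1 - y) * q ^ 2 / c9 ^ 2) + 2 * B9 * (v - Real.pi / 9) +
      l9 * (q - c9) + k9 * y + (l9 * (q - c9) + 2 * k9 * y) ^ 2 / 1.2 ≤ 0 := by
  sorry

/-- P6 -/
theorem case2 (v y : ℝ) (hv : 0 < v) (hv' : v < Real.pi / 2) (hc : Real.cos v ≤ 0.787)
    (hy : 0 ≤ y) (hy1 : y < 1) (q : ℝ)
    (hq : q = Real.sqrt (Real.cos v ^ 2 + y * Real.sin v ^ 2)) :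
    (1 / 2) * Real.log ((1 - y) * q ^ 2 / c9 ^ 2) + 2 * B9 * (v - Real.pi / 9) +
      l9 * (q - c9) + k9 * y + (l9 * (q - c9) + 2 * k9 * y) ^ 2 / 1.2 ≤ 0 := by
  sorry

/-- P7 -/
theorem core9 (a b τ : ℝ) (ha : 0 < a) (ha2 : a ≤ 2) (hb : 0 < b) (hb2 : b ≤ 2)
    (h0 : 0 < τ) (h1 : τ < Real.pi) (x : ℝ) (hx : 0 ≤ x)
    (hxx : x ^ 2 = a ^ 2 + b ^ 2 + 2 * a * b * Real.cos τ) :
    a * b * x ^ 2 * Real.exp (((a ^ 2 + b ^ 2) / 2 + 2 * x) / S9) ≤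
      h9 ^ 2 * (2 * h9 * c9) ^ 2 *
        Real.exp (1 + 2 * A9 * ((a + b) / 2 - h9) - 2 * B9 * (τ - 2 * Real.pi / 9)) := by
  sorry

/-- P8 -/
theorem nine_prod (Z : ℕ → ℂ) (hC : Conv 9 Z) (hZ : ∀ i j, ‖Z i - Z j‖ ≤ 2) :
    (∏ j ∈ range 9, ‖Z (j + 1) - Z j‖) * (∏ j ∈ range 9, ‖Z (j + 2) - Z j‖) *
      ∏ j ∈ range 9, ‖Z (j + 3) - Z j‖ ≤
      h9 ^ 9 * (2 * h9 * c9) ^ 9 * (Real.sqrt S9) ^ 9 := by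
  sorry

end Stubs9

end Pool.Agent.H280R2.RP
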