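import Pool.Agent.H280R2.RP.DefsL

set_option autoImplicit false

namespace Pool.Agent.H280R2.RP.StubsL

open Finset Pool.Agent.H280R2.RP

/-- Q1 -/
theorem near_conv (n : ℕ) (hn : 3 ≤ n) : ∃ ε : ℝ, 0 < ε ∧ ∀ z : Fin n → ℂ,
    (∀ i, ‖z i - reg n i‖ < ε) → ∀ i j k : Fin n, i < j → j < k →
      0 < cr (z i) (z j) (z k) := by
  sorry

/-- Q2 -/
theorem pair_sum (n : ℕ) (hn : 1 ≤ n) (f : ℕ → ℕ → ℝ) (hs : ∀ i j, f i j = f j i)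
    (hp : ∀ i j, f (i + n) j = f i j) :
    ∑ i : Fin n, ∑ j ∈ Finset.Ioi i, f i.val j.val =
      (1 / 2) * ∑ k ∈ Finset.Ico 1 n, ∑ j ∈ range n, f j (j + k) := by
  sorry

/-- Q3 -/
theorem log_norm_le (X : ℂ) (h : ‖X‖ ≤ 1 / 2) :
    Real.log ‖1 + X‖ ≤ X.re - (1 / 2) * (X ^ 2).re + ‖X‖ ^ 3 := by
  sorry

/-- Q3 -/
theorem norm_ge (u : ℂ) (h : ‖u‖ ≤ 1 / 2) :
    1 + u.re + (1 / 2) * u.im ^ 2 - ‖u‖ ^ 3 ≤ ‖1 + u‖ := by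
  sorry

/-- Q4 -/
theorem trig_ineq (n r : ℕ) (h2 : 2 ≤ r) (hr : r + 2 ≤ n) :
    (r : ℝ) * (n - r) * Real.sin (Real.pi / n) ^ 2 <
      (n - 1) * Real.sin (r * Real.pi / n) ^ 2 := by
  sorry

/-- Q5 -/
theorem fourier (n : ℕ) (hn : 3 ≤ n) (η : ℕ → ℂ) (hη : Adm n η) :
    ∃ c : ℕ → ℂ, (∀ j, η j = ∑ m ∈ Finset.Icc 2 (n - 1), c m * om n ^ (m * j)) ∧
      ∑ j ∈ range n, ‖η j‖ ^ 2 = n * ∑ m ∈ Finset.Icc 2 (n - 1), ‖c m‖ ^ 2 := by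
  sorry

/-- Q6 -/
theorem kernel_sum (n : ℕ) (hn : 3 ≤ n) (m : ℕ) (h2 : 2 ≤ m) (hm : m ≤ n) :
    ∑ k ∈ Finset.Ico 1 n, ((1 - om n ^ (m * k)) * (1 - om n ^ ((n + 2 - m) * k))) /
      (1 - om n ^ k) ^ 2 = -(((m : ℂ) - 2) * ((n : ℂ) - m)) := by
  sorry

/-- Q7 -/
theorem quad_sum (n : ℕ) (hn : 3 ≤ n) (c η : ℕ → ℂ)
    (hη : ∀ j, η j = ∑ m ∈ Finset.Icc 2 (n - 1), c m * om n ^ (m * j)) :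
    ∑ k ∈ Finset.Ico 1 n, ∑ j ∈ range n, XX n η j k ^ 2 =
      -(n : ℂ) * ∑ m ∈ Finset.Icc 3 (n - 1),
        (((m : ℂ) - 2) * ((n : ℂ) - m)) * (c m * c (n + 2 - m)) := by
  sorry

/-- Q8 -/
theorem im_sum (n : ℕ) (hn : 3 ≤ n) (c η U : ℕ → ℂ)
    (hη : ∀ j, η j = ∑ m ∈ Finset.Icc 2 (n - 1), c m * om n ^ (m * j))
    (hU : ∀ r, U r = c (r + 1) * (om n ^ (r + 1) - 1) / (om n - 1)) :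
    ∑ j ∈ range n, (XX n η j 1).im ^ 2 =
      (n / 4 : ℝ) * ∑ r ∈ Finset.Ico 1 n, ‖U r - (starRingEnd ℂ) (U (n - r))‖ ^ 2 := by
  sorry

/-- Q9 -/
theorem quad_pos (n : ℕ) (hn : 3 ≤ n) : ∃ c0 : ℝ, 0 < c0 ∧ ∀ η : ℕ → ℂ, Adm n η →
    c0 * ∑ j ∈ range n, ‖η j‖ ^ 2 ≤
      (1 / 2) * (∑ k ∈ Finset.Ico 1 n, ∑ j ∈ range n, XX n η j k ^ 2).re +
        ((n : ℝ) - 1) / 2 * ∑ j ∈ range n, (XX n η j 1).im ^ 2 := by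
  sorry

/-- Q10 -/
theorem local_norm (n : ℕ) (hn : 3 ≤ n) : ∃ δ c1 : ℝ, 0 < δ ∧ 0 < c1 ∧ ∀ η : ℕ → ℂ,
    Adm n η → (∀ j, ‖η j‖ ≤ δ) → (∀ j k, ‖XX n η j k‖ ≤ 1 / 2) ∧
    (1 / 2) * ∑ k ∈ Finset.Ico 1 n, ∑ j ∈ range n, Real.log ‖1 + XX n η j k‖ +
      c1 * ∑ j ∈ range n, ‖η j‖ ^ 2 ≤
      (n : ℝ) * (n - 1) / 2 * Real.log ((1 / n) * ∑ j ∈ range n, ‖1 + XX n η j 1‖) := by
  sorry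

/-- Q11 -/
theorem normal_form (n : ℕ) (hn : 3 ≤ n) (δ : ℝ) (hδ : 0 < δ) : ∃ ε : ℝ, 0 < ε ∧
    ∀ z : Fin n → ℂ, (∀ i, ‖z i - reg n i‖ < ε) → ∃ (a b : ℂ) (η : ℕ → ℂ), a ≠ 0 ∧ Adm n η ∧
      (∀ j, ‖η j‖ ≤ δ) ∧ ∀ i : Fin n, z i = a * (om n ^ i.val + η i.val) + b := by
  sorry

/-- Q12 -/
theorem local_max (n : ℕ) (hn : 3 ≤ n) : ∃ ε : ℝ, 0 < ε ∧ ∀ z : Fin n → ℂ,
    (∀ i, ‖z i - reg n i‖ < ε) → (∀ i j, ‖z i - z j‖ ≤ 2) →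
      Vd z ≤ Vd (reg n) ∧
        (Vd z = Vd (reg n) → ∃ a b : ℂ, ‖a‖ = 1 ∧ ∀ i, z i = a * reg n i + b) := by
  sorry

end Pool.Agent.H280R2.RP.StubsL
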